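import Mathlib

/-! Definitions and basic facts for the study of tight maps of lens spaces. -/

set_option autoImplicit false
set_option linter.unusedSectionVars false

namespace Pool.Agent.P.MP_c88051_gt.Q1

open Set Filter Topology Metric
open scoped RealInnerProductSpace

section gen
variable {Y Z : Type} [TopologicalSpace Y] [TopologicalSpace Z] {T T' : Type}
  {G G' : Type} [AddCommGroup G] [AddCommGroup G']

/-- `h` is locally constant on `O`, in the topology of `O`. -/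
def LC (O : Set Y) (h : Y → T) : Prop := ∀ x ∈ O, ∀ᶠ y in 𝓝[O] x, h y = h x

/-- `c` satisfies the cocycle identity on all triples of points of `n`. -/
def CocOn (n : Set Y) (c : Y → Y → G) : Prop := ∀ a ∈ n, ∀ b ∈ n, ∀ d ∈ n, c a b + c b d = c a d

/-- `c` is a cocycle near every point of `O`. -/
def IsC (O : Set Y) (c : Y → Y → G) : Prop := ∀ x ∈ O, ∃ n ∈ 𝓝[O] x, CocOn n c

/-- `h` is a potential of `c` near every point of `O`. -/
def IsP (O : Set Y) (c : Y → Y → G) (h : Y → G) : Prop :=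
  ∀ x ∈ O, ∃ n ∈ 𝓝[O] x, ∀ a ∈ n, ∀ b ∈ n, c a b = h b - h a

/-- `h` is shifted by `l` under `g`. -/
def Sft (g : Y → Y) (O : Set Y) (h : Y → G) (l : G) : Prop := ∀ x ∈ O, h (g x) = h x + l

/-- `c` is invariant under `g`. -/
def Inv2 (g : Y → Y) (O : Set Y) (c : Y → Y → T) : Prop := ∀ x ∈ O, ∀ y ∈ O, c (g x) (g y) = c x y

/-- A locally constant function with values in `A` which is shifted by one. -/
def LiftTo (A : Type) [CommRing A] (g : Y → Y) (O : Set Y) : Prop :=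
  ∃ h : Y → A, LC O h ∧ Sft g O h 1

/-- Reduction of an integral cochain. -/
def cz (n : ℕ) (c : Y → Y → ℤ) : Y → Y → ZMod n := fun a b => (c a b : ZMod n)

/-- The reduction mod `n` has a potential. -/
def Pot (O : Set Y) (n : ℕ) (c : Y → Y → ℤ) : Prop := ∃ h : Y → ZMod n, IsP O (cz n c) h

/-- The reduction mod `n` has an invariant potential. -/
def IPot (g : Y → Y) (O : Set Y) (n : ℕ) (c : Y → Y → ℤ) : Prop :=
  ∃ h : Y → ZMod n, IsP O (cz n c) h ∧ Sft g O h 0

/-- An invariant integral potential. -/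
def IPotZ (g : Y → Y) (O : Set Y) (c : Y → Y → ℤ) : Prop :=
  ∃ k : Y → ℤ, IsP O c k ∧ Sft g O k 0

/-- The invariant class of `c` is `m` times a primitive class. -/
def Ord (g : Y → Y) (O : Set Y) (c : Y → Y → ℤ) (m : ℕ) : Prop := ∀ n : ℕ, IPot g O n c ↔ n ∣ m

/-- An integral lift of `r` times the class of the covering. -/
def ZL (p : ℕ) (g : Y → Y) (O : Set Y) (r : ZMod p) (c : Y → Y → ℤ) (s : Y → ZMod p) : Prop :=
  IsC O c ∧ Inv2 g O c ∧ IsP O (cz p c) s ∧ Sft g O s r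

open Classical in
/-- The cocycle which jumps by `e` across the frontier of `D`. -/
noncomputable def cech (D : Set Y) (e : Y → G) : Y → Y → G := fun a b =>
  if a ∈ D then (if b ∈ D then 0 else e a) else (if b ∈ D then -e b else 0)

variable {O O' : Set Y} {g : Y → Y} {c c' : Y → Y → G} {h h' : Y → G}

lemma LC.mono {h : Y → T} (H : LC O h) (hs : O' ⊆ O) : LC O' h := fun x hx =>
  (H x (hs hx)).filter_mono (nhdsWithin_mono _ hs)

lemma LC.const (O : Set Y) (t : T) : LC O (fun _ => t) := fun _ _ => Eventually.of_forall fun _ => rfl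

lemma LC.map {h : Y → T} (H : LC O h) (φ : T → T') : LC O (fun y => φ (h y)) := fun x hx =>
  (H x hx).mono fun _ hy => congrArg φ hy

lemma LC.map₂ {T'' : Type} {h : Y → T} {k : Y → T'} (H : LC O h) (K : LC O k) (φ : T → T' → T'') :
    LC O (fun y => φ (h y) (k y)) := fun x hx =>
  ((H x hx).and (K x hx)).mono fun _ hy => congrArg₂ φ hy.1 hy.2

lemma LC.pi {ι : Type} [Finite ι] {h : ι → Y → T} (H : ∀ i, LC O (h i)) :
    LC O (fun y i => h i y) := fun x hx =>
  (eventually_all.2 fun i => H i x hx).mono fun _ hy => funext hy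

lemma LC.congr {h k : Y → T} (H : LC O h) (e : ∀ x ∈ O, k x = h x) : LC O k := fun x hx =>
  ((H x hx).and self_mem_nhdsWithin).mono fun y hy => by rw [e y hy.2, e x hx, hy.1]

lemma LC.comp {h : Y → T} (H : LC O h) {φ : Z → Y} {S : Set Z} (hφ : ContinuousOn φ S)
    (m : MapsTo φ S O) : LC S (fun z => h (φ z)) := fun x hx =>
  ((hφ x hx).tendsto_nhdsWithin m).eventually (H _ (m hx))

lemma LC.eq_of_preconn {h : Y → T} (H : LC O h) (hc : IsPreconnected O) {x y : Y} (hx : x ∈ O)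
    (hy : y ∈ O) : h x = h y := by
  have : IsLocallyConstant (fun z : O => h z) := by
    rw [IsLocallyConstant.iff_eventually_eq]
    intro z
    have := H z z.2
    rw [← map_nhds_subtype_val] at this
    exact this
  have hp : PreconnectedSpace O := isPreconnected_iff_preconnectedSpace.1 hc
  exact this.apply_eq_of_preconnectedSpace ⟨x, hx⟩ ⟨y, hy⟩

/-- A function which is locally constant on open pieces is locally constant on the union. -/
lemma LC.of_local {h : Y → T} (H : ∀ x ∈ O, ∃ n ∈ 𝓝[O] x, LC n h) : LC O h := fun x hx => by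
  obtain ⟨n, hn, hl⟩ := H x hx
  exact (hl x (mem_of_mem_nhdsWithin hx hn)).filter_mono (nhdsWithin_le_of_mem hn)

lemma CocOn.mono {n n' : Set Y} (H : CocOn n c) (hs : n' ⊆ n) : CocOn n' c :=
  fun a ha b hb d hd => H a (hs ha) b (hs hb) d (hs hd)

lemma CocOn.self {n : Set Y} (H : CocOn n c) {a : Y} (ha : a ∈ n) : c a a = 0 := by
  simpa using H a ha a ha a ha

lemma CocOn.sub {n : Set Y} (H : CocOn n c) {x a b : Y} (hx : x ∈ n) (ha : a ∈ n) (hb : b ∈ n) :
    c a b = c x b - c x a := by rw [← H x hx a ha b hb]; abel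

lemma IsC.mono (H : IsC O c) (hs : O' ⊆ O) : IsC O' c := fun x hx =>
  let ⟨n, hn, hc⟩ := H x (hs hx); ⟨n, nhdsWithin_mono _ hs hn, hc⟩

lemma IsP.mono (H : IsP O c h) (hs : O' ⊆ O) : IsP O' c h := fun x hx =>
  let ⟨n, hn, hc⟩ := H x (hs hx); ⟨n, nhdsWithin_mono _ hs hn, hc⟩

lemma IsP.isC (H : IsP O c h) : IsC O c := fun x hx =>
  let ⟨n, hn, hc⟩ := H x hx
  ⟨n, hn, fun a ha b hb d hd => by rw [hc a ha b hb, hc b hb d hd, hc a ha d hd]; abel⟩

lemma IsC.of_local (H : ∀ x ∈ O, ∃ n ∈ 𝓝[O] x, IsC n c) : IsC O c := fun x hx => by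
  obtain ⟨n, hn, hl⟩ := H x hx
  obtain ⟨m, hm, hc⟩ := hl x (mem_of_mem_nhdsWithin hx hn)
  exact ⟨m, nhdsWithin_le_of_mem hn hm, hc⟩

lemma IsP.of_local (H : ∀ x ∈ O, ∃ n ∈ 𝓝[O] x, IsP n c h) : IsP O c h := fun x hx => by
  obtain ⟨n, hn, hl⟩ := H x hx
  obtain ⟨m, hm, hc⟩ := hl x (mem_of_mem_nhdsWithin hx hn)
  exact ⟨m, nhdsWithin_le_of_mem hn hm, hc⟩

lemma CocOn.isP {n : Set Y} (H : CocOn n c) {x : Y} (hx : x ∈ n) : IsP n c (c x) :=
  fun _ _ => ⟨n, self_mem_nhdsWithin, fun _ ha _ hb => H.sub hx ha hb⟩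

lemma IsC.add (H : IsC O c) (H' : IsC O c') : IsC O (c + c') := fun x hx => by
  obtain ⟨n, hn, hc⟩ := H x hx
  obtain ⟨m, hm, hd⟩ := H' x hx
  refine ⟨n ∩ m, inter_mem hn hm, fun a ha b hb d hd' => ?_⟩
  simp only [Pi.add_apply]
  rw [← hc a ha.1 b hb.1 d hd'.1, ← hd a ha.2 b hb.2 d hd'.2]; abel

lemma IsC.map (H : IsC O c) (φ : G →+ G') : IsC O (fun a b => φ (c a b)) := fun x hx =>
  let ⟨n, hn, hc⟩ := H x hx
  ⟨n, hn, fun a ha b hb d hd => by simp only [← map_add, hc a ha b hb d hd]⟩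

lemma IsC.neg (H : IsC O c) : IsC O (-c) := H.map (-AddMonoidHom.id G)

lemma IsC.sub (H : IsC O c) (H' : IsC O c') : IsC O (c - c') := by
  rw [sub_eq_add_neg]; exact H.add H'.neg

lemma IsC.zsmul (H : IsC O c) (k : ℤ) : IsC O (k • c) := H.map (zsmulAddGroupHom k)

lemma isP_zero (O : Set Y) (t : G) : IsP O (0 : Y → Y → G) (fun _ => t) :=
  fun _ _ => ⟨univ, univ_mem, fun _ _ _ _ => by simp⟩

lemma isC_zero (O : Set Y) : IsC O (0 : Y → Y → G) := (isP_zero O 0).isC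

lemma isP_cob (O : Set Y) (h : Y → G) : IsP O (fun a b => h b - h a) h :=
  fun _ _ => ⟨univ, univ_mem, fun _ _ _ _ => rfl⟩

lemma IsP.add (H : IsP O c h) (H' : IsP O c' h') : IsP O (c + c') (h + h') := fun x hx => by
  obtain ⟨n, hn, hc⟩ := H x hx
  obtain ⟨m, hm, hd⟩ := H' x hx
  refine ⟨n ∩ m, inter_mem hn hm, fun a ha b hb => ?_⟩
  simp only [Pi.add_apply]
  rw [hc a ha.1 b hb.1, hd a ha.2 b hb.2]; abel

lemma IsP.map (H : IsP O c h) (φ : G →+ G') : IsP O (fun a b => φ (c a b)) (fun a => φ (h a)) :=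
  fun x hx => let ⟨n, hn, hc⟩ := H x hx
  ⟨n, hn, fun a ha b hb => by simp only [hc a ha b hb, map_sub]⟩

lemma IsP.neg (H : IsP O c h) : IsP O (-c) (-h) := H.map (-AddMonoidHom.id G)

lemma IsP.sub (H : IsP O c h) (H' : IsP O c' h') : IsP O (c - c') (h - h') := by
  rw [sub_eq_add_neg, sub_eq_add_neg]; exact H.add H'.neg

lemma isP_zero_iff : IsP O (0 : Y → Y → G) h ↔ LC O h := by
  refine ⟨fun H x hx => ?_, fun H x hx => ⟨_, H x hx, fun a ha b hb => ?_⟩⟩
  · obtain ⟨n, hn, hc⟩ := H x hx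
    filter_upwards [hn] with y hy
    exact sub_eq_zero.1 (hc x (mem_of_mem_nhdsWithin hx hn) y hy).symm
  · have ha' : h a = h x := ha
    have hb' : h b = h x := hb
    simp [ha', hb']

/-- Two potentials differ by a locally constant function. -/
lemma IsP.lc_sub (H : IsP O c h) (H' : IsP O c h') : LC O (fun x => h x - h' x) := by
  have := H.sub H'
  rw [sub_self] at this
  exact isP_zero_iff.1 this

lemma IsP.add_lc (H : IsP O c h) (H' : LC O h') : IsP O c (fun x => h x + h' x) := by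
  have := H.add (isP_zero_iff.2 H')
  rwa [add_zero] at this

lemma IsP.congr (H : IsP O c h) (e : ∀ x ∈ O, h' x = h x) : IsP O c h' := fun x hx => by
  obtain ⟨n, hn, hc⟩ := H x hx
  exact ⟨n ∩ O, inter_mem hn self_mem_nhdsWithin, fun a ha b hb => by
    rw [e a ha.2, e b hb.2, hc a ha.1 b hb.1]⟩

lemma IsP.congr_c (H : IsP O c h) (e : ∀ x ∈ O, ∀ y ∈ O, c' x y = c x y) : IsP O c' h :=
  fun x hx => by
  obtain ⟨n, hn, hc⟩ := H x hx
  exact ⟨n ∩ O, inter_mem hn self_mem_nhdsWithin, fun a ha b hb => by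
    rw [e a ha.2 b hb.2, hc a ha.1 b hb.1]⟩

lemma IsC.congr (H : IsC O c) (e : ∀ x ∈ O, ∀ y ∈ O, c' x y = c x y) : IsC O c' := fun x hx => by
  obtain ⟨n, hn, hc⟩ := H x hx
  exact ⟨n ∩ O, inter_mem hn self_mem_nhdsWithin, fun a ha b hb d hd => by
    rw [e a ha.2 b hb.2, e b hb.2 d hd.2, e a ha.2 d hd.2, hc a ha.1 b hb.1 d hd.1]⟩

lemma IsC.comp (H : IsC O c) {φ : Z → Y} {S : Set Z} (hφ : ContinuousOn φ S) (m : MapsTo φ S O) :
    IsC S (fun a b => c (φ a) (φ b)) := fun x hx =>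
  let ⟨n, hn, hc⟩ := H _ (m hx)
  ⟨φ ⁻¹' n, (hφ x hx).tendsto_nhdsWithin m hn, fun _ ha _ hb _ hd => hc _ ha _ hb _ hd⟩

lemma IsP.comp (H : IsP O c h) {φ : Z → Y} {S : Set Z} (hφ : ContinuousOn φ S) (m : MapsTo φ S O) :
    IsP S (fun a b => c (φ a) (φ b)) (fun a => h (φ a)) := fun x hx =>
  let ⟨n, hn, hc⟩ := H _ (m hx)
  ⟨φ ⁻¹' n, (hφ x hx).tendsto_nhdsWithin m hn, fun _ ha _ hb => hc _ ha _ hb⟩

lemma Sft.mono {l : G} (H : Sft g O h l) (hs : O' ⊆ O) : Sft g O' h l := fun x hx => H x (hs hx)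

lemma Inv2.mono {c : Y → Y → T} (H : Inv2 g O c) (hs : O' ⊆ O) : Inv2 g O' c :=
  fun x hx y hy => H x (hs hx) y (hs hy)

lemma LiftTo.mono {A : Type} [CommRing A] (H : LiftTo A g O) (hs : O' ⊆ O) : LiftTo A g O' :=
  let ⟨h, h1, h2⟩ := H; ⟨h, h1.mono hs, h2.mono hs⟩

lemma liftTo_empty (A : Type) [CommRing A] (g : Y → Y) : LiftTo A g (∅ : Set Y) :=
  ⟨0, fun _ h => h.elim, fun _ h => h.elim⟩

lemma LiftTo.map {A B : Type} [CommRing A] [CommRing B] (H : LiftTo A g O) (φ : A →+* B) :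
    LiftTo B g O :=
  let ⟨h, h1, h2⟩ := H
  ⟨fun x => φ (h x), h1.map φ, fun x hx => by simp only [h2 x hx, map_add, map_one]⟩

variable {e e' : Y → Y → ℤ} {n : ℕ}

lemma IsC.cz (H : IsC O e) (n : ℕ) : IsC O (cz n e) := H.map (Int.castAddHom (ZMod n))

lemma IsP.cz {k : Y → ℤ} (H : IsP O e k) (n : ℕ) : IsP O (cz n e) (fun x => (k x : ZMod n)) :=
  H.map (Int.castAddHom (ZMod n))

lemma cz_add (n : ℕ) (e e' : Y → Y → ℤ) : cz n (e + e') = cz n e + cz n e' := by
  funext a b; simp [cz]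

lemma cz_sub (n : ℕ) (e e' : Y → Y → ℤ) : cz n (e - e') = cz n e - cz n e' := by
  funext a b; simp [cz]

lemma Inv2.cz (H : Inv2 g O e) (n : ℕ) : Inv2 g O (cz n e) := fun x hx y hy => by
  simp only [Q1.cz, H x hx y hy]

lemma Inv2.sub (H : Inv2 g O c) (H' : Inv2 g O c') : Inv2 g O (c - c') := fun x hx y hy => by
  simp only [Pi.sub_apply, H x hx y hy, H' x hx y hy]

lemma Pot.mono (H : Pot O n e) (hs : O' ⊆ O) : Pot O' n e := let ⟨h, h1⟩ := H; ⟨h, h1.mono hs⟩

lemma IPot.mono (H : IPot g O n e) (hs : O' ⊆ O) : IPot g O' n e :=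
  let ⟨h, h1, h2⟩ := H; ⟨h, h1.mono hs, h2.mono hs⟩

lemma IPotZ.mono (H : IPotZ g O e) (hs : O' ⊆ O) : IPotZ g O' e :=
  let ⟨h, h1, h2⟩ := H; ⟨h, h1.mono hs, h2.mono hs⟩

lemma iPot_zero : IPot g O 0 e ↔ IPotZ g O e := Iff.rfl

lemma IPotZ.iPot (H : IPotZ g O e) (n : ℕ) : IPot g O n e :=
  let ⟨k, h1, h2⟩ := H
  ⟨fun x => (k x : ZMod n), h1.cz n, fun x hx => by simp only [h2 x hx, add_zero]⟩

lemma IPot.add (H : IPot g O n e) (H' : IPot g O n e') : IPot g O n (e + e') := by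
  obtain ⟨h, h1, h2⟩ := H
  obtain ⟨k, k1, k2⟩ := H'
  refine ⟨h + k, by rw [cz_add]; exact h1.add k1, fun x hx => ?_⟩
  simp only [Pi.add_apply, h2 x hx, k2 x hx, add_zero]

lemma IPot.sub (H : IPot g O n e) (H' : IPot g O n e') : IPot g O n (e - e') := by
  obtain ⟨h, h1, h2⟩ := H
  obtain ⟨k, k1, k2⟩ := H'
  refine ⟨h - k, by rw [cz_sub]; exact h1.sub k1, fun x hx => ?_⟩
  simp only [Pi.sub_apply, h2 x hx, k2 x hx, add_zero]

/-- The order only depends on the invariant class. -/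
lemma Ord.congr {m : ℕ} (H : Ord g O e m) (h : IPotZ g O (e - e')) : Ord g O e' m := fun n => by
  rw [← H n]
  constructor
  · intro h'; simpa using (h.iPot n).add h'
  · intro h'; simpa using h'.sub (h.iPot n)

lemma Ord.unique {m m' : ℕ} (H : Ord g O e m) (H' : Ord g O e m') : m = m' :=
  Nat.dvd_antisymm ((H' m).1 ((H m).2 dvd_rfl)) ((H m').1 ((H' m').2 dvd_rfl))

lemma ZL.mono {p : ℕ} {r : ZMod p} {s : Y → ZMod p} (H : ZL p g O r e s) (hs : O' ⊆ O) :
    ZL p g O' r e s := ⟨H.1.mono hs, H.2.1.mono hs, H.2.2.1.mono hs, H.2.2.2.mono hs⟩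

end gen

/-- The complex plane of dimension two. -/
abbrev E2 := EuclideanSpace ℂ (Fin 2)

/-- The three-sphere. -/
abbrev S3 := Metric.sphere (0 : E2) 1

/-- Euclidean space. -/
abbrev EV (N : ℕ) := EuclideanSpace ℝ (Fin N)

instance : Nonempty S3 := ⟨⟨EuclideanSpace.single 0 1, by simp⟩⟩

lemma preconn_S3 : IsPreconnected (univ : Set S3) := by
  have h : IsPreconnected (Metric.sphere (0 : E2) 1) := isPreconnected_sphere (by
    rw [← Module.finrank_eq_rank, finrank_real_of_complex]; simp) _ _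
  have := isPreconnected_iff_preconnectedSpace.1 h
  exact isPreconnected_univ

section act
variable {p : ℕ} [NeZero p]

/-- Multiplication by a root of unity. -/
noncomputable def sh (k : ZMod p) (x : S3) : S3 :=
  ⟨((ZMod.toCircle k : Circle) : ℂ) • x.1, by
    have := x.2
    simp only [mem_sphere_zero_iff_norm] at this ⊢
    rw [norm_smul, this, Circle.norm_coe, one_mul]⟩

/-- The generator of the deck group. -/
noncomputable def gn (p : ℕ) [NeZero p] : S3 → S3 := sh (1 : ZMod p)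

lemma sh_val (k : ZMod p) (x : S3) : (sh k x).1 = ((ZMod.toCircle k : Circle) : ℂ) • x.1 := rfl

@[simp] lemma sh_zero (x : S3) : sh (0 : ZMod p) x = x := Subtype.ext (by simp [sh_val])

lemma sh_sh (k l : ZMod p) (x : S3) : sh k (sh l x) = sh (k + l) x :=
  Subtype.ext (by simp [sh_val, smul_smul, AddChar.map_add_eq_mul])

lemma gn_sh (k : ZMod p) (x : S3) : gn p (sh k x) = sh (k + 1) x := by
  rw [gn, sh_sh, add_comm]

lemma sh_gn (k : ZMod p) (x : S3) : sh k (gn p x) = sh (k + 1) x := by rw [gn, sh_sh]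

@[simp] lemma sh_neg_sh (k : ZMod p) (x : S3) : sh (-k) (sh k x) = x := by simp [sh_sh]

@[simp] lemma sh_sh_neg (k : ZMod p) (x : S3) : sh k (sh (-k) x) = x := by simp [sh_sh]

@[simp] lemma dist_sh (k : ZMod p) (x y : S3) : dist (sh k x) (sh k y) = dist x y := by
  simp only [Subtype.dist_eq, sh_val, dist_eq_norm, ← smul_sub, norm_smul, Circle.norm_coe, one_mul]

lemma isometry_sh (k : ZMod p) : Isometry (sh k) := Isometry.of_dist_eq (dist_sh k)

@[fun_prop] lemma continuous_sh (k : ZMod p) : Continuous (sh k) := (isometry_sh k).continuous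

@[fun_prop] lemma continuous_gn : Continuous (gn p) := continuous_sh _

@[simp] lemma dist_gn (x y : S3) : dist (gn p x) (gn p y) = dist x y := dist_sh _ _ _

lemma dist_sh_self (k : ZMod p) (x : S3) :
    dist (sh k x) x = ‖((ZMod.toCircle k : Circle) : ℂ) - 1‖ := by
  have := x.2
  simp only [mem_sphere_zero_iff_norm] at this
  rw [Subtype.dist_eq, sh_val, dist_eq_norm]
  conv_lhs => rw [← one_smul ℂ x.1, smul_smul, mul_one, ← sub_smul, norm_smul, this, mul_one]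

lemma sh_inj {k l : ZMod p} {x : S3} (h : sh k x = sh l x) : k = l := by
  have h1 : sh (k - l) x = x := by
    have := congrArg (sh (-l)) h
    rwa [sh_neg_sh, sh_sh, neg_add_eq_sub] at this
  have h2 := dist_sh_self (k - l) x
  rw [h1, dist_self, eq_comm, norm_eq_zero, sub_eq_zero] at h2
  have : ZMod.toCircle (k - l) = ZMod.toCircle (0 : ZMod p) := Circle.ext (by simpa using h2)
  exact sub_eq_zero.1 (ZMod.injective_toCircle this)

/-- The action moves points by a definite amount. -/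
lemma exists_gap (p : ℕ) [NeZero p] :
    ∃ d > (0 : ℝ), ∀ k : ZMod p, k ≠ 0 → ∀ x : S3, d ≤ dist (sh k x) x := by
  obtain ⟨x₀⟩ : Nonempty S3 := inferInstance
  have h : ∀ k : ZMod p, ∀ᶠ d in 𝓝[>] (0 : ℝ), k ≠ 0 → d ≤ dist (sh k x₀) x₀ := by
    intro k
    by_cases hk : k = 0
    · simp [hk]
    · have : 0 < dist (sh k x₀) x₀ := dist_pos.2 fun e => hk (sh_inj (by simpa using e))
      exact (nhdsWithin_le_nhds (Iic_mem_nhds this) : Iic _ ∈ _) |> mem_of_superset <|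
        fun d hd _ => hd
  obtain ⟨d, h1, h2⟩ := ((eventually_all.2 h).and self_mem_nhdsWithin).exists
  exact ⟨d, h2, fun k hk x => by rw [dist_sh_self, ← dist_sh_self k x₀]; exact h1 k hk⟩

lemma zmod_ind {P : ZMod p → Prop} (h0 : P 0) (h1 : ∀ k, P k → P (k + 1)) (k : ZMod p) : P k := by
  rw [← ZMod.natCast_zmod_val k]
  induction k.val with
  | zero => simpa using h0
  | succ n ih => simpa using h1 _ ih

lemma mapsTo_sh {O : Set S3} (h : MapsTo (gn p) O O) (k : ZMod p) : MapsTo (sh k) O O :=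
  zmod_ind (P := fun k => MapsTo (sh k) O O) (fun x hx => by simpa using hx)
    (fun k ih x hx => by rw [← gn_sh]; exact h (ih hx)) k

lemma sh_mem_iff {O : Set S3} (h : MapsTo (gn p) O O) (k : ZMod p) {x : S3} : sh k x ∈ O ↔ x ∈ O :=
  ⟨fun hx => by simpa using mapsTo_sh h (-k) hx, fun hx => mapsTo_sh h k hx⟩

lemma gn_mem_iff {O : Set S3} (h : MapsTo (gn p) O O) {x : S3} : gn p x ∈ O ↔ x ∈ O :=
  sh_mem_iff h 1

lemma inv_sh {T : Type} {O : Set S3} (hO : MapsTo (gn p) O O) {h : S3 → T}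
    (H : ∀ x ∈ O, h (gn p x) = h x) (k : ZMod p) {x : S3} (hx : x ∈ O) : h (sh k x) = h x :=
  zmod_ind (P := fun k => h (sh k x) = h x) (by simp)
    (fun k ih => by rw [← gn_sh, H _ (mapsTo_sh hO k hx), ih]) k

lemma Sft.nat {G : Type} [AddCommGroup G] {O : Set S3} (hO : MapsTo (gn p) O O) {h : S3 → G}
    {l : G} (H : Sft (gn p) O h l) (n : ℕ) {x : S3} (hx : x ∈ O) :
    h (sh (n : ZMod p) x) = h x + n • l := by
  induction n with
  | zero => simp
  | succ n ih => rw [Nat.cast_succ, ← gn_sh, H _ (mapsTo_sh hO _ hx), ih, succ_nsmul, add_assoc]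

lemma Sft.sh {G : Type} [AddCommGroup G] {O : Set S3} (hO : MapsTo (gn p) O O) {h : S3 → G}
    {l : G} (H : Sft (gn p) O h l) (k : ZMod p) {x : S3} (hx : x ∈ O) :
    h (sh k x) = h x + k.val • l := by
  rw [← H.nat hO k.val hx, ZMod.natCast_zmod_val]

lemma Sft.sh_one {O : Set S3} (hO : MapsTo (gn p) O O) {s : S3 → ZMod p}
    (H : Sft (gn p) O s 1) (k : ZMod p) {x : S3} (hx : x ∈ O) : s (Q1.sh k x) = s x + k := by
  rw [H.sh hO k hx]; simp

lemma Sft.nsmul_eq_zero {G : Type} [AddCommGroup G] {O : Set S3} (hO : MapsTo (gn p) O O)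
    {h : S3 → G} {l : G} (H : Sft (gn p) O h l) (hn : O.Nonempty) : p • l = 0 := by
  obtain ⟨x, hx⟩ := hn
  simpa using H.nat hO p hx

lemma Inv2.sh {T : Type} {O : Set S3} (hO : MapsTo (gn p) O O) {c : S3 → S3 → T}
    (H : Inv2 (gn p) O c) (k : ZMod p) {x y : S3} (hx : x ∈ O) (hy : y ∈ O) :
    c (sh k x) (sh k y) = c x y :=
  zmod_ind (P := fun k => c (Q1.sh k x) (Q1.sh k y) = c x y) (by simp)
    (fun k ih => by
      rw [← gn_sh, ← gn_sh, H _ (mapsTo_sh hO k hx) _ (mapsTo_sh hO k hy), ih]) k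

/-- A set theoretic section of the covering. -/
lemma exists_sec (p : ℕ) [NeZero p] : ∃ s : S3 → ZMod p, ∀ k x, s (sh k x) = s x + k := by
  classical
  let rep : S3 → S3 := fun x => Classical.epsilon fun y => ∃ k : ZMod p, x = sh k y
  have h1 : ∀ x, ∃ k : ZMod p, x = sh k (rep x) := fun x =>
    Classical.epsilon_spec (p := fun y => ∃ k : ZMod p, x = sh k y) ⟨x, 0, by simp⟩
  have h2 : ∀ (k : ZMod p) x, rep (sh k x) = rep x := fun k x => by
    have : (fun y => ∃ l : ZMod p, sh k x = sh l y) = fun y => ∃ l : ZMod p, x = sh l y := by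
      funext y
      refine propext ⟨fun ⟨l, hl⟩ => ⟨-k + l, by rw [← sh_sh, ← hl, sh_neg_sh]⟩,
        fun ⟨l, hl⟩ => ⟨k + l, by rw [← sh_sh, ← hl]⟩⟩
    simp only [rep, this]
  choose s hs using h1
  refine ⟨s, fun k x => sh_inj (x := rep x) ?_⟩
  rw [add_comm, ← sh_sh, ← hs x, ← h2 k x, ← hs]

/-- The sphere itself is not liftable. -/
lemma not_liftTo_univ (A : Type) [CommRing A] [Nontrivial A] : ¬LiftTo A (gn p) univ := by
  rintro ⟨h, h1, h2⟩
  obtain ⟨x⟩ : Nonempty S3 := inferInstance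
  have := h1.eq_of_preconn preconn_S3 (mem_univ (gn p x)) (mem_univ x)
  rw [h2 x (mem_univ x)] at this
  simp at this

end act

section half
variable {N : ℕ} (f : S3 → EV N)

/-- The preimage of an open half-space. -/
def U (a : EV N × ℝ) : Set S3 := {x | ⟪a.1, f x⟫ < a.2}

/-- The preimage of a closed half-space. -/
def Ucl (a : EV N × ℝ) : Set S3 := {x | ⟪a.1, f x⟫ ≤ a.2}

/-- The union of a family of such preimages. -/
def UC (C : Set (EV N × ℝ)) : Set S3 := ⋃ a ∈ C, U f a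

/-- Raising the level. -/
def up (a : EV N × ℝ) (t : ℝ) : EV N × ℝ := (a.1, a.2 + t)

/-- A truncated open convex cone of parameters whose half-spaces stay away from `y`. -/
def Cone (a : EV N × ℝ) (y : EV N) (δ R : ℝ) : Set (EV N × ℝ) :=
  {b | ‖b - a‖ < R ∧ δ * ‖b - a‖ < ⟪b.1, y⟫ - b.2}

/-- Monotone properties of sets. -/
def Mon (P : Set S3 → Prop) : Prop := P ∅ ∧ (∀ O O', O ⊆ O' → P O' → P O) ∧ ¬P univ

/-- The level at which the property `P` is lost. -/
noncomputable def lev (P : Set S3 → Prop) (v : EV N) : ℝ := sSup {t | P (U f (v, t))}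

/-- The minimum of a height function. -/
noncomputable def mn (v : EV N) : ℝ := lev f (fun O => O = ∅) v

/-- The direction space of the image of `K`. -/
noncomputable def Dir (K : Set S3) : Submodule ℝ (EV N) := vectorSpan ℝ (f '' K)

variable (p : ℕ) [NeZero p]

/-- Liftable sets. -/
def Lf (O : Set S3) : Prop := LiftTo (ZMod p) (gn p) O

/-- The level at which liftability is lost. -/
noncomputable def cL (v : EV N) : ℝ := lev f (Lf p) v

/-- The consequences of tightness and injectivity used in the proof. -/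
structure Sys (F : Type) [Field F] : Prop where
  three : 3 ≤ p
  cont : Continuous f
  inv : ∀ x, f (gn p x) = f x
  inj : ∀ x y, f x = f y → ∃ k : ZMod p, y = sh k x
  t0 : ∀ a (Q : S3 → Prop), LC (U f a) Q → (∀ x ∈ U f a, Q (gn p x) = Q x) →
    ∀ x ∈ U f a, ∀ y ∈ U f a, Q x → Q y
  t1 : ∀ a (c : S3 → S3 → F), IsC (U f a) c → Inv2 (gn p) (U f a) c →
    ∃ (h : S3 → F) (l : F), IsP (U f a) c h ∧ Sft (gn p) (U f a) h l

/-- The preimages of closed half-spaces are locally connected. -/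
def Tame : Prop :=
  ∀ a, ∀ x ∈ Ucl f a, ∀ n ∈ 𝓝 x, ∃ m ∈ 𝓝[Ucl f a] x, m ⊆ n ∩ Ucl f a ∧ IsPreconnected m

/-- A sphere of directions without ties which bounds a hemisphere. -/
def Frame : Prop :=
  ∃ (L : (Fin 3 → ℝ) →L[ℝ] EV N) (e : EV N), (∀ b, b ≠ 0 → cL f p (L b) < -cL f p (-L b)) ∧
    ∀ b (s : ℝ), 0 ≤ s → (b ≠ 0 ∨ s ≠ 0) → mn f (L b + s • e) < -cL f p (-(L b + s • e))

/-- A locally constant property on `O` which holds on the orbit of `x` holds everywhere. -/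
def Orb (O : Set S3) (x : S3) : Prop :=
  ∀ Q : S3 → Prop, LC O Q → (∀ k : ZMod p, Q (sh k x)) → ∀ y ∈ O, Q y

variable {f p} {F : Type} [Field F] {a b : EV N × ℝ}

lemma mem_U {x : S3} : x ∈ U f a ↔ ⟪a.1, f x⟫ < a.2 := Iff.rfl

lemma mem_U_neg {x : S3} : x ∈ U f (-a) ↔ a.2 < ⟪a.1, f x⟫ := by
  simp [U, inner_neg_left]

lemma mem_U_up {x : S3} {t : ℝ} : x ∈ U f (up a t) ↔ ⟪a.1, f x⟫ < a.2 + t := Iff.rfl

lemma mem_UC {C : Set (EV N × ℝ)} {x : S3} : x ∈ UC f C ↔ ∃ a ∈ C, x ∈ U f a := by simp [UC]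

lemma U_mono (v : EV N) {t t' : ℝ} (h : t ≤ t') : U f (v, t) ⊆ U f (v, t') :=
  fun _ hx => lt_of_lt_of_le hx h

lemma U_up_mono (a : EV N × ℝ) {t t' : ℝ} (h : t ≤ t') : U f (up a t) ⊆ U f (up a t') :=
  U_mono _ (by linarith)

@[simp] lemma up_zero (a : EV N × ℝ) : up a 0 = a := by simp [up]

lemma U_disj (a : EV N × ℝ) : Disjoint (U f a) (U f (-a)) :=
  disjoint_left.2 fun _ h1 h2 => lt_asymm (mem_U.1 h1) (mem_U_neg.1 h2)

lemma U_smul (a : EV N × ℝ) {s : ℝ} (hs : 0 < s) : U f (s • a) = U f a := by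
  ext x
  simp [U, real_inner_smul_left, hs]

lemma inter_U {s t : ℝ} (hs : 0 ≤ s) (ht : 0 ≤ t) (h : s + t = 1) :
    U f a ∩ U f b ⊆ U f (s • a + t • b) := fun x hx => by
  have h1 := mem_U.1 hx.1
  have h2 := mem_U.1 hx.2
  simp only [mem_U, Prod.fst_add, Prod.smul_fst, Prod.snd_add, Prod.smul_snd, inner_add_left,
    real_inner_smul_left, smul_eq_mul]
  rcases hs.eq_or_lt with rfl | hs'
  · have : t = 1 := by linarith
    simpa [this] using h2
  · nlinarith

lemma U_union {s t : ℝ} (hs : 0 ≤ s) (ht : 0 ≤ t) : U f (s • a + t • b) ⊆ U f a ∪ U f b :=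
  fun x hx => by
  by_contra hn
  simp only [mem_union, mem_U, not_or, not_lt] at hn
  simp only [mem_U, Prod.fst_add, Prod.smul_fst, Prod.snd_add, Prod.smul_snd, inner_add_left,
    real_inner_smul_left, smul_eq_mul] at hx
  nlinarith [hn.1, hn.2]

lemma convex_Cone (a : EV N × ℝ) (y : EV N) {δ : ℝ} (hδ : 0 ≤ δ) (R : ℝ) :
    Convex ℝ (Cone a y δ R) := by
  intro b hb b' hb' s t hs ht h
  have e : s • b + t • b' - a = s • (b - a) + t • (b' - a) := by
    rw [smul_sub, smul_sub, sub_add_sub_comm, ← add_smul, h, one_smul]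
  have n : ‖s • b + t • b' - a‖ ≤ s * ‖b - a‖ + t * ‖b' - a‖ := by
    rw [e]
    refine (norm_add_le _ _).trans ?_
    rw [norm_smul, norm_smul, Real.norm_of_nonneg hs, Real.norm_of_nonneg ht]
  have lt : ∀ {u u' w w' : ℝ}, u < w → u' < w' → s * u + t * u' < s * w + t * w' := by
    intro u u' w w' h1 h2
    rcases hs.eq_or_lt with rfl | hs'
    · have : t = 1 := by linarith
      simpa [this] using h2
    · nlinarith
  refine ⟨n.trans_lt ((lt hb.1 hb'.1).trans_eq (by rw [← add_mul, h, one_mul])), ?_⟩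
  have := lt hb.2 hb'.2
  simp only [Prod.fst_add, Prod.smul_fst, Prod.snd_add, Prod.smul_snd, inner_add_left,
    real_inner_smul_left, smul_eq_mul]
  nlinarith [mul_le_mul_of_nonneg_left n hδ]

lemma Cone_mono (a : EV N × ℝ) (y : EV N) (δ : ℝ) {R R' : ℝ} (h : R ≤ R') :
    Cone a y δ R ⊆ Cone a y δ R' := fun _ hb => ⟨hb.1.trans_le h, hb.2⟩

lemma isOpen_U (hf : Continuous f) (a : EV N × ℝ) : IsOpen (U f a) :=
  isOpen_lt (by fun_prop) continuous_const

lemma isClosed_Ucl (hf : Continuous f) (a : EV N × ℝ) : IsClosed (Ucl f a) :=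
  isClosed_le (by fun_prop) continuous_const

lemma closure_U (hf : Continuous f) (a : EV N × ℝ) : closure (U f a) ⊆ Ucl f a :=
  closure_minimal (fun _ hx => le_of_lt (mem_U.1 hx)) (isClosed_Ucl hf a)

lemma isOpen_UC (hf : Continuous f) (C : Set (EV N × ℝ)) : IsOpen (UC f C) :=
  isOpen_biUnion fun a _ => isOpen_U hf a

/-- Nearby parameters give nearby sets. -/
lemma exists_bound (hf : Continuous f) :
    ∃ M > (0 : ℝ), ∀ (a b : EV N × ℝ) (x : S3),
      |(⟪b.1, f x⟫ - b.2) - (⟪a.1, f x⟫ - a.2)| ≤ M * ‖b - a‖ := by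
  obtain ⟨C, hC⟩ := isCompact_univ.exists_bound_of_continuousOn hf.continuousOn
  refine ⟨|C| + 1, by positivity, fun a b x => ?_⟩
  have e : (⟪b.1, f x⟫ - b.2) - (⟪a.1, f x⟫ - a.2) = ⟪(b - a).1, f x⟫ - (b - a).2 := by
    simp only [Prod.fst_sub, Prod.snd_sub, inner_sub_left]; ring
  have h1 : |⟪(b - a).1, f x⟫| ≤ ‖b - a‖ * |C| := (abs_real_inner_le_norm _ _).trans
    (mul_le_mul (norm_fst_le _) ((hC x trivial).trans (le_abs_self _)) (norm_nonneg _)
      (norm_nonneg _))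
  have h2 : |(b - a).2| ≤ ‖b - a‖ := norm_snd_le (b - a)
  rw [e]
  refine (abs_sub _ _).trans ?_
  linarith

/-- The sets of nearby parameters are squeezed between two levels. -/
lemma exists_near (hf : Continuous f) {ε : ℝ} (hε : 0 < ε) :
    ∃ R > (0 : ℝ), ∀ a b : EV N × ℝ, ‖b - a‖ < R →
      Ucl f (up a (-ε)) ⊆ U f b ∧ Ucl f b ⊆ U f (up a ε) := by
  obtain ⟨M, hM, h⟩ := exists_bound hf
  refine ⟨ε / M, by positivity, fun a b hab => ?_⟩
  have h1 : M * ‖b - a‖ < ε := by rwa [lt_div_iff₀' hM] at hab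
  refine ⟨fun x hx => ?_, fun x hx => ?_⟩
  · have h2 := abs_le.1 (h a b x)
    have h3 : ⟪a.1, f x⟫ ≤ a.2 + -ε := hx
    rw [mem_U]; linarith [h2.2]
  · have h2 := abs_le.1 (h a b x)
    have h3 : ⟪b.1, f x⟫ ≤ b.2 := hx
    rw [mem_U_up]; linarith [h2.1]

lemma U_sub_Ucl (a : EV N × ℝ) : U f a ⊆ Ucl f a := fun _ hx => le_of_lt (mem_U.1 hx)

lemma Lf.mono {O O' : Set S3} (H : Lf p O) (hs : O' ⊆ O) : Lf p O' := LiftTo.mono H hs

lemma lf_empty : Lf p ∅ := liftTo_empty _ _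

namespace Sys
variable (H : Sys f p F)
include H

lemma nontriv : Nontrivial (ZMod p) := ZMod.nontrivial_iff.2 (by have := H.three; omega)

lemma not_lf_univ : ¬Lf p univ := by
  have := H.nontriv
  exact not_liftTo_univ _

lemma mon_lf : Mon (Lf p) := ⟨lf_empty, fun _ _ h h' => h'.mono h, H.not_lf_univ⟩

lemma f_sh (k : ZMod p) (x : S3) : f (sh k x) = f x :=
  inv_sh (O := univ) (mapsTo_univ _ _) (fun x _ => H.inv x) k (mem_univ x)

lemma mapsU (a : EV N × ℝ) : MapsTo (gn p) (U f a) (U f a) := fun x hx => by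
  rw [mem_U, H.inv]; exact hx

lemma mapsUcl (a : EV N × ℝ) : MapsTo (gn p) (Ucl f a) (Ucl f a) := fun x hx => by
  show ⟪a.1, f (gn p x)⟫ ≤ a.2
  rw [H.inv]; exact hx

lemma mapsUC (C : Set (EV N × ℝ)) : MapsTo (gn p) (UC f C) (UC f C) := fun x hx => by
  obtain ⟨a, ha, h⟩ := mem_UC.1 hx
  exact mem_UC.2 ⟨a, ha, H.mapsU a h⟩

lemma sh_mem {x : S3} (k : ZMod p) : sh k x ∈ U f a ↔ x ∈ U f a := sh_mem_iff (H.mapsU a) k

lemma openU (a : EV N × ℝ) : IsOpen (U f a) := isOpen_U H.cont a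

/-- An invariant locally constant function is constant. -/
lemma const {T : Type} {h : S3 → T} (h1 : LC (U f a) h) (h2 : ∀ x ∈ U f a, h (gn p x) = h x)
    {x y : S3} (hx : x ∈ U f a) (hy : y ∈ U f a) : h x = h y :=
  H.t0 a (fun z => h x = h z) (h1.map fun t => h x = t) (fun z hz => by rw [h2 z hz]) x hx y hy rfl

lemma orb {x : S3} (hx : x ∈ U f a) : Orb p (U f a) x := fun Q h1 h2 y hy => by
  have h3 : LC (U f a) (fun z => ∀ k : ZMod p, Q (sh k z)) :=
    (LC.pi fun k : ZMod p => h1.comp (continuous_sh k).continuousOn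
      (mapsTo_sh (H.mapsU a) k)).map fun φ => ∀ k, φ k
  have := H.t0 a _ h3 (fun z _ => propext ⟨fun h k => by
    simpa [sh_gn] using h (k - 1), fun h k => by rw [sh_gn]; exact h _⟩) x hx y hy h2 0
  simpa using this

lemma orbUC {C : Set (EV N × ℝ)} {x : S3} (hx : ∀ a ∈ C, x ∈ U f a) : Orb p (UC f C) x :=
  fun Q h1 h2 y hy => by
  obtain ⟨a, ha, h⟩ := mem_UC.1 hy
  exact H.orb (hx a ha) Q (h1.mono fun z hz => mem_UC.2 ⟨a, ha, hz⟩) h2 y h

end Sys

/-- Two locally constant functions which agree on the orbit agree. -/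
lemma Orb.eq {T : Type} {O : Set S3} {x : S3} (H : Orb p O x) {h k : S3 → T} (h1 : LC O h)
    (h2 : LC O k) (e : ∀ j : ZMod p, h (sh j x) = k (sh j x)) {y : S3} (hy : y ∈ O) : h y = k y :=
  H (fun z => h z = k z) (h1.map₂ h2 Eq) e y hy

/-- Two potentials which agree on the orbit agree. -/
lemma Orb.eqP {G : Type} [AddCommGroup G] {O : Set S3} {x : S3} (H : Orb p O x) {c : S3 → S3 → G}
    {h k : S3 → G} (h1 : IsP O c h) (h2 : IsP O c k) (e : ∀ j : ZMod p, h (sh j x) = k (sh j x))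
    {y : S3} (hy : y ∈ O) : h y = k y :=
  sub_eq_zero.1 (H.eq (h1.lc_sub h2) (LC.const O 0) (fun j => sub_eq_zero.2 (e j)) hy)

/-- A potential of an invariant cocycle which is shifted on one orbit is shifted. -/
lemma Orb.sft {G : Type} [AddCommGroup G] {O : Set S3} {x : S3} (H : Orb p O x)
    (hO : MapsTo (gn p) O O) {c : S3 → S3 → G} (hc : Inv2 (gn p) O c) {h : S3 → G}
    (h1 : IsP O c h) {l : G} (e : ∀ j : ZMod p, h (sh (j + 1) x) = h (sh j x) + l) :
    Sft (gn p) O h l := fun y hy => by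
  have h2 : IsP O c (fun z => h (gn p z)) :=
    (h1.comp continuous_gn.continuousOn hO).congr_c fun a ha b hb => (hc a ha b hb).symm
  exact H.eqP h2 (h1.add_lc (LC.const O l)) (fun j => by rw [gn_sh, e]) hy

end half

end Pool.Agent.P.MP_c88051_gt.Q1
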