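import Pool.Agent.P.MP_c88051_gt.Q1.Base

/-! Levels, local data at a jump, good lifts and their families. -/

set_option autoImplicit false
set_option linter.unusedSectionVars false

namespace Pool.Agent.P.MP_c88051_gt.Q1

open Set Filter Topology Metric
open scoped RealInnerProductSpace

section lev
variable {N : ℕ} {f : S3 → EV N} {P : Set S3 → Prop}

lemma exists_abs_le (hf : Continuous f) : ∃ M > (0 : ℝ), ∀ v x, |⟪v, f x⟫| ≤ M * ‖v‖ := by
  obtain ⟨M, hM, h⟩ := exists_bound hf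
  exact ⟨M, hM, fun v x => by simpa [Prod.norm_def] using h 0 (v, 0) x⟩

lemma lev_aux (hf : Continuous f) (hP : Mon P) (v : EV N) :
    {t | P (U f (v, t))}.Nonempty ∧ BddAbove {t | P (U f (v, t))} := by
  obtain ⟨M, -, h⟩ := exists_abs_le hf
  refine ⟨⟨-(M * ‖v‖), hP.2.1 _ _ (fun x hx => ?_) hP.1⟩, M * ‖v‖, fun t ht => ?_⟩
  · exact absurd (abs_le.1 (h v x)).1 (not_le.2 hx)
  · by_contra hn
    exact hP.2.2 (hP.2.1 _ _ (fun x _ => (abs_le.1 (h v x)).2.trans_lt (not_le.1 hn)) ht)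

lemma le_lev (hf : Continuous f) (hP : Mon P) {v : EV N} {t : ℝ} (h : P (U f (v, t))) :
    t ≤ lev f P v := le_csSup (lev_aux hf hP v).2 h

lemma of_lt_lev (hf : Continuous f) (hP : Mon P) {v : EV N} {t : ℝ} (h : t < lev f P v) :
    P (U f (v, t)) := by
  obtain ⟨s, hs, hts⟩ := exists_lt_of_lt_csSup (lev_aux hf hP v).1 h
  exact hP.2.1 _ _ (U_mono v hts.le) hs

lemma lev_mono (hf : Continuous f) {P' : Set S3 → Prop} (hP : Mon P) (hP' : Mon P') {v : EV N}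
    (h : ∀ t, P (U f (v, t)) → P' (U f (v, t))) : lev f P v ≤ lev f P' v :=
  csSup_le (lev_aux hf hP v).1 fun t ht => le_lev hf hP' (h t ht)

lemma lipschitz_lev (hf : Continuous f) (hP : Mon P) : ∃ K, LipschitzWith K (lev f P) := by
  obtain ⟨M, hM, h⟩ := exists_abs_le hf
  refine ⟨⟨M, hM.le⟩, LipschitzWith.of_le_add_mul _ fun v w => csSup_le (lev_aux hf hP v).1
    fun t ht => ?_⟩
  have : t - M * ‖v - w‖ ≤ lev f P w := le_lev hf hP (hP.2.1 _ _ (fun x hx => by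
    have h1 := (abs_le.1 (h (v - w) x)).2
    rw [inner_sub_left] at h1
    have h2 : ⟪w, f x⟫ < t - M * ‖v - w‖ := hx
    show ⟪v, f x⟫ < t
    linarith) ht)
  rw [dist_eq_norm]
  show t ≤ lev f P w + M * ‖v - w‖
  linarith

lemma continuous_lev (hf : Continuous f) (hP : Mon P) : Continuous (lev f P) :=
  let ⟨_, h⟩ := lipschitz_lev hf hP; h.continuous

lemma lev_smul (hf : Continuous f) (hP : Mon P) (v : EV N) {s : ℝ} (hs : 0 < s) :
    lev f P (s • v) = s * lev f P v := by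
  have key : ∀ (v : EV N) (s : ℝ), 0 < s → lev f P (s • v) ≤ s * lev f P v := fun v s hs =>
    csSup_le (lev_aux hf hP _).1 fun t ht => by
      have e : U f (s • v, t) = U f (v, t / s) := by
        rw [← U_smul (v, t / s) hs]; simp [mul_div_cancel₀, hs.ne']
      have := le_lev hf hP (e ▸ ht : P (U f (v, t / s)))
      rwa [div_le_iff₀' hs] at this
  refine le_antisymm (key v s hs) ?_
  have := key (s • v) s⁻¹ (inv_pos.2 hs)
  rw [smul_smul, inv_mul_cancel₀ hs.ne', one_smul] at this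
  rwa [← le_div_iff₀' hs, div_eq_inv_mul]

lemma mon_empty : Mon fun O : Set S3 => O = ∅ :=
  ⟨rfl, fun _ _ h h' => subset_empty_iff.1 (h' ▸ h), univ_nonempty.ne_empty⟩

lemma mon_sub {Ω : Set S3} (h : Ω ≠ univ) : Mon fun O => O ⊆ Ω :=
  ⟨empty_subset _, fun _ _ h h' => h.trans h', fun h' => h (univ_subset_iff.1 h')⟩

lemma mn_le (v : EV N) (x : S3) (hf : Continuous f) : mn f v ≤ ⟪v, f x⟫ :=
  csSup_le (lev_aux hf mon_empty v).1 fun _ ht => not_lt.1 fun h =>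
    (eq_empty_iff_forall_notMem.1 ht x) h

lemma exists_mn (hf : Continuous f) (v : EV N) : ∃ z, ⟪v, f z⟫ = mn f v := by
  obtain ⟨z, -, hz⟩ := isCompact_univ.exists_isMinOn univ_nonempty
    (show ContinuousOn (fun x => ⟪v, f x⟫) univ by fun_prop)
  exact ⟨z, le_antisymm (le_lev hf mon_empty (eq_empty_iff_forall_notMem.2 fun x hx =>
    not_lt.2 (isMinOn_iff.1 hz x (mem_univ x)) (mem_U.1 hx))) (mn_le v z hf)⟩

lemma U_nonempty_iff (hf : Continuous f) {v : EV N} {t : ℝ} :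
    (U f (v, t)).Nonempty ↔ mn f v < t :=
  ⟨fun ⟨x, hx⟩ => (mn_le v x hf).trans_lt hx,
    fun h => let ⟨z, hz⟩ := exists_mn hf v; ⟨z, hz.trans_lt h⟩⟩

lemma mn_le_lev (hf : Continuous f) (hP : Mon P) (v : EV N) : mn f v ≤ lev f P v :=
  lev_mono hf mon_empty hP fun _ h => h ▸ hP.1

lemma continuous_mn (hf : Continuous f) : Continuous (mn f) := continuous_lev hf mon_empty

/-- A subspace of small dimension embeds linearly in a coordinate space. -/
lemma exists_proj (S : Submodule ℝ (EV N)) {k : ℕ} (h : Module.finrank ℝ S ≤ k) :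
    ∃ π : EV N →L[ℝ] (Fin k → ℝ), ∀ v ∈ S, π v = 0 → v = 0 := by
  obtain ⟨φ, hφ⟩ : ∃ φ : S →ₗ[ℝ] (Fin k → ℝ), Function.Injective φ :=
    (finrank_le_iff_exists_linearMap (R := ℝ)).1 (by simpa using h)
  obtain ⟨ψ, hψ⟩ := φ.exists_extend
  refine ⟨LinearMap.toContinuousLinearMap ψ, fun v hv h0 => ?_⟩
  have : φ ⟨v, hv⟩ = 0 := by rw [← hψ]; exact h0
  exact congrArg Subtype.val (hφ (this.trans (map_zero φ).symm))

lemma sub_mem_Dir {K : Set S3} {x y : S3} (hx : x ∈ K) (hy : y ∈ K) : f x - f y ∈ Dir f K :=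
  vsub_mem_vectorSpan ℝ (mem_image_of_mem f hx) (mem_image_of_mem f hy)

lemma Dir_mono {K K' : Set S3} (h : K ⊆ K') : Dir f K ≤ Dir f K' :=
  vectorSpan_mono ℝ (image_mono h)

lemma mem_Dir_orth {K : Set S3} {v : EV N} :
    v ∈ (Dir f K)ᗮ ↔ ∀ x ∈ K, ∀ y ∈ K, ⟪v, f x⟫ = ⟪v, f y⟫ := by
  refine ⟨fun h x hx y hy => ?_, fun h => ?_⟩
  · have := (Submodule.mem_orthogonal' _ _).1 h _ (sub_mem_Dir hx hy)
    rwa [inner_sub_right, sub_eq_zero] at this
  · have : Dir f K ≤ LinearMap.ker (innerₛₗ ℝ v) := by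
      rw [Dir, vectorSpan_def, Submodule.span_le]
      rintro _ ⟨_, ⟨x, hx, rfl⟩, _, ⟨y, hy, rfl⟩, rfl⟩
      simp [inner_sub_right, h x hx y hy]
    exact (Submodule.mem_orthogonal' _ _).2 fun u hu => this hu

end lev

/-- Gluing along two closed sets. -/
lemma LC.union_closed {Y T : Type} [TopologicalSpace Y] {A B : Set Y} (hA : IsClosed A)
    (hB : IsClosed B) {h : Y → T} (h1 : LC A h) (h2 : LC B h) : LC (A ∪ B) h := fun x _ => by
  rw [nhdsWithin_union, eventually_sup]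
  constructor
  · by_cases hx : x ∈ A
    · exact h1 x hx
    · rw [notMem_closure_iff_nhdsWithin_eq_bot.1 (by rwa [hA.closure_eq])]; simp
  · by_cases hx : x ∈ B
    · exact h2 x hx
    · rw [notMem_closure_iff_nhdsWithin_eq_bot.1 (by rwa [hB.closure_eq])]; simp

section lift
variable {p : ℕ} [NeZero p]

/-- Two lifts on closed sets whose difference is constant on the overlap glue. -/
lemma lf_union {A B : Set S3} (hA : IsClosed A) (hB : IsClosed B) (mA : MapsTo (gn p) A A)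
    {s t : S3 → ZMod p} (s1 : LC A s) (s2 : Sft (gn p) A s 1)
    (t1 : LC B t) (t2 : Sft (gn p) B t 1) {d : ZMod p} (hd : ∀ x ∈ A ∩ B, s x = t x + d) :
    Lf p (A ∪ B) := by
  classical
  refine ⟨fun x => if x ∈ A then s x else t x + d, LC.union_closed hA hB
    (s1.congr fun x hx => if_pos hx) ((t1.map fun u => u + d).congr fun x hx => ?_), fun x hx => ?_⟩
  · split_ifs with h
    exacts [hd x ⟨h, hx⟩, rfl]
  · by_cases h : x ∈ A
    · simp only [if_pos h, if_pos (mA h), s2 x h]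
    · simp only [if_neg h, if_neg (mt (gn_mem_iff mA).1 h), t2 x (hx.resolve_left h)]; ring

lemma Lf.to {A : Type} [CommRing A] (hp : (p : A) = 0) {O : Set S3} (h : Lf p O) :
    LiftTo A (gn p) O :=
  LiftTo.map h (ZMod.castHom ((ringChar.spec A p).1 hp) A)

/-- Small balls round an orbit are disjoint. -/
lemma ball_eq {z y : S3} {ρ : ℝ} (h : ∀ k : ZMod p, k ≠ 0 → 2 * ρ ≤ dist (sh k z) z)
    {k l : ZMod p} (hk : y ∈ ball (sh k z) ρ) (hl : y ∈ ball (sh l z) ρ) : k = l := by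
  by_contra hn
  have h1 := h (k - l) (sub_ne_zero.2 hn)
  rw [← dist_sh l, sh_sh, add_sub_cancel] at h1
  have := dist_triangle_left (sh k z) (sh l z) y
  rw [mem_ball] at hk hl
  linarith

lemma sh_mem_ball {z y : S3} {ρ : ℝ} {k l : ZMod p} :
    sh k y ∈ ball (sh l z) ρ ↔ y ∈ ball (sh (l - k) z) ρ := by
  rw [mem_ball, mem_ball, ← dist_sh k y, sh_sh, add_sub_cancel]

lemma maps_balls (z : S3) (ρ : ℝ) :
    MapsTo (gn p) (⋃ k : ZMod p, ball (sh k z) ρ) (⋃ k : ZMod p, ball (sh k z) ρ) := fun y hy => by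
  obtain ⟨k, hk⟩ := mem_iUnion.1 hy
  exact mem_iUnion.2 ⟨k + 1, sh_mem_ball.2 (by simpa using hk)⟩

lemma lf_balls {z : S3} {ρ : ℝ} (h : ∀ k : ZMod p, k ≠ 0 → 2 * ρ ≤ dist (sh k z) z) :
    ∃ s : S3 → ZMod p, (∀ k, ∀ y ∈ ball (sh k z) ρ, s y = k) ∧
      LC (⋃ k : ZMod p, ball (sh k z) ρ) s ∧ Sft (gn p) (⋃ k : ZMod p, ball (sh k z) ρ) s 1 := by
  classical
  let s : S3 → ZMod p := fun y => if h : ∃ k : ZMod p, y ∈ ball (sh k z) ρ then h.choose else 0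
  have hs : ∀ k, ∀ y ∈ ball (sh k z) ρ, s y = k := fun k y hy => by
    have e : ∃ k : ZMod p, y ∈ ball (sh k z) ρ := ⟨k, hy⟩
    simp only [s, dif_pos e]
    exact ball_eq h e.choose_spec hy
  refine ⟨s, hs, fun y hy => ?_, fun y hy => ?_⟩
  · obtain ⟨k, hk⟩ := mem_iUnion.1 hy
    filter_upwards [nhdsWithin_le_nhds (isOpen_ball.mem_nhds hk)] with w hw
    rw [hs k w hw, hs k y hk]
  · obtain ⟨k, hk⟩ := mem_iUnion.1 hy
    rw [hs k y hk]
    exact hs (k + 1) (sh 1 y) (sh_mem_ball.2 (by rwa [add_sub_cancel_right]))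

/-- Near a fibre of a map which is injective modulo the group. -/
lemma Sys.near_fibre {F : Type} [Field F] {N : ℕ} {f : S3 → EV N} (H : Sys f p F) {y : EV N}
    {z : S3} (hz : ∀ x, f x = y → ∃ k : ZMod p, x = sh k z) {ρ : ℝ} (hρ : 0 < ρ) :
    ∃ η > (0 : ℝ), ∀ x, ‖f x - y‖ < η → x ∈ ⋃ k : ZMod p, ball (sh k z) ρ := by
  have hc : IsClosed (f '' (⋃ k : ZMod p, ball (sh k z) ρ)ᶜ) :=
    ((isOpen_iUnion fun _ => isOpen_ball).isClosed_compl.isCompact.image H.cont).isClosed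
  have hy : y ∈ (f '' (⋃ k : ZMod p, ball (sh k z) ρ)ᶜ)ᶜ := by
    rintro ⟨x, hx, e⟩
    obtain ⟨k, rfl⟩ := hz x e
    exact hx (mem_iUnion.2 ⟨k, mem_ball_self hρ⟩)
  obtain ⟨η, h1, h2⟩ := Metric.isOpen_iff.1 hc.isOpen_compl y hy
  refine ⟨η, h1, fun x hx => by_contra fun hn => h2 (mem_ball_iff_norm.2 hx) ⟨x, hn, rfl⟩⟩

end lift

/-- The data of a localisation. -/
structure LD (N : ℕ) where
  a : EV N × ℝ
  x : S3
  z : S3
  r : ℝ
  k₀ : ℝ
  k₁ : ℝ
  ε : ℝ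
  O : Set S3
  Os : Set S3

section loc
variable {N : ℕ} (f : S3 → EV N) (p : ℕ) [NeZero p]

/-- The ball round the critical point. -/
def LD.B (D : LD N) : Set S3 := ball D.z (3 * D.r)

/-- The set just above the jump. -/
def LD.U0 (D : LD N) : Set S3 := U f (up D.a D.k₀)

/-- The set a little higher. -/
def LD.U1 (D : LD N) : Set S3 := U f (up D.a D.k₁)

/-- The compact shell in which functions are glued. -/
def LD.K (D : LD N) : Set S3 :=
  Ucl f (up D.a D.k₀) ∩ {y | D.r ≤ dist y D.z ∧ dist y D.z ≤ 2 * D.r}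

/-- `e` extends from the shell to a locally constant function on the ball. -/
def LD.Ext (D : LD N) {T : Type} (e : S3 → T) : Prop :=
  ∃ k : S3 → T, LC (D.U1 f ∩ D.B) k ∧ ∀ y ∈ D.K f, k y = e y

/-- The geometry of a localisation. -/
structure Loc (D : LD N) : Prop where
  r_pos : 0 < D.r
  r_le : 3 * D.r ≤ 1
  gap : ∀ k : ZMod p, k ≠ 0 → 6 * D.r ≤ dist (sh k D.z) D.z
  far : ∀ k : ZMod p, 3 * D.r ≤ dist (sh k D.x) D.z
  k₀_pos : 0 < D.k₀
  k₀_le : D.k₀ ≤ D.k₁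
  k₁_le : D.k₁ ≤ D.ε
  openO : IsOpen D.O
  openS : IsOpen D.Os
  mapsO : MapsTo (gn p) D.O D.O
  mapsS : MapsTo (gn p) D.Os D.Os
  sub : D.Os ⊆ D.O
  low : U f D.a ⊆ D.Os
  mem : D.x ∈ U f D.a
  s_sub : D.Os ⊆ D.U1 f
  cov : D.U1 f ⊆ D.O ∪ ⋃ k : ZMod p, ball (sh k D.z) D.r
  covS : Ucl f (up D.a D.k₀) ⊆ D.Os ∪ ⋃ k : ZMod p, ball (sh k D.z) D.r
  orbO : Orb p D.O D.x
  orbS : Orb p D.Os D.x
  O_sub : D.O ⊆ U f (up D.a D.ε)
  B_sub : ∀ k : ZMod p, ball (sh k D.z) (3 * D.r) ⊆ U f (up D.a D.ε)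

/-- A localisation at a point where liftability is lost, inside `U f a₀`. -/
structure Pre (a₀ : EV N × ℝ) (D : LD N) (s : S3 → ZMod p) : Prop where
  loc : Loc f p D
  big : U f (up D.a D.ε) ⊆ U f a₀
  lc : LC D.O s
  sft : Sft (gn p) D.O s 1
  s0 : s D.x = 0
  nl : ¬Lf p (D.U0 f)
  pot : ∀ (G : Type) [AddCommGroup G] (c : S3 → S3 → G) (θ : ZMod p → G), IsC D.O c →
    ∃ h, IsP D.O c h ∧ ∀ k, h (sh k D.x) = θ k

/-- The two ends of the edge which is born. -/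
structure Post (D : LD N) (s : S3 → ZMod p) (x₁ x₂ : S3) : Prop where
  m1 : x₁ ∈ D.K f
  m2 : x₂ ∈ D.K f
  unit : IsUnit (s x₁ - s x₂)
  tie : ∀ (T : Type) (k : S3 → T), LC (D.U1 f ∩ D.B) k → k x₁ = k x₂
  ext : ∀ (T : Type) (e : S3 → T), LC (D.O ∩ D.B) e → e x₁ = e x₂ → D.Ext f e

/-- The labels of a cocycle on the edges. -/
def Lab (D : LD N) (x₁ x₂ : S3) {G : Type} [AddCommGroup G] (c : S3 → S3 → G) (J : ZMod p → G) :
    Prop :=
  ∃ (h : S3 → G) (b : ZMod p → S3 → G), IsP D.O c h ∧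
    (∀ j, IsP (ball (sh j D.z) (3 * D.r)) c (b j)) ∧
    ∀ j, J j = (h (sh j x₂) - b j (sh j x₂)) - (h (sh j x₁) - b j (sh j x₁))

/-- The label of an invariant cocycle. -/
def LabI (D : LD N) (x₁ x₂ : S3) {G : Type} [AddCommGroup G] (c : S3 → S3 → G) (j : G) : Prop :=
  ∃ h b : S3 → G, IsP D.O c h ∧ Sft (gn p) D.O h 0 ∧ IsP D.B c b ∧
    j = (h x₂ - b x₂) - (h x₁ - b x₁)

/-- A normalised integral lift. -/
def Good (r : ZMod p) (a : EV N × ℝ) (c : S3 → S3 → ℤ) (s : S3 → ZMod p) : Prop :=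
  ZL p (gn p) (U f a) r c s ∧ U f a ≠ univ ∧
    (¬Lf p (U f a) → ∃ m : ℕ, 2 * m < p ∧ Ord (gn p) (U f a) c m)

/-- The total space of a family. -/
def EE {P : Type} (Ψ : P → EV N × ℝ) (A : Set P) : Set (P × S3) :=
  {e | e.1 ∈ A ∧ e.2 ∈ U f (Ψ e.1)}

/-- The action on the total space. -/
noncomputable def gE {P : Type} : P × S3 → P × S3 := fun e => (e.1, gn p e.2)

/-- Restriction to a fibre. -/
def fib {P T : Type} (c : P × S3 → P × S3 → T) (b : P) : S3 → S3 → T := fun x y => c (b, x) (b, y)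

/-- A family of normalised lifts. -/
def Fam {P : Type} [TopologicalSpace P] (r : ZMod p) (Ψ : P → EV N × ℝ) (A : Set P)
    (c : P × S3 → P × S3 → ℤ) (s : P × S3 → ZMod p) : Prop :=
  ZL p (gE p) (EE f Ψ A) r c s ∧ ∀ b ∈ A, Good f p r (Ψ b) (fib c b) fun x => s (b, x)

/-- Points of the level set near which `s` is not constant. -/
def Bad {T : Type} (a : EV N × ℝ) (s : S3 → T) : Set S3 :=
  {x | ⟪a.1, f x⟫ = a.2 ∧ ¬∃ n ∈ 𝓝 x, ∃ k, ∀ y ∈ n ∩ U f a, s y = k}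

/-- All nearby half-spaces which contain `y` with a margin are not liftable. -/
def Strong (a : EV N × ℝ) (y : EV N) : Prop :=
  ∀ δ > (0 : ℝ), ∃ R > (0 : ℝ), ∀ b ∈ Cone (-a) y δ R, ¬Lf p (U f (-b))

/-- The face where the height function is minimal. -/
def Face (v : EV N) : Set S3 := {x | ⟪v, f x⟫ = mn f v}

/-- The complement of the face is liftable. -/
def Z0 (v : EV N) : Prop := Lf p (U f (-v, -mn f v))

variable {f p} {D : LD N}

lemma Loc.K_sub (L : Loc f p D) : D.K f ⊆ D.Os ∩ D.B := fun y hy => by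
  have hr := L.r_pos
  refine ⟨(L.covS hy.1).resolve_right fun h => ?_, by
    have := hy.2.2
    show dist y D.z < 3 * D.r
    linarith⟩
  obtain ⟨k, hk⟩ := mem_iUnion.1 h
  rw [mem_ball] at hk
  by_cases h0 : k = 0
  · rw [h0, sh_zero] at hk
    exact not_lt.2 hy.2.1 hk
  · have := dist_triangle_left (sh k D.z) D.z y
    linarith [L.gap k h0, hy.2.2]

lemma LD.isCompact_K (hf : Continuous f) (D : LD N) : IsCompact (D.K f) :=
  ((isClosed_Ucl hf _).inter (isClosed_Icc.preimage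
    (show Continuous fun y : S3 => dist y D.z by fun_prop))).isCompact

lemma Loc.U0_sub (L : Loc f p D) : D.U0 f ⊆ D.U1 f := U_up_mono _ L.k₀_le

lemma Loc.U1_sub (L : Loc f p D) : D.U1 f ⊆ U f (up D.a D.ε) := U_up_mono _ L.k₁_le

lemma Loc.ball_eq (L : Loc f p D) {y : S3} {k l : ZMod p} (hk : y ∈ ball (sh k D.z) (3 * D.r))
    (hl : y ∈ ball (sh l D.z) (3 * D.r)) : k = l :=
  Q1.ball_eq (fun k hk => by linarith [L.gap k hk]) hk hl

lemma LD.maps_B (D : LD N) (k : ZMod p) : MapsTo (sh k) D.B (ball (sh k D.z) (3 * D.r)) :=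
  fun y hy => by rwa [mem_ball, dist_sh]

lemma LD.Ext.map {T T' : Type} {e : S3 → T} (h : D.Ext f e) (φ : T → T') :
    D.Ext f fun y => φ (e y) :=
  let ⟨k, h1, h2⟩ := h; ⟨fun y => φ (k y), h1.map φ, fun y hy => congrArg φ (h2 y hy)⟩

lemma LD.Ext.congr {T : Type} {e e' : S3 → T} (h : D.Ext f e) (he : ∀ y ∈ D.K f, e y = e' y) :
    D.Ext f e' :=
  let ⟨k, h1, h2⟩ := h; ⟨k, h1, fun y hy => (h2 y hy).trans (he y hy)⟩

lemma Good.add_const {r : ZMod p} {a : EV N × ℝ} {c : S3 → S3 → ℤ} {s : S3 → ZMod p}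
    (h : Good f p r a c s) (d : ZMod p) : Good f p r a c fun x => s x + d :=
  ⟨⟨h.1.1, h.1.2.1, h.1.2.2.1.add_lc (LC.const _ d), fun x hx => by
    simp only [h.1.2.2.2 x hx]; ring⟩, h.2⟩

lemma EE_mono {P : Type} (Ψ : P → EV N × ℝ) {A A' : Set P} (h : A ⊆ A') : EE f Ψ A ⊆ EE f Ψ A' :=
  fun _ he => ⟨h he.1, he.2⟩

lemma Fam.mono {P : Type} [TopologicalSpace P] {r : ZMod p} {Ψ : P → EV N × ℝ} {A A' : Set P}
    {c : P × S3 → P × S3 → ℤ} {s : P × S3 → ZMod p} (H : Fam f p r Ψ A c s) (h : A' ⊆ A) :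
    Fam f p r Ψ A' c s := ⟨H.1.mono (EE_mono Ψ h), fun b hb => H.2 b (h hb)⟩

lemma isOpen_EE {P : Type} [TopologicalSpace P] (hf : Continuous f) {Ψ : P → EV N × ℝ}
    (hΨ : Continuous Ψ) : IsOpen (EE f Ψ univ) := by
  have : EE f Ψ univ = {e : P × S3 | ⟪(Ψ e.1).1, f e.2⟫ < (Ψ e.1).2} := by
    ext e; simp [EE, U]
  rw [this]
  exact isOpen_lt (by fun_prop) (by fun_prop)

lemma EE_eq {P : Type} (Ψ : P → EV N × ℝ) (A : Set P) : EE f Ψ A = A ×ˢ univ ∩ EE f Ψ univ := by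
  ext e; simp [EE]

end loc

end Pool.Agent.P.MP_c88051_gt.Q1
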