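import Pool.Agent.P.MP_c88051_gt.Q1.BaseL

/-! Statements of the steps which do not mention chains. -/

set_option autoImplicit false

namespace Pool.Agent.P.MP_c88051_gt.Q1

open Set Filter Topology Metric
open scoped RealInnerProductSpace

-- deps:
/-- Points away from `y₀` and not much above the level lie in a half-space of the cone. -/
def S_COVER : Prop :=
  ∀ {N : ℕ} (a : EV N × ℝ) (y₀ : EV N), ⟪a.1, y₀⟫ = a.2 → ∀ ρ > (0 : ℝ), ∃ δ > (0 : ℝ), δ < 1 ∧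
    ∀ R > (0 : ℝ), ∃ κ > (0 : ℝ), ∀ y : EV N, ρ ≤ ‖y - y₀‖ → ⟪a.1, y⟫ ≤ a.2 + κ →
      ∃ b ∈ Cone a y₀ δ R, ⟪b.1, y⟫ < b.2

-- deps:
/-- Normalised potentials glue over a convex family. -/
def S_GLUE : Prop :=
  ∀ {p : ℕ} [NeZero p] {F : Type} [Field F] {N : ℕ} {f : S3 → EV N}, Sys f p F →
    ∀ {G : Type} [AddCommGroup G] (c : S3 → S3 → G) (θ : ZMod p → G) (x : S3)
      (C : Set (EV N × ℝ)), Convex ℝ C → C.Nonempty →
      (∀ a ∈ C, x ∈ U f a ∧ ∃ h, IsP (U f a) c h ∧ ∀ k, h (sh k x) = θ k) →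
      ∃ h, IsP (UC f C) c h ∧ ∀ k, h (sh k x) = θ k

-- deps: COVER
/-- The geometry of a localisation. -/
def S_LOC : Prop :=
  ∀ {p : ℕ} [NeZero p] {F : Type} [Field F] {N : ℕ} {f : S3 → EV N}, Sys f p F →
    ∀ (a : EV N × ℝ) (y₀ : EV N) (x : S3) (R : ℝ → ℝ) (ε : ℝ), ⟪a.1, y₀⟫ = a.2 → x ∈ U f a →
      (∀ δ > 0, 0 < R δ) → 0 < ε → ∃ (D : LD N) (δ R₁ R₂ : ℝ), D.a = a ∧ D.x = x ∧ D.ε = ε ∧
        0 < δ ∧ R₂ ≤ R₁ ∧ R₁ ≤ R δ ∧ (Cone a y₀ δ R₂).Nonempty ∧ (∀ b ∈ Cone a y₀ δ R₁, x ∈ U f b) ∧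
        D.O = UC f (Cone a y₀ δ R₁) ∧ D.Os = UC f (Cone a y₀ δ R₂) ∧ Loc f p D

-- deps:
/-- The cocycle attached to a locally constant function on an overlap. -/
def S_CECH : Prop :=
  ∀ {Y G : Type} [TopologicalSpace Y] [AddCommGroup G] (O O₁ O₂ D : Set Y) (e : Y → G),
    (∀ x ∈ O, x ∈ closure D → O₂ ∈ 𝓝[O] x) → (∀ x ∈ O, x ∈ closure Dᶜ → O₁ ∈ 𝓝[O] x) →
    LC (O ∩ O₁ ∩ O₂) e → IsC O (cech D e) ∧ IsP (O ∩ O₁) (cech D e) (fun x => -D.indicator e x) ∧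
      IsP (O ∩ O₂) (cech D e) (Dᶜ.indicator e)

-- deps: CECH
/-- The use of tightness in degree one at a localisation. -/
def S_CE : Prop :=
  ∀ {p : ℕ} [NeZero p] {F : Type} [Field F] {N : ℕ} {f : S3 → EV N}, Sys f p F →
    ∀ D : LD N, Loc f p D → ∀ e : S3 → F, LC (D.O ∩ D.B) e →
      ∃ (l : F) (H k : S3 → F), LC D.Os H ∧ Sft (gn p) D.Os H l ∧ LC (D.U1 f ∩ D.B) k ∧
        ∀ y ∈ D.Os ∩ D.B, e y = H y - k y

-- deps:
/-- A function extends if the indicators of its values extend. -/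
def S_EXT : Prop :=
  ∀ {Y T : Type} [TopologicalSpace Y] [Nonempty T] (K B : Set Y) (d : Y → T), IsCompact K →
    LC K d → (∀ ν, ∃ q : Y → Prop, LC B q ∧ ∀ x ∈ K, q x ↔ d x = ν) →
    ∃ k : Y → T, LC B k ∧ ∀ x ∈ K, k x = d x

-- deps:
-- imports: Pool.Agent.Lib.Helper83.Coc
/-- Cocycles on convex sets have potentials. -/
def S_CVX : Prop :=
  ∀ {E G : Type} [NormedAddCommGroup E] [NormedSpace ℝ E] [AddCommGroup G] (D : Set E)
    (c : E → E → G), Convex ℝ D → IsC D c → ∃ h, IsP D c h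

-- deps: CVX
/-- Small balls of the sphere. -/
def S_BALL : Prop :=
  ∀ {G : Type} [AddCommGroup G] (z : S3) (ρ : ℝ), ρ ≤ 1 → ∀ c : S3 → S3 → G,
    IsC (ball z ρ) c → ∃ h, IsP (ball z ρ) c h

-- deps:
/-- Gluing the balls in. -/
def S_GL : Prop :=
  ∀ {p : ℕ} [NeZero p] {F : Type} [Field F] {N : ℕ} {f : S3 → EV N}, Sys f p F →
    ∀ D : LD N, Loc f p D → ∀ {G : Type} [AddCommGroup G] (c : S3 → S3 → G) (h : S3 → G)
      (b : ZMod p → S3 → G), IsP D.O c h → (∀ j, IsP (ball (sh j D.z) (3 * D.r)) c (b j)) →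
      (∀ j, D.Ext f fun y => h (sh j y) - b j (sh j y)) →
      ∃ h', IsP (D.U0 f) c h' ∧ ∀ k : ZMod p, h' (sh k D.x) = h (sh k D.x)

-- deps: LOC GLUE CE EXT BALL GL
/-- At a localised jump of a potential property, liftability over the field jumps. -/
def S_JL : Prop :=
  ∀ {p : ℕ} [NeZero p] {F : Type} [Field F] {N : ℕ} {f : S3 → EV N}, Sys f p F →
    ∀ {G : Type} [AddCommGroup G] (c : S3 → S3 → G) (θ : ZMod p → G) (x : S3) (a : EV N × ℝ)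
      (y₀ : EV N) (ε : ℝ), 0 < ε → ⟪a.1, y₀⟫ = a.2 → x ∈ U f a → IsC (U f (up a ε)) c →
      (∀ δ > (0 : ℝ), ∃ R > (0 : ℝ), ∀ b ∈ Cone a y₀ δ R, x ∈ U f b → U f b ⊆ U f (up a ε) →
        ∃ h, IsP (U f b) c h ∧ ∀ k, h (sh k x) = θ k) →
      (∀ κ > (0 : ℝ), κ ≤ ε → ¬∃ h, IsP (U f (up a κ)) c h ∧ ∀ k, h (sh k x) = θ k) →
      LiftTo F (gn p) (U f a) ∧ ∀ κ > (0 : ℝ), ¬LiftTo F (gn p) (U f (up a κ))

-- deps:
/-- Points of differentiability of a level function are dense. -/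
def S_DIFF : Prop :=
  ∀ {N : ℕ} {f : S3 → EV N}, Continuous f → ∀ P : Set S3 → Prop, Mon P → ∀ W : Set (EV N),
    IsOpen W → W.Nonempty → ∃ v ∈ W, ∃ y₀ : EV N, ⟪v, y₀⟫ = lev f P v ∧
      ∀ δ > (0 : ℝ), ∃ R > (0 : ℝ), ∀ b ∈ Cone (v, lev f P v) y₀ δ R, P (U f b)

-- deps: DIFF COVER
/-- Directions whose minimum is attained on one orbit are dense. -/
def S_SMALL : Prop :=
  ∀ {p : ℕ} [NeZero p] {F : Type} [Field F] {N : ℕ} {f : S3 → EV N}, Sys f p F →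
    ∀ W : Set (EV N), IsOpen W → W.Nonempty → ∃ v ∈ W, ∃ z : S3, ⟪v, f z⟫ = mn f v ∧
      ∀ ρ > (0 : ℝ), ∃ κ > (0 : ℝ), U f (v, mn f v + κ) ⊆ ⋃ k : ZMod p, ball (sh k z) ρ

-- deps: GLUE
/-- Liftability passes to increasing unions. -/
def S_LIFTC : Prop :=
  ∀ {p : ℕ} [NeZero p] {F : Type} [Field F] {N : ℕ} {f : S3 → EV N}, Sys f p F →
    (∀ (A : Type) [CommRing A] (a : EV N × ℝ),
      (∀ ε > (0 : ℝ), LiftTo A (gn p) (U f (up a (-ε)))) → LiftTo A (gn p) (U f a)) ∧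
    (∀ v t, Lf p (U f (v, t)) ↔ t ≤ cL f p v) ∧
    ∀ a, ¬Lf p (U f a) → ∃ ε > (0 : ℝ), ¬Lf p (U f (up a (-ε)))

-- deps: JL DIFF SMALL LIFTC
/-- All notions of liftability agree. -/
def S_LQ : Prop :=
  ∀ {p : ℕ} [NeZero p] {F : Type} [Field F] {N : ℕ} {f : S3 → EV N}, Sys f p F →
    (p : F) = 0 ∧ ∀ (A : Type) [CommRing A] [Nontrivial A], (p : A) = 0 →
      ∀ a, LiftTo A (gn p) (U f a) → Lf p (U f a)

-- deps: LQ
/-- Sets which are not liftable are connected. -/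
def S_CONN : Prop :=
  ∀ {p : ℕ} [NeZero p] {F : Type} [Field F] {N : ℕ} {f : S3 → EV N}, Sys f p F →
    ∀ a, ¬Lf p (U f a) → ∀ {T : Type} (h : S3 → T), LC (U f a) h →
      ∀ x ∈ U f a, ∀ y ∈ U f a, h x = h y

-- deps: JL DIFF SMALL LQ GLUE LIFTC
/-- On liftable sets all cocycles have potentials. -/
def S_Z1 : Prop :=
  ∀ {p : ℕ} [NeZero p] {F : Type} [Field F] {N : ℕ} {f : S3 → EV N}, Sys f p F →
    ∀ {G : Type} [AddCommGroup G] (a : EV N × ℝ) (c : S3 → S3 → G) (θ : ZMod p → G) (x : S3),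
      Lf p (U f a) → IsC (U f a) c → x ∈ U f a → ∃ h, IsP (U f a) c h ∧ ∀ k, h (sh k x) = θ k

-- deps: JL DIFF LQ CONN LIFTC GLUE
/-- No further jump above the first one. -/
def S_NJ : Prop :=
  ∀ {p : ℕ} [NeZero p] {F : Type} [Field F] {N : ℕ} {f : S3 → EV N}, Sys f p F →
    ∀ {G : Type} [AddCommGroup G] (a b : EV N × ℝ) (c : S3 → S3 → G) (h : S3 → G),
      U f b ⊆ U f a → U f a ≠ univ → ¬Lf p (U f b) → IsC (U f a) c → IsP (U f b) c h →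
      ∃ h', IsP (U f a) c h' ∧ ∀ y ∈ U f b, h' y = h y

-- deps: DIFF SMALL LOC GLUE Z1 LIFTC
/-- A localised birth inside a set which is not liftable. -/
def S_BIRTH1 : Prop :=
  ∀ {p : ℕ} [NeZero p] {F : Type} [Field F] {N : ℕ} {f : S3 → EV N}, Sys f p F →
    ∀ a₀, ¬Lf p (U f a₀) → ∃ D s, Pre f p a₀ D s

-- deps: CE EXT GL LQ
/-- The edge which is born. -/
def S_BIRTH2 : Prop :=
  ∀ {p : ℕ} [NeZero p] {F : Type} [Field F] {N : ℕ} {f : S3 → EV N}, Sys f p F →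
    ∀ a₀ D s, Pre f p a₀ D s → ∃ x₁ x₂, Post f p D s x₁ x₂

-- deps:
/-- Cochains of sum zero on a cycle are coboundaries. -/
def S_CYC : Prop :=
  ∀ {p : ℕ} [NeZero p] {G : Type} [AddCommGroup G] (u : ZMod p), IsUnit u → ∀ J : ZMod p → G,
    ∑ k, J k = 0 → ∃ θ : ZMod p → G, ∀ k, θ (k + u) - θ k = J k

-- deps: BALL GL NJ CYC
/-- A cocycle has a potential if and only if its labels add up to zero. -/
def S_BA1 : Prop :=
  ∀ {p : ℕ} [NeZero p] {F : Type} [Field F] {N : ℕ} {f : S3 → EV N}, Sys f p F →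
    ∀ a₀ D s x₁ x₂, Pre f p a₀ D s → Post f p D s x₁ x₂ → U f a₀ ≠ univ →
      ∀ {G : Type} [AddCommGroup G] (c : S3 → S3 → G), IsC (U f a₀) c →
        (∃ J, Lab p D x₁ x₂ c J) ∧
          ∀ J, Lab p D x₁ x₂ c J → ((∃ h, IsP (U f a₀) c h) ↔ ∑ j, J j = 0)

-- deps: BALL GL NJ
/-- The label of an invariant cocycle decides the shift of its potentials. -/
def S_BA2 : Prop :=
  ∀ {p : ℕ} [NeZero p] {F : Type} [Field F] {N : ℕ} {f : S3 → EV N}, Sys f p F →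
    ∀ a₀ D s x₁ x₂, Pre f p a₀ D s → Post f p D s x₁ x₂ → U f a₀ ≠ univ →
      ∀ {G : Type} [AddCommGroup G] (c : S3 → S3 → G), IsC (U f a₀) c → Inv2 (gn p) (U f a₀) c →
        (∃ j, LabI p D x₁ x₂ c j) ∧ ∀ j, LabI p D x₁ x₂ c j → Lab p D x₁ x₂ c (fun _ => j) ∧
          ∀ l : G, p • l = 0 → ((∃ h, IsP (U f a₀) c h ∧ Sft (gn p) (U f a₀) h l) ↔
            j = (((s x₁).val : ℤ) - (s x₂).val) • l)

-- deps: BIRTH1 BIRTH2 BA1 BA2
/-- The degree of integral cocycles on a set which is not liftable. -/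
def S_BA : Prop :=
  ∀ {p : ℕ} [NeZero p] {F : Type} [Field F] {N : ℕ} {f : S3 → EV N}, Sys f p F →
    ∀ a, ¬Lf p (U f a) → U f a ≠ univ → ∃ (κ : ZMod p) (dg : (S3 → S3 → ℤ) → ℤ), IsUnit κ ∧
      (∀ c c', IsC (U f a) c → IsC (U f a) c' → dg (c + c') = dg c + dg c') ∧
      (∀ c (k : ℤ), IsC (U f a) c → dg (k • c) = k * dg c) ∧
      (∀ c (k : ZMod p), IsC (U f a) c → dg (fun x y => c (sh k x) (sh k y)) = dg c) ∧
      (∀ c (n : ℕ), IsC (U f a) c → (Pot (U f a) n c ↔ (n : ℤ) ∣ dg c)) ∧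
      ∀ c, IsC (U f a) c → Inv2 (gn p) (U f a) c → ∃ j : ℤ, dg c = p * j ∧
        (∀ n : ℕ, IPot (gn p) (U f a) n c ↔ (n : ℤ) ∣ j) ∧
        ∀ l : ZMod p, (∃ σ, IsP (U f a) (cz p c) σ ∧ Sft (gn p) (U f a) σ l) ↔ (j : ZMod p) = l * κ

-- deps: BIRTH1 BIRTH2 BA1
/-- The first cohomology mod two has at most two elements. -/
def S_TWO : Prop :=
  ∀ {p : ℕ} [NeZero p] {F : Type} [Field F] {N : ℕ} {f : S3 → EV N}, Sys f p F →
    ∀ a, ¬Lf p (U f a) → U f a ≠ univ → ∀ α β : S3 → S3 → ZMod 2, IsC (U f a) α → IsC (U f a) β →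
      (¬∃ h, IsP (U f a) α h) → (¬∃ h, IsP (U f a) β h) → ∃ h, IsP (U f a) (α + β) h

-- deps: BIRTH1 BIRTH2 CECH
/-- A cocycle mod two without potential just after a birth. -/
def S_BA0 : Prop :=
  ∀ {p : ℕ} [NeZero p] {F : Type} [Field F] {N : ℕ} {f : S3 → EV N}, Sys f p F →
    ∀ a, ¬Lf p (U f a) → ∃ (b : EV N × ℝ) (α : S3 → S3 → ZMod 2), U f b ⊆ U f a ∧ ¬Lf p (U f b) ∧
      IsC (U f b) α ∧ ¬∃ h, IsP (U f b) α h

-- deps:
/-- Summation by parts on a box of cubes. -/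
def S_P3A : Prop :=
  ∀ {A : Type} [CommRing A] (K n M : ℕ) (u v w s : ℕ → ℕ → ℕ → A), 0 < K → 0 < n → 0 < M →
    (∀ i < K, ∀ j < n, ∀ k < M,
      u i j (k + 1) - u i j k - (v i (j + 1) k - v i j k) + (w (i + 1) j k - w i j k) = 0) →
    (∀ i j k, i + 1 < K → j < n → k < M → (s (i + 1) j k - s i j k) * w (i + 1) j k = 0) →
    (∀ i j k, i < K → j + 1 < n → k < M → (s i (j + 1) k - s i j k) * v i (j + 1) k = 0) →
    (∀ i j k, i < K → j < n → k + 1 < M → (s i j (k + 1) - s i j k) * u i j (k + 1) = 0) →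
    (∀ j < n, ∀ k < M, w 0 j k = 0 ∧ w K j k = 0) →
    (∀ i < K, ∀ k < M, v i n k = v i 0 k ∧ (s i (n - 1) k - s i 0 k) * v i 0 k = 0) →
    (∀ i < K, ∀ j < n, u i j M = u i j 0 ∧ (s i j (M - 1) - s i j 0 - 1) * u i j 0 = 0) →
    ∑ i ∈ Finset.range K, ∑ j ∈ Finset.range n, u i j 0 = 0

-- deps:
/-- A fine grid on a fundamental domain. -/
def S_P3B : Prop :=
  ∀ (p : ℕ) [NeZero p], ∀ ε > (0 : ℝ), ∃ (K M : ℕ) (Q : ℕ → ℕ → ℕ → S3), 0 < K ∧ 0 < M ∧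
    (∀ i j k i' j' k', i ≤ i' → i' ≤ i + 1 → j ≤ j' → j' ≤ j + 1 → k ≤ k' → k' ≤ k + 1 →
      dist (Q i' j' k') (Q i j k) < ε) ∧
    (∀ i j k, Q i j (k + M) = gn p (Q i j k)) ∧ (∀ i j k, Q i (j + p * M) k = Q i j k) ∧
    (∀ j k, Q 0 j k = Q 0 0 k) ∧ ∀ j k, Q K j k = Q K (j + k) 0

-- deps: P3A P3B
/-- A set with an integral lift and a liftable set do not cover the sphere. -/
def S_P3 : Prop :=
  ∀ {p : ℕ} [NeZero p] (O O' : Set S3) (r : ZMod p) (c : S3 → S3 → ℤ) (s : S3 → ZMod p),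
    IsOpen O → IsOpen O' → MapsTo (gn p) O O → O ∪ O' = univ → ZL p (gn p) O r c s → r ≠ 0 →
    ¬Lf p O'

-- deps: P3 CECH
/-- Three liftable open sets do not cover the sphere. -/
def S_P3L : Prop :=
  ∀ {p : ℕ} [NeZero p], 2 ≤ p → ∀ O₁ O₂ O₃ : Set S3, IsOpen O₁ → IsOpen O₂ → IsOpen O₃ →
    MapsTo (gn p) O₁ O₁ → MapsTo (gn p) O₂ O₂ → Lf p O₁ → Lf p O₂ → Lf p O₃ → O₁ ∪ O₂ ∪ O₃ ≠ univ

-- deps:
/-- A liftable set has a liftable open neighbourhood. -/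
def S_NBHD : Prop :=
  ∀ {p : ℕ} [NeZero p] (A : Set S3), MapsTo (gn p) A A → Lf p A →
    ∃ O, IsOpen O ∧ MapsTo (gn p) O O ∧ A ⊆ O ∧ Lf p O

-- deps:
/-- A chart whose image is the complement of a given point. -/
def S_CHART : Prop :=
  ∀ z : S3, ∃ ι : (Fin 3 → ℝ) → S3, IsOpenEmbedding ι ∧ range ι = {z}ᶜ ∧
    ∀ n ∈ 𝓝 z, ∃ B : ℕ, ∀ y, (B : ℝ) ≤ ‖y‖ → ι y ∈ n

-- deps: NJ
/-- Restriction of normalised lifts. -/
def S_GRES : Prop :=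
  ∀ {p : ℕ} [NeZero p] {F : Type} [Field F] {N : ℕ} {f : S3 → EV N}, Sys f p F →
    ∀ a b, U f b ⊆ U f a →
      (U f a ≠ univ → ¬Lf p (U f b) → ∀ c, IsC (U f a) c → Inv2 (gn p) (U f a) c →
        ∀ m, Ord (gn p) (U f a) c m ↔ Ord (gn p) (U f b) c m) ∧
      ∀ r c s, Good f p r a c s → Good f p r b c s

-- deps: Z1 BA
/-- Uniqueness of normalised lifts. -/
def S_GUQ : Prop :=
  ∀ {p : ℕ} [NeZero p] {F : Type} [Field F] {N : ℕ} {f : S3 → EV N}, Sys f p F →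
    ∀ r a c s c' s', Good f p r a c s → Good f p r a c' s' → IPotZ (gn p) (U f a) (c - c')

-- deps:
/-- Invariant locally constant functions on the total space of a family are constant. -/
def S_ECONN : Prop :=
  ∀ {p : ℕ} [NeZero p] {F : Type} [Field F] {N : ℕ} {f : S3 → EV N}, Sys f p F →
    ∀ {P T : Type} [TopologicalSpace P] (Ψ : P → EV N × ℝ) (A : Set P) (k : P × S3 → T),
      Continuous Ψ → IsPreconnected A → (∀ b ∈ A, (U f (Ψ b)).Nonempty) → LC (EE f Ψ A) k →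
      (∀ e ∈ EE f Ψ A, k (gE p e) = k e) → ∀ e ∈ EE f Ψ A, ∀ e' ∈ EE f Ψ A, k e = k e'

-- deps:
/-- Fibrewise invariant potentials give local invariant potentials. -/
def S_LUQ : Prop :=
  ∀ {p : ℕ} [NeZero p] {F : Type} [Field F] {N : ℕ} {f : S3 → EV N}, Sys f p F →
    ∀ {P : Type} [TopologicalSpace P] (Ψ : P → EV N × ℝ) (A : Set P) (d : P × S3 → P × S3 → ℤ),
      Continuous Ψ → IsC (EE f Ψ A) d → Inv2 (gE p) (EE f Ψ A) d →
      (∀ b ∈ A, IPotZ (gn p) (U f (Ψ b)) (fib d b)) → ∀ b₀ ∈ A, (U f (Ψ b₀)).Nonempty →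
      ∃ n ∈ 𝓝 b₀, IPotZ (gE p) (EE f Ψ (A ∩ n)) d

-- deps:
/-- Induction over compact convex sets by overlapping cuts. -/
def S_BIS : Prop :=
  ∀ {n : ℕ} (A₀ : Set (Fin n → ℝ)) (Q : Set (Fin n → ℝ) → Prop), IsCompact A₀ → Convex ℝ A₀ →
    A₀.Nonempty → (∀ b ∈ A₀, ∃ m ∈ 𝓝 b, ∀ A ⊆ A₀ ∩ m, Q A) →
    (∀ A ⊆ A₀, IsCompact A → Convex ℝ A → ∀ (i : Fin n) (μ ε : ℝ), 0 < ε →
      Q (A ∩ {b | b i ≤ μ + ε}) → Q (A ∩ {b | μ - ε ≤ b i}) → Q A) → Q A₀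

-- deps: LUQ ECONN BIS
/-- Fibrewise invariant potentials over a compact convex base give an invariant potential. -/
def S_UQB : Prop :=
  ∀ {p : ℕ} [NeZero p] {F : Type} [Field F] {N : ℕ} {f : S3 → EV N}, Sys f p F →
    ∀ {n : ℕ} (Ψ : (Fin n → ℝ) → EV N × ℝ) (A : Set (Fin n → ℝ))
      (d : (Fin n → ℝ) × S3 → (Fin n → ℝ) × S3 → ℤ), Continuous Ψ → IsCompact A → Convex ℝ A →
      (∀ b ∈ A, (U f (Ψ b)).Nonempty) → IsC (EE f Ψ A) d → Inv2 (gE p) (EE f Ψ A) d →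
      (∀ b ∈ A, IPotZ (gn p) (U f (Ψ b)) (fib d b)) → IPotZ (gE p) (EE f Ψ A) d

-- deps: GUQ UQB ECONN
/-- Gluing two families. -/
def S_GLUE2 : Prop :=
  ∀ {p : ℕ} [NeZero p] {F : Type} [Field F] {N : ℕ} {f : S3 → EV N}, Sys f p F →
    ∀ {n : ℕ} (r : ZMod p) (Ψ : (Fin n → ℝ) → EV N × ℝ) (A : Set (Fin n → ℝ)), Continuous Ψ →
      IsCompact A → Convex ℝ A → (∀ b ∈ A, (U f (Ψ b)).Nonempty) → ∀ (i : Fin n) (μ ε : ℝ), 0 < ε →
      (∃ c s, Fam f p r Ψ (A ∩ {b | b i ≤ μ + ε}) c s) →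
      (∃ c s, Fam f p r Ψ (A ∩ {b | μ - ε ≤ b i}) c s) → ∃ c s, Fam f p r Ψ A c s

-- deps: GRES GUQ LIFTC
/-- The order is constant along connected families. -/
def S_KC : Prop :=
  ∀ {p : ℕ} [NeZero p] {F : Type} [Field F] {N : ℕ} {f : S3 → EV N}, Sys f p F →
    ∀ {P : Type} [TopologicalSpace P] (r : ZMod p) (Ψ : P → EV N × ℝ) (S : Set P)
      (c : P → S3 → S3 → ℤ) (s : P → S3 → ZMod p), Continuous Ψ → IsPreconnected S →
      (∀ b ∈ S, Good f p r (Ψ b) (c b) (s b) ∧ ¬Lf p (U f (Ψ b))) → ∀ b ∈ S, ∀ b' ∈ S, ∀ m,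
      Ord (gn p) (U f (Ψ b)) (c b) m → Ord (gn p) (U f (Ψ b')) (c b') m

-- deps:
/-- A real function whose jumps are a given integral cocycle. -/
def S_CIRC : Prop :=
  ∀ {Y : Type} [MetricSpace Y] (E : Set Y) (c : Y → Y → ℤ), IsC E c →
    ∃ φ : Y → ℝ, ∀ x ∈ E, ContinuousWithinAt (fun y => φ y - c x y) E x

-- deps: BA
/-- The quotient by `p` of a primitive lift is odd. -/
def S_ODD : Prop :=
  ∀ {p : ℕ} [NeZero p] {F : Type} [Field F] {N : ℕ} {f : S3 → EV N}, Sys f p F →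
    ∀ a (c c' : S3 → S3 → ℤ) (k : S3 → ℤ), ¬Lf p (U f a) → U f a ≠ univ → IsC (U f a) c →
      Inv2 (gn p) (U f a) c → Ord (gn p) (U f a) c 1 → IsC (U f a) c' →
      IsP (U f a) (c - (p : ℤ) • c') k → ¬Pot (U f a) 2 c'

-- deps:
/-- In the tame case bad points are strongly bad. -/
def S_LA1 : Prop :=
  ∀ {p : ℕ} [NeZero p] {F : Type} [Field F] {N : ℕ} {f : S3 → EV N}, Sys f p F → Tame f →
    ∀ (a : EV N × ℝ) (s : S3 → ZMod p), LC (U f a) s → Sft (gn p) (U f a) s 1 →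
      ∀ x ∈ Bad f a s, Strong f p a (f x)

-- deps: CVX
/-- Sets with convex image. -/
def S_LA3A : Prop :=
  ∀ {p : ℕ} [NeZero p] {F : Type} [Field F] {N : ℕ} {f : S3 → EV N}, Sys f p F →
    ∀ K : Set S3, IsClosed K → MapsTo (gn p) K K → Convex ℝ (f '' K) → Lf p K ∧
      ∀ {T : Type} (h : S3 → T), LC K h → (∀ x ∈ K, h (gn p x) = h x) → ∀ x ∈ K, ∀ y ∈ K, h x = h y

-- deps: LA3A
/-- Unions of two sets with convex image. -/
def S_LA3 : Prop :=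
  ∀ {p : ℕ} [NeZero p] {F : Type} [Field F] {N : ℕ} {f : S3 → EV N}, Sys f p F →
    ∀ K K' : Set S3, IsClosed K → IsClosed K' → MapsTo (gn p) K K → MapsTo (gn p) K' K' →
      Convex ℝ (f '' K) → Convex ℝ (f '' K') → Lf p (K ∪ K')

-- deps:
/-- Sets which embed in a line modulo the group are liftable. -/
def S_LINE : Prop :=
  ∀ {p : ℕ} [NeZero p] (K : Set S3) (φ : S3 → ℝ), IsClosed K → MapsTo (gn p) K K → Continuous φ →
    (∀ x, φ (gn p x) = φ x) → (∀ x ∈ K, ∀ y ∈ K, φ x = φ y → ∃ k : ZMod p, y = sh k x) → Lf p K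

-- deps: LINE NBHD
/-- Planar sets are covered by two liftable open sets. -/
def S_PL2 : Prop :=
  ∀ {p : ℕ} [NeZero p] {F : Type} [Field F] {N : ℕ} {f : S3 → EV N}, Sys f p F →
    ∀ K : Set S3, IsClosed K → MapsTo (gn p) K K → Module.finrank ℝ (Dir f K) ≤ 2 →
      ∃ O₁ O₂, IsOpen O₁ ∧ IsOpen O₂ ∧ MapsTo (gn p) O₁ O₁ ∧ MapsTo (gn p) O₂ O₂ ∧ Lf p O₁ ∧
        Lf p O₂ ∧ K ⊆ O₁ ∪ O₂

-- deps: CHART
-- imports: Pool.Agent.P.MP_56563a_an.BU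
/-- Dimensions of the image. -/
def S_G12 : Prop :=
  ∀ {p : ℕ} [NeZero p] {F : Type} [Field F] {N : ℕ} {f : S3 → EV N}, Sys f p F →
    (∀ (z : S3) (ρ : ℝ), 0 < ρ → 3 ≤ Module.finrank ℝ (Dir f (ball z ρ))) ∧
      4 ≤ Module.finrank ℝ (Dir f univ)

-- deps:
/-- A frame in general position. -/
def S_G4 : Prop :=
  ∀ {N : ℕ} (D : ℕ → Submodule ℝ (EV N)) (D₀ : Submodule ℝ (EV N)),
    (∀ i, 3 ≤ Module.finrank ℝ (D i)) → 4 ≤ Module.finrank ℝ D₀ →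
    ∃ (L : (Fin 3 → ℝ) →L[ℝ] EV N) (e : EV N), (∀ i b, L b ∈ (D i)ᗮ → b = 0) ∧
      ∀ b (s : ℝ), L b + s • e ∈ D₀ᗮ → b = 0 ∧ s = 0

-- deps: PL2 P3L
/-- A face with liftable complement has dimension at least three. -/
def S_G5B : Prop :=
  ∀ {p : ℕ} [NeZero p] {F : Type} [Field F] {N : ℕ} {f : S3 → EV N}, Sys f p F →
    ∀ v, Z0 f p v → 3 ≤ Module.finrank ℝ (Dir f (Face f v))

-- deps: BA
/-- A primitive integral lift from an odd cocycle. -/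
def S_EXP1 : Prop :=
  ∀ {p : ℕ} [NeZero p] {F : Type} [Field F] {N : ℕ} {f : S3 → EV N}, Sys f p F →
    ∀ a (β : S3 → S3 → ℤ), ¬Lf p (U f a) → U f a ≠ univ → IsC (U f a) β → ¬Pot (U f a) 2 β →
      ∃ r c s, IsUnit r ∧ ZL p (gn p) (U f a) r c s ∧ Ord (gn p) (U f a) c 1

-- deps: BA0 NJ LIFTC DL PINV
/-- An odd integral cocycle. -/
def S_EXP : Prop :=
  ∀ {p : ℕ} [NeZero p] {F : Type} [Field F] {N : ℕ} {f : S3 → EV N}, Sys f p F →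
    ∀ a, ¬Lf p (U f a) → ¬Lf p (U f (-a)) → ∃ β : S3 → S3 → ℤ, IsC (U f a) β ∧ ¬Pot (U f a) 2 β

-- deps: EXP EXP1 BA
/-- Existence of normalised lifts. -/
def S_EXG : Prop :=
  ∀ {p : ℕ} [NeZero p] {F : Type} [Field F] {N : ℕ} {f : S3 → EV N}, Sys f p F →
    ∀ a (r : ZMod p), ¬Lf p (U f (-a)) → IsUnit r → ∃ c s, Good f p r a c s

-- deps: EXG GRES GLUE2 BIS LIFTC
/-- Existence of families over compact convex sets. -/
def S_FAM : Prop :=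
  ∀ {p : ℕ} [NeZero p] {F : Type} [Field F] {N : ℕ} {f : S3 → EV N}, Sys f p F →
    ∀ {n : ℕ} (r : ZMod p) (Ψ : (Fin n → ℝ) → EV N × ℝ) (A : Set (Fin n → ℝ)), IsUnit r →
      Continuous Ψ → IsCompact A → Convex ℝ A →
      (∀ b ∈ A, ¬Lf p (U f (-Ψ b)) ∧ (U f (Ψ b)).Nonempty) → ∃ c s, Fam f p r Ψ A c s

-- deps: FAM
/-- An integral lift near a compact part of the union of a convex family. -/
def S_FAM1 : Prop :=
  ∀ {p : ℕ} [NeZero p] {F : Type} [Field F] {N : ℕ} {f : S3 → EV N}, Sys f p F →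
    ∀ (C : Set (EV N × ℝ)) (x : S3) (K : Set S3), Convex ℝ C →
      (∀ b ∈ C, ¬Lf p (U f (-b)) ∧ x ∈ U f b) → IsCompact K → K ⊆ UC f C →
      ∃ O c s, IsOpen O ∧ MapsTo (gn p) O O ∧ K ⊆ O ∧ ZL p (gn p) O 1 c s

-- deps: FAM1 P3 COVER
/-- Over a strongly bad point there is a bad point. -/
def S_LA2 : Prop :=
  ∀ {p : ℕ} [NeZero p] {F : Type} [Field F] {N : ℕ} {f : S3 → EV N}, Sys f p F →
    ∀ (a : EV N × ℝ) (s : S3 → ZMod p) (y : EV N), LC (U f a) s → Sft (gn p) (U f a) s 1 →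
      (U f (-a)).Nonempty → ⟪a.1, y⟫ = a.2 → Strong f p a y → ∃ x ∈ Bad f a s, f x = y

-- deps: LA1 LA2
/-- The bad set is closed, invariant, and has convex image. -/
def S_BADC : Prop :=
  ∀ {p : ℕ} [NeZero p] {F : Type} [Field F] {N : ℕ} {f : S3 → EV N}, Sys f p F → Tame f →
    ∀ (a : EV N × ℝ) (s : S3 → ZMod p), LC (U f a) s → Sft (gn p) (U f a) s 1 →
      (U f (-a)).Nonempty → IsClosed (Bad f a s) ∧ MapsTo (gn p) (Bad f a s) (Bad f a s) ∧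
        Convex ℝ (f '' Bad f a s)

-- deps: BADC LA3 NBHD P3L
/-- There are no ties with thin level set. -/
def S_LA : Prop :=
  ∀ {p : ℕ} [NeZero p] {F : Type} [Field F] {N : ℕ} {f : S3 → EV N}, Sys f p F → Tame f →
    ∀ a : EV N × ℝ, (U f a).Nonempty → (U f (-a)).Nonempty → Lf p (U f a) → Lf p (U f (-a)) →
      (interior {x | ⟪a.1, f x⟫ = a.2}).Nonempty

-- deps: LA
/-- Two different faces with liftable complement meet in a set with interior. -/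
def S_G5A : Prop :=
  ∀ {p : ℕ} [NeZero p] {F : Type} [Field F] {N : ℕ} {f : S3 → EV N}, Sys f p F → Tame f →
    ∀ v v', Z0 f p v → Z0 f p v' → Face f v ≠ univ → Face f v' ≠ univ → Face f v ≠ Face f v' →
      (interior (Face f v ∩ Face f v')).Nonempty

-- deps: LA G5A G5B G12
/-- The exceptional directions lie in countably many subspaces of codimension three. -/
def S_G5 : Prop :=
  ∀ {p : ℕ} [NeZero p] {F : Type} [Field F] {N : ℕ} {f : S3 → EV N}, Sys f p F → Tame f →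
    ∃ D : ℕ → Submodule ℝ (EV N), (∀ i, 3 ≤ Module.finrank ℝ (D i)) ∧
      (∀ a : EV N × ℝ, Lf p (U f a) → Lf p (U f (-a)) → ∃ i, a.1 ∈ (D i)ᗮ) ∧
      ∀ v v', Z0 f p v → Z0 f p v' → ∃ i, v ∈ (D i)ᗮ ∧ v' ∈ (D i)ᗮ

-- deps: G5 G4 G12 P3L LIFTC
/-- A sphere of directions without ties which bounds a hemisphere. -/
def S_G6 : Prop :=
  ∀ {p : ℕ} [NeZero p] {F : Type} [Field F] {N : ℕ} {f : S3 → EV N}, Sys f p F →
    Tame f → Frame f p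

/-- The sphere of the parameter space. -/
def SP : Set (Fin 3 → ℝ) := {v | ∑ i, |v i| = 1}

/-- The ball of the parameter space. -/
def DB : Set (Fin 3 → ℝ) := {v | ∑ i, |v i| ≤ 1}

/-- The base point of the parameter sphere. -/
def e0 : Fin 3 → ℝ := Pi.single 0 1

-- deps: LIFTC
/-- The family of half-spaces. -/
def S_G7 : Prop :=
  ∀ {p : ℕ} [NeZero p] {F : Type} [Field F] {N : ℕ} {f : S3 → EV N}, Sys f p F → Frame f p →
    ∃ Ψ : (Fin 3 → ℝ) → EV N × ℝ, Continuous Ψ ∧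
      (∀ b ∈ DB, ¬Lf p (U f (-Ψ b)) ∧ (U f (Ψ b)).Nonempty) ∧
      ∀ b ∈ SP, ¬Lf p (U f (Ψ b)) ∧ U f (Ψ b) ∪ U f (Ψ (-b)) = univ ∧
        ∃ a, U f a ⊆ U f (Ψ b) ∧ ¬Lf p (U f a) ∧
          Disjoint (closure (U f a)) (closure (U f (Ψ (-b))))

end Pool.Agent.P.MP_c88051_gt.Q1
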