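import Pool.Agent.P.MP_c88051_gt.Q1.IfaceA

/-! Steps SMALL, LIFTC, LQ, CONN, Z1, NJ, BIRTH1. -/

set_option autoImplicit false
set_option linter.unusedSectionVars false

namespace Pool.Agent.P.MP_c88051_gt.Q1

section SSMALL

open Set Filter Topology Metric
open scoped RealInnerProductSpace

theorem p_SMALL (hDIFF : S_DIFF) (hCOVER : S_COVER) :
    S_SMALL := by
  intro p _ F _ N f H W hW hne
  obtain ⟨v, hv, y₀, h1, h2⟩ := hDIFF H.cont _ mon_empty W hW hne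
  have key : ∀ η > (0 : ℝ), ∃ κ > (0 : ℝ), ∀ x, ⟪v, f x⟫ ≤ mn f v + κ → ‖f x - y₀‖ < η := by
    intro η hη
    obtain ⟨δ, hδ, -, h3⟩ := hCOVER (v, mn f v) y₀ h1 η hη
    obtain ⟨R, hR, h4⟩ := h2 δ hδ
    obtain ⟨κ, hκ, h5⟩ := h3 R hR
    refine ⟨κ, hκ, fun x hx => not_le.1 fun hn => ?_⟩
    obtain ⟨b, hb, h6⟩ := h5 (f x) hn hx
    exact eq_empty_iff_forall_notMem.1 (h4 b hb) x h6
  obtain ⟨z, hz⟩ := exists_mn H.cont v
  have hy : f z = y₀ := by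
    by_contra hn
    obtain ⟨κ, hκ, h⟩ := key _ (norm_pos_iff.2 (sub_ne_zero.2 hn))
    exact lt_irrefl _ (h z (by linarith))
  refine ⟨v, hv, z, hz, fun ρ hρ => ?_⟩
  obtain ⟨η, hη, h⟩ := H.near_fibre (y := y₀) (z := z)
    (fun x hx => H.inj z x (hy.trans hx.symm)) hρ
  obtain ⟨κ, hκ, h'⟩ := key η hη
  exact ⟨κ, hκ, fun x hx => h x (h' x (le_of_lt hx))⟩

end SSMALL

section SLIFTC

open Set Filter Topology Metric
open scoped RealInnerProductSpace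

lemma liftc_one (hGLUE : S_GLUE) {p : ℕ} [NeZero p] {F : Type} [Field F] {N : ℕ}
    {f : S3 → EV N} (H : Sys f p F) (A : Type) [CommRing A] (a : EV N × ℝ)
    (h : ∀ ε > (0 : ℝ), LiftTo A (gn p) (U f (up a (-ε)))) : LiftTo A (gn p) (U f a) := by
  rcases (U f a).eq_empty_or_nonempty with e | ⟨x, hx⟩
  · rw [e]; exact liftTo_empty _ _
  have hx0 := mem_U.1 hx
  have hm : ∀ ε, ε < a.2 - ⟪a.1, f x⟫ → x ∈ U f (up a (-ε)) := fun ε hε => by
    rw [mem_U_up]; linarith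
  have hp : (p : A) = 0 := by
    obtain ⟨k, -, k2⟩ := h ((a.2 - ⟪a.1, f x⟫) / 2) (by linarith)
    simpa using k2.nsmul_eq_zero (H.mapsU _) ⟨x, hm _ (by linarith)⟩
  let φ : ZMod p →+* A := ZMod.castHom ((ringChar.spec A p).1 hp) A
  have hφ : ∀ k : ZMod p, φ k = (k.val : A) := fun k => by
    simp [φ, ZMod.castHom_apply]
  let C : Set (EV N × ℝ) := {a.1} ×ˢ Ioo ⟪a.1, f x⟫ a.2
  have hC : ∀ b ∈ C, b = up a (-(a.2 - b.2)) := fun b hb =>
    Prod.ext hb.1 (by simp [up])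
  obtain ⟨k, k1, k2⟩ := hGLUE H (0 : S3 → S3 → A) φ x C
    ((convex_singleton _).prod (convex_Ioo _ _)) ((singleton_nonempty _).prod (nonempty_Ioo.2 hx0))
    fun b hb => by
      have hxb : x ∈ U f b := by rw [hC b hb]; exact hm _ (by linarith [hb.2.1])
      obtain ⟨k, k1, k2⟩ := h (a.2 - b.2) (by linarith [hb.2.2])
      rw [← hC b hb] at k1 k2
      refine ⟨hxb, fun y => k y - k x, isP_zero_iff.2 (k1.map fun t => t - k x), fun j => ?_⟩
      simp only [k2.sh (H.mapsU b) j hxb, hφ]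
      simp
  have hs : U f a ⊆ UC f C := fun y hy => by
    have hy0 := mem_U.1 hy
    obtain ⟨t, t1, t2⟩ := exists_between (max_lt hx0 hy0)
    exact mem_UC.2 ⟨(a.1, t), ⟨rfl, (le_max_left _ _).trans_lt t1, t2⟩,
      (le_max_right _ _).trans_lt t1⟩
  exact ⟨k, isP_zero_iff.1 (k1.mono hs), (H.orb hx).sft (H.mapsU _) (fun _ _ _ _ => rfl)
    (k1.mono hs) fun j => by rw [k2, k2, map_add, map_one]⟩

theorem p_LIFTC (hGLUE : S_GLUE) :
    S_LIFTC := by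
  intro p _ F _ N f H
  refine ⟨liftc_one hGLUE H, fun v t => ⟨le_lev H.cont H.mon_lf, fun h => ?_⟩, fun a ha => ?_⟩
  · exact liftc_one hGLUE H _ _ fun ε hε =>
      of_lt_lev H.cont H.mon_lf (v := v) (t := t + -ε) (lt_of_lt_of_le (by linarith) h)
  · by_contra hn
    push Not at hn
    exact ha (liftc_one hGLUE H _ _ hn)

end SLIFTC

section SLQ

open Set Filter Topology Metric
open scoped RealInnerProductSpace

lemma lq_mon (p : ℕ) [NeZero p] (A : Type) [CommRing A] [Nontrivial A] :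
    Mon (LiftTo A (gn p)) :=
  ⟨liftTo_empty _ _, fun _ _ h h' => h'.mono h, not_liftTo_univ A⟩

lemma lq_key (hJL : S_JL) (hDIFF : S_DIFF) (hSMALL : S_SMALL) {p : ℕ} [NeZero p] {F : Type}
    [Field F] {N : ℕ} {f : S3 → EV N} (H : Sys f p F) (A : Type) [CommRing A] [Nontrivial A]
    (hp : (p : A) = 0) (W : Set (EV N)) (hW : IsOpen W) (hn : W.Nonempty) :
    ∃ v ∈ W, mn f v < lev f (LiftTo A (gn p)) v ∧
      LiftTo F (gn p) (U f (v, lev f (LiftTo A (gn p)) v)) ∧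
      ∀ κ > (0 : ℝ), ¬LiftTo F (gn p) (U f (v, lev f (LiftTo A (gn p)) v + κ)) := by
  have hM := lq_mon p A
  obtain ⟨v₀, hv₀, z, -, hz⟩ := hSMALL H W hW hn
  obtain ⟨d, hd, hg⟩ := exists_gap p
  obtain ⟨s, -, s1, s2⟩ := lf_balls (p := p) (z := z) (ρ := d / 2)
    fun k hk => by linarith [hg k hk z]
  obtain ⟨κ₀, hκ₀, hs⟩ := hz (d / 2) (by positivity)
  have h0 : mn f v₀ + κ₀ ≤ lev f (LiftTo A (gn p)) v₀ :=
    le_lev H.cont hM (Lf.to hp (Lf.mono ⟨s, s1, s2⟩ hs))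
  obtain ⟨v, hv, y₀, h1, h2⟩ := hDIFF H.cont _ hM
    (W ∩ {v | mn f v < lev f (LiftTo A (gn p)) v})
    (hW.inter (isOpen_lt (continuous_mn H.cont) (continuous_lev H.cont hM)))
    ⟨v₀, hv₀, (lt_add_of_pos_right _ hκ₀).trans_le h0⟩
  obtain ⟨x, hx⟩ := (U_nonempty_iff H.cont).2 hv.2
  let φ : ZMod p →+* A := ZMod.castHom ((ringChar.spec A p).1 hp) A
  have hφ : ∀ k : ZMod p, φ k = (k.val : A) := fun k => by
    simp [φ, ZMod.castHom_apply]
  refine ⟨v, hv.1, hv.2, hJL H (0 : S3 → S3 → A) φ x (v, lev f (LiftTo A (gn p)) v) y₀ 1 one_pos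
    h1 hx (isC_zero _) (fun δ hδ => ?_) fun κ hκ _ => ?_⟩
  · obtain ⟨R, hR, h⟩ := h2 δ hδ
    refine ⟨R, hR, fun b hb hxb _ => ?_⟩
    obtain ⟨h, k1, k2⟩ := h b hb
    refine ⟨fun y => h y - h x, isP_zero_iff.2 (k1.map fun t => t - h x), fun k => ?_⟩
    simp only [k2.sh (H.mapsU b) k hxb, hφ]
    simp
  · rintro ⟨h, k1, k2⟩
    have hx' : x ∈ U f (up (v, lev f (LiftTo A (gn p)) v) κ) :=
      U_mono v (by show _ ≤ _ + κ; linarith) hx
    have k3 := (H.orb hx').sft (H.mapsU _) (fun _ _ _ _ => rfl) k1 (l := 1)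
      fun j => by rw [k2, k2, map_add, map_one]
    have := le_lev H.cont hM (t := lev f (LiftTo A (gn p)) v + κ) ⟨h, isP_zero_iff.1 k1, k3⟩
    linarith

lemma lq_eq (hJL : S_JL) (hDIFF : S_DIFF) (hSMALL : S_SMALL) {p : ℕ} [NeZero p] {F : Type}
    [Field F] {N : ℕ} {f : S3 → EV N} (H : Sys f p F) (A : Type) [CommRing A] [Nontrivial A]
    (hp : (p : A) = 0) (v : EV N) :
    lev f (LiftTo A (gn p)) v = lev f (LiftTo F (gn p)) v := by
  by_contra hn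
  obtain ⟨w, hw, -, h1, h2⟩ := lq_key hJL hDIFF hSMALL H A hp
    {v | lev f (LiftTo A (gn p)) v ≠ lev f (LiftTo F (gn p)) v}
    (isClosed_eq (continuous_lev H.cont (lq_mon p A))
      (continuous_lev H.cont (lq_mon p F))).isOpen_compl ⟨v, hn⟩
  refine hw (le_antisymm (le_lev H.cont (lq_mon p F) h1) (not_lt.1 fun h => ?_))
  exact h2 ((lev f (LiftTo F (gn p)) w - lev f (LiftTo A (gn p)) w) / 2) (by linarith)
    (of_lt_lev H.cont (lq_mon p F) (by linarith))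

theorem p_LQ (hJL : S_JL) (hDIFF : S_DIFF) (hSMALL : S_SMALL) (hLIFTC : S_LIFTC) :
    S_LQ := by
  intro p _ F _ N f H
  have := H.nontriv
  refine ⟨?_, fun A _ _ hp a ha => ?_⟩
  · obtain ⟨v, -, h0, ⟨h, -, h2⟩, -⟩ := lq_key hJL hDIFF hSMALL H (ZMod p) (ZMod.natCast_self p)
      univ isOpen_univ univ_nonempty
    simpa using h2.nsmul_eq_zero (H.mapsU _) ((U_nonempty_iff H.cont).2 h0)
  · refine ((hLIFTC H).2.1 a.1 a.2).2 ?_
    have h1 := le_lev H.cont (lq_mon p A) (v := a.1) (t := a.2) ha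
    rw [lq_eq hJL hDIFF hSMALL H A hp,
      ← lq_eq hJL hDIFF hSMALL H (ZMod p) (ZMod.natCast_self p)] at h1
    exact h1

end SLQ

section SCONN

open Set Filter Topology Metric
open scoped RealInnerProductSpace

/-- The periods of a function on the cyclic group. -/
def conn_I {p : ℕ} [NeZero p] {T : Type} (φ : ZMod p → T) : Ideal (ZMod p) where
  carrier := {j | ∀ k, φ (k + j) = φ k}
  zero_mem' := fun k => by rw [add_zero]
  add_mem' := fun {i j} hi hj k => by rw [← add_assoc, hj, hi]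
  smul_mem' := fun m j hj => zmod_ind (P := fun m => ∀ k, φ (k + m • j) = φ k)
    (fun k => by rw [zero_smul, add_zero])
    (fun m ih k => by rw [add_smul, one_smul, ← add_assoc, hj, ih]) m

theorem p_CONN (hLQ : S_LQ) :
    S_CONN := by
  classical
  intro p _ F _ N f H a hn T h hl x hx y hy
  set Φ : S3 → ZMod p → T := fun z k => h (sh k z) with hΦ
  have lc : LC (U f a) Φ := LC.pi fun k : ZMod p =>
    hl.comp (continuous_sh k).continuousOn (mapsTo_sh (H.mapsU a) k)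
  have gΦ : ∀ z k, Φ (gn p z) k = Φ z (k + 1) := fun z k => by simp only [hΦ, sh_gn]
  have all : ∀ z ∈ U f a, ∃ j, ∀ k, Φ z k = Φ x (k + j) := fun z hz =>
    H.t0 a _ (lc.map fun φ => ∃ j, ∀ k, φ k = Φ x (k + j)) (fun w _ => propext
      ⟨fun ⟨j, hj⟩ => ⟨j - 1, fun k => by
        have := hj (k - 1)
        rw [gΦ, sub_add_cancel] at this
        rw [this]; congr 1; ring⟩,
      fun ⟨j, hj⟩ => ⟨j + 1, fun k => by rw [gΦ, hj]; congr 1; ring⟩⟩) x hx z hz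
      ⟨0, fun k => by rw [add_zero]⟩
  by_cases hI : conn_I (Φ x) = ⊤
  · obtain ⟨j, hj⟩ := all y hy
    have h1 : j ∈ conn_I (Φ x) := hI ▸ Submodule.mem_top
    have h2 := (hj 0).trans (h1 0)
    simpa only [hΦ, sh_zero] using h2.symm
  · have : Nontrivial (ZMod p ⧸ conn_I (Φ x)) := Ideal.Quotient.nontrivial_iff.2 hI
    set g : (ZMod p → T) → ZMod p ⧸ conn_I (Φ x) := fun φ =>
      if e : ∃ j, ∀ k, φ k = Φ x (k + j) then Ideal.Quotient.mk _ e.choose else 0 with hg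
    have key : ∀ (φ : ZMod p → T) j, (∀ k, φ k = Φ x (k + j)) → g φ = Ideal.Quotient.mk _ j := by
      intro φ j hj
      have e : ∃ j, ∀ k, φ k = Φ x (k + j) := ⟨j, hj⟩
      simp only [hg, dif_pos e]
      refine Ideal.Quotient.eq.2 fun k => ?_
      have h1 := (e.choose_spec (k - j)).symm.trans (hj (k - j))
      rw [sub_add_cancel] at h1
      rw [← h1]; congr 1; ring
    refine (hn ((hLQ H).2 (ZMod p ⧸ conn_I (Φ x)) ?_ a ⟨fun z => g (Φ z), lc.map g,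
      fun z hz => ?_⟩)).elim
    · rw [← map_natCast (Ideal.Quotient.mk (conn_I (Φ x))), ZMod.natCast_self, map_zero]
    · obtain ⟨j, hj⟩ := all z hz
      show g (Φ (gn p z)) = g (Φ z) + 1
      rw [key _ j hj, key _ (j + 1) fun k => by rw [gΦ, hj]; congr 1; ring, map_add, map_one]

end SCONN

section SZ1

open Set Filter Topology Metric
open scoped RealInnerProductSpace

lemma z1_norm {p : ℕ} [NeZero p] {G : Type} [AddCommGroup G] {O : Set S3} {c : S3 → S3 → G}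
    (hO : MapsTo (gn p) O O) (hL : Lf p O) (hP : ∃ h, IsP O c h) {x : S3} (hx : x ∈ O)
    (θ : ZMod p → G) : ∃ h, IsP O c h ∧ ∀ k, h (sh k x) = θ k := by
  obtain ⟨s, s1, s2⟩ := hL
  obtain ⟨h, h1⟩ := hP
  refine ⟨_, h1.add_lc (s1.map fun j => θ (j - s x) - h (sh (j - s x) x)), fun k => ?_⟩
  simp [s2.sh_one hO k hx]

lemma z1_balls {p : ℕ} [NeZero p] {G : Type} [AddCommGroup G] {O : Set S3} {c : S3 → S3 → G}
    (hO : IsOpen O) (hc : IsC O c) {z : S3} (hz : ∀ k : ZMod p, sh k z ∈ O) :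
    ∃ ρ > (0 : ℝ), ∃ h, IsP (⋃ k : ZMod p, ball (sh k z) ρ) c h := by
  obtain ⟨d, hd, hg⟩ := exists_gap p
  have h1 : ∀ k : ZMod p, ∀ᶠ ρ in 𝓝[>] (0 : ℝ), CocOn (ball (sh k z) ρ) c := fun k => by
    obtain ⟨n, hn, h⟩ := hc _ (hz k)
    rw [hO.nhdsWithin_eq (hz k)] at hn
    obtain ⟨r, hr, h'⟩ := Metric.mem_nhds_iff.1 hn
    filter_upwards [nhdsWithin_le_nhds (Iic_mem_nhds hr)] with ρ hρ
    exact h.mono ((ball_subset_ball hρ).trans h')
  obtain ⟨ρ, ⟨h2, h3⟩, h4⟩ := (((eventually_all.2 h1).and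
    (nhdsWithin_le_nhds (Iic_mem_nhds (half_pos hd)))).and self_mem_nhdsWithin).exists
  have h5 : ρ ≤ d / 2 := h3
  obtain ⟨s, hs, -⟩ := lf_balls (p := p) (z := z) (ρ := ρ) fun k hk => by linarith [hg k hk z]
  refine ⟨ρ, h4, fun y => c (sh (s y) z) y, fun y hy => ?_⟩
  obtain ⟨k, hk⟩ := mem_iUnion.1 hy
  refine ⟨_, nhdsWithin_le_nhds (isOpen_ball.mem_nhds hk), fun a ha b hb => ?_⟩
  simp only [hs k a ha, hs k b hb]
  exact (h2 k).sub (mem_ball_self h4) ha hb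

theorem p_Z1 (hJL : S_JL) (hDIFF : S_DIFF) (hSMALL : S_SMALL) (hLQ : S_LQ) (hGLUE : S_GLUE) (hLIFTC : S_LIFTC) :
    S_Z1 := by
  intro p _ F _ N f H G _ a c θ x hL hc hx
  have hf := H.cont
  have hΩ : U f a ≠ univ := fun e => H.not_lf_univ (e ▸ hL)
  set P : Set S3 → Prop := fun O => O ⊆ U f a ∧ ∃ h, IsP O c h with hPdef
  have hP : Mon P := ⟨⟨empty_subset _, 0, fun _ h => h.elim⟩,
    fun _ _ h h' => ⟨h.trans h'.1, h'.2.imp fun _ k => k.mono h⟩, fun h => (mon_sub hΩ).2.2 h.1⟩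
  have hS := mon_sub hΩ
  have cP := continuous_lev hf hP
  have key : ∀ v, ¬(lev f P v < cL f p v ∧ lev f P v < lev f (fun O => O ⊆ U f a) v) := by
    intro v₀ hv₀
    have hW : IsOpen {v | lev f P v < cL f p v ∧ lev f P v < lev f (fun O => O ⊆ U f a) v} :=
      (isOpen_lt cP (continuous_lev hf H.mon_lf)).inter (isOpen_lt cP (continuous_lev hf hS))
    obtain ⟨v₁, hv₁, z, hz, hsm⟩ := hSMALL H _ hW ⟨v₀, hv₀⟩
    have hlt : mn f v₁ < lev f P v₁ := by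
      obtain ⟨t, t1, t2⟩ := exists_between ((mn_le_lev hf hP v₁).trans_lt hv₁.2)
      have t3 : U f (v₁, t) ⊆ U f a := of_lt_lev hf hS t2
      obtain ⟨ρ, hρ, h, hh⟩ := z1_balls (p := p) (H.openU a) hc (z := z) fun k =>
        (H.sh_mem k).2 (t3 (hz.trans_lt t1))
      obtain ⟨κ, hκ, hk⟩ := hsm ρ hρ
      exact (lt_min t1 (lt_add_of_pos_right _ hκ)).trans_le (le_lev hf hP
        ⟨(U_mono _ (min_le_left _ _)).trans t3,
          h, hh.mono ((U_mono _ (min_le_right _ _)).trans hk)⟩)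
    obtain ⟨v, ⟨hv, hv'⟩, y₀, hy, hco⟩ := hDIFF hf P hP _
      (hW.inter (isOpen_lt (continuous_mn hf) cP)) ⟨v₁, hv₁, hlt⟩
    obtain ⟨t, t1, t2⟩ := exists_between (lt_min hv.1 hv.2)
    obtain ⟨x₁, hx₁⟩ := (U_nonempty_iff hf).2 hv'
    have e : up (v, lev f P v) (t - lev f P v) = (v, t) := by simp [up]
    have l1 : Lf p (U f (v, t)) := of_lt_lev hf H.mon_lf (t2.trans_le (min_le_left _ _))
    have l2 : U f (v, t) ⊆ U f a := of_lt_lev hf hS (t2.trans_le (min_le_right _ _))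
    refine (hJL H c 0 x₁ (v, lev f P v) y₀ _ (sub_pos.2 t1) hy hx₁ (e ▸ hc.mono l2)
      (fun δ hδ => ?_) fun κ k1 k2 hk => ?_).2 _ (sub_pos.2 t1) (e ▸ l1.to (hLQ H).1)
    · obtain ⟨R, hR, h⟩ := hco δ hδ
      exact ⟨R, hR, fun b hb b1 b2 => z1_norm (H.mapsU b) (l1.mono (e ▸ b2)) (h b hb).2 b1 _⟩
    · have : lev f P v + κ ≤ lev f P v :=
        le_lev hf hP ⟨(U_mono v (by linarith)).trans l2, hk.imp fun _ h => h.1⟩
      linarith
  have ha : a.2 ≤ lev f P a.1 := by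
    by_contra hn
    exact key a.1 ⟨(not_le.1 hn).trans_le (le_lev hf H.mon_lf hL),
      (not_le.1 hn).trans_le (le_lev hf hS Subset.rfl)⟩
  obtain ⟨h, h1, h2⟩ := hGLUE H c θ x ({a.1} ×ˢ Ioo ⟪a.1, f x⟫ a.2)
    ((convex_singleton _).prod (convex_Ioo _ _))
    ((singleton_nonempty _).prod (nonempty_Ioo.2 hx)) (by
      rintro ⟨v, t⟩ ⟨rfl, ht⟩
      have := of_lt_lev hf hP (ht.2.trans_le ha)
      exact ⟨ht.1, z1_norm (H.mapsU _) (hL.mono this.1) this.2 ht.1 θ⟩)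
  refine ⟨h, h1.mono fun y hy => ?_, h2⟩
  obtain ⟨t, t1, t2⟩ := exists_between (max_lt (mem_U.1 hx) (mem_U.1 hy))
  exact mem_UC.2 ⟨(a.1, t), ⟨rfl, (le_max_left _ _).trans_lt t1, t2⟩,
    (le_max_right _ _).trans_lt t1⟩

end SZ1

section SNJ

open Set Filter Topology Metric
open scoped RealInnerProductSpace

section
variable {p : ℕ} [NeZero p] {F : Type} [Field F] {N : ℕ} {f : S3 → EV N}
  {G : Type} [AddCommGroup G] {c : S3 → S3 → G}

lemma nj_norm (hCONN : S_CONN) (H : Sys f p F) {b : EV N × ℝ} (hb : ¬Lf p (U f b)) {O : Set S3}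
    (hO : U f b ⊆ O) {h h₀ : S3 → G} (h1 : IsP O c h) (h0 : IsP (U f b) c h₀) {x : S3}
    (hx : x ∈ U f b) : ∃ h', IsP O c h' ∧ ∀ k : ZMod p, h' (sh k x) = h₀ (sh k x) := by
  refine ⟨fun y => h y + (h₀ x - h x), h1.add_lc (LC.const _ _), fun k => ?_⟩
  have := hCONN H b hb _ (h0.lc_sub (h1.mono hO)) x hx _ ((H.sh_mem k).2 hx)
  simp only at this ⊢
  rw [this]; abel

lemma nj_ne {O : Set S3} (h : ¬Lf p O) : O.Nonempty :=
  nonempty_iff_ne_empty.2 fun e => h (e ▸ lf_empty)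

lemma nj_mon {Ω : Set S3} (hΩ : Ω ≠ univ) (c : S3 → S3 → G) :
    Mon fun O => O ⊆ Ω ∧ ∃ h, IsP O c h :=
  ⟨⟨empty_subset _, 0, fun _ h => h.elim⟩,
    fun _ _ h h' => ⟨h.trans h'.1, h'.2.imp fun _ hk => hk.mono h⟩,
    fun h => hΩ (univ_subset_iff.1 h.1)⟩

lemma nj_gap (hJL : S_JL) (hDIFF : S_DIFF) (hLQ : S_LQ) (hCONN : S_CONN) (hLIFTC : S_LIFTC)
    (H : Sys f p F) {Ω : Set S3} (hΩ : Ω ≠ univ) (hc : IsC Ω c) (v : EV N)
    (h1 : cL f p v < lev f (fun O => O ⊆ Ω ∧ ∃ h, IsP O c h) v) :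
    lev f (fun O => O ⊆ Ω) v ≤ lev f (fun O => O ⊆ Ω ∧ ∃ h, IsP O c h) v := by
  by_contra h2
  have hP := nj_mon hΩ c
  set P : Set S3 → Prop := fun O => O ⊆ Ω ∧ ∃ h, IsP O c h with hPd
  have c1 := continuous_lev H.cont hP
  have c2 := continuous_lev H.cont (mon_sub hΩ)
  have c3 : Continuous (cL f p) := continuous_lev H.cont H.mon_lf
  obtain ⟨u, ⟨u1, u2⟩, y₀, hy, hR⟩ := hDIFF H.cont P hP
    ({v | cL f p v < lev f P v} ∩ {v | lev f P v < lev f (fun O => O ⊆ Ω) v})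
    ((isOpen_lt c3 c1).inter (isOpen_lt c1 c2)) ⟨v, h1, not_le.1 h2⟩
  replace u1 : cL f p u < lev f P u := u1
  replace u2 : lev f P u < lev f (fun O => O ⊆ Ω) u := u2
  obtain ⟨ε, e0, e1, e2⟩ : ∃ ε > (0 : ℝ), cL f p u < lev f P u + -ε ∧
      lev f P u + ε < lev f (fun O => O ⊆ Ω) u := by
    refine ⟨min (lev f P u - cL f p u) (lev f (fun O => O ⊆ Ω) u - lev f P u) / 2,
      half_pos (lt_min (by linarith) (by linarith)), ?_, ?_⟩
    · linarith [min_le_left (lev f P u - cL f p u) (lev f (fun O => O ⊆ Ω) u - lev f P u)]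
    · linarith [min_le_right (lev f P u - cL f p u) (lev f (fun O => O ⊆ Ω) u - lev f P u)]
  have nl : ¬Lf p (U f (u, lev f P u + -ε)) := fun h =>
    not_le.2 e1 (((hLIFTC H).2.1 _ _).1 h)
  obtain ⟨x, hx⟩ := nj_ne nl
  obtain ⟨-, h₀, hh₀⟩ := of_lt_lev H.cont hP (show lev f P u + -ε < lev f P u by linarith)
  have hs : U f (u, lev f P u + ε) ⊆ Ω := of_lt_lev H.cont (mon_sub hΩ) e2
  obtain ⟨R₂, r2, hn⟩ := exists_near H.cont e0
  have hl := (hJL H c (fun k => h₀ (sh k x)) x (u, lev f P u) y₀ ε e0 hy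
    (U_mono u (by linarith) hx) (hc.mono hs) (fun δ hδ => ?_) fun κ k0 k1 => ?_).1
  · exact not_le.2 u1 (((hLIFTC H).2.1 _ _).1 ((hLQ H).2 F (hLQ H).1 _ hl))
  · obtain ⟨R₁, r1, hR⟩ := hR δ hδ
    refine ⟨min R₁ R₂, lt_min r1 r2, fun b hb _ _ => ?_⟩
    obtain ⟨-, h, hh⟩ := hR b (Cone_mono _ _ _ (min_le_left _ _) hb)
    exact nj_norm hCONN H nl ((U_sub_Ucl _).trans
      (hn (u, lev f P u) b (hb.1.trans_le (min_le_right _ _))).1) hh hh₀ hx
  · rintro ⟨h, hh, -⟩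
    have : lev f P u + κ ≤ lev f P u :=
      le_lev H.cont hP ⟨(U_mono u (by linarith)).trans hs, h, hh⟩
    linarith

lemma nj_cpt (hf : Continuous f) {K : Set S3} (hK : IsCompact K) (hn : K.Nonempty)
    {a : EV N × ℝ} (h : K ⊆ U f a) : ∃ e > (0 : ℝ), K ⊆ U f (up a (-e)) := by
  obtain ⟨z, hz, hm⟩ := hK.exists_isMaxOn hn
    (show ContinuousOn (fun x => ⟪a.1, f x⟫) K by fun_prop)
  have h1 := mem_U.1 (h hz)
  refine ⟨(a.2 - ⟪a.1, f z⟫) / 2, by linarith, fun x hx => mem_U_up.2 ?_⟩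
  have := isMaxOn_iff.1 hm x hx
  linarith

end

theorem p_NJ (hJL : S_JL) (hDIFF : S_DIFF) (hLQ : S_LQ) (hCONN : S_CONN) (hLIFTC : S_LIFTC) (hGLUE : S_GLUE) :
    S_NJ := by
  intro p _ F _ N f H G _ a b c h hba hΩ hb hc hh
  have hP := nj_mon hΩ c
  have gap := nj_gap hJL hDIFF hLQ hCONN hLIFTC H hΩ hc
  set P : Set S3 → Prop := fun O => O ⊆ U f a ∧ ∃ h, IsP O c h with hPd
  obtain ⟨e₁, e1, nl⟩ := (hLIFTC H).2.2 b hb
  obtain ⟨x, hx⟩ := nj_ne nl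
  have s1 : Ucl f (up b (-e₁)) ⊆ U f b := fun y hy => by
    have : ⟪b.1, f y⟫ ≤ b.2 + -e₁ := hy
    rw [mem_U]; linarith
  obtain ⟨e₂, e2, s2⟩ := nj_cpt H.cont (isClosed_Ucl H.cont _).isCompact ⟨x, U_sub_Ucl _ hx⟩
    (s1.trans hba)
  have key : ∀ e > (0 : ℝ), e ≤ min e₁ e₂ → a.2 + -e < lev f P a.1 := by
    intro e e0 he
    have sa : U f (up b (-e₁)) ⊆ U f (up a (-e)) := ((U_sub_Ucl _).trans s2).trans
      (U_up_mono _ (by linarith [min_le_right e₁ e₂]))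
    have sb : U f (up b (-e₁)) ⊆ U f (up b (-e)) := U_up_mono _ (by linarith [min_le_left e₁ e₂])
    let γ : ℝ → EV N × ℝ := fun s => (1 - s) • up b (-e) + s • up a (-e)
    have cγ : Continuous γ := by fun_prop
    have cg : Continuous fun s => lev f P (γ s).1 - (γ s).2 :=
      ((continuous_lev H.cont hP).comp cγ.fst).sub cγ.snd
    have g0 : 0 < lev f P (γ 0).1 - (γ 0).2 := by
      have : b.2 ≤ lev f P b.1 := le_lev H.cont hP ⟨hba, h, hh⟩
      simp only [γ, up, sub_zero, one_smul, zero_smul, add_zero]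
      linarith
    by_contra hn
    have g1 : lev f P (γ 1).1 - (γ 1).2 ≤ 0 := by
      simp only [γ, up, sub_self, one_smul, zero_smul, zero_add]
      linarith
    obtain ⟨s, hs, hs0⟩ := intermediate_value_Icc' zero_le_one cg.continuousOn ⟨g1, g0.le⟩
    have t1 : cL f p (γ s).1 < (γ s).2 := not_le.1 fun hl => nl
      ((((hLIFTC H).2.1 _ _).2 hl).mono ((subset_inter sb sa).trans
        (inter_U (sub_nonneg.2 hs.2) hs.1 (sub_add_cancel _ _))))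
    have t2 : (γ s).2 + e ≤ lev f (fun O => O ⊆ U f a) (γ s).1 := by
      refine le_lev H.cont (mon_sub hΩ) ?_
      have e3 : ((γ s).1, (γ s).2 + e) = (1 - s) • b + s • a := by
        refine Prod.ext rfl ?_
        simp only [γ, up, Prod.snd_add, Prod.smul_snd, smul_eq_mul]
        ring
      rw [e3]
      exact (U_union (sub_nonneg.2 hs.2) hs.1).trans (union_subset hba Subset.rfl)
    have t3 : lev f P (γ s).1 - (γ s).2 = 0 := hs0
    linarith [gap (γ s).1 (by linarith)]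
  have m0 : 0 < min e₁ e₂ := lt_min e1 e2
  obtain ⟨h', k1, k2⟩ := hGLUE H c (fun k => h (sh k x)) x ({a.1} ×ˢ Ico (a.2 - min e₁ e₂) a.2)
    ((convex_singleton _).prod (convex_Ico _ _)) ⟨(a.1, a.2 - min e₁ e₂), rfl, le_rfl, by
      show a.2 - min e₁ e₂ < a.2
      linarith⟩ (by
      rintro ⟨v, t⟩ ⟨rfl, t1, t2⟩
      replace t1 : a.2 - min e₁ e₂ ≤ t := t1
      replace t2 : t < a.2 := t2
      have sa : U f (up b (-e₁)) ⊆ U f (a.1, t) := ((U_sub_Ucl _).trans s2).trans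
        (U_mono _ (by linarith [min_le_right e₁ e₂]))
      obtain ⟨-, k, hk⟩ := of_lt_lev H.cont hP (show t < lev f P a.1 by
        linarith [key (a.2 - t) (by linarith) (by linarith)])
      exact ⟨sa hx, nj_norm hCONN H nl sa hk (hh.mono ((U_sub_Ucl _).trans s1)) hx⟩)
  have k3 : IsP (U f a) c h' := k1.mono fun y hy => by
    have := mem_U.1 hy
    refine mem_UC.2 ⟨(a.1, max (a.2 - min e₁ e₂) ((⟪a.1, f y⟫ + a.2) / 2)),
      ⟨rfl, le_max_left _ _, max_lt (by linarith) (by linarith)⟩, ?_⟩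
    show ⟪a.1, f y⟫ < max (a.2 - min e₁ e₂) ((⟪a.1, f y⟫ + a.2) / 2)
    exact lt_max_of_lt_right (by linarith)
  refine ⟨h', k3, fun y hy => ?_⟩
  have k4 := hCONN H b hb _ ((k3.mono hba).lc_sub hh) y hy x (s1 (U_sub_Ucl _ hx))
  have k5 := k2 0
  simp only [sh_zero] at k4 k5
  rwa [k5, sub_self, sub_eq_zero] at k4

end SNJ

section SBIRTH1

open Set Filter Topology Metric
open scoped RealInnerProductSpace

theorem p_BIRTH1 (hDIFF : S_DIFF) (hSMALL : S_SMALL) (hLOC : S_LOC) (hGLUE : S_GLUE) (hZ1 : S_Z1) (hLIFTC : S_LIFTC) :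
    S_BIRTH1 := by
  intro p _ F _ N f H a₀ h₀
  obtain ⟨M, -, hM⟩ := exists_abs_le H.cont
  have hc : Continuous (cL f p) := continuous_lev H.cont H.mon_lf
  have hW : IsOpen {v : EV N | cL f p v + M * ‖v - a₀.1‖ < a₀.2} :=
    isOpen_lt (by fun_prop) continuous_const
  have hlt : cL f p a₀.1 < a₀.2 := not_le.1 fun h => h₀ (((hLIFTC H).2.1 a₀.1 a₀.2).2 h)
  obtain ⟨v₁, hv₁, z, -, hz⟩ := hSMALL H _ hW ⟨a₀.1, by simpa using hlt⟩
  obtain ⟨d, hd, hgap⟩ := exists_gap p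
  obtain ⟨κ, hκ, hsub⟩ := hz (d / 2) (by positivity)
  obtain ⟨s₁, -, s1, s2⟩ := lf_balls (p := p) (z := z) (ρ := d / 2)
    fun k hk => by linarith [hgap k hk z]
  have h1 : mn f v₁ < cL f p v₁ := by
    have : mn f v₁ + κ ≤ cL f p v₁ := le_lev H.cont H.mon_lf (Lf.mono ⟨s₁, s1, s2⟩ hsub)
    linarith
  obtain ⟨v, ⟨hv, hv'⟩, y₀, hy, hR⟩ := hDIFF H.cont _ H.mon_lf _
    (hW.inter (isOpen_lt (continuous_mn H.cont) hc)) ⟨v₁, hv₁, h1⟩
  choose! R hR hR' using hR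
  obtain ⟨x, hx⟩ := (U_nonempty_iff H.cont).2 hv'
  obtain ⟨D, δ, R₁, R₂, ea, ex, eε, hδ, h21, h1R, hne, hxb, eO, -, L⟩ :=
    hLOC H (v, cL f p v) y₀ x R (a₀.2 - cL f p v - M * ‖v - a₀.1‖) hy hx hR
      (by have : cL f p v + M * ‖v - a₀.1‖ < a₀.2 := hv
          linarith)
  have pot : ∀ (G : Type) [AddCommGroup G] (c : S3 → S3 → G) (θ : ZMod p → G), IsC D.O c →
      ∃ h, IsP D.O c h ∧ ∀ k, h (sh k D.x) = θ k := fun G _ c θ hC => by
    rw [eO] at hC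
    rw [eO, ex]
    exact hGLUE H c θ x _ (convex_Cone _ _ hδ.le _) (hne.mono (Cone_mono _ _ _ h21))
      fun b hb => ⟨hxb b hb, hZ1 H b c θ x (hR' δ hδ b (Cone_mono _ _ _ h1R hb))
        (hC.mono fun w hw => mem_UC.2 ⟨b, hb, hw⟩) (hxb b hb)⟩
  obtain ⟨s, hs, hs'⟩ := pot (ZMod p) 0 id (isC_zero _)
  refine ⟨D, s, L, fun w hw => ?_, isP_zero_iff.1 hs,
    L.orbO.sft L.mapsO (fun _ _ _ _ => rfl) hs fun j => by simp [hs'], by simpa using hs' 0,
    fun h => ?_, pot⟩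
  · rw [ea, eε, mem_U_up] at hw
    have h2 := (abs_le.1 (hM (v - a₀.1) w)).1
    rw [inner_sub_left] at h2
    rw [mem_U]
    simp only at hw
    linarith
  · rw [LD.U0, ea] at h
    have : cL f p v + D.k₀ ≤ cL f p v := le_lev H.cont H.mon_lf h
    linarith [L.k₀_pos]

end SBIRTH1

end Pool.Agent.P.MP_c88051_gt.Q1
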