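import Pool.Agent.P.MP_c88051_gt.Q1.IfaceA

/-! Steps BIRTH2, CYC, BA1, BA2, BA, TWO, BA0, P3A. -/

set_option autoImplicit false
set_option linter.unusedSectionVars false

namespace Pool.Agent.P.MP_c88051_gt.Q1

section SBIRTH2

open Set Filter Topology Metric
open scoped RealInnerProductSpace

/-- Separation of points gives separation of the two parts of a compact set. -/
lemma birth2_sep {Y : Type} [TopologicalSpace Y] {K O : Set Y} (hK : IsCompact K) (hKO : K ⊆ O)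
    {r : Y → Prop} (hr : LC K r)
    (h : ∀ x ∈ K, ∀ y ∈ K, r x → ¬r y → ∃ q : Y → Prop, LC O q ∧ q x ∧ ¬q y) :
    ∃ q : Y → Prop, LC O q ∧ ∀ x ∈ K, q x ↔ r x := by
  have h1 : ∀ x ∈ K, r x → ∃ q : Y → Prop, LC O q ∧ q x ∧ ∀ y ∈ K, ¬r y → ¬q y := by
    intro x hx rx
    refine hK.induction_on (p := fun t => ∃ q : Y → Prop, LC O q ∧ q x ∧ ∀ y ∈ t, ¬r y → ¬q y)
      ⟨fun _ => True, LC.const _ _, trivial, fun _ h => h.elim⟩
      (fun s t hst ⟨q, q1, q2, q3⟩ => ⟨q, q1, q2, fun y hy => q3 y (hst hy)⟩)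
      (fun s t ⟨q, q1, q2, q3⟩ ⟨u, u1, u2, u3⟩ => ⟨fun y => q y ∧ u y, q1.map₂ u1 And, ⟨q2, u2⟩,
        fun y hy hn hq => hy.elim (fun e => q3 y e hn hq.1) fun e => u3 y e hn hq.2⟩)
      fun y hy => ?_
    by_cases ry : r y
    · exact ⟨_, hr y hy, fun _ => True, LC.const _ _, trivial, fun z hz hn =>
        absurd ((show r z = r y from hz) ▸ ry) hn⟩
    · obtain ⟨q, q1, q2, q3⟩ := h x hx y hy rx ry
      exact ⟨_, nhdsWithin_mono _ hKO (q1 y (hKO hy)), q, q1, q2, fun z hz _ =>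
        (show q z = q y from hz) ▸ q3⟩
  have h2 : ∃ q : Y → Prop, LC O q ∧ (∀ y ∈ K, ¬r y → ¬q y) ∧ ∀ x ∈ K, r x → q x := by
    refine hK.induction_on
      (p := fun t => ∃ q : Y → Prop, LC O q ∧ (∀ y ∈ K, ¬r y → ¬q y) ∧ ∀ x ∈ t, r x → q x)
      ⟨fun _ => False, LC.const _ _, fun _ _ _ => id, fun _ h => h.elim⟩
      (fun s t hst ⟨q, q1, q2, q3⟩ => ⟨q, q1, q2, fun y hy => q3 y (hst hy)⟩)
      (fun s t ⟨q, q1, q2, q3⟩ ⟨u, u1, u2, u3⟩ => ⟨fun y => q y ∨ u y, q1.map₂ u1 Or,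
        fun y hy hn hq => hq.elim (q2 y hy hn) (u2 y hy hn),
        fun y hy hn => hy.imp (fun e => q3 y e hn) fun e => u3 y e hn⟩)
      fun x hx => ?_
    by_cases rx : r x
    · obtain ⟨q, q1, q2, q3⟩ := h1 x hx rx
      exact ⟨_, nhdsWithin_mono _ hKO (q1 x (hKO hx)), q, q1, q3, fun z hz _ =>
        (show q z = q x from hz) ▸ q2⟩
    · exact ⟨_, hr x hx, fun _ => False, LC.const _ _, fun _ _ _ => id, fun z hz hn =>
        rx ((show r z = r x from hz) ▸ hn)⟩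
  obtain ⟨q, q1, q2, q3⟩ := h2
  exact ⟨q, q1, fun x hx => ⟨fun e => by_contra fun hn => q2 x hx hn e, q3 x hx⟩⟩

section
variable {p : ℕ} [NeZero p] {F : Type} [Field F] {N : ℕ} {f : S3 → EV N} {a₀ : EV N × ℝ}
  {D : LD N} {s : S3 → ZMod p}

/-- No nontrivial reduction of `s` extends. -/
lemma birth2_no (hGL : S_GL) (hLQ : S_LQ) (H : Sys f p F) (P : Pre f p a₀ D s) {A : Type}
    [CommRing A] [Nontrivial A] (φ : ZMod p →+* A) (hE : D.Ext f fun y => φ (s y)) : False := by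
  have L := P.loc
  have hxO : D.x ∈ D.O := L.sub (L.low L.mem)
  have hx : D.x ∈ U f (up D.a D.k₀) := U_up_mono _ L.k₀_pos.le (by simpa using L.mem)
  obtain ⟨h, h1, h2⟩ := hGL H D L (0 : S3 → S3 → A) (fun y => φ (s y)) (fun _ _ => 0)
    (isP_zero_iff.2 (P.lc.map φ)) (fun _ => isP_zero _ 0) fun j =>
      (hE.map (· + φ j)).congr fun y hy => by
        simp [P.sft.sh_one L.mapsO j (L.sub (L.K_sub hy).1)]
  refine P.nl ((hLQ H).2 A (by rw [← map_natCast φ, ZMod.natCast_self, map_zero]) _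
    ⟨h, isP_zero_iff.1 h1, (H.orb hx).sft (H.mapsU _) (fun _ _ _ _ => rfl) h1 fun j => ?_⟩)
  rw [h2, h2, P.sft.sh_one L.mapsO _ hxO, P.sft.sh_one L.mapsO _ hxO, ← add_assoc, map_add, map_one]

/-- The jump of a function between tied points. -/
lemma birth2_key (hCE : S_CE) (H : Sys f p F) (P : Pre f p a₀ D s) (φ : ZMod p →+* F)
    {x₁ x₂ : S3} (m1 : x₁ ∈ D.K f) (m2 : x₂ ∈ D.K f)
    (tie : ∀ (T : Type) (k : S3 → T), LC (D.U1 f ∩ D.B) k → k x₁ = k x₂)
    {e : S3 → F} (he : LC (D.O ∩ D.B) e) :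
    ∃ l : F, e x₁ - e x₂ = l * (φ (s x₁) - φ (s x₂)) ∧ (l = 0 → D.Ext f e) := by
  have L := P.loc
  obtain ⟨l, G, k, g1, g2, k1, hk⟩ := hCE H D L e he
  have hu : ∀ y ∈ D.Os, G y - l * φ (s y) = G D.x - l * φ (s D.x) := fun y hy =>
    L.orbS.eq (g1.map₂ (P.lc.mono L.sub) fun a b => a - l * φ b) (LC.const _ _) (fun j =>
      inv_sh (h := fun y => G y - l * φ (s y)) L.mapsS (fun z hz => by
        simp only [g2 z hz, P.sft z (L.sub hz), map_add, map_one]; ring) j (L.low L.mem)) hy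
  refine ⟨l, ?_, fun h0 => ⟨fun y => G D.x - k y, k1.map fun t => G D.x - t, fun y hy => ?_⟩⟩
  · rw [hk _ (L.K_sub m1), hk _ (L.K_sub m2), tie F k k1]
    linear_combination hu _ (L.K_sub m1).1 - hu _ (L.K_sub m2).1
  · have := hu y (L.K_sub hy).1
    rw [h0, zero_mul, zero_mul, sub_zero, sub_zero] at this
    rw [hk y (L.K_sub hy), this]

end

theorem p_BIRTH2 (hCE : S_CE) (hEXT : S_EXT) (hGL : S_GL) (hLQ : S_LQ) :
    S_BIRTH2 := by
  classical
  intro p _ F _ N f H a₀ D s P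
  have L := P.loc
  have hK := D.isCompact_K H.cont
  have k1 : D.K f ⊆ D.O ∩ D.B := fun y hy => ⟨L.sub (L.K_sub hy).1, (L.K_sub hy).2⟩
  have k2 : D.K f ⊆ D.U1 f ∩ D.B := fun y hy => ⟨L.s_sub (L.K_sub hy).1, (L.K_sub hy).2⟩
  have hs : LC (D.O ∩ D.B) s := P.lc.mono inter_subset_left
  obtain ⟨x₁, m1, x₂, m2, hne, tie⟩ : ∃ x₁ ∈ D.K f, ∃ x₂ ∈ D.K f, s x₁ ≠ s x₂ ∧
      ∀ (T : Type) (k : S3 → T), LC (D.U1 f ∩ D.B) k → k x₁ = k x₂ := by
    by_contra hn
    push Not at hn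
    have := H.nontriv
    refine birth2_no hGL hLQ H P (RingHom.id _) (hEXT _ _ s hK (hs.mono k1) fun ν =>
      birth2_sep hK k2 ((hs.mono k1).map (· = ν)) fun x hx y hy rx ry => ?_)
    obtain ⟨T, k, h1, h2⟩ := hn x hx y hy fun e => ry (e ▸ rx)
    exact ⟨fun z => k z = k x, h1.map (· = k x), rfl, fun e => h2 e.symm⟩
  let φ : ZMod p →+* F := ZMod.castHom ((ringChar.spec F p).1 (hLQ H).1) F
  have hb : φ (s x₁) - φ (s x₂) ≠ 0 := fun h0 => by
    obtain ⟨l, h1, -⟩ := birth2_key hCE H P φ m1 m2 tie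
      (hs.map fun t => if t = s x₁ then (1 : F) else 0)
    simp [h0, hne.symm] at h1
  have ext : ∀ (T : Type) (e : S3 → T), LC (D.O ∩ D.B) e → e x₁ = e x₂ → D.Ext f e := by
    intro T e he h12
    have : Nonempty T := ⟨e x₁⟩
    refine hEXT _ _ e hK (he.mono k1) fun ν => ?_
    obtain ⟨l, h1, h2⟩ := birth2_key hCE H P φ m1 m2 tie
      (he.map fun t => if t = ν then (1 : F) else 0)
    rw [h12, sub_self, eq_comm, mul_eq_zero] at h1
    obtain ⟨k, h3, h4⟩ := h2 (h1.resolve_right hb)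
    exact ⟨fun y => k y = 1, h3.map (· = 1), fun y hy => by simp [h4 y hy]⟩
  refine ⟨x₁, x₂, m1, m2, by_contra fun hu => ?_, tie, ext⟩
  have : Nontrivial (ZMod p ⧸ Ideal.span {s x₁ - s x₂}) :=
    Ideal.Quotient.nontrivial_iff.2 (mt Ideal.span_singleton_eq_top.1 hu)
  exact birth2_no hGL hLQ H P (Ideal.Quotient.mk (Ideal.span {s x₁ - s x₂}))
    (ext _ _ (hs.map _) (Ideal.Quotient.eq.2 (Ideal.mem_span_singleton_self _)))

end SBIRTH2

section SCYC

open Set Filter Topology Metric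
open scoped RealInnerProductSpace

lemma cyc_one {p : ℕ} [NeZero p] {G : Type} [AddCommGroup G] (J : ZMod p → G)
    (h : ∑ k, J k = 0) : ∃ θ : ZMod p → G, ∀ k, θ (k + 1) - θ k = J k := by
  have hs : ∑ i ∈ Finset.range p, J (i : ZMod p) = 0 := by
    rw [← h]
    exact Finset.sum_nbij' (fun i => (i : ZMod p)) ZMod.val (fun _ _ => Finset.mem_univ _)
      (fun k _ => Finset.mem_range.2 (ZMod.val_lt k))
      (fun i hi => ZMod.val_cast_of_lt (Finset.mem_range.1 hi))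
      (fun k _ => ZMod.natCast_zmod_val k) fun _ _ => rfl
  refine ⟨fun k => ∑ i ∈ Finset.range k.val, J (i : ZMod p), fun k => ?_⟩
  have e : ∑ i ∈ Finset.range (k + 1).val, J (i : ZMod p) =
      ∑ i ∈ Finset.range (k.val + 1), J (i : ZMod p) := by
    have e1 : (k + 1).val = (k.val + 1) % p := by
      rw [← ZMod.val_natCast]; simp
    rcases (Nat.succ_le_of_lt (ZMod.val_lt k)).eq_or_lt with h1 | h1
    · have h2 : k.val + 1 = p := h1
      rw [e1, h2, Nat.mod_self, hs, Finset.sum_range_zero]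
    · rw [e1, Nat.mod_eq_of_lt h1]
  simp only [e, Finset.sum_range_succ, ZMod.natCast_zmod_val, add_sub_cancel_left]

theorem p_CYC :
    S_CYC := by
  intro p _ G _ u hu J h
  obtain ⟨u, rfl⟩ := hu
  obtain ⟨θ, hθ⟩ := cyc_one (fun k : ZMod p => J (k * (u : ZMod p))) (by
    rw [← h]; exact Equiv.sum_comp u.mulRight J)
  refine ⟨fun k => θ (k * ((u⁻¹ : (ZMod p)ˣ) : ZMod p)), fun k => ?_⟩
  have := hθ (k * ((u⁻¹ : (ZMod p)ˣ) : ZMod p))
  simpa [add_mul, mul_assoc] using this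

end SCYC

section SBA1

open Set Filter Topology Metric
open scoped RealInnerProductSpace

lemma ba1_sum {p : ℕ} [NeZero p] {G : Type} [AddCommGroup G] (θ : ZMod p → G) (u : ZMod p) :
    ∑ j, θ (u + j) = ∑ j, θ j :=
  Equiv.sum_comp (Equiv.addLeft u) θ

theorem p_BA1 (hBALL : S_BALL) (hGL : S_GL) (hNJ : S_NJ) (hCYC : S_CYC) :
    S_BA1 := by
  intro p _ F _ N f H a₀ D s x₁ x₂ P Q hne G _ c hc
  have L := P.loc
  have hO : D.O ⊆ U f a₀ := L.O_sub.trans P.big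
  have hB : ∀ j : ZMod p, ball (sh j D.z) (3 * D.r) ⊆ U f a₀ := fun j => (L.B_sub j).trans P.big
  have hx : D.x ∈ D.O := L.sub (L.low L.mem)
  have h1 := L.K_sub Q.m1
  have h2 := L.K_sub Q.m2
  have o1 : x₁ ∈ D.O := L.sub h1.1
  have o2 : x₂ ∈ D.O := L.sub h2.1
  have hs : ∀ (k : ZMod p) {y : S3}, y ∈ D.O → s (sh k y) = s y + k :=
    fun k _ hy => P.sft.sh_one L.mapsO k hy
  refine ⟨?_, fun J ⟨h, b, hh, hb, hJ⟩ => ⟨fun ⟨K, hK⟩ => ?_, fun h0 => ?_⟩⟩
  · obtain ⟨h, hh, -⟩ := P.pot G c 0 (hc.mono hO)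
    choose b hb using fun j : ZMod p => hBALL (sh j D.z) (3 * D.r) L.r_le c (hc.mono (hB j))
    exact ⟨_, h, b, hh, hb, fun _ => rfl⟩
  · have e : ∀ y ∈ D.O, K y - h y = K (sh (s y) D.x) - h (sh (s y) D.x) := fun y hy =>
      L.orbO.eq ((hK.mono hO).lc_sub hh) (P.lc.map fun k => K (sh k D.x) - h (sh k D.x))
        (fun j => by rw [hs j hx, P.s0, zero_add]) hy
    have t : ∀ j : ZMod p, J j = (K (sh (s x₁ + j) D.x) - h (sh (s x₁ + j) D.x)) -
        (K (sh (s x₂ + j) D.x) - h (sh (s x₂ + j) D.x)) := fun j => by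
      have t1 := Q.tie G _ (((((hK.mono (hB j)).lc_sub (hb j)).comp
        (continuous_sh j).continuousOn (D.maps_B j))).mono inter_subset_right)
      rw [← hs j o1, ← hs j o2, ← e _ (mapsTo_sh L.mapsO j o1), ← e _ (mapsTo_sh L.mapsO j o2),
        hJ j]
      rw [← sub_eq_zero, ← sub_eq_zero.2 t1.symm]
      abel
    rw [Finset.sum_congr rfl fun j _ => t j, Finset.sum_sub_distrib,
      ba1_sum (fun k => K (sh k D.x) - h (sh k D.x)),
      ba1_sum (fun k => K (sh k D.x) - h (sh k D.x)), sub_self]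
  · obtain ⟨θ, hθ⟩ := hCYC _ Q.unit (fun k => J (-s x₂ + k)) ((ba1_sum J _).trans h0)
    have hh' : IsP D.O c fun y => h y + θ (s y) := hh.add_lc (P.lc.map θ)
    obtain ⟨k, hk, -⟩ := hGL H D L c _ b hh' hb fun j => Q.ext G _
      (((hh'.mono inter_subset_left).lc_sub ((hb j).mono inter_subset_right)).comp
        (continuous_sh j).continuousOn ((mapsTo_sh L.mapsO j).inter_inter (D.maps_B j))) (by
      have t1 := hθ (s x₂ + j)
      rw [neg_add_cancel_left, hJ j, show s x₂ + j + (s x₁ - s x₂) = s x₁ + j by ring] at t1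
      rw [hs j o1, hs j o2]
      rw [← sub_eq_zero, ← sub_eq_zero.2 t1]
      abel)
    obtain ⟨k', hk', -⟩ := hNJ H a₀ (up D.a D.k₀) c k ((L.U0_sub.trans L.U1_sub).trans P.big) hne
      P.nl hc hk
    exact ⟨k', hk'⟩

end SBA1

section SBA2

open Set Filter Topology Metric
open scoped RealInnerProductSpace

lemma ba2_add {p : ℕ} [NeZero p] {G : Type} [AddCommGroup G] {l : G} (hl : p • l = 0)
    (a b : ZMod p) : (a + b).val • l = a.val • l + b.val • l := by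
  rw [ZMod.val_add, ← nsmul_eq_mod_nsmul _ hl, add_nsmul]

lemma ba2_one {p : ℕ} [NeZero p] {G : Type} [AddCommGroup G] {l : G} (hl : p • l = 0) :
    (1 : ZMod p).val • l = l := by
  rw [← Nat.cast_one, ZMod.val_natCast, ← nsmul_eq_mod_nsmul _ hl, one_nsmul]

theorem p_BA2 (hBALL : S_BALL) (hGL : S_GL) (hNJ : S_NJ) :
    S_BA2 := by
  intro p _ F _ N f H a₀ D s x₁ x₂ P Q hne G _ c hc hI
  have L := P.loc
  have hO : D.O ⊆ U f a₀ := L.O_sub.trans P.big
  have hB : ∀ j : ZMod p, ball (sh j D.z) (3 * D.r) ⊆ U f a₀ := fun j => (L.B_sub j).trans P.big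
  have hB0 : D.B ⊆ U f a₀ := by simpa [LD.B] using hB 0
  have hx : D.x ∈ D.O := L.sub (L.low L.mem)
  have hK : ∀ y ∈ D.K f, y ∈ D.O := fun y hy => L.sub (L.K_sub hy).1
  have hs : ∀ (k : ZMod p), ∀ y ∈ D.O, s (sh k y) = s y + k := fun k y hy =>
    P.sft.sh_one L.mapsO k hy
  refine ⟨?_, ?_⟩
  · obtain ⟨h, h1, h2⟩ := P.pot G c (fun _ => 0) (hc.mono hO)
    obtain ⟨b, hb⟩ := hBALL D.z (3 * D.r) L.r_le c (hc.mono hB0)
    exact ⟨_, h, b, h1, L.orbO.sft L.mapsO (hI.mono hO) h1 fun j => by rw [h2, h2, add_zero],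
      hb, rfl⟩
  rintro j ⟨h, b, h1, h2, h3, e⟩
  have hh : ∀ (k : ZMod p), ∀ y ∈ D.O, h (sh k y) = h y := fun k y hy => by
    rw [h2.sh L.mapsO k hy, nsmul_zero, add_zero]
  have hb : ∀ k : ZMod p, IsP (ball (sh k D.z) (3 * D.r)) c fun y => b (sh (-k) y) := fun k =>
    (h3.comp (continuous_sh (-k)).continuousOn fun y hy => by
      show dist (sh (-k) y) D.z < 3 * D.r
      rw [← dist_sh k, sh_sh_neg]
      exact hy).congr_c fun x hx y hy => (hI.sh (H.mapsU a₀) (-k) (hB k hx) (hB k hy)).symm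
  refine ⟨⟨h, fun k y => b (sh (-k) y), h1, hb, fun k => ?_⟩, fun l hl => ⟨?_, fun hj => ?_⟩⟩
  · simp only [sh_neg_sh, hh k _ (hK _ Q.m1), hh k _ (hK _ Q.m2), e]
  · rintro ⟨g, g1, g2⟩
    have a1 : ∀ y ∈ D.O, g y - h y = (g D.x - h D.x) + (s y).val • l := fun y hy =>
      L.orbO.eq ((g1.mono hO).lc_sub h1) (P.lc.map fun t => (g D.x - h D.x) + t.val • l)
        (fun k => by
          rw [g2.sh (H.mapsU a₀) k (hO hx), hh k _ hx, hs k _ hx, P.s0, zero_add]
          abel) hy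
    have a2 := Q.tie G (fun y => g y - b y)
      ((g1.mono (inter_subset_right.trans hB0)).lc_sub (h3.mono inter_subset_right))
    have a3 := a1 _ (hK _ Q.m1)
    have a4 := a1 _ (hK _ Q.m2)
    rw [e, sub_smul, natCast_zsmul, natCast_zsmul]
    linear_combination (norm := abel1) a3 - a4 - a2
  · rw [e, sub_smul, natCast_zsmul, natCast_zsmul] at hj
    obtain ⟨g, g1, g2⟩ := hGL H D L c (fun y => h y + (s y).val • l) (fun k y => b (sh (-k) y))
      (h1.add_lc (P.lc.map fun t => t.val • l)) hb fun k =>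
      (Q.ext G (fun y => (h y - b y) + (s y + k).val • l)
        (((h1.mono inter_subset_left).lc_sub (h3.mono inter_subset_right)).map₂
          (P.lc.mono inter_subset_left) fun u t => u + (t + k).val • l)
        (by
          rw [ba2_add hl, ba2_add hl]
          linear_combination (norm := abel1) -hj)).congr fun y hy => by
        simp only [sh_neg_sh, hh k _ (hK _ hy), hs k _ (hK _ hy)]
        abel
    obtain ⟨g', b1, b2⟩ := hNJ H a₀ (up D.a D.k₀) c g (L.U0_sub.trans (L.U1_sub.trans P.big)) hne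
      P.nl hc g1
    have hx0 : D.x ∈ U f (up D.a D.k₀) := U_up_mono D.a L.k₀_pos.le (by simpa using L.mem)
    have b3 : ∀ k : ZMod p, g' (sh k D.x) = h D.x + k.val • l := fun k => by
      rw [b2 _ ((H.sh_mem k).2 hx0), g2, hh k _ hx, hs k _ hx, P.s0, zero_add]
    exact ⟨g', b1, (H.orb (hO hx)).sft (H.mapsU a₀) hI b1 fun k => by
      rw [b3, b3, ba2_add hl, ba2_one hl, add_assoc]⟩

end SBA2

section SBA

open Set Filter Topology Metric
open scoped RealInnerProductSpace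

section
variable {p : ℕ} [NeZero p] {N : ℕ} {D : LD N} {x₁ x₂ : S3} {G G' : Type} [AddCommGroup G]
  [AddCommGroup G'] {c c' : S3 → S3 → G} {J J' : ZMod p → G}

lemma ba_add (H : Lab p D x₁ x₂ c J) (H' : Lab p D x₁ x₂ c' J') :
    Lab p D x₁ x₂ (c + c') (J + J') := by
  obtain ⟨h, b, h1, h2, h3⟩ := H
  obtain ⟨h', b', k1, k2, k3⟩ := H'
  refine ⟨h + h', b + b', h1.add k1, fun j => (h2 j).add (k2 j), fun j => ?_⟩
  simp only [Pi.add_apply, h3, k3]
  abel

lemma ba_map (H : Lab p D x₁ x₂ c J) (φ : G →+ G') :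
    Lab p D x₁ x₂ (fun a b => φ (c a b)) fun j => φ (J j) := by
  obtain ⟨h, b, h1, h2, h3⟩ := H
  exact ⟨_, fun j a => φ (b j a), h1.map φ, fun j => (h2 j).map φ, fun j => by
    simp only [h3, map_sub]⟩

lemma ba_sh (hO : MapsTo (gn p) D.O D.O) (H : Lab p D x₁ x₂ c J) (k : ZMod p) :
    Lab p D x₁ x₂ (fun x y => c (sh k x) (sh k y)) fun j => J (k + j) := by
  obtain ⟨h, b, h1, h2, h3⟩ := H
  refine ⟨_, fun j a => b (k + j) (sh k a), h1.comp (continuous_sh k).continuousOn (mapsTo_sh hO k),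
    fun j => (h2 (k + j)).comp (continuous_sh k).continuousOn fun y hy => ?_, fun j => ?_⟩
  · rwa [mem_ball, ← sh_sh, dist_sh]
  · simp only [h3, sh_sh]

lemma ba_mapI {j : G} (H : LabI p D x₁ x₂ c j) (φ : G →+ G') :
    LabI p D x₁ x₂ (fun a b => φ (c a b)) (φ j) := by
  obtain ⟨h, b, h1, h2, h3, h4⟩ := H
  exact ⟨_, _, h1.map φ, fun x hx => by simp only [h2 x hx, add_zero], h3.map φ, by
    simp only [h4, map_sub]⟩

end

theorem p_BA (hBIRTH1 : S_BIRTH1) (hBIRTH2 : S_BIRTH2) (hBA1 : S_BA1) (hBA2 : S_BA2) :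
    S_BA := by
  intro p _ F _ N f H a ha hu
  classical
  obtain ⟨D, s, hPre⟩ := hBIRTH1 H a ha
  obtain ⟨x₁, x₂, hPost⟩ := hBIRTH2 H a D s hPre
  have B1 := fun {G : Type} [AddCommGroup G] => hBA1 H a D s x₁ x₂ hPre hPost hu (G := G)
  have B2 := fun {G : Type} [AddCommGroup G] => hBA2 H a D s x₁ x₂ hPre hPost hu (G := G)
  obtain ⟨dg, hdg⟩ : ∃ dg : (S3 → S3 → ℤ) → ℤ, ∀ c J, Lab p D x₁ x₂ c J → dg c = ∑ j, J j := by
    refine ⟨fun c => if h : ∃ J, Lab p D x₁ x₂ c J then ∑ j, h.choose j else 0, fun c J hJ => ?_⟩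
    have h : ∃ J, Lab p D x₁ x₂ c J := ⟨J, hJ⟩
    have h1 := ba_add h.choose_spec (ba_map hJ (-AddMonoidHom.id ℤ))
    have e : (c + fun a b => (-AddMonoidHom.id ℤ) (c a b)) = 0 := by funext a b; simp
    rw [e] at h1
    have h2 := ((B1 0 (isC_zero _)).2 _ h1).1 ⟨_, isP_zero _ 0⟩
    simp only [Pi.add_apply, AddMonoidHom.neg_apply, AddMonoidHom.id_apply, Finset.sum_add_distrib,
      Finset.sum_neg_distrib] at h2
    simp only [dif_pos h]
    linarith
  refine ⟨s x₁ - s x₂, dg, hPost.unit, fun c c' h h' => ?_, fun c k h => ?_, fun c k h => ?_,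
    fun c n h => ?_, fun c h hi => ?_⟩
  · obtain ⟨J, hJ⟩ := (B1 c h).1
    obtain ⟨J', hJ'⟩ := (B1 c' h').1
    rw [hdg _ _ (ba_add hJ hJ'), hdg _ _ hJ, hdg _ _ hJ', ← Finset.sum_add_distrib]
    rfl
  · obtain ⟨J, hJ⟩ := (B1 c h).1
    rw [hdg (k • c) _ (ba_map hJ (zsmulAddGroupHom k)), hdg _ _ hJ, Finset.mul_sum]
    rfl
  · obtain ⟨J, hJ⟩ := (B1 c h).1
    rw [hdg _ _ (ba_sh hPre.loc.mapsO hJ k), hdg _ _ hJ]
    exact Equiv.sum_comp (Equiv.addLeft k) J
  · obtain ⟨J, hJ⟩ := (B1 c h).1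
    refine ((B1 (cz n c) (h.cz n)).2 _ (ba_map hJ (Int.castAddHom (ZMod n)))).trans ?_
    rw [← map_sum, ← hdg _ _ hJ]
    exact ZMod.intCast_zmod_eq_zero_iff_dvd _ _
  · obtain ⟨j, hj⟩ := (B2 c h hi).1
    have B3 := fun n : ℕ => ((B2 (cz n c) (h.cz n) (hi.cz n)).2 _
      (ba_mapI hj (Int.castAddHom (ZMod n)))).2
    refine ⟨j, by rw [hdg _ _ ((B2 c h hi).2 j hj).1]; simp [ZMod.card], fun n => ?_, fun l => ?_⟩
    · refine (B3 n 0 (smul_zero _)).trans ?_
      rw [smul_zero]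
      exact ZMod.intCast_zmod_eq_zero_iff_dvd _ _
    · refine (B3 p l (by simp)).trans ?_
      simp [mul_comm]

end SBA

section STWO

open Set Filter Topology Metric
open scoped RealInnerProductSpace

theorem p_TWO (hBIRTH1 : S_BIRTH1) (hBIRTH2 : S_BIRTH2) (hBA1 : S_BA1) :
    S_TWO := by
  intro p _ F _ N f H a ha hu α β hα hβ nα nβ
  obtain ⟨D, s, hD⟩ := hBIRTH1 H a ha
  obtain ⟨x₁, x₂, hx⟩ := hBIRTH2 H a D s hD
  obtain ⟨⟨J, hJ⟩, h1⟩ := hBA1 H a D s x₁ x₂ hD hx hu α hα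
  obtain ⟨⟨J', hJ'⟩, h2⟩ := hBA1 H a D s x₁ x₂ hD hx hu β hβ
  rw [h1 J hJ] at nα
  rw [h2 J' hJ'] at nβ
  obtain ⟨h, b, k1, k2, k3⟩ := hJ
  obtain ⟨h', b', l1, l2, l3⟩ := hJ'
  refine ((hBA1 H a D s x₁ x₂ hD hx hu _ (hα.add hβ)).2 (fun j => J j + J' j)
    ⟨h + h', fun j => b j + b' j, k1.add l1, fun j => (k2 j).add (l2 j), fun j => ?_⟩).2 ?_
  · simp only [k3, l3, Pi.add_apply]
    abel
  · rw [Finset.sum_add_distrib]
    exact (by decide : ∀ u v : ZMod 2, ¬u = 0 → ¬v = 0 → u + v = 0) _ _ nα nβ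

end STWO

section SBA0

open Set Filter Topology Metric
open scoped RealInnerProductSpace

theorem p_BA0 (hBIRTH1 : S_BIRTH1) (hBIRTH2 : S_BIRTH2) (hCECH : S_CECH) :
    S_BA0 := by
  classical
  intro p _ F _ N f H a ha
  obtain ⟨D, s, P⟩ := hBIRTH1 H a ha
  obtain ⟨x₁, x₂, Q⟩ := hBIRTH2 H a D s P
  have L := P.loc
  have hr := L.r_pos
  let O₁ : Set S3 := D.O ∪ ⋃ k : ZMod p, ⋃ _ : k ≠ 0, ball (sh k D.z) (3 * D.r)
  let e : S3 → ZMod 2 := fun y => if s y = s x₁ then 1 else 0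
  obtain ⟨c1, c2, c3⟩ := hCECH (D.U1 f) O₁ D.B (ball D.z (2 * D.r)) e
    (fun x _ hx => nhdsWithin_le_nhds (isOpen_ball.mem_nhds
      (closedBall_subset_ball (by linarith) (closure_ball_subset_closedBall hx))))
    (fun x hx hc => by
      rw [isOpen_ball.isClosed_compl.closure_eq] at hc
      refine nhdsWithin_le_nhds ((L.openO.union
        (isOpen_iUnion fun _ => isOpen_iUnion fun _ => isOpen_ball)).mem_nhds
        ((L.cov hx).imp_right fun h => ?_))
      obtain ⟨k, hk⟩ := mem_iUnion.1 h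
      refine mem_iUnion₂.2 ⟨k, ?_, ball_subset_ball (by linarith) hk⟩
      rintro rfl
      rw [sh_zero] at hk
      exact hc (ball_subset_ball (by linarith) hk))
    ((P.lc.map fun t => if t = s x₁ then (1 : ZMod 2) else 0).mono fun y hy =>
      hy.1.2.resolve_right fun h => by
        obtain ⟨k, hk, h⟩ := mem_iUnion₂.1 h
        exact hk (L.ball_eq h (by rw [sh_zero]; exact hy.2)))
  refine ⟨up D.a D.k₁, _, L.U1_sub.trans P.big, fun h => P.nl (h.mono L.U0_sub), c1, ?_⟩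
  rintro ⟨h, hh⟩
  have k1 := (hh.mono inter_subset_left).lc_sub c2
  have k2 := (hh.mono inter_subset_left).lc_sub c3
  let θ : ZMod p → ZMod 2 := fun j => h (sh j D.x) - -(ball D.z (2 * D.r)).indicator e (sh j D.x)
  have hθ : ∀ y ∈ D.Os, h y - -(ball D.z (2 * D.r)).indicator e y = θ (s y) := fun y hy =>
    L.orbS.eq (k1.mono fun z hz => ⟨L.s_sub hz, Or.inl (L.sub hz)⟩) ((P.lc.mono L.sub).map θ)
      (fun j => by rw [P.sft.sh_one L.mapsO j (L.sub (L.low L.mem)), P.s0, zero_add]) hy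
  have m1 := (L.K_sub Q.m1).1
  have m2 := (L.K_sub Q.m2).1
  have t1 : ∀ j : ZMod p, j ≠ 0 → θ (s x₁ + j) - θ (s x₂ + j) = 0 := fun j hj => by
    rw [← P.sft.sh_one L.mapsO j (L.sub m1), ← P.sft.sh_one L.mapsO j (L.sub m2),
      ← hθ _ (mapsTo_sh L.mapsS j m1), ← hθ _ (mapsTo_sh L.mapsS j m2), sub_eq_zero]
    exact Q.tie _ _ (k1.comp (continuous_sh j).continuousOn fun y hy =>
      ⟨mapsTo_sh (H.mapsU _) j hy.1, Or.inr (mem_iUnion₂.2 ⟨j, hj, D.maps_B j hy.2⟩)⟩)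
  have t2 : θ (s x₁ + 0) - θ (s x₂ + 0) = 1 := by
    have := H.nontriv
    have e1 : e x₁ = 1 := if_pos rfl
    have e2 : e x₂ = 0 := if_neg fun k => Q.unit.ne_zero (sub_eq_zero.2 k.symm)
    have a1 := indicator_self_add_compl_apply (ball D.z (2 * D.r)) e x₁
    have a2 := indicator_self_add_compl_apply (ball D.z (2 * D.r)) e x₂
    have a3 := Q.tie _ _ k2
    rw [add_zero, add_zero, ← hθ _ m1, ← hθ _ m2]
    linear_combination a3 + a1 - a2 + e1 - e2
  have t3 := (Finset.sum_eq_single (s := Finset.univ) 0 (fun j _ hj => t1 j hj) (by simp)).trans t2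
  have t4 : ∀ u, ∑ j, θ (u + j) = ∑ j, θ j := fun u => Equiv.sum_comp (Equiv.addLeft u) θ
  rw [Finset.sum_sub_distrib, t4, t4, sub_self] at t3
  exact zero_ne_one t3

end SBA0

section SP3A

open Set Filter Topology Metric
open scoped RealInnerProductSpace

lemma p3a_one {A : Type} [CommRing A] (s g : ℕ → A) (m : ℕ) (hm : 0 < m)
    (h : ∀ k, k + 1 < m → (s (k + 1) - s k) * g (k + 1) = 0) :
    ∑ k ∈ Finset.range m, s k * (g (k + 1) - g k) = s (m - 1) * g m - s 0 * g 0 := by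
  induction m, hm using Nat.le_induction with
  | base => simp [mul_sub]
  | succ m hm ih =>
    obtain ⟨m, rfl⟩ := Nat.exists_eq_add_of_le' hm
    rw [Finset.sum_range_succ, ih fun k hk => h k (by omega)]
    simp only [Nat.add_sub_cancel]
    linear_combination -h m (by omega)

theorem p_P3A :
    S_P3A := by
  intro A _ K n M u v w s hK hn hM h0 hw hv hu bw bv bu
  have e1 : ∑ i ∈ Finset.range K, ∑ j ∈ Finset.range n, ∑ k ∈ Finset.range M,
      s i j k * (u i j (k + 1) - u i j k) =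
      ∑ i ∈ Finset.range K, ∑ j ∈ Finset.range n, u i j 0 :=
    Finset.sum_congr rfl fun i hi => Finset.sum_congr rfl fun j hj => by
      have hi := Finset.mem_range.1 hi
      have hj := Finset.mem_range.1 hj
      rw [p3a_one (s i j) (u i j) M hM fun k hk => hu i j k hi hj hk, (bu i hi j hj).1]
      linear_combination (bu i hi j hj).2
  have e2 : ∑ i ∈ Finset.range K, ∑ j ∈ Finset.range n, ∑ k ∈ Finset.range M,
      s i j k * (v i (j + 1) k - v i j k) = 0 :=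
    Finset.sum_eq_zero fun i hi => by
      rw [Finset.sum_comm]
      refine Finset.sum_eq_zero fun k hk => ?_
      have hi := Finset.mem_range.1 hi
      have hk := Finset.mem_range.1 hk
      rw [p3a_one (fun j => s i j k) (fun j => v i j k) n hn fun j hj => hv i j k hi hj hk,
        (bv i hi k hk).1]
      linear_combination (bv i hi k hk).2
  have e3 : ∑ i ∈ Finset.range K, ∑ j ∈ Finset.range n, ∑ k ∈ Finset.range M,
      s i j k * (w (i + 1) j k - w i j k) = 0 := by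
    rw [Finset.sum_comm]
    refine Finset.sum_eq_zero fun j hj => ?_
    rw [Finset.sum_comm]
    refine Finset.sum_eq_zero fun k hk => ?_
    have hj := Finset.mem_range.1 hj
    have hk := Finset.mem_range.1 hk
    rw [p3a_one (fun i => s i j k) (fun i => w i j k) K hK fun i hi => hw i j k hi hj hk,
      (bw j hj k hk).1, (bw j hj k hk).2]
    ring
  rw [← e1, ← add_zero (∑ i ∈ Finset.range K, _), ← sub_zero (∑ i ∈ Finset.range K, _)]
  conv_lhs => enter [1, 2]; rw [← e2]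
  conv_lhs => enter [2]; rw [← e3]
  simp only [← Finset.sum_sub_distrib, ← Finset.sum_add_distrib]
  refine Finset.sum_eq_zero fun i hi => Finset.sum_eq_zero fun j hj =>
    Finset.sum_eq_zero fun k hk => ?_
  linear_combination s i j k * h0 i (Finset.mem_range.1 hi) j (Finset.mem_range.1 hj) k
    (Finset.mem_range.1 hk)

end SP3A

end Pool.Agent.P.MP_c88051_gt.Q1
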