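import Pool.Agent.P.MP_c88051_gt.Q1.IfaceA
import Pool.Agent.P.MP_56563a_an.BU

/-! Steps LINE, PL2, G12, G4, G5B, EXP1, EXG, FAM. -/

set_option autoImplicit false
set_option linter.unusedSectionVars false

namespace Pool.Agent.P.MP_c88051_gt.Q1

section SLINE

open Set Filter Topology Metric
open scoped RealInnerProductSpace

lemma line_loc {p : ℕ} [NeZero p] {K : Set S3} {φ : S3 → ℝ} (hK : IsClosed K) (hφ : Continuous φ)
    (hf : ∀ x ∈ K, ∀ y ∈ K, φ x = φ y → ∃ k : ZMod p, y = sh k x) (t : ℝ) :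
    ∃ η > (0 : ℝ), Lf p (K ∩ φ ⁻¹' ball t η) := by
  obtain ⟨V, h1, h2, h3⟩ : ∃ V, IsOpen V ∧ Lf p V ∧ ∀ x ∈ K, φ x = t → x ∈ V := by
    by_cases h : ∃ z ∈ K, φ z = t
    · obtain ⟨z, hz, e⟩ := h
      obtain ⟨d, hd, hg⟩ := exists_gap p
      obtain ⟨s, -, s1, s2⟩ := lf_balls (p := p) (z := z) (ρ := d / 2) fun k hk => by
        linarith [hg k hk z]
      refine ⟨_, isOpen_iUnion fun _ => isOpen_ball, ⟨s, s1, s2⟩, fun x hx e' => ?_⟩
      obtain ⟨k, rfl⟩ := hf z hz x hx (e.trans e'.symm)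
      exact mem_iUnion.2 ⟨k, mem_ball_self (half_pos hd)⟩
    · exact ⟨∅, isOpen_empty, liftTo_empty _ _, fun x hx e => h ⟨x, hx, e⟩⟩
  have hc : IsClosed (φ '' (K ∩ Vᶜ)) := ((hK.inter h1.isClosed_compl).isCompact.image hφ).isClosed
  obtain ⟨η, a1, a2⟩ := Metric.isOpen_iff.1 hc.isOpen_compl t fun ⟨x, hx, e⟩ => hx.2 (h3 x hx.1 e)
  exact ⟨η, a1, LiftTo.mono h2 fun x hx => by_contra fun hn => a2 hx.2 ⟨x, ⟨hx.1, hn⟩, rfl⟩⟩

lemma line_step {p : ℕ} [NeZero p] {K : Set S3} {φ : S3 → ℝ} (hK : IsClosed K)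
    (mK : MapsTo (gn p) K K) (hφ : Continuous φ) (hi : ∀ x, φ (gn p x) = φ x)
    (hf : ∀ x ∈ K, ∀ y ∈ K, φ x = φ y → ∃ k : ZMod p, y = sh k x) {a b : ℝ}
    (hA : Lf p (K ∩ φ ⁻¹' Iic a)) (hB : Lf p (K ∩ φ ⁻¹' Icc a b)) : Lf p (K ∩ φ ⁻¹' Iic b) := by
  obtain ⟨s, s1, s2⟩ := hA
  obtain ⟨u, u1, u2⟩ := hB
  have m : ∀ I : Set ℝ, MapsTo (gn p) (K ∩ φ ⁻¹' I) (K ∩ φ ⁻¹' I) := fun I x hx =>
    ⟨mK hx.1, by rw [mem_preimage, hi]; exact hx.2⟩
  obtain ⟨d, hd⟩ : ∃ d, ∀ x ∈ (K ∩ φ ⁻¹' Iic a) ∩ (K ∩ φ ⁻¹' Icc a b), s x = u x + d := by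
    rcases ((K ∩ φ ⁻¹' Iic a) ∩ (K ∩ φ ⁻¹' Icc a b)).eq_empty_or_nonempty with h | ⟨z, hz⟩
    · exact ⟨0, by simp [h]⟩
    · refine ⟨s z - u z, fun x hx => ?_⟩
      obtain ⟨k, rfl⟩ := hf z hz.1.1 x hx.1.1
        ((le_antisymm hz.1.2 hz.2.2.1).trans (le_antisymm hx.1.2 hx.2.2.1).symm)
      rw [s2.sh_one (m _) k hz.1, u2.sh_one (m _) k hz.2]
      ring
  refine LiftTo.mono (lf_union (hK.inter (isClosed_Iic.preimage hφ))
    (hK.inter (isClosed_Icc.preimage hφ)) (m _) s1 s2 u1 u2 hd) fun x hx => ?_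
  rcases le_total (φ x) a with h | h
  exacts [Or.inl ⟨hx.1, h⟩, Or.inr ⟨hx.1, h, hx.2⟩]

theorem p_LINE :
    S_LINE := by
  intro p _ K φ hK mK hφ hi hf
  have lc : IsLocallyConstant fun t : ℝ => Lf p (K ∩ φ ⁻¹' Iic t) := by
    rw [IsLocallyConstant.iff_eventually_eq]
    intro t
    obtain ⟨η, h1, h2⟩ := line_loc hK hφ hf t
    have key : ∀ a ∈ ball t η, ∀ b ∈ ball t η, Lf p (K ∩ φ ⁻¹' Iic a) → Lf p (K ∩ φ ⁻¹' Iic b) :=
      fun a ha b hb h => line_step hK mK hφ hi hf h (LiftTo.mono h2 fun x hx =>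
        ⟨hx.1, (convex_ball t η).ordConnected.out ha hb hx.2⟩)
    filter_upwards [ball_mem_nhds t h1] with a ha
    exact propext ⟨key a ha t (mem_ball_self h1), key t (mem_ball_self h1) a ha⟩
  obtain ⟨M, hM⟩ := isCompact_univ.exists_bound_of_continuousOn hφ.continuousOn
  have e := lc.apply_eq_of_preconnectedSpace (-M - 1) M
  have h0 : Lf p (K ∩ φ ⁻¹' Iic (-M - 1)) := LiftTo.mono (liftTo_empty _ _) fun x hx => by
    have a1 := (abs_le.1 (hM x (mem_univ x))).1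
    have a2 : φ x ≤ -M - 1 := hx.2
    linarith
  exact LiftTo.mono (e ▸ h0 : Lf p (K ∩ φ ⁻¹' Iic M)) fun x hx =>
    ⟨hx, (abs_le.1 (hM x (mem_univ x))).2⟩

end SLINE

section SPL2

open Set Filter Topology Metric
open scoped RealInnerProductSpace

lemma pl2_alt {p : ℕ} [NeZero p] {K : Set S3} {u : S3 → ℝ} (hu : Continuous u)
    (hi : ∀ x, u (gn p x) = u x) (h : ∀ n : ℤ, Lf p (K ∩ {x | n ≤ u x ∧ u x ≤ n + 1})) (e : ℤ) :
    Lf p (K ∩ {x | ∃ m : ℤ, (2 * m + e : ℤ) ≤ u x ∧ u x ≤ (2 * m + e : ℤ) + 1}) := by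
  choose s h1 h2 using h
  have key : ∀ (m : ℤ) x, (2 * m + e : ℤ) ≤ u x ∧ u x ≤ (2 * m + e : ℤ) + 1 →
      ⌊(u x - e) / 2⌋ = m := fun m x hx => by
    push_cast at hx
    rw [Int.floor_eq_iff]
    constructor <;> linarith [hx.1, hx.2]
  refine ⟨fun x => s (2 * ⌊(u x - e) / 2⌋ + e) x, LC.of_local fun x ⟨_, m, hm⟩ =>
    ⟨_, ?_, (h1 (2 * m + e)).congr fun y hy => by rw [key m y hy.2]⟩, fun x ⟨hx, m, hm⟩ => ?_⟩
  · have : ∀ᶠ y in 𝓝 x, dist (u y) (u x) < 1 := hu.continuousAt (ball_mem_nhds _ one_pos)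
    filter_upwards [self_mem_nhdsWithin, nhdsWithin_le_nhds this] with y ⟨hy, m', hm'⟩ hd
    rw [Real.dist_eq, abs_lt] at hd
    have a1 : (m' : ℝ) < (m + 1 : ℤ) := by push_cast at *; linarith [hm.2, hm'.1, hd.2]
    have a2 : (m : ℝ) < (m' + 1 : ℤ) := by push_cast at *; linarith [hm.1, hm'.2, hd.1]
    obtain rfl : m' = m := by
      have := Int.cast_lt.1 a1
      have := Int.cast_lt.1 a2
      omega
    exact ⟨hy, hm'⟩
  · simp only [hi, key m x hm]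
    exact h2 _ x ⟨hx, hm⟩

theorem p_PL2 (hLINE : S_LINE) (hNBHD : S_NBHD) :
    S_PL2 := by
  intro p _ F _ N f H K hK hm hd
  obtain ⟨π, hπ⟩ := exists_proj _ hd
  have hc : ∀ i, Continuous fun x => π (f x) i := fun i =>
    (continuous_apply i).comp (π.continuous.comp H.cont)
  have h1 : ∀ c : ℝ, ∃ η > (0 : ℝ), Lf p (K ∩ {x | π (f x) 0 ∈ ball c η}) := fun c => by
    have hm' : MapsTo (gn p) (K ∩ {x | π (f x) 0 = c}) (K ∩ {x | π (f x) 0 = c}) :=
      fun x hx => ⟨hm hx.1, by simpa only [mem_ofPred_eq, H.inv] using hx.2⟩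
    obtain ⟨O, o1, -, o3, o4⟩ := hNBHD _ hm' (hLINE _ (fun x => π (f x) 1)
      (hK.inter (isClosed_eq (hc 0) continuous_const)) hm' (hc 1) (fun x => by rw [H.inv])
      fun x hx y hy e => H.inj x y (sub_eq_zero.1 (hπ _ (sub_mem_Dir hx.1 hy.1) (by
        rw [map_sub, sub_eq_zero]
        exact funext (Fin.forall_fin_two.2 ⟨hx.2.trans hy.2.symm, e⟩)))))
    have hcl := ((hK.inter o1.isClosed_compl).isCompact.image (hc 0)).isClosed
    obtain ⟨η, e1, e2⟩ := Metric.isOpen_iff.1 hcl.isOpen_compl c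
      fun ⟨x, hx, e⟩ => hx.2 (o3 ⟨hx.1, e⟩)
    exact ⟨η, e1, o4.mono fun x hx => by_contra fun hn => e2 hx.2 ⟨x, ⟨hx.1, hn⟩, rfl⟩⟩
  choose η η0 hη using h1
  obtain ⟨δ, δ0, hδ⟩ := lebesgue_number_lemma_of_metric (isCompact_range (hc 0))
    (c := fun c => ball c (η c)) (fun _ => isOpen_ball)
    fun c _ => mem_iUnion.2 ⟨c, mem_ball_self (η0 c)⟩
  have hu : Continuous fun x => π (f x) 0 / (δ / 2) := (hc 0).div_const _
  have h2 := pl2_alt (p := p) (K := K) hu (fun x => by rw [H.inv]) fun n => by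
    rcases (K ∩ {x | n ≤ π (f x) 0 / (δ / 2) ∧ π (f x) 0 / (δ / 2) ≤ n + 1}).eq_empty_or_nonempty
      with e | ⟨x, hx⟩
    · rw [e]; exact lf_empty
    · obtain ⟨c, hc⟩ := hδ _ ⟨x, rfl⟩
      refine (hη c).mono fun y hy => ⟨hy.1, hc ?_⟩
      obtain ⟨-, a1, a2⟩ := hx
      obtain ⟨-, a3, a4⟩ := hy
      rw [le_div_iff₀ (half_pos δ0)] at a1 a3
      rw [div_le_iff₀ (half_pos δ0)] at a2 a4
      rw [mem_ball, Real.dist_eq, abs_lt]
      constructor <;> linarith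
  have h3 := fun e : ℤ => hNBHD _ (fun x hx => mem_inter (hm hx.1) (by
    simpa only [mem_ofPred_eq, H.inv] using hx.2)) (h2 e)
  obtain ⟨O₁, a1, a2, a3, a4⟩ := h3 0
  obtain ⟨O₂, b1, b2, b3, b4⟩ := h3 1
  refine ⟨O₁, O₂, a1, b1, a2, b2, a4, b4, fun x hx => ?_⟩
  have e1 := Int.floor_le (π (f x) 0 / (δ / 2))
  have e2 := (Int.lt_floor_add_one (π (f x) 0 / (δ / 2))).le
  obtain ⟨m, e | e⟩ := Int.even_or_odd' ⌊π (f x) 0 / (δ / 2)⌋
  · exact Or.inl (a3 ⟨hx, m, by rw [add_zero, ← e]; exact ⟨e1, e2⟩⟩)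
  · exact Or.inr (b3 ⟨hx, m, by rw [← e]; exact ⟨e1, e2⟩⟩)

end SPL2

section SG12

open Set Filter Topology Metric
open scoped RealInnerProductSpace

lemma g12_chart (hCHART : S_CHART) {p : ℕ} [NeZero p] {F : Type} [Field F] {N : ℕ}
    {f : S3 → EV N} (H : Sys f p F) (z : S3) {ρ : ℝ} (hρ : 0 < ρ) :
    ∃ Φ : (Fin 3 → ℝ) → S3, Continuous Φ ∧ Φ 0 = z ∧ (∀ u, ‖u‖ ≤ 1 → Φ u ∈ ball z ρ) ∧
      ∀ u v, ‖u‖ ≤ 1 → ‖v‖ ≤ 1 → f (Φ u) = f (Φ v) → u = v := by
  have := H.nontriv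
  obtain ⟨d, hd, hg⟩ := exists_gap p
  obtain ⟨ι, h1, h2, -⟩ := hCHART (sh (1 : ZMod p) z)
  obtain ⟨y₀, rfl⟩ : z ∈ range ι := by
    rw [h2]
    intro e
    exact one_ne_zero (sh_inj (l := (0 : ZMod p)) (by rw [sh_zero]; exact e.symm))
  obtain ⟨η, hη, hb⟩ := nhds_basis_closedBall.mem_iff.1
    (h1.continuous.continuousAt (x := y₀) (ball_mem_nhds _ (lt_min hρ (half_pos hd))))
  have hm : ∀ u : Fin 3 → ℝ, ‖u‖ ≤ 1 → dist (ι (y₀ + η • u)) (ι y₀) < min ρ (d / 2) :=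
    fun u hu => hb (by
      rw [mem_closedBall, dist_self_add_left, norm_smul, Real.norm_of_nonneg hη.le]
      exact mul_le_of_le_one_right hη.le hu)
  refine ⟨fun u => ι (y₀ + η • u), h1.continuous.comp (by fun_prop), by simp,
    fun u hu => (hm u hu).trans_le (min_le_left _ _), fun u v hu hv e => ?_⟩
  obtain ⟨k, hk⟩ := H.inj _ _ e
  have k0 : k = 0 := by
    by_contra hn
    have a1 := hg k hn (ι (y₀ + η • u))
    rw [← hk] at a1
    have a2 := dist_triangle_right (ι (y₀ + η • v)) (ι (y₀ + η • u)) (ι y₀)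
    linarith [(hm u hu).trans_le (min_le_right _ _), (hm v hv).trans_le (min_le_right _ _)]
  rw [k0, sh_zero] at hk
  exact (smul_right_injective _ hη.ne' (add_left_cancel (h1.injective hk))).symm

lemma g12_ne {u : Fin 3 → ℝ} {a b : ℝ} (hu : ‖u‖ = 1) (hab : a + b = 1) : a • u ≠ -(b • u) :=
  fun e => by
  rw [eq_neg_iff_add_eq_zero, ← add_smul, hab, one_smul] at e
  simp [e] at hu

/-- An injective map of the ball has no extremal coordinate at the centre. -/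
lemma g12_max {G : (Fin 3 → ℝ) → Fin 3 → ℝ} (hc : Continuous G)
    (hi : ∀ u v, ‖u‖ ≤ 1 → ‖v‖ ≤ 1 → G u = G v → u = v) (hm : ∀ u, G u 0 ≤ G 0 0) : False := by
  let r : (Option (Fin 3) → ℝ) → Fin 3 → ℝ := fun x i => x (some i)
  let g : (Option (Fin 3) → ℝ) → Fin 3 → ℝ := fun x =>
    G (((1 + x none) / 2) • r x) - G (-(((1 - x none) / 2) • r x)) -
      fun _ => x none * (1 - ‖r x‖)
  have rn : ∀ x, r (-x) = -r x := fun _ => rfl
  have go : ∀ x, g (-x) = -g x := fun x => by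
    funext i
    simp only [g, rn, Pi.neg_apply, Pi.sub_apply, norm_neg, smul_neg, neg_neg, sub_neg_eq_add,
      ← sub_eq_add_neg]
    ring
  have key : ∀ x : Option (Fin 3) → ℝ, ‖x‖ = 1 → 0 ≤ x none → g x ≠ 0 := fun x hx h0 e => by
    have h1 : x none ≤ 1 := (le_abs_self _).trans ((norm_le_pi_norm x none).trans hx.le)
    have h2 : ‖r x‖ ≤ 1 := (pi_norm_le_iff_of_nonneg zero_le_one).2 fun i =>
      (norm_le_pi_norm x (some i)).trans hx.le
    have h3 : ∀ a : ℝ, 0 ≤ a → a ≤ 1 → ‖a • r x‖ ≤ 1 := fun a a0 a1 => by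
      rw [norm_smul, Real.norm_of_nonneg a0]
      exact mul_le_one₀ a1 (norm_nonneg _) h2
    rcases h2.eq_or_lt with h | h
    · refine g12_ne h (by ring) (hi (((1 + x none) / 2) • r x) (-(((1 - x none) / 2) • r x))
        (h3 _ (by linarith) (by linarith))
        (by rw [norm_neg]; exact h3 _ (by linarith) (by linarith)) (funext fun i => ?_))
      have := congrFun e i
      simp only [g, h, Pi.sub_apply, Pi.zero_apply] at this
      linarith
    · have h4 : x none = 1 := by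
        refine le_antisymm h1 (not_lt.1 fun hl => hx.not_lt ?_)
        refine (pi_norm_lt_iff one_pos).2 fun o => ?_
        rcases o with _ | i
        · rwa [Real.norm_of_nonneg h0]
        · exact (norm_le_pi_norm (r x) i).trans_lt h
      have := congrFun e 0
      simp only [g, h4, Pi.sub_apply, Pi.zero_apply, sub_self, zero_div, zero_smul,
        neg_zero] at this
      linarith [hm (((1 + 1 : ℝ) / 2) • r x)]
  have rc : Continuous r := by fun_prop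
  obtain ⟨x, hx, e⟩ := MP_56563a_an.borsuk_ulam (by simp) g
    (Continuous.continuousOn (by fun_prop)) go
  rw [mem_sphere_zero_iff_norm] at hx
  rcases le_total 0 (x none) with h | h
  · exact key x hx h e
  · exact key (-x) (by rwa [norm_neg]) (by simpa using h) (by rw [go, e, neg_zero])

theorem p_G12 (hCHART : S_CHART) :
    S_G12 := by
  intro p _ F _ N f H
  have hf := H.cont
  refine ⟨fun z ρ hρ => not_lt.1 fun h => ?_, not_lt.1 fun h => ?_⟩
  · obtain ⟨π, hπ⟩ := exists_proj (k := 2) _ (Nat.lt_succ_iff.1 h)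
    obtain ⟨Φ, h1, -, h3, h4⟩ := g12_chart hCHART H z hρ
    obtain ⟨u, hu, e⟩ := MP_56563a_an.borsuk_ulam (κ := Fin 3) (by simp)
      (fun u => π (f (Φ u) - f (Φ (-u)))) (Continuous.continuousOn (by fun_prop))
      fun u => by rw [neg_neg, ← map_neg, neg_sub]
    rw [mem_sphere_zero_iff_norm] at hu
    have hu' : ‖-u‖ ≤ 1 := by rw [norm_neg, hu]
    have := h4 u (-u) hu.le hu' (sub_eq_zero.1 (hπ _ (sub_mem_Dir (h3 u hu.le) (h3 _ hu')) e))
    rw [eq_neg_iff_add_eq_zero, ← two_smul ℝ, smul_eq_zero_iff_right two_ne_zero] at this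
    simp [this] at hu
  · obtain ⟨π, hπ⟩ := exists_proj (k := 3) _ (Nat.lt_succ_iff.1 h)
    obtain ⟨z, -, hz⟩ := isCompact_univ.exists_isMaxOn univ_nonempty
      (show ContinuousOn (fun x => π (f x) 0) univ by fun_prop)
    obtain ⟨Φ, h1, h2, -, h4⟩ := g12_chart hCHART H z one_pos
    refine g12_max (G := fun u => π (f (Φ u))) (by fun_prop) (fun u v hu hv e => h4 u v hu hv
      (sub_eq_zero.1 (hπ _ (sub_mem_Dir (mem_univ _) (mem_univ _)) ?_))) fun u => ?_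
    · rw [map_sub, e, sub_self]
    · simp only [h2]
      exact isMaxOn_iff.1 hz _ (mem_univ _)

end SG12

section SG4

open Set Filter Topology Metric
open scoped RealInnerProductSpace

theorem g4_out {N : ℕ} (Q : ℕ → Submodule ℝ (EV N)) (h : ∀ i, Module.finrank ℝ (Q i) < N) :
    ∃ v, ∀ i, v ∉ Q i := by
  by_contra hc
  push Not at hc
  have h0 : (MeasureTheory.volume : MeasureTheory.Measure (EV N)) (⋃ i, (Q i : Set (EV N))) = 0 := by
    refine MeasureTheory.measure_iUnion_null fun i =>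
      MeasureTheory.Measure.addHaar_submodule _ _ fun ht => ?_
    have := h i
    rw [ht, finrank_top, finrank_euclideanSpace_fin] at this
    exact lt_irrefl _ this
  have hu : (⋃ i, (Q i : Set (EV N))) = univ :=
    eq_univ_of_forall fun v => mem_iUnion.2 (hc v)
  rw [hu] at h0
  exact (isOpen_univ.measure_pos MeasureTheory.volume univ_nonempty).ne' h0

theorem g4_dim {N : ℕ} (Q : Submodule ℝ (EV N)) (v : EV N) :
    Module.finrank ℝ ↥(Q ⊔ Submodule.span ℝ {v}) ≤ Module.finrank ℝ Q + 1 := by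
  refine (Submodule.finrank_add_le_finrank_add_finrank _ _).trans (Nat.add_le_add_left ?_ _)
  simpa using finrank_span_le_card (R := ℝ) ({v} : Set (EV N))

theorem g4_zero {N : ℕ} {S : Submodule ℝ (EV N)} {v w : EV N} {s : ℝ} (hv : v ∉ S) (hw : w ∈ S)
    (h : w + s • v ∈ S) : s = 0 := by
  by_contra hs
  exact hv ((S.smul_mem_iff hs).1 ((S.add_mem_iff_right hw).1 h))

theorem g4_perp {N : ℕ} (D : Submodule ℝ (EV N)) :
    Module.finrank ℝ D + Module.finrank ℝ Dᗮ = N := by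
  rw [D.finrank_add_finrank_orthogonal, finrank_euclideanSpace_fin]

theorem p_G4 :
    S_G4 := by
  intro N D D₀ hD h0
  obtain ⟨P, hz, hs⟩ : ∃ P : ℕ → Submodule ℝ (EV N), P 0 = D₀ᗮ ∧ ∀ j, P (j + 1) = (D j)ᗮ :=
    ⟨fun i => Nat.casesOn i D₀ᗮ fun j => (D j)ᗮ, rfl, fun _ => rfl⟩
  have hP0 : Module.finrank ℝ ↥(P 0 : Submodule ℝ (EV N)) + 4 ≤ N := by
    have := g4_perp D₀
    rw [hz]
    omega
  have hP : ∀ i : ℕ, Module.finrank ℝ ↥(P i : Submodule ℝ (EV N)) + 3 ≤ N := by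
    intro i
    cases i with
    | zero => omega
    | succ j =>
      have := g4_perp (D j)
      have := hD j
      rw [hs]
      omega
  obtain ⟨v0, h0⟩ := g4_out P fun i => by have := hP i; omega
  obtain ⟨v1, h1⟩ := g4_out (fun i => P i ⊔ Submodule.span ℝ {v0}) fun i => by
    have := hP i
    have := g4_dim (P i) v0
    omega
  obtain ⟨v2, h2⟩ := g4_out (fun i => (P i ⊔ Submodule.span ℝ {v0}) ⊔ Submodule.span ℝ {v1})
    fun i => by
      have := hP i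
      have := g4_dim (P i) v0
      have := g4_dim (P i ⊔ Submodule.span ℝ {v0}) v1
      omega
  obtain ⟨e, he⟩ := g4_out
    (fun _ => ((P 0 ⊔ Submodule.span ℝ {v0}) ⊔ Submodule.span ℝ {v1}) ⊔ Submodule.span ℝ {v2})
    fun _ => by
      have := g4_dim (P 0) v0
      have := g4_dim (P 0 ⊔ Submodule.span ℝ {v0}) v1
      have := g4_dim ((P 0 ⊔ Submodule.span ℝ {v0}) ⊔ Submodule.span ℝ {v1}) v2
      omega
  have ms : ∀ (S : Submodule ℝ (EV N)) (v : EV N) (s : ℝ), s • v ∈ S ⊔ Submodule.span ℝ {v} :=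
    fun S v s => Submodule.mem_sup_right
      (Submodule.smul_mem _ _ (Submodule.mem_span_singleton_self v))
  have key : ∀ (i : ℕ) (b : Fin 3 → ℝ), b 0 • v0 + b 1 • v1 + b 2 • v2 ∈ P i → b = 0 := by
    intro i b hb
    have e2 : b 2 = 0 := g4_zero (h2 i)
      (Submodule.add_mem _ (Submodule.mem_sup_left (ms _ _ _)) (ms _ _ _))
      (Submodule.mem_sup_left (Submodule.mem_sup_left hb))
    rw [e2, zero_smul, add_zero] at hb
    have e1 : b 1 = 0 := g4_zero (h1 i) (ms _ _ _) (Submodule.mem_sup_left hb)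
    rw [e1, zero_smul, add_zero] at hb
    have e0 : b 0 = 0 := g4_zero (h0 i) (Submodule.zero_mem _) (by rwa [zero_add])
    ext j
    fin_cases j
    exacts [e0, e1, e2]
  refine ⟨(ContinuousLinearMap.proj 0).smulRight v0 + (ContinuousLinearMap.proj 1).smulRight v1 +
    (ContinuousLinearMap.proj 2).smulRight v2, e, fun i b hb => key (i + 1) b (hs i ▸ hb), fun b s hb => ?_⟩
  have hb' : b 0 • v0 + b 1 • v1 + b 2 • v2 + s • e ∈ P 0 := hz ▸ hb
  have es : s = 0 := g4_zero (he 0)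
    (Submodule.add_mem _ (Submodule.mem_sup_left
      (Submodule.add_mem _ (Submodule.mem_sup_left (ms _ _ _)) (ms _ _ _))) (ms _ _ _))
    (Submodule.mem_sup_left (Submodule.mem_sup_left (Submodule.mem_sup_left hb')))
  rw [es, zero_smul, add_zero] at hb'
  exact ⟨key 0 b hb', es⟩

end SG4

section SG5B

open Set Filter Topology Metric
open scoped RealInnerProductSpace

theorem p_G5B (hPL2 : S_PL2) (hP3L : S_P3L) :
    S_G5B := by
  intro p _ F _ N f H v hZ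
  by_contra hn
  have hc : IsClosed (Face f v) :=
    isClosed_eq (by have := H.cont; fun_prop) continuous_const
  have hm : MapsTo (gn p) (Face f v) (Face f v) := fun x hx => by
    show ⟪v, f (gn p x)⟫ = mn f v
    rw [H.inv]; exact hx
  obtain ⟨O₁, O₂, o1, o2, m1, m2, l1, l2, hs⟩ := hPL2 H (Face f v) hc hm (by omega)
  refine hP3L (by have := H.three; omega) O₁ O₂ _ o1 o2 (H.openU (-v, -mn f v)) m1 m2 l1 l2 hZ
    (eq_univ_of_forall fun x => ?_)
  rcases (mn_le v x H.cont).eq_or_lt with h | h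
  · exact Or.inl (hs h.symm)
  · refine Or.inr ?_
    rw [mem_U, inner_neg_left]
    exact neg_lt_neg h

end SG5B

section SEXP1

open Set Filter Topology Metric
open scoped RealInnerProductSpace

lemma exp1_div {Y : Type} [TopologicalSpace Y] {O : Set Y} {g : Y → Y} {c : Y → Y → ℤ} {n : ℤ}
    (hn : n ≠ 0) (hc : IsC O c) (hi : Inv2 g O c) (hp : IPot g O n.natAbs c) :
    ∃ (c1 : Y → Y → ℤ) (k : Y → ℤ), IsC O c1 ∧ Inv2 g O c1 ∧ IsP O (c - n • c1) k := by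
  obtain ⟨h, h1, h2⟩ := hp
  have : NeZero n.natAbs := ⟨Int.natAbs_ne_zero.2 hn⟩
  let k : Y → ℤ := fun x => ((h x).val : ℤ)
  let c1 : Y → Y → ℤ := fun a b => (c a b - (k b - k a)) / n
  have key : ∀ x ∈ O, ∃ m ∈ 𝓝[O] x, ∀ a ∈ m, ∀ b ∈ m, n * c1 a b = c a b - (k b - k a) := by
    intro x hx
    obtain ⟨m, hm, hh⟩ := h1 x hx
    refine ⟨m, hm, fun a ha b hb => Int.mul_ediv_cancel' ?_⟩
    rw [← Int.natAbs_dvd, ← ZMod.intCast_zmod_eq_zero_iff_dvd]
    have := hh a ha b hb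
    simp only [cz] at this
    simp only [k, Int.cast_sub, Int.cast_natCast, ZMod.natCast_zmod_val, this, sub_self]
  refine ⟨c1, k, fun x hx => ?_, fun x hx y hy => ?_, fun x hx => ?_⟩
  · obtain ⟨m, hm, hh⟩ := key x hx
    obtain ⟨m', hm', hh'⟩ := hc x hx
    refine ⟨m ∩ m', inter_mem hm hm', fun a ha b hb d hd => mul_left_cancel₀ hn ?_⟩
    rw [mul_add, hh a ha.1 b hb.1, hh b hb.1 d hd.1, hh a ha.1 d hd.1, ← hh' a ha.2 b hb.2 d hd.2]
    ring
  · simp only [c1, k, hi x hx y hy, h2 x hx, h2 y hy, add_zero]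
  · obtain ⟨m, hm, hh⟩ := key x hx
    refine ⟨m, hm, fun a ha b hb => ?_⟩
    simp only [Pi.sub_apply, Pi.smul_apply, smul_eq_mul, hh a ha b hb]
    ring

theorem p_EXP1 (hBA : S_BA) :
    S_EXP1 := by
  classical
  intro p _ F _ N f H a β hL hU hβ hP
  obtain ⟨κ, dg, hκ, hadd, hsm, hsh, hpot, hinv⟩ := hBA H a hL hU
  have hp0 : (p : ℤ) ≠ 0 := by exact_mod_cast NeZero.ne p
  have hn : dg β ≠ 0 := fun h0 => hP ((hpot β 2 hβ).2 (by rw [h0]; exact dvd_zero _))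
  have hk : ∀ k : ZMod p, IsC (U f a) (fun x y => β (sh k x) (sh k y)) := fun k =>
    hβ.comp (continuous_sh k).continuousOn (mapsTo_sh (H.mapsU a) k)
  have hs : ∀ s : Finset (ZMod p), IsC (U f a) (∑ k ∈ s, fun x y => β (sh k x) (sh k y)) ∧
      dg (∑ k ∈ s, fun x y => β (sh k x) (sh k y)) = s.card * dg β := by
    intro s
    induction s using Finset.induction_on with
    | empty =>
      refine ⟨by simpa using isC_zero (G := ℤ) (U f a), ?_⟩
      have := hsm β 0 hβ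
      simpa using this
    | insert k s hks ih =>
      rw [Finset.sum_insert hks, Finset.card_insert_of_notMem hks]
      refine ⟨(hk k).add ih.1, ?_⟩
      rw [hadd _ _ (hk k) ih.1, hsh β k hβ, ih.2]
      push_cast
      ring
  obtain ⟨c0, hc0⟩ : ∃ c0 : S3 → S3 → ℤ,
      c0 = ∑ k : ZMod p, fun x y => β (sh k x) (sh k y) := ⟨_, rfl⟩
  have h1 : IsC (U f a) c0 := hc0 ▸ (hs Finset.univ).1
  have h2 : dg c0 = p * dg β := by
    rw [hc0, (hs Finset.univ).2, Finset.card_univ, ZMod.card]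
  have h3 : Inv2 (gn p) (U f a) c0 := fun x _ y _ => by
    simp only [hc0, Finset.sum_apply, sh_gn]
    exact Equiv.sum_comp (Equiv.addRight (1 : ZMod p)) fun k => β (sh k x) (sh k y)
  obtain ⟨j, j1, j2, -⟩ := hinv c0 h1 h3
  have hj : j = dg β := mul_left_cancel₀ hp0 (j1.symm.trans h2)
  obtain ⟨c1, k, k1, k2, k3⟩ := exp1_div hn h1 h3
    ((j2 _).2 (by rw [hj]; exact Int.natAbs_dvd.2 dvd_rfl))
  have h4 : dg (c0 - dg β • c1) = 0 := by
    have := (hpot _ 0 k3.isC).1 ⟨_, k3.cz 0⟩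
    simpa using this
  have h5 : dg c1 = p := by
    have e := hadd _ _ k3.isC (k1.zsmul (dg β))
    rw [sub_add_cancel, h4, hsm _ _ k1, h2, zero_add, mul_comm] at e
    exact (mul_left_cancel₀ hn e).symm
  obtain ⟨i, i1, i2, i3⟩ := hinv c1 k1 k2
  have hi : i = 1 := mul_left_cancel₀ hp0 (by rw [← i1, h5, mul_one])
  subst hi
  obtain ⟨u, rfl⟩ := hκ
  obtain ⟨σ, s1, s2⟩ := (i3 (↑u⁻¹ : ZMod p)).2 (by simp)
  refine ⟨(↑u⁻¹ : ZMod p), c1, σ, Units.isUnit _, ⟨k1, k2, s1, s2⟩, fun m => ?_⟩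
  rw [i2 m]
  exact_mod_cast Iff.rfl

end SEXP1

section SEXG

open Set Filter Topology Metric
open scoped RealInnerProductSpace

theorem p_EXG (hEXP : S_EXP) (hEXP1 : S_EXP1) (hBA : S_BA) :
    S_EXG := by
  intro p _ F _ N f H a r h1 hr
  have hne : U f a ≠ univ := fun h => h1 (by
    have := U_disj (f := f) a
    rw [h, univ_disjoint] at this
    exact this ▸ lf_empty)
  by_cases h2 : Lf p (U f a)
  · obtain ⟨s, s1, s2⟩ := id h2
    refine ⟨0, fun x => r * s x, ⟨isC_zero _, fun _ _ _ _ => rfl, ?_, fun x hx => ?_⟩, hne,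
      fun h => absurd h2 h⟩
    · exact (isP_zero_iff.2 (s1.map (r * ·))).congr_c fun _ _ _ _ => by simp [cz]
    · simp only [s2 x hx]; ring
  obtain ⟨β, b1, b2⟩ := hEXP H a h2 h1
  obtain ⟨r₁, c, s, u1, ⟨z1, z2, z3, z4⟩, o1⟩ := hEXP1 H a β h2 hne b1 b2
  obtain ⟨κ, dg, -, -, d2, -, -, d5⟩ := hBA H a h2 hne
  obtain ⟨u, rfl⟩ := u1
  set n := (r * ↑u⁻¹).valMinAbs with hn
  have e : (n : ZMod p) = r * ↑u⁻¹ := ZMod.coe_valMinAbs _
  have i2 : Inv2 (gn p) (U f a) (n • c) := fun x hx y hy => by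
    simp only [Pi.smul_apply, z2 x hx y hy]
  refine ⟨n • c, fun x => n * s x, ⟨z1.zsmul n, i2, ?_, fun x hx => ?_⟩, hne,
    fun _ => ⟨n.natAbs, ?_, fun m => ?_⟩⟩
  · exact (z3.map (AddMonoidHom.mulLeft (n : ZMod p))).congr_c fun _ _ _ _ => by simp [cz]
  · simp only [z4 x hx, mul_add, e, Units.inv_mul_cancel_right]
  · have h3 : n.natAbs ≤ p / 2 := ZMod.natAbs_valMinAbs_le _
    refine lt_of_le_of_ne (by omega) fun h4 => ?_
    have h5 : ((2 * n : ℤ) : ZMod p) = 0 := by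
      rw [ZMod.intCast_zmod_eq_zero_iff_dvd, ← h4, ← Int.dvd_natAbs]
      simp [Int.natAbs_mul]
    have h6 : IsUnit (n : ZMod p) := e ▸ hr.mul (Units.isUnit _)
    rw [Int.cast_mul, h6.mul_left_eq_zero] at h5
    have := Int.le_of_dvd two_pos ((ZMod.intCast_zmod_eq_zero_iff_dvd 2 p).1 h5)
    have := H.three
    omega
  · obtain ⟨j, j1, j2, -⟩ := d5 c z1 z2
    obtain ⟨k, k1, k2, -⟩ := d5 _ (z1.zsmul n) i2
    have h3 : j.natAbs = 1 := Nat.dvd_one.1 ((o1 _).1 ((j2 _).2 (Int.natAbs_dvd.2 dvd_rfl)))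
    have h4 : k = n * j := mul_left_cancel₀ (Int.natCast_ne_zero.2 (NeZero.ne p)) (by
      rw [← k1, d2 c n z1, j1]; ring)
    rw [k2, h4, Int.natCast_dvd, Int.natAbs_mul, h3, mul_one]

end SEXG

section SFAM

open Set Filter Topology Metric
open scoped RealInnerProductSpace

theorem p_FAM (hEXG : S_EXG) (hGRES : S_GRES) (hGLUE2 : S_GLUE2) (hBIS : S_BIS) (hLIFTC : S_LIFTC) :
    S_FAM := by
  intro p _ F _ N f H n r Ψ A hr hΨ hA hc h
  rcases A.eq_empty_or_nonempty with rfl | hne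
  · exact ⟨0, 0, ⟨fun _ he => he.1.elim, fun _ he => he.1.elim, fun _ he => he.1.elim,
      fun _ he => he.1.elim⟩, fun _ hb => hb.elim⟩
  refine hBIS A (fun A' => ∃ c s, Fam f p r Ψ A' c s) hA hc hne (fun b₀ hb₀ => ?_)
    (fun A' hs h1 h2 i μ ε hε q1 q2 =>
      hGLUE2 H r Ψ A' hΨ h1 h2 (fun b hb => (h b (hs hb)).2) i μ ε hε q1 q2)
  obtain ⟨ε, hε, hn⟩ := (hLIFTC H).2.2 _ (h b₀ hb₀).1
  have e : -(up (Ψ b₀) ε) = up (-Ψ b₀) (-ε) := by
    simp only [up, Prod.neg_mk, Prod.fst_neg, Prod.snd_neg, neg_add]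
  obtain ⟨c, s, hg⟩ := hEXG H (up (Ψ b₀) ε) r (by rwa [e]) hr
  obtain ⟨R, R0, hR⟩ := exists_near H.cont hε
  refine ⟨Ψ ⁻¹' ball (Ψ b₀) R, hΨ.continuousAt (ball_mem_nhds _ R0), fun A' hs => ?_⟩
  have sub : ∀ b ∈ A', U f (Ψ b) ⊆ U f (up (Ψ b₀) ε) := fun b hb =>
    (U_sub_Ucl _).trans (hR _ _ (mem_ball_iff_norm.1 (hs hb).2)).2
  have m : MapsTo Prod.snd (EE f Ψ A') (U f (up (Ψ b₀) ε)) := fun e he => sub _ he.1 he.2
  exact ⟨fun e e' => c e.2 e'.2, fun e => s e.2,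
    ⟨hg.1.1.comp continuous_snd.continuousOn m, fun x hx y hy => hg.1.2.1 _ (m hx) _ (m hy),
      hg.1.2.2.1.comp continuous_snd.continuousOn m, fun x hx => hg.1.2.2.2 _ (m hx)⟩,
    fun b hb => (hGRES H _ _ (sub b hb)).2 r c s hg⟩

end SFAM

end Pool.Agent.P.MP_c88051_gt.Q1
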