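import Pool.Agent.P.MP_c88051_gt.Q1.IfaceA

/-! Steps FAM1, LA2, G7. -/

set_option autoImplicit false
set_option linter.unusedSectionVars false

namespace Pool.Agent.P.MP_c88051_gt.Q1

section SFAM1

open Set Filter Topology Metric
open scoped RealInnerProductSpace

theorem p_FAM1 (hFAM : S_FAM) :
    S_FAM1 := by
  intro p _ F _ N f H C x K hC hb hK hKC
  obtain ⟨t, ht, hfin, hcov⟩ := hK.elim_finite_subcover_image (b := C) (c := U f)
    (fun a _ => H.openU a) hKC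
  obtain ⟨n, b, -, hbt⟩ := hfin.fin_param
  have bC : ∀ i, b i ∈ C := fun i => ht (hbt ▸ mem_range_self i)
  let Ψ : (Fin n → ℝ) → EV N × ℝ := fun l => ∑ i, l i • b i
  have ΨC : ∀ l ∈ stdSimplex ℝ (Fin n), Ψ l ∈ C := fun l hl =>
    hC.sum_mem (fun i _ => hl.1 i) hl.2 fun i _ => bC i
  obtain ⟨c, s, ⟨z1, z2, z3, z4⟩, -⟩ := hFAM H 1 Ψ (stdSimplex ℝ (Fin n)) isUnit_one
    (by fun_prop) (isCompact_stdSimplex ℝ _) (convex_stdSimplex ℝ _)
    fun l hl => ⟨(hb _ (ΨC l hl)).1, x, (hb _ (ΨC l hl)).2⟩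
  have hf := H.cont
  let w : Fin n → S3 → ℝ := fun i y => max 0 ((b i).2 - ⟪(b i).1, f y⟫)
  have w0 : ∀ i y, 0 ≤ w i y := fun i y => le_max_left _ _
  have wc : ∀ i, Continuous (w i) := fun i => by fun_prop
  have wp : ∀ y ∈ ⋃ i, U f (b i), ∃ i, 0 < w i y := fun y hy => by
    obtain ⟨i, hi⟩ := mem_iUnion.1 hy
    exact ⟨i, lt_max_of_lt_right (sub_pos.2 hi)⟩
  have ws : ∀ y ∈ ⋃ i, U f (b i), 0 < ∑ i, w i y := fun y hy =>
    let ⟨i, hi⟩ := wp y hy
    Finset.sum_pos' (fun j _ => w0 j y) ⟨i, Finset.mem_univ _, hi⟩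
  let φ : S3 → (Fin n → ℝ) × S3 := fun y => (fun i => w i y / ∑ j, w j y, y)
  have φc : ContinuousOn φ (⋃ i, U f (b i)) :=
    (continuousOn_pi.2 fun i => (wc i).continuousOn.div
      (continuous_finsetSum _ fun j _ => wc j).continuousOn
      fun y hy => (ws y hy).ne').prodMk continuousOn_id
  have φm : MapsTo φ (⋃ i, U f (b i)) (EE f Ψ (stdSimplex ℝ (Fin n))) := fun y hy => by
    have h0 := ws y hy
    refine ⟨⟨fun i => div_nonneg (w0 i y) h0.le, by
      simp only [φ]; rw [← Finset.sum_div, div_self h0.ne']⟩, ?_⟩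
    simp only [mem_U, φ, Ψ, Prod.fst_sum, Prod.snd_sum, Prod.smul_fst, Prod.smul_snd, sum_inner,
      real_inner_smul_left, smul_eq_mul]
    obtain ⟨i, hi⟩ := wp y hy
    have key : ∀ j, 0 < w j y → ⟪(b j).1, f y⟫ < (b j).2 := fun j hj =>
      sub_pos.1 ((lt_max_iff.1 hj).resolve_left (lt_irrefl _))
    refine Finset.sum_lt_sum (fun j _ => ?_) ⟨i, Finset.mem_univ _,
      mul_lt_mul_of_pos_left (key i hi) (div_pos hi h0)⟩
    rcases (w0 j y).eq_or_lt with h | h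
    · rw [← h]; simp
    · exact (mul_lt_mul_of_pos_left (key j h) (div_pos h h0)).le
  have φg : ∀ y, φ (gn p y) = gE p (φ y) := fun y => by simp only [φ, gE, w, H.inv]
  refine ⟨⋃ i, U f (b i), fun y z => c (φ y) (φ z), fun y => s (φ y),
    isOpen_iUnion fun i => H.openU _, fun y hy => ?_, fun y hy => ?_, z1.comp φc φm,
    fun y hy z hz => ?_, z3.comp φc φm, fun y hy => ?_⟩
  · obtain ⟨i, hi⟩ := mem_iUnion.1 hy
    exact mem_iUnion.2 ⟨i, H.mapsU _ hi⟩
  · obtain ⟨a, ha, hy'⟩ := mem_iUnion₂.1 (hcov hy)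
    rw [← hbt] at ha
    obtain ⟨i, rfl⟩ := ha
    exact mem_iUnion.2 ⟨i, hy'⟩
  · simp only [φg]
    exact z2 _ (φm hy) _ (φm hz)
  · simp only [φg]
    exact z4 _ (φm hy)

end SFAM1

section SLA2

open Set Filter Topology Metric
open scoped RealInnerProductSpace

/-- Without a bad point over `y` the lift extends over a neighbourhood of the fibre. -/
lemma la2_nbhd {p : ℕ} [NeZero p] {F : Type} [Field F] {N : ℕ} {f : S3 → EV N} (H : Sys f p F)
    {a : EV N × ℝ} {s : S3 → ZMod p} {y : EV N} (h1 : LC (U f a) s) (h2 : Sft (gn p) (U f a) s 1)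
    (hy : ⟪a.1, y⟫ = a.2) (hn : ∀ x ∈ Bad f a s, f x ≠ y) :
    ∃ O' : Set S3, IsOpen O' ∧ Lf p O' ∧ U f a ⊆ O' ∧
      ∃ η > (0 : ℝ), ∀ x, ‖f x - y‖ < η → x ∈ O' := by
  classical
  by_cases hr : ∃ z, f z = y
  · obtain ⟨z, hz⟩ := hr
    obtain ⟨n, hnz, k₀, hk₀⟩ : ∃ n ∈ 𝓝 z, ∃ k, ∀ w ∈ n ∩ U f a, s w = k :=
      by_contra fun h => hn z ⟨by rw [hz, hy], h⟩ hz
    obtain ⟨r, hr, hb⟩ := Metric.mem_nhds_iff.1 hnz
    obtain ⟨d, hd, hg⟩ := exists_gap p
    have hρ : 0 < min r (d / 2) := lt_min hr (by positivity)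
    obtain ⟨i, i1, i2, i3⟩ := lf_balls (p := p) (z := z) (ρ := min r (d / 2)) fun k hk =>
      le_trans (by linarith [min_le_right r (d / 2)]) (hg k hk z)
    obtain ⟨η, hη, h3⟩ := H.near_fibre (y := y) (z := z)
      (fun x hx => H.inj z x (hz.trans hx.symm)) hρ
    set V := ⋃ k : ZMod p, ball (sh k z) (min r (d / 2)) with hV
    have oV : IsOpen V := isOpen_iUnion fun _ => isOpen_ball
    let t : S3 → ZMod p := fun x => if x ∈ V then i x + k₀ else s x
    have tV : ∀ x ∈ V, t x = i x + k₀ := fun x hx => if_pos hx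
    have tU : ∀ x ∈ U f a, t x = s x := fun x hx => by
      by_cases h : x ∈ V
      · obtain ⟨k, hk⟩ := mem_iUnion.1 h
        have m : sh (-k) x ∈ U f a := (H.sh_mem _).2 hx
        have e := h2.sh_one (H.mapsU a) k m
        have hw : sh (-k) x ∈ ball z (min r (d / 2)) := by
          rw [mem_ball, ← dist_sh k, sh_sh_neg]; exact hk
        rw [sh_sh_neg, hk₀ _ ⟨hb (ball_subset_ball (min_le_left _ _) hw), m⟩] at e
        rw [tV x h, i1 k x hk, e, add_comm]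
      · exact if_neg h
    refine ⟨U f a ∪ V, (H.openU a).union oV, ⟨t, LC.of_local fun x hx => ?_, fun x hx => ?_⟩,
      subset_union_left, η, hη, fun x hx => Or.inr (h3 x hx)⟩
    · rcases hx with hx | hx
      · exact ⟨_, nhdsWithin_le_nhds ((H.openU a).mem_nhds hx), h1.congr tU⟩
      · exact ⟨_, nhdsWithin_le_nhds (oV.mem_nhds hx), (i2.map fun u => u + k₀).congr tV⟩
    · rcases hx with hx | hx
      · rw [tU _ (H.mapsU a hx), tU _ hx, h2 x hx]
      · rw [tV _ (maps_balls z _ hx), tV _ hx, i3 x hx]; ring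
  · have hc : IsClosed (range f) := (isCompact_range H.cont).isClosed
    obtain ⟨η, hη, h3⟩ := Metric.isOpen_iff.1 hc.isOpen_compl y hr
    exact ⟨U f a, H.openU a, ⟨s, h1, h2⟩, subset_rfl, η, hη, fun x hx =>
      absurd ⟨x, rfl⟩ (h3 (mem_ball_iff_norm.2 hx))⟩

theorem p_LA2 (hFAM1 : S_FAM1) (hP3 : S_P3) (hCOVER : S_COVER) :
    S_LA2 := by
  intro p _ F _ N f H a s y h1 h2 ⟨x₀, hx₀⟩ hy hS
  by_contra hn
  obtain ⟨O', o1, o2, o3, η, hη, o4⟩ := la2_nbhd H h1 h2 hy fun x hx e => hn ⟨x, hx, e⟩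
  obtain ⟨δ, hδ, -, hc⟩ := hCOVER (-a) y (by simp [inner_neg_left, hy]) η hη
  obtain ⟨R₁, hR₁, s1⟩ := hS δ hδ
  obtain ⟨R₂, hR₂, s2⟩ := exists_near H.cont (sub_pos.2 (mem_U.1 hx₀))
  obtain ⟨κ, hκ, hk⟩ := hc (min R₁ R₂) (lt_min hR₁ hR₂)
  obtain ⟨O, c, t, p1, p2, p3, p4⟩ := hFAM1 H (Cone (-a) y δ (min R₁ R₂)) x₀ O'ᶜ
    (convex_Cone _ _ hδ.le _)
    (fun b hb => ⟨s1 b (Cone_mono _ _ _ (min_le_left _ _) hb),
      (s2 (-a) b (hb.1.trans_le (min_le_right _ _))).1 (by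
        show ⟪(-a).1, f x₀⟫ ≤ (-a).2 + -((-a).2 - ⟪(-a).1, f x₀⟫)
        linarith)⟩)
    o1.isClosed_compl.isCompact (fun x hx => by
      have e : a.2 ≤ ⟪a.1, f x⟫ := not_lt.1 fun h => hx (o3 h)
      obtain ⟨b, hb, hb'⟩ := hk (f x) (not_lt.1 fun h => hx (o4 x h)) (by
        simp only [Prod.fst_neg, Prod.snd_neg, inner_neg_left]; linarith)
      exact mem_UC.2 ⟨b, hb, hb'⟩)
  have := H.nontriv
  exact hP3 O O' 1 c t p1 o1 p2 (eq_univ_of_forall fun x =>
    (em (x ∈ O')).elim Or.inr fun h => Or.inl (p3 h)) p4 one_ne_zero o2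

end SLA2

section SG7

open Set Filter Topology Metric
open scoped RealInnerProductSpace

lemma g7_DB : IsCompact DB :=
  (isCompact_closedBall (0 : Fin 3 → ℝ) 1).of_isClosed_subset
    (isClosed_le (by fun_prop) continuous_const) fun b hb => by
      rw [mem_closedBall_zero_iff, pi_norm_le_iff_of_nonneg zero_le_one]
      exact fun i => (Finset.single_le_sum (f := fun i => |b i|) (fun _ _ => abs_nonneg _)
        (Finset.mem_univ i)).trans hb

lemma g7_SP : IsCompact SP :=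
  g7_DB.of_isClosed_subset (isClosed_eq (by fun_prop) continuous_const) fun _ hb => le_of_eq hb

theorem p_G7 (hLIFTC : S_LIFTC) :
    S_G7 := by
  intro p _ F _ N f H HF
  obtain ⟨L, e, h1, h2⟩ := HF
  have hL := (hLIFTC H).2.1
  have c1 : Continuous (cL f p) := continuous_lev H.cont H.mon_lf
  have c2 : Continuous (mn f) := continuous_mn H.cont
  let w : (Fin 3 → ℝ) → EV N := fun b => L b + (1 - ∑ i, |b i|) • e
  have cw : Continuous w := by fun_prop
  obtain ⟨θ₁, a1, a2⟩ := g7_DB.exists_forall_le' (a := 0)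
    (f := fun b => -cL f p (-w b) - mn f (w b)) (by fun_prop) fun b hb =>
      sub_pos.2 (h2 b _ (sub_nonneg.2 hb) (by
        by_cases h : b = 0
        · right; simp [h]
        · exact Or.inl h))
  obtain ⟨θ₂, b1, b2⟩ := g7_SP.exists_forall_le' (a := 0)
    (f := fun b => -cL f p (-L b) - cL f p (L b)) (by fun_prop) fun b hb =>
      sub_pos.2 (h1 b fun h => by simp [SP, h] at hb)
  obtain ⟨θ, t0, t1, t2⟩ : ∃ θ : ℝ, 0 < θ ∧ 4 * θ ≤ θ₁ ∧ 4 * θ ≤ θ₂ :=
    ⟨min θ₁ θ₂ / 4, by positivity, by linarith [min_le_left θ₁ θ₂],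
      by linarith [min_le_right θ₁ θ₂]⟩
  refine ⟨fun b => (w b, -cL f p (-w b) - θ), by fun_prop, fun b hb => ⟨?_, ?_⟩, fun b hb => ?_⟩
  · rw [Prod.neg_mk, hL]
    linarith
  · rw [U_nonempty_iff H.cont]
    linarith [a2 b hb]
  have e1 : w b = L b := by
    have : ∑ i, |b i| = 1 := hb
    simp [w, this]
  have e2 : w (-b) = -L b := by
    have : ∑ i, |b i| = 1 := hb
    simp [w, this]
  have b3 := b2 b hb
  simp only [e1, e2, neg_neg]
  refine ⟨by rw [hL]; linarith, eq_univ_of_forall fun x => ?_, (L b, cL f p (L b) + θ / 2),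
    U_mono _ (by linarith), by rw [hL]; linarith, disjoint_left.2 fun x x1 x2 => ?_⟩
  · simp only [mem_union, mem_U, inner_neg_left]
    by_contra hn
    push Not at hn
    linarith [hn.1, hn.2]
  · have y1 : ⟪L b, f x⟫ ≤ cL f p (L b) + θ / 2 := closure_U H.cont _ x1
    have y2 : ⟪-L b, f x⟫ ≤ -cL f p (L b) - θ := closure_U H.cont _ x2
    rw [inner_neg_left] at y2
    linarith

end SG7

end Pool.Agent.P.MP_c88051_gt.Q1
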