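import Pool.Agent.P.MP_c88051_gt.Q1.IfaceA
import Pool.Agent.Lib.Helper83.Coc

/-! Steps CVX. -/

set_option autoImplicit false
set_option linter.unusedSectionVars false

namespace Pool.Agent.P.MP_c88051_gt.Q1

section SCVX

open Set Filter Topology Metric
open scoped RealInnerProductSpace

theorem p_CVX :
    S_CVX := by
  intro E G _ _ _ D c hD hc
  rcases D.eq_empty_or_nonempty with rfl | hne
  · exact ⟨0, fun _ h => h.elim⟩
  have : Nonempty D := hne.to_subtype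
  have h1 : ∀ x : D, ∃ r > (0 : ℝ), CocOn (D ∩ ball x.1 r) c := fun x => by
    obtain ⟨n, hn, h⟩ := hc x x.2
    obtain ⟨r, r0, hr⟩ := Metric.mem_nhdsWithin_iff.1 hn
    exact ⟨r, r0, h.mono (by rwa [inter_comm])⟩
  choose r r0 hr using h1
  obtain ⟨ω, w1, w2⟩ := Pool.Agent.Lib.Helper83.exists_coc (R := ℤ) (S := D)
    (N := fun x : D => ball x.1 (r x)) (fun _ => isOpen_ball)
    (fun x hx => mem_iUnion.2 ⟨⟨x, hx⟩, mem_ball_self (r0 _)⟩) (fun x => c x.1) fun i j x hx => by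
      filter_upwards [self_mem_nhdsWithin, nhdsWithin_le_nhds (isOpen_ball.mem_nhds hx.1.2),
        nhdsWithin_le_nhds (isOpen_ball.mem_nhds hx.2)] with y y1 y2 y3
      rw [sub_eq_sub_iff_sub_eq_sub, ← (hr i).sub ⟨i.2, mem_ball_self (r0 i)⟩ hx.1 ⟨y1, y2⟩,
        ← (hr j).sub ⟨j.2, mem_ball_self (r0 j)⟩ ⟨hx.1.1, hx.2⟩ ⟨y1, y3⟩]
  obtain ⟨h, hh⟩ := w1.pot_convex hD
  refine ⟨h, fun x hx => ⟨_, inter_mem_nhdsWithin D (ball_mem_nhds x (r0 ⟨x, hx⟩)),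
    fun a ha b hb => ?_⟩⟩
  rw [(hr ⟨x, hx⟩).sub ⟨hx, mem_ball_self (r0 _)⟩ ha hb]
  exact (w2 ⟨x, hx⟩).unique (hh.mono inter_subset_left)
    (((hD.inter (convex_ball _ _)).isPathConnected ⟨a, ha⟩).joinedIn a ha b hb)

end SCVX

end Pool.Agent.P.MP_c88051_gt.Q1
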