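import Pool.Agent.P.MP_c88051_gt.Q1.IfaceB

/-! Steps PINV, DL1, DL2. -/

set_option autoImplicit false
set_option linter.unusedSectionVars false

namespace Pool.Agent.P.MP_c88051_gt.Q1

section SPINV

open Set Filter Topology Metric
open scoped RealInnerProductSpace Quaternion

/-- A function of triples as a cochain. -/
def pinv_t {Y : Type} (Ψ : Y → Y → Y → ZMod 2) : List Y → ZMod 2
  | [a, b, c] => Ψ a b c
  | _ => 0

lemma pinv_len {Y : Type} (Ψ : Y → Y → Y → ZMod 2) {l : List Y} (h : l.length ≠ 4) :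
    ev (pinv_t Ψ) (bd0 l) = 0 := by
  rw [ev_congr (Ψ := fun l => 0 * pinv_t Ψ l) ?_ (bd0_mem l), ev_mul, zero_mul]
  rintro m ⟨-, hm⟩
  match m with
  | [] | [_] | [_, _] | _ :: _ :: _ :: _ :: _ => simp [pinv_t]
  | [_, _, _] => exact absurd hm.symm h

lemma pinv_gen (hLEB : S_LEB) {Y : Type} [PseudoMetricSpace Y] [CompactSpace Y]
    (α β : Y → Y → ZMod 2) (Ψ : Y → Y → Y → ZMod 2)
    (h : ∀ y : Y, ∃ n ∈ 𝓝 y, ∀ a ∈ n, ∀ b ∈ n, ∀ c ∈ n, ∀ d ∈ n, (α a b + α b c + α a c) * β c d +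
      (Ψ b c d + Ψ a c d + Ψ a b d + Ψ a b c) = 0) :
    ∃ ε > (0 : ℝ), ∀ μ ∈ Fn (univ : Set Y) ε, bd μ = 0 → ev (pr α β) μ = 0 := by
  obtain ⟨ε, h1, h2⟩ := hLEB univ (fun l => pr α β l + ev (pinv_t Ψ) (bd0 l)) isCompact_univ
    (by simp [pr, bd0]) fun y _ => by
      obtain ⟨n, hn, H⟩ := h y
      refine ⟨n, nhdsWithin_le_nhds hn, fun l hl => ?_⟩
      match l with
      | [] | [_] | [_, _] | [_, _, _] | _ :: _ :: _ :: _ :: _ :: _ =>
        rw [pinv_len Ψ (by simp)]; simp [pr]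
      | [a, b, c, d] =>
        rw [← bd_sx, bd_four]
        simpa [pr, pinv_t] using H a (hl a (by simp)) b (hl b (by simp)) c (hl c (by simp)) d
          (hl d (by simp))
  refine ⟨ε, h1, fun μ hμ hb => ?_⟩
  have e : ev (fun l => ev (pinv_t Ψ) (bd0 l)) μ = ev (pinv_t Ψ) (bd μ) :=
    ch_eq _ (ev (pinv_t Ψ) ∘ₗ bd) (fun l => by simp) μ
  have := h2 μ hμ
  rwa [ev_add, e, hb, map_zero, add_zero] at this

theorem p_PINV (hLEB : S_LEB) :
    S_PINV := by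
  intro Y _ _ O₁ O₂ α β o1 o2 hu c1 c2 H
  have t : (2 : ZMod 2) = 0 := rfl
  have hy : ∀ y, y ∈ O₁ ∨ y ∈ O₂ := fun y => (mem_union _ _ _).1 (hu ▸ mem_univ y)
  rcases H with ⟨h, H⟩ | ⟨h, H⟩
  · refine pinv_gen hLEB α β (fun a b c => (α a b + h a + h b) * β b c) fun y => ?_
    rcases hy y with m | m
    · obtain ⟨n, hn, k⟩ := H y m
      refine ⟨n, o1.nhdsWithin_eq m ▸ hn, fun a ha b hb c hc d _ => ?_⟩
      rw [k a ha b hb, k b hb c hc, k a ha c hc]
      linear_combination (h b * (β b d + β b c) + (3 * h c - h a) * β c d) * t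
    · obtain ⟨n, hn, k⟩ := c2 y m
      refine ⟨n, o2.nhdsWithin_eq m ▸ hn, fun a _ b hb c hc d hd => ?_⟩
      rw [← k b hb c hc d hd]
      linear_combination ((α a b + h a + h b) * β b c +
        (α a b + α b c + α a c + h a + h b + h c) * β c d) * t
  · refine pinv_gen hLEB α β (fun a b c => (α a b + α b c + α a c) * h c) fun y => ?_
    rcases hy y with m | m
    · obtain ⟨n, hn, k⟩ := c1 y m
      refine ⟨n, o1.nhdsWithin_eq m ▸ hn, fun a ha b hb c hc d hd => ?_⟩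
      rw [k a ha b hb c hc, k b hb c hc d hd, k a ha c hc d hd, k a ha b hb d hd]
      simp
    · obtain ⟨n, hn, k⟩ := H y m
      refine ⟨n, o2.nhdsWithin_eq m ▸ hn, fun a _ b _ c hc d hd => ?_⟩
      rw [k c hc d hd]
      linear_combination (α a b + α b c + α a c + α c d + α b d + α a d) * h d * t

end SPINV

section SDL1

open Set Filter Topology Metric
open scoped RealInnerProductSpace Quaternion

/-- Walks along good edges of the grid, with the sum of the cochain. -/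
inductive dl1_W (A : Set (Fin 3 → ℝ)) (α : (Fin 3 → ℝ) → (Fin 3 → ℝ) → ZMod 2) (D : ℕ) :
    (Fin 3 → ℤ) → (Fin 3 → ℤ) → ZMod 2 → Prop
  | refl (k : Fin 3 → ℤ) : dl1_W A α D k k 0
  | fwd (e : Edge) : seg D e ⊆ A → CocOn (seg D e) α →
      dl1_W A α D e.2 (tip e) (α (pt D e.2) (pt D (tip e)))
  | symm {k k' : Fin 3 → ℤ} {t : ZMod 2} : dl1_W A α D k k' t → dl1_W A α D k' k t
  | trans {k k' k'' : Fin 3 → ℤ} {t t' : ZMod 2} :
      dl1_W A α D k k' t → dl1_W A α D k' k'' t' → dl1_W A α D k k'' (t + t')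

section
variable {A : Set (Fin 3 → ℝ)} {α : (Fin 3 → ℝ) → (Fin 3 → ℝ) → ZMod 2}

lemma dl1_rel {D : ℕ} {k k' : Fin 3 → ℤ} {t : ZMod 2} (h : dl1_W A α D k k' t) :
    ∃ ℓ : Edge →₀ ℤ, (∀ e ∈ ℓ.support, seg D e ⊆ A ∧ CocOn (seg D e) α) ∧
      (∀ φ : (Fin 3 → ℤ) → ℤ, (ℓ.sum fun e n => n * (φ (tip e) - φ e.2)) = φ k' - φ k) ∧
      (ℓ.sum fun e n => (n : ZMod 2) * α (pt D e.2) (pt D (tip e))) = t := by
  classical
  induction h with
  | refl k => exact ⟨0, by simp, by simp, by simp⟩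
  | fwd e h1 h2 =>
    refine ⟨Finsupp.single e 1, ?_, ?_, ?_⟩
    · intro e' he'
      have := Finsupp.support_single_subset he'
      rw [Finset.mem_singleton] at this
      subst this
      exact ⟨h1, h2⟩
    · intro φ
      rw [Finsupp.sum_single_index (by simp)]
      simp
    · rw [Finsupp.sum_single_index (by simp)]
      simp
  | symm _ ih =>
    obtain ⟨ℓ, h1, h2, h3⟩ := ih
    refine ⟨-ℓ, by simpa using h1, ?_, ?_⟩
    · intro φ
      rw [Finsupp.sum_neg_index (by simp)]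
      have := h2 φ
      simp only [Finsupp.sum, neg_mul, Finset.sum_neg_distrib] at this ⊢
      rw [this]
      ring
    · rw [Finsupp.sum_neg_index (by simp), ← h3]
      simp only [Finsupp.sum, Int.cast_neg, ZMod.neg_eq_self_mod_two]
  | trans _ _ ih ih' =>
    obtain ⟨ℓ, h1, h2, h3⟩ := ih
    obtain ⟨ℓ', h1', h2', h3'⟩ := ih'
    refine ⟨ℓ + ℓ', ?_, ?_, ?_⟩
    · intro e he
      rcases Finset.mem_union.1 (Finsupp.support_add he) with h | h
      · exact h1 e h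
      · exact h1' e h
    · intro φ
      rw [Finsupp.sum_add_index' (by simp) (by intros; ring), h2, h2']
      ring
    · rw [Finsupp.sum_add_index' (by simp) (by intros; push_cast; ring), h3, h3']

lemma dl1_self {n : Set (Fin 3 → ℝ)} (hc : CocOn n α) {a : Fin 3 → ℝ} (ha : a ∈ n) :
    α a a = 0 := by
  exact add_eq_left.1 (hc a ha a ha a ha)

lemma dl1_mono {n n' : Set (Fin 3 → ℝ)} (hc : CocOn n α) (hs : n' ⊆ n) : CocOn n' α :=
  fun a ha b hb d hd => hc a (hs ha) b (hs hb) d (hs hd)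

lemma dl1_sym {n : Set (Fin 3 → ℝ)} (hc : CocOn n α) {a b : Fin 3 → ℝ} (ha : a ∈ n) (hb : b ∈ n) :
    α a b = α b a := by
  have h := hc a ha b hb a ha
  rw [dl1_self hc ha] at h
  rw [eq_neg_of_add_eq_zero_left h, ZMod.neg_eq_self_mod_two]

lemma dl1_step {n : Set (Fin 3 → ℝ)} (hn : Convex ℝ n) (hA : n ⊆ A) (hc : CocOn n α) (D : ℕ)
    (i : Fin 3) {l l' : Fin 3 → ℤ} (h : l' = l + Pi.single i 1) (h1 : pt D l ∈ n)
    (h2 : pt D l' ∈ n) : dl1_W A α D l l' (α (pt D l) (pt D l')) := by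
  have ht : tip (i, l) = l' := h.symm
  have hs : seg D (i, l) ⊆ n := by
    unfold seg
    rw [ht]
    exact hn.segment_subset h1 h2
  have h3 := dl1_W.fwd (A := A) (α := α) (D := D) (i, l) (hs.trans hA) (dl1_mono hc hs)
  rwa [ht] at h3

lemma dl1_lineN {n : Set (Fin 3 → ℝ)} (hn : Convex ℝ n) (hA : n ⊆ A) (hc : CocOn n α) (D : ℕ)
    (i : Fin 3) (k : Fin 3 → ℤ) (hk : pt D k ∈ n) (m : ℕ)
    (hm : pt D (k + Pi.single i (m : ℤ)) ∈ n) :
    dl1_W A α D k (k + Pi.single i (m : ℤ)) (α (pt D k) (pt D (k + Pi.single i (m : ℤ)))) := by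
  induction m with
  | zero =>
    simp only [Nat.cast_zero, Pi.single_zero, add_zero]
    rw [dl1_self hc hk]
    exact .refl k
  | succ m ih =>
    have hp : (0 : ℝ) < (m : ℝ) + 1 := by positivity
    have h1 : pt D (k + Pi.single i (m : ℤ)) ∈ n := by
      have := hn hk hm (a := 1 / ((m : ℝ) + 1)) (b := m / ((m : ℝ) + 1)) (by positivity)
        (by positivity) (by field_simp; ring)
      convert this using 1
      funext j
      by_cases hj : j = i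
      · subst hj
        simp only [pt, Pi.add_apply, Pi.single_eq_same, Pi.smul_apply, smul_eq_mul]
        push_cast
        field_simp
        ring
      · simp only [pt, Pi.add_apply, Pi.single_eq_of_ne hj, Pi.smul_apply, smul_eq_mul, add_zero]
        field_simp
        ring
    have ht : k + Pi.single i ((m + 1 : ℕ) : ℤ) = k + Pi.single i (m : ℤ) + Pi.single i 1 := by
      push_cast
      rw [add_assoc, ← Pi.single_add]
    have h2 := dl1_step hn hA hc D i ht h1 hm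
    have h3 := (ih h1).trans h2
    rwa [hc _ hk _ h1 _ hm] at h3

lemma dl1_line {n : Set (Fin 3 → ℝ)} (hn : Convex ℝ n) (hA : n ⊆ A) (hc : CocOn n α) (D : ℕ)
    (i : Fin 3) (k : Fin 3 → ℤ) (hk : pt D k ∈ n) (m : ℤ)
    (hm : pt D (k + Pi.single i m) ∈ n) :
    dl1_W A α D k (k + Pi.single i m) (α (pt D k) (pt D (k + Pi.single i m))) := by
  obtain ⟨m, rfl | rfl⟩ := Int.eq_nat_or_neg m
  · exact dl1_lineN hn hA hc D i k hk m hm
  · have e : k + Pi.single i (-(m : ℤ)) + Pi.single i (m : ℤ) = k := by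
      rw [add_assoc, ← Pi.single_add]
      simp
    have h := dl1_lineN hn hA hc D i _ hm m (by rwa [e])
    rw [e] at h
    rw [dl1_sym hc hk hm]
    exact h.symm

lemma dl1_pt (D M : ℕ) (hM : 0 < M) (k : Fin 3 → ℤ) : pt (D * M) ((M : ℤ) • k) = pt D k := by
  funext j
  have : (M : ℝ) ≠ 0 := by positivity
  simp only [pt, Pi.smul_apply, smul_eq_mul]
  push_cast
  rw [mul_comm (M : ℝ), mul_div_mul_right _ _ this]

lemma dl1_fine {D : ℕ} (M : ℕ) (hM : 0 < M) {k k' : Fin 3 → ℤ} {t : ZMod 2}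
    (h : dl1_W A α D k k' t) : dl1_W A α (D * M) ((M : ℤ) • k) ((M : ℤ) • k') t := by
  induction h with
  | refl k => exact .refl _
  | fwd e h1 h2 =>
    have e1 : (M : ℤ) • tip e = (M : ℤ) • e.2 + Pi.single e.1 (M : ℤ) := by
      rw [tip, smul_add, ← Pi.single_smul]
      simp
    have h := dl1_line (convex_segment _ _) h1 h2 (D * M) e.1 ((M : ℤ) • e.2)
      (by rw [dl1_pt D M hM]; exact left_mem_segment _ _ _) (M : ℤ)
      (by rw [← e1, dl1_pt D M hM]; exact right_mem_segment _ _ _)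
    rw [← e1, dl1_pt D M hM, dl1_pt D M hM] at h
    exact h
  | symm _ ih => exact ih.symm
  | trans _ _ ih ih' => exact ih.trans ih'

lemma dl1_ball {c : Fin 3 → ℝ} {r : ℝ} (hA : ball c r ⊆ A) (hc : CocOn (ball c r) α) (D : ℕ)
    {k k' : Fin 3 → ℤ} (hk : pt D k ∈ ball c r) (hk' : pt D k' ∈ ball c r) :
    dl1_W A α D k k' (α (pt D k) (pt D k')) := by
  have hr : 0 < r := pos_of_mem_ball hk
  have mix : ∀ l : Fin 3 → ℤ, (∀ j, l j = k j ∨ l j = k' j) → pt D l ∈ ball c r := by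
    intro l hl
    rw [mem_ball, dist_pi_lt_iff hr] at hk hk' ⊢
    intro j
    have h1 := hk j
    have h2 := hk' j
    simp only [pt] at h1 h2 ⊢
    rcases hl j with h | h <;> rw [h] <;> assumption
  have m1 := mix (k + Pi.single 0 (k' 0 - k 0)) (by intro j; fin_cases j <;> simp)
  have m2 := mix (k + Pi.single 0 (k' 0 - k 0) + Pi.single 1 (k' 1 - k 1))
    (by intro j; fin_cases j <;> simp)
  have e3 : k + Pi.single 0 (k' 0 - k 0) + Pi.single 1 (k' 1 - k 1) + Pi.single 2 (k' 2 - k 2)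
      = k' := by
    funext j
    fin_cases j <;> simp
  have w1 := dl1_line (convex_ball c r) hA hc D 0 k hk _ m1
  have w2 := dl1_line (convex_ball c r) hA hc D 1 _ m1 _ m2
  have w3 := dl1_line (convex_ball c r) hA hc D 2 _ m2 (k' 2 - k 2) (by rwa [e3])
  rw [e3] at w3
  have w := (w1.trans w2).trans w3
  rwa [hc _ hk _ m1 _ m2, hc _ hk _ m2 _ hk'] at w

/-- Rational points joined by a walk. -/
def dl1_R (A : Set (Fin 3 → ℝ)) (α : (Fin 3 → ℝ) → (Fin 3 → ℝ) → ZMod 2) (q q' : Fin 3 → ℝ)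
    (t : ZMod 2) : Prop :=
  ∃ (D : ℕ) (k k' : Fin 3 → ℤ), 0 < D ∧ pt D k = q ∧ pt D k' = q' ∧ dl1_W A α D k k' t

/-- Rational points. -/
def dl1_Q (q : Fin 3 → ℝ) : Prop := ∃ (D : ℕ) (k : Fin 3 → ℤ), 0 < D ∧ pt D k = q

lemma dl1_inj {D : ℕ} (hD : 0 < D) {k k' : Fin 3 → ℤ} (h : pt D k = pt D k') : k = k' := by
  funext j
  have h1 := congrFun h j
  have : (D : ℝ) ≠ 0 := by positivity
  simp only [pt] at h1
  rw [div_left_inj' this] at h1
  exact_mod_cast h1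

lemma dl1_Rsymm {q q' : Fin 3 → ℝ} {t : ZMod 2} (h : dl1_R A α q q' t) : dl1_R A α q' q t := by
  obtain ⟨D, k, k', hD, h1, h2, w⟩ := h
  exact ⟨D, k', k, hD, h2, h1, w.symm⟩

lemma dl1_Rtrans {q q' q'' : Fin 3 → ℝ} {t t' : ZMod 2} (h : dl1_R A α q q' t)
    (h' : dl1_R A α q' q'' t') : dl1_R A α q q'' (t + t') := by
  obtain ⟨D, k, k', hD, h1, h2, w⟩ := h
  obtain ⟨E, l, l', hE, g1, g2, v⟩ := h'
  have w' := dl1_fine E hE w
  have v' := dl1_fine D hD v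
  have a1 := dl1_pt E D hD l
  have a2 := dl1_pt E D hD l'
  rw [mul_comm E D] at v' a1 a2
  have e : (E : ℤ) • k' = (D : ℤ) • l :=
    dl1_inj (Nat.mul_pos hD hE) (by rw [dl1_pt D E hE, a1, h2, g1])
  rw [← e] at v'
  exact ⟨D * E, _, _, Nat.mul_pos hD hE, by rw [dl1_pt D E hE, h1], by rw [a2, g2], w'.trans v'⟩

lemma dl1_Rball {c : Fin 3 → ℝ} {r : ℝ} (hA : ball c r ⊆ A) (hc : CocOn (ball c r) α)
    {q q' : Fin 3 → ℝ} (hq : dl1_Q q) (hq' : dl1_Q q') (h : q ∈ ball c r) (h' : q' ∈ ball c r) :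
    dl1_R A α q q' (α q q') := by
  obtain ⟨D, k, hD, rfl⟩ := hq
  obtain ⟨E, l, hE, rfl⟩ := hq'
  have a1 := dl1_pt D E hE k
  have a2 := dl1_pt E D hD l
  rw [mul_comm E D] at a2
  have w := dl1_ball hA hc (D * E) (k := (E : ℤ) • k) (k' := (D : ℤ) • l) (by rwa [a1])
    (by rwa [a2])
  rw [a1, a2] at w
  exact ⟨D * E, _, _, Nat.mul_pos hD hE, a1, a2, w⟩

lemma dl1_dense {U : Set (Fin 3 → ℝ)} (hU : IsOpen U) {y : Fin 3 → ℝ} (hy : y ∈ U) :
    ∃ q ∈ U, dl1_Q q := by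
  obtain ⟨ε, hε, hb⟩ := Metric.isOpen_iff.1 hU y hy
  obtain ⟨N, hN⟩ := exists_nat_one_div_lt hε
  refine ⟨pt (N + 1) fun j => ⌊y j * ((N : ℝ) + 1)⌋, hb ?_, N + 1, _, Nat.succ_pos N, rfl⟩
  rw [mem_ball, dist_pi_lt_iff hε]
  intro j
  have hp : (0 : ℝ) < (N : ℝ) + 1 := by positivity
  have h1 := Int.floor_le (y j * ((N : ℝ) + 1))
  have h2 := Int.lt_floor_add_one (y j * ((N : ℝ) + 1))
  refine lt_of_le_of_lt ?_ hN
  rw [Real.dist_eq]
  simp only [pt]
  push_cast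
  have e : (⌊y j * ((N : ℝ) + 1)⌋ : ℝ) / ((N : ℝ) + 1) - y j
      = ((⌊y j * ((N : ℝ) + 1)⌋ : ℝ) - y j * ((N : ℝ) + 1)) / ((N : ℝ) + 1) := by
    field_simp
  rw [e, abs_div, abs_of_pos hp]
  gcongr
  rw [abs_le]
  constructor <;> linarith

end

theorem p_DL1 :
    S_DL1 := by
  intro A α hA hC hP
  by_contra hno
  apply hP
  have z2 : ∀ t : ZMod 2, t ≠ 1 → t = 0 := by decide
  have z3 : ∀ s t : ZMod 2, s + t = 0 → s = t := by decide
  have loop : ∀ q t, dl1_R A α q q t → t = 0 := by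
    rintro q t ⟨D, k, k', hD, h1, h2, w⟩
    have e : k' = k := dl1_inj hD (h2.trans h1.symm)
    subst e
    obtain ⟨ℓ, g1, g2, g3⟩ := dl1_rel w
    refine z2 t fun ht => hno ⟨D, ℓ, hD, fun φ => ?_, g1, g3.trans ht⟩
    rw [g2, sub_self]
  have hb : ∀ y, ∃ ε : ℝ, y ∈ A → 0 < ε ∧ ball y ε ⊆ A ∧ CocOn (ball y ε) α := by
    intro y
    by_cases hy : y ∈ A
    · obtain ⟨n, hn, hc⟩ := hC y hy
      rw [hA.nhdsWithin_eq hy] at hn
      obtain ⟨ε, hε, hs⟩ := Metric.mem_nhds_iff.1 (inter_mem hn (hA.mem_nhds hy))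
      exact ⟨ε, fun _ => ⟨hε, fun z hz => (hs hz).2,
        fun a ha b hb d hd => hc a (hs ha).1 b (hs hb).1 d (hs hd).1⟩⟩
    · exact ⟨0, fun h => absurd h hy⟩
  choose ε hε using hb
  have hq : ∀ y, ∃ q, y ∈ A → q ∈ ball y (ε y) ∧ dl1_Q q := by
    intro y
    by_cases hy : y ∈ A
    · obtain ⟨q, h1, h2⟩ := dl1_dense isOpen_ball (mem_ball_self (hε y hy).1)
      exact ⟨q, fun _ => ⟨h1, h2⟩⟩
    · exact ⟨0, fun h => absurd h hy⟩
  choose q hq using hq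
  let b : (Fin 3 → ℝ) → Fin 3 → ℝ := fun x => Classical.epsilon fun p => ∃ t, dl1_R A α p x t
  let τ : (Fin 3 → ℝ) → ZMod 2 := fun x => Classical.epsilon fun t => dl1_R A α (b x) x t
  have hτ : ∀ x, (∃ p t, dl1_R A α p x t) → dl1_R A α (b x) x (τ x) := fun x hx =>
    Classical.epsilon_spec (p := fun t => dl1_R A α (b x) x t)
      (Classical.epsilon_spec (p := fun p => ∃ t, dl1_R A α p x t) hx)
  have key : ∀ x x' t, dl1_R A α x x' t → τ x' = τ x + t := by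
    intro x x' t h
    have e : b x' = b x := by
      refine congrArg Classical.epsilon (funext fun p => propext ⟨?_, ?_⟩)
      · rintro ⟨s, hs⟩
        exact ⟨_, dl1_Rtrans hs (dl1_Rsymm h)⟩
      · rintro ⟨s, hs⟩
        exact ⟨_, dl1_Rtrans hs h⟩
    have h1 := hτ x ⟨_, _, dl1_Rsymm h⟩
    have h2 := hτ x' ⟨_, _, h⟩
    rw [e] at h2
    exact z3 _ _ (loop _ _ (dl1_Rtrans (dl1_Rsymm h2) (dl1_Rtrans h1 h)))
  refine ⟨fun y => τ (q y) + α (q y) y, fun x hx => ?_⟩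
  obtain ⟨e0, e1, e2⟩ := hε x hx
  obtain ⟨q1, q2⟩ := hq x hx
  have main : ∀ a ∈ ball x (ε x), τ (q a) + α (q a) a = τ (q x) + α (q x) a := by
    intro a ha
    obtain ⟨f0, f1, f2⟩ := hε a (e1 ha)
    obtain ⟨r1, r2⟩ := hq a (e1 ha)
    obtain ⟨p, ⟨p1, p2⟩, p3⟩ := dl1_dense (isOpen_ball.inter isOpen_ball)
      (show a ∈ ball x (ε x) ∩ ball a (ε a) from ⟨ha, mem_ball_self f0⟩)
    have k1 := key _ _ _ (dl1_Rball e1 e2 q2 p3 q1 p1)
    have k2 := key _ _ _ (dl1_Rball f1 f2 r2 p3 r1 p2)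
    rw [← f2 _ r1 _ p2 _ (mem_ball_self f0), ← e2 _ q1 _ p1 _ ha, ← add_assoc, ← add_assoc,
      ← k1, ← k2]
  refine ⟨ball x (ε x), mem_nhdsWithin_of_mem_nhds (ball_mem_nhds x e0), fun a ha d hd => ?_⟩
  simp only []
  rw [main a ha, main d hd, ← e2 _ q1 _ ha _ hd]
  ring

end SDL1

section SDL2

open Set Filter Topology Metric
open scoped RealInnerProductSpace Quaternion

lemma dl2_hv (D : ℕ) (k : ℤ) (i : Fin 3) (x : Fin 3 → ℝ) (h : x i ≠ (k : ℝ) / D) :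
    ∀ᶠ a in 𝓝 x, hv D k (a i) = hv D k (x i) := by
  have hc : ContinuousAt (fun a : Fin 3 → ℝ => a i) x := (continuous_apply i).continuousAt
  rcases h.lt_or_gt with h | h
  · filter_upwards [hc.eventually (gt_mem_nhds h)] with a ha
    rw [hv, hv, if_neg (not_lt.2 ha.le), if_neg (not_lt.2 h.le)]
  · filter_upwards [hc.eventually (lt_mem_nhds h)] with a ha
    rw [hv, hv, if_pos ha, if_pos h]

lemma dl2_near (D : ℕ) (hD : 0 < D) (e : Edge) (x : Fin 3 → ℝ) (hx : x ∉ seg D e) :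
    (∃ i, i ≠ e.1 ∧ ∀ᶠ a in 𝓝 x, hv D (e.2 i) (a i) = hv D (e.2 i) (x i)) ∨
      ∀ᶠ a in 𝓝 x, hv D (e.2 e.1 + 1) (a e.1) = hv D (e.2 e.1) (a e.1) := by
  have hD' : (0 : ℝ) < D := by exact_mod_cast hD
  by_cases h : ∀ i, i ≠ e.1 → x i = (e.2 i : ℝ) / D
  swap
  · push Not at h
    obtain ⟨i, hi, h⟩ := h
    exact .inl ⟨i, hi, dl2_hv D _ i x h⟩
  have hc : ContinuousAt (fun a : Fin 3 → ℝ => a e.1) x := (continuous_apply e.1).continuousAt
  have hle : (e.2 e.1 : ℝ) / D ≤ ((e.2 e.1 + 1 : ℤ) : ℝ) / D := by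
    gcongr
    exact (lt_add_one _).le
  right
  rcases lt_or_ge (x e.1) ((e.2 e.1 : ℝ) / D) with h1 | h1
  · filter_upwards [hc.eventually (gt_mem_nhds h1)] with a ha
    rw [hv, hv, if_neg (not_lt.2 (ha.le.trans hle)), if_neg (not_lt.2 ha.le)]
  rcases lt_or_ge (((e.2 e.1 + 1 : ℤ) : ℝ) / D) (x e.1) with h2 | h2
  · filter_upwards [hc.eventually (lt_mem_nhds h2)] with a ha
    rw [hv, hv, if_pos ha, if_pos (hle.trans_lt ha)]
  rw [div_le_iff₀ hD'] at h1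
  rw [le_div_iff₀ hD'] at h2
  push_cast at h2
  refine absurd ⟨1 - (x e.1 * D - e.2 e.1), x e.1 * D - e.2 e.1, by linarith, by linarith,
    by ring, funext fun i => ?_⟩ hx
  by_cases hi : i = e.1
  · subst hi
    simp only [pt, tip, Pi.add_apply, Pi.smul_apply, smul_eq_mul, Pi.single_eq_same]
    push_cast
    field_simp
    ring
  · simp only [pt, tip, Pi.add_apply, Pi.smul_apply, smul_eq_mul, Pi.single_eq_of_ne hi, h i hi]
    push_cast
    ring

/-- The correction term at a vertex. -/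
noncomputable def dl2_T (D : ℕ) (a b d : Fin 3 → ℝ) (k : Fin 3 → ℤ) : ℤ :=
  (1 - hv D (k 2) (a 2)) * (hv D (k 0) (b 0) - hv D (k 0) (a 0)) *
    (hv D (k 1) (d 1) - hv D (k 1) (b 1))

lemma dl2_edge (D : ℕ) (hD : 0 < D) (e : Edge) (x : Fin 3 → ℝ) (hx : x ∉ seg D e) :
    ∃ n ∈ 𝓝 x, ∀ a ∈ n, ∀ b ∈ n, ∀ d ∈ n, curt0 D e a b + curt0 D e b d - curt0 D e a d =
      -(dl2_T D a b d (tip e) - dl2_T D a b d e.2) := by
  obtain ⟨j, k⟩ := e
  rcases dl2_near D hD (j, k) x hx with ⟨i, hi, h⟩ | h <;>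
    refine ⟨_, h, fun a ha b hb d hd => ?_⟩ <;> simp only [mem_ofPred_eq] at ha hb hd
  · fin_cases j <;> fin_cases i <;> simp at hi ha hb hd <;>
      simp [curt0, dl2_T, tip, ha, hb, hd] <;> ring
  · fin_cases j <;> simp at ha hb hd <;> simp [curt0, dl2_T, tip, ha, hb, hd]

theorem p_DL2 :
    S_DL2 := by
  intro D ℓ hD hℓ x hx
  choose! n hn H using fun e (he : e ∈ ℓ.support) => dl2_edge D hD e x (hx e he)
  refine ⟨⋂ e ∈ ℓ.support, n e,
    mem_nhdsWithin_of_mem_nhds ((biInter_finset_mem _).2 hn), fun a ha b hb d hd => ?_⟩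
  simp only [mem_iInter] at ha hb hd
  have := hℓ (dl2_T D a b d)
  rw [← sub_eq_zero, ← neg_eq_zero.2 this]
  simp only [curt, Finsupp.sum, ← Finset.sum_add_distrib, ← Finset.sum_sub_distrib,
    ← Finset.sum_neg_distrib]
  refine Finset.sum_congr rfl fun e he => ?_
  linear_combination ℓ e * H e he a (ha e he) b (hb e he) d (hd e he)

end SDL2

end Pool.Agent.P.MP_c88051_gt.Q1
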