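import Pool.Agent.P.MP_c88051_gt.Q1.IfaceB

/-! Steps DL, SGN, CMAP, DEGJ, HEM, TOW. -/

set_option autoImplicit false
set_option linter.unusedSectionVars false

namespace Pool.Agent.P.MP_c88051_gt.Q1

section SDL

open Set Filter Topology Metric
open scoped RealInnerProductSpace Quaternion

lemma dl_bound (D : ℕ) (hD : 0 < D) (ℓ : Edge →₀ ℤ) :
    ∃ B₁ : ℕ, ∀ B ≥ B₁, ∀ e ∈ ℓ.support, ∀ i, -((B : ℤ) * D) ≤ e.2 i ∧ e.2 i < B * D := by
  refine ⟨(ℓ.support.sup fun e => Finset.univ.sup fun i => (e.2 i).natAbs) + 1,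
    fun B hB e he i => ?_⟩
  have h1 : (e.2 i).natAbs ≤ ℓ.support.sup fun e => Finset.univ.sup fun i => (e.2 i).natAbs :=
    (Finset.le_sup (f := fun i => (e.2 i).natAbs) (Finset.mem_univ i)).trans
      (Finset.le_sup (f := fun e : Edge => Finset.univ.sup fun i => (e.2 i).natAbs) he)
  have h2 : B ≤ B * D := Nat.le_mul_of_pos_right B hD
  have h3 : (B : ℤ) ≤ B * D := by exact_mod_cast h2
  omega

lemma dl_cone {Y : Type} {n : Set Y} {α β : Y → Y → ZMod 2} (h : CocOn n α) {z : Y} (hz : z ∈ n)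
    {ν : Ch Y} (hν : ν ∈ In n) : ev (pr α β) (cons z ν) = 0 := by
  rw [ev_cons, ev_congr (Ψ := fun l => 0 * (0 : ZMod 2)) (fun l hl => ?_) hν, ev_mul, zero_mul]
  match l with
  | [] | [_] | [_, _] | _ :: _ :: _ :: _ :: _ => simp [pr]
  | [a, b, c] => simp [pr, h z hz a (hl a (by simp)) b (hl b (by simp))]

theorem p_DL (hCHART : S_CHART) (hDL1 : S_DL1) (hDL2 : S_DL2) (hDL3 : S_DL3) (hBOX : S_BOX) (hSTK : S_STK) :
    S_DL := by
  intro O₁ O₂ A α hO₁ hA hcov hAO hne hdis hα hnp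
  have hAne : A.Nonempty := by
    rcases A.eq_empty_or_nonempty with rfl | h
    · exact absurd ⟨0, fun _ h => h.elim⟩ hnp
    · exact h
  obtain ⟨z, hz⟩ : ∃ z, z ∉ closure A ∪ closure O₂ := by
    by_contra hn
    push Not at hn
    obtain ⟨x, -, hx⟩ := isPreconnected_closed_iff.1 preconn_S3 _ _ isClosed_closure
      isClosed_closure (fun x _ => hn x) (by simpa using hAne) (by simpa using hne)
    exact disjoint_left.1 hdis hx.1 hx.2
  have hzA : A ⊆ {z}ᶜ := fun x hx e => hz (Or.inl (subset_closure (e ▸ hx)))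
  have hzO : O₂ ⊆ {z}ᶜ := fun x hx e => hz (Or.inr (subset_closure (e ▸ hx)))
  have hz1 : z ∈ O₁ := (hcov.ge (mem_univ z)).resolve_right fun h => hzO h rfl
  obtain ⟨ι, hι, hr, hinf⟩ := hCHART z
  obtain ⟨j, hj1, hj2, hjc⟩ : ∃ j : S3 → Fin 3 → ℝ, (∀ y, j (ι y) = y) ∧
      (∀ x ∈ ({z}ᶜ : Set S3), ι (j x) = x) ∧ ContinuousOn j {z}ᶜ := by
    refine ⟨(hι.toOpenPartialHomeomorph ι).symm, fun y => hι.toOpenPartialHomeomorph_left_inv,
      fun x hx => IsOpenEmbedding.toOpenPartialHomeomorph_right_inv ι hι (hr ▸ hx), ?_⟩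
    have := (hι.toOpenPartialHomeomorph ι).continuousOn_symm
    rwa [IsOpenEmbedding.toOpenPartialHomeomorph_target, hr] at this
  obtain ⟨D, ℓ, hD, hcl, hseg, hsum⟩ := hDL1 (ι ⁻¹' A) (fun a b => α (ι a) (ι b))
    (hA.preimage hι.continuous)
    ((hα.mono hAO).comp hι.continuous.continuousOn (mapsTo_preimage _ _)) (by
      rintro ⟨h, hh⟩
      refine hnp ⟨_, (hh.comp (hjc.mono hzA) fun x hx => ?_).congr_c fun x hx y hy => ?_⟩
      · show ι (j x) ∈ A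
        rwa [hj2 x (hzA hx)]
      · rw [hj2 x (hzA hx), hj2 y (hzA hy)])
  refine ⟨fun a b => curt D ℓ (j a) (j b), (hDL2 D ℓ hD hcl).comp (hjc.mono hzO)
    fun x hx e he hs => ?_, fun ε hε => ?_⟩
  · have : ι (j x) ∈ A := (hseg e he).1 hs
    rw [hj2 x (hzO hx)] at this
    exact disjoint_left.1 hdis (subset_closure this) (subset_closure hx)
  obtain ⟨n, hn, hco⟩ := hα z hz1
  rw [hO₁.nhdsWithin_eq hz1] at hn
  have hn' : n ∩ ball z (ε / 2) ∈ 𝓝 z := inter_mem hn (ball_mem_nhds _ (half_pos hε))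
  obtain ⟨B₀, hB₀⟩ := hinf _ hn'
  obtain ⟨B₁, hB₁⟩ := dl_bound D hD ℓ
  have hfar : ∀ y : Fin 3 → ℝ, ((B₀ + B₁ : ℕ) : ℝ) ≤ ‖y‖ → ι y ∈ n ∩ ball z (ε / 2) :=
    fun y hy => hB₀ y (le_trans (by exact_mod_cast Nat.le_add_right _ _) hy)
  obtain ⟨δ, hδ, hu⟩ := Metric.uniformContinuousOn_iff.1
    ((isCompact_closedBall (0 : Fin 3 → ℝ) ((B₀ + B₁ : ℕ) : ℝ)).uniformContinuousOn_of_continuous
      hι.continuous.continuousOn) ε hε
  obtain ⟨M, hM⟩ := exists_nat_one_div_lt hδ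
  have hL : 0 < D * (M + 1) := by positivity
  obtain ⟨b1, b2, b3⟩ := hBOX (D * (M + 1)) (B₀ + B₁) hL
  have hlt : (1 : ℝ) / (D * (M + 1) : ℕ) < δ := lt_of_le_of_lt
    (one_div_le_one_div_of_le (by positivity)
      (by exact_mod_cast Nat.le_mul_of_pos_left (M + 1) hD)) hM
  have hν : cmap ι (bd (box (D * (M + 1)) (B₀ + B₁))) ∈ In (n ∩ ball z (ε / 2)) :=
    cmap_In hfar b2
  have hzn : z ∈ n ∩ ball z (ε / 2) := mem_of_mem_nhds hn'
  refine ⟨cmap ι (box (D * (M + 1)) (B₀ + B₁)) +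
    cons z (cmap ι (bd (box (D * (M + 1)) (B₀ + B₁)))),
    add_mem (cmap_Fn (mapsTo_univ _ _) hu (b1 δ hlt)) (supp_mem (cons z) (fun l hl => ?_) hν),
    ?_, ?_⟩
  · rw [cons_sx]
    have key : ∀ a ∈ z :: l, dist a z < ε / 2 := fun a ha => by
      rcases List.mem_cons.1 ha with rfl | ha
      · exact hzn.2
      · exact (hl a ha).2
    refine sx_mem ⟨fun _ _ => mem_univ _, fun a ha b hb => ?_⟩
    linarith [dist_triangle_right a b z, key a ha, key b hb]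
  · have hg : cmap ι (bd (box (D * (M + 1)) (B₀ + B₁))) ∈ Lg S3 2 :=
      supp_mem (cmap ι) (fun l hl => by
        rw [cmap_sx]
        exact sx_mem (by simpa using hl)) b3
    rw [map_add, hSTK.2.2 z _ hg, ← bd_cmap, hSTK.2.1, map_zero, add_zero, ch_add_self]
  · rw [map_add, dl_cone (hco.mono inter_subset_left) hzn hν, add_zero, ev_cmap, ← hsum,
      ← hDL3 (fun a b => α (ι a) (ι b)) D (M + 1) (B₀ + B₁) ℓ hD M.succ_pos hcl
        (fun e he => ⟨hB₁ _ (Nat.le_add_left _ _) e he, (hseg e he).2⟩)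
        ⟨fun a => α z (ι a), fun a b ha hb => ?_⟩]
    · congr 2
      funext l
      rw [pr_map]
      simp only [cz, hj1]
      rfl
    · have key : ∀ a : Fin 3 → ℝ, a 2 = -((B₀ + B₁ : ℕ) : ℝ) → ι a ∈ n := fun a ha =>
        (hfar a (le_trans (by rw [ha, norm_neg, Real.norm_natCast]) (norm_le_pi_norm a 2))).1
      exact hco.sub hzn.1 (key a ha) (key b hb)

end SDL

section SSGN

open Set Filter Topology Metric
open scoped RealInnerProductSpace Quaternion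

lemma sgn_mul {r t : ℝ} (hr : 0 < r) : sg (r * t) = sg t := by
  simp [sg, mul_pos_iff_of_pos_left hr]

lemma sgn_small {u : ℝ} (h : |u| < 1 / 4) :
    sg (Real.cos (2 * Real.pi * u)) = 1 ∧ sg (Real.sin (2 * Real.pi * u)) = sg u ∧
      ((⌈u⌉ : ℤ) : ZMod 2) = sg u := by
  have hp := Real.pi_pos
  obtain ⟨h1, h2⟩ := abs_lt.1 h
  refine ⟨sg_pos (Real.cos_pos_of_mem_Ioo ⟨by nlinarith, by nlinarith⟩), ?_⟩
  rcases lt_or_ge 0 u with h0 | h0
  · rw [sg_pos h0, sg_pos (Real.sin_pos_of_pos_of_lt_pi (by positivity) (by nlinarith)),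
      (Int.ceil_eq_iff (z := 1)).2 ⟨by simpa using h0, by push_cast; linarith⟩]
    simp
  · rw [sg_nonpos h0, sg_nonpos (Real.sin_nonpos_of_nonpos_of_neg_pi_le (by nlinarith)
      (by nlinarith)), (Int.ceil_eq_iff (z := 0)).2 ⟨by push_cast; linarith, by simpa using h0⟩]
    simp

lemma sgn_real (t₀ : ℝ) : ∃ n ∈ 𝓝 t₀, ∀ s ∈ n, ∀ t ∈ n,
    sg (Real.cos (2 * Real.pi * s)) * (sg (Real.sin (2 * Real.pi * s)) +
      sg (Real.sin (2 * Real.pi * t))) = ((⌈t⌉ : ℤ) : ZMod 2) - ((⌈s⌉ : ℤ) : ZMod 2) := by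
  have hp := Real.pi_pos
  by_cases h0 : ∃ k : ℤ, t₀ = k
  · obtain ⟨k, rfl⟩ := h0
    have key : ∀ s ∈ ball (k : ℝ) (1 / 4), sg (Real.cos (2 * Real.pi * s)) = 1 ∧
        sg (Real.sin (2 * Real.pi * s)) = sg (s - k) ∧
        ((⌈s⌉ : ℤ) : ZMod 2) = sg (s - k) + k := fun s hs => by
      obtain ⟨h1, h2, h3⟩ := sgn_small (u := s - k) (by rwa [mem_ball, Real.dist_eq] at hs)
      have e : 2 * Real.pi * s = 2 * Real.pi * (s - k) + k * (2 * Real.pi) := by ring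
      rw [e, Real.cos_add_int_mul_two_pi, Real.sin_add_int_mul_two_pi, ← h3, Int.ceil_sub_intCast]
      refine ⟨h1, by rw [h2, ← h3, Int.ceil_sub_intCast], by push_cast; ring⟩
    refine ⟨ball (k : ℝ) (1 / 4), ball_mem_nhds _ (by norm_num), fun s hs t ht => ?_⟩
    obtain ⟨h1, h2, h3⟩ := key s hs
    obtain ⟨-, h5, h6⟩ := key t ht
    rw [h1, h2, h3, h5, h6]
    generalize sg (s - k) = x
    generalize sg (t - k) = y
    generalize (k : ZMod 2) = z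
    revert x y z
    decide
  · have hc : ∀ᶠ s in 𝓝 t₀, ⌈s⌉ = ⌈t₀⌉ := by
      have h1 : ((⌈t₀⌉ : ℤ) : ℝ) - 1 < t₀ := by linarith [Int.ceil_lt_add_one t₀]
      have h2 : t₀ < ⌈t₀⌉ := lt_of_le_of_ne (Int.le_ceil t₀) fun h => h0 ⟨_, h⟩
      filter_upwards [Ioo_mem_nhds h1 h2] with s hs
      exact Int.ceil_eq_iff.2 ⟨hs.1, hs.2.le⟩
    by_cases hs0 : Real.sin (2 * Real.pi * t₀) = 0
    · have h1 : Real.cos (2 * Real.pi * t₀) < 0 := by
        rcases Real.sin_eq_zero_iff_cos_eq.1 hs0 with h | h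
        · obtain ⟨k, hk⟩ := (Real.cos_eq_one_iff _).1 h
          exact absurd ⟨k, mul_left_cancel₀ (by positivity : 2 * Real.pi ≠ 0) (by linarith)⟩ h0
        · linarith
      have h2 : ∀ᶠ s in 𝓝 t₀, Real.cos (2 * Real.pi * s) < 0 :=
        (show Continuous fun s => Real.cos (2 * Real.pi * s) by fun_prop).continuousAt.eventually
          (gt_mem_nhds h1)
      refine ⟨_, hc.and h2, fun s hs t ht => ?_⟩
      rw [sg_nonpos hs.2.le, hs.1, ht.1]; simp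
    · have h2 := (sgn_sg univ fun s => Real.sin (2 * Real.pi * s)).ev_eq (mem_univ t₀)
        (show Continuous fun s => Real.sin (2 * Real.pi * s) by
          fun_prop).continuousAt.continuousWithinAt hs0
      rw [nhdsWithin_univ] at h2
      refine ⟨_, hc.and h2, fun s hs t ht => ?_⟩
      rw [hs.1, ht.1, hs.2, ht.2]; simp

lemma sgn_exp {r t : ℝ} (hr : 0 < r) (k : ℤ) :
    sg ((r : ℂ) * Complex.exp (2 * Real.pi * t * Complex.I)).re =
      sg (Real.cos (2 * Real.pi * (t - k))) ∧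
    sg ((r : ℂ) * Complex.exp (2 * Real.pi * t * Complex.I)).im =
      sg (Real.sin (2 * Real.pi * (t - k))) := by
  have e : 2 * Real.pi * (t - k) = 2 * Real.pi * t - k * (2 * Real.pi) := by ring
  have e' : (2 * Real.pi * t * Complex.I : ℂ) = ((2 * Real.pi * t : ℝ) : ℂ) * Complex.I := by
    push_cast; ring
  rw [e, Real.cos_sub_int_mul_two_pi, Real.sin_sub_int_mul_two_pi, e', Complex.re_ofReal_mul,
    Complex.im_ofReal_mul, Complex.exp_ofReal_mul_I_re, Complex.exp_ofReal_mul_I_im, sgn_mul hr,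
    sgn_mul hr]
  exact ⟨rfl, rfl⟩

theorem p_SGN :
    S_SGN := by
  intro Y _ O c φ ρ a hc hφ ha x hx
  obtain ⟨n, hn, hcn⟩ := hc x hx
  obtain ⟨m, hm, hr⟩ := sgn_real (φ x - c x x)
  refine ⟨n ∩ O ∩ (fun y => φ y - c x y) ⁻¹' m,
    inter_mem (inter_mem hn self_mem_nhdsWithin) (hφ x hx hm), fun y hy z hz => ?_⟩
  have h1 := hr _ hy.2 _ hz.2
  obtain ⟨y1, y2⟩ := sgn_exp (t := φ y) (ha y hy.1.2).1 (c x y)
  obtain ⟨-, z2⟩ := sgn_exp (t := φ z) (ha z hz.1.2).1 (c x z)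
  rw [← (ha y hy.1.2).2] at y1 y2
  rw [← (ha z hz.1.2).2] at z2
  simp only [Int.ceil_sub_intCast] at h1
  simp only [Pi.add_apply, al, cz]
  rw [y1, y2, z2, h1, hcn.sub (mem_of_mem_nhdsWithin hx hn) hy.1.1 hz.1.1]
  push_cast
  ring

end SSGN

section SCMAP

open Set Filter Topology Metric
open scoped RealInnerProductSpace Quaternion

lemma cmap_div {Y : Type} [TopologicalSpace Y] {p : ℕ} [NeZero p] {O : Set Y} {c : Y → Y → ℤ}
    {s : Y → ZMod p} (hc : IsC O c) (hs : IsP O (cz p c) s) :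
    ∃ (c' : Y → Y → ℤ) (k : Y → ℤ), IsC O c' ∧ IsP O (c - (p : ℤ) • c') k := by
  have hp : (p : ℤ) ≠ 0 := Int.natCast_ne_zero.2 (NeZero.ne p)
  have key : ∀ a b, cz p c a b = s b - s a →
      (p : ℤ) * ((c a b - (((s b).val : ℤ) - (s a).val)) / p) =
        c a b - (((s b).val : ℤ) - (s a).val) := fun a b h => by
    refine Int.mul_ediv_cancel' ((ZMod.intCast_zmod_eq_zero_iff_dvd _ _).1 ?_)
    simp only [cz] at h
    simp [h]
  refine ⟨fun a b => (c a b - (((s b).val : ℤ) - (s a).val)) / p, fun a => ((s a).val : ℤ),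
    fun x hx => ?_, fun x hx => ?_⟩
  · obtain ⟨n, hn, h1⟩ := hc x hx
    obtain ⟨m, hm, h2⟩ := hs x hx
    refine ⟨n ∩ m, inter_mem hn hm, fun a ha b hb d hd => mul_left_cancel₀ hp ?_⟩
    rw [mul_add, key a b (h2 a ha.2 b hb.2), key b d (h2 b hb.2 d hd.2),
      key a d (h2 a ha.2 d hd.2), ← h1 a ha.1 b hb.1 d hd.1]
    ring
  · obtain ⟨m, hm, h2⟩ := hs x hx
    refine ⟨m, hm, fun a ha b hb => ?_⟩
    simp only [Pi.sub_apply, Pi.smul_apply, smul_eq_mul]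
    rw [key a b (h2 a ha b hb)]
    ring

lemma cmap_exp (t : ℝ) (k : ℤ) : Complex.exp (2 * Real.pi * t * Complex.I) =
    Complex.exp (2 * Real.pi * ((t - k : ℝ) : ℂ) * Complex.I) := by
  rw [Complex.exp_eq_exp_iff_exists_int]
  exact ⟨k, by push_cast; ring⟩

theorem p_CMAP (hCIRC : S_CIRC) (hSGN : S_SGN) :
    S_CMAP := by
  intro p _ F _ N f H P _ r Ψ A c s hΨ hZ
  obtain ⟨c', k, h1, h2⟩ := cmap_div hZ.1 hZ.2.2.1
  obtain ⟨φ, hφ⟩ := hCIRC _ c' h1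
  have hf := H.cont
  set ρ : P × S3 → ℝ := fun e => max 0 ((Ψ e.1).2 - ⟪(Ψ e.1).1, f e.2⟫) with hρ
  have hρc : Continuous ρ := by rw [hρ]; fun_prop
  have hpos : ∀ e ∈ EE f Ψ A, 0 < ρ e := fun e he => lt_max_of_lt_right (sub_pos.2 he.2)
  refine ⟨fun e => ρ e * Complex.exp (2 * Real.pi * φ e * Complex.I), fun e he => ?_,
    fun e he => mul_ne_zero (Complex.ofReal_ne_zero.2 (hpos e he).ne') (Complex.exp_ne_zero _),
    fun b hb => ?_⟩
  · by_cases hE : e ∈ EE f Ψ A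
    · have h3 := hφ e hE
      have h4 : EE f Ψ univ ∈ 𝓝 e := (isOpen_EE hf hΨ).mem_nhds ⟨mem_univ _, hE.2⟩
      rw [EE_eq, continuousWithinAt_inter h4] at h3
      simp only [fun y => cmap_exp (φ y) (c' e y)]
      refine (Complex.continuous_ofReal.comp hρc).continuousWithinAt.mul ?_
      exact (show Continuous fun t : ℝ => Complex.exp (2 * Real.pi * (t : ℂ) * Complex.I) by
        fun_prop).continuousAt.comp_continuousWithinAt h3
    · have h0 : ρ e = 0 := max_eq_left (sub_nonpos.2 (not_lt.1 fun h => hE ⟨he.1, h⟩))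
      have h3 : Tendsto ρ (𝓝[A ×ˢ univ] e) (𝓝 0) := h0 ▸ hρc.continuousWithinAt
      rw [ContinuousWithinAt, h0, Complex.ofReal_zero, zero_mul]
      refine squeeze_zero_norm (fun y => ?_) h3
      have e' : (2 * Real.pi * φ y * Complex.I : ℂ) = ((2 * Real.pi * φ y : ℝ) : ℂ) * Complex.I := by
        push_cast; ring
      rw [norm_mul, e', Complex.norm_exp_ofReal_mul_I, mul_one, Complex.norm_real,
        Real.norm_of_nonneg (le_max_left _ _)]
  · have hc : ContinuousOn (fun x : S3 => (b, x)) (U f (Ψ b)) := by fun_prop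
    have hm : MapsTo (fun x : S3 => (b, x)) (U f (Ψ b)) (EE f Ψ A) := fun x hx => ⟨hb, hx⟩
    refine ⟨fib c' b, fun x => k (b, x), _, h1.comp hc hm, h2.comp hc hm,
      hSGN _ (fib c' b) (fun x => φ (b, x)) (fun x => ρ (b, x)) _ (h1.comp hc hm)
        (fun x hx => ?_) fun y hy => ⟨hpos _ (hm hy), rfl⟩⟩
    exact (hφ _ (hm hx)).comp (f := fun x : S3 => (b, x)) (hc x hx) hm

end SCMAP

section SDEGJ

open Set Filter Topology Metric
open scoped RealInnerProductSpace Quaternion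

theorem p_DEGJ (hDL : S_DL) (hPINV : S_PINV) (hNJ : S_NJ) (hTWO : S_TWO) (hLINK : S_LINK) :
    S_DEGJ := by
  intro p _ F _ N f H a₁ a₂ a z w hz hw z0 w0 hu hA nl nl₂ hne hd n₁ n₂ ε hε
  have ne : ∀ {O : Set S3}, ¬Lf p O → O.Nonempty := fun h =>
    nonempty_iff_ne_empty.2 fun e => h (e ▸ lf_empty)
  have c₁ := hLINK.1 _ z hz.continuousOn z0
  have c₂ := hLINK.1 _ w hw.continuousOn w0
  obtain ⟨β, cβ, hμ⟩ := hDL _ _ _ (al z) (H.openU a₁) (H.openU a) hu hA (ne nl₂) hd c₁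
    fun ⟨h, hh⟩ => n₁ ((hNJ H a₁ a _ h hA hne nl c₁ hh).imp fun _ k => k.1)
  have nβ : ¬∃ h, IsP (U f a₂) (cz 2 β) h := fun hβ => by
    obtain ⟨δ, d0, hδ⟩ := hPINV _ _ (al z) (cz 2 β) (H.openU a₁) (H.openU a₂) hu c₁ (cβ.cz 2)
      (Or.inr hβ)
    obtain ⟨μ, m1, m2, m3⟩ := hμ δ d0
    rw [hδ μ m1 m2] at m3
    exact zero_ne_one m3
  have hne₂ : U f a₂ ≠ univ := fun e => by
    obtain ⟨x, hx⟩ := ne nl
    exact disjoint_left.1 hd (subset_closure hx) (subset_closure (e ▸ mem_univ x))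
  obtain ⟨δ, d0, hδ⟩ := hPINV _ _ (al z) (cz 2 β + al w) (H.openU a₁) (H.openU a₂) hu c₁
    ((cβ.cz 2).add c₂) (Or.inr (hTWO H a₂ nl₂ hne₂ _ _ (cβ.cz 2) c₂ nβ n₂))
  obtain ⟨μ, m1, m2, m3⟩ := hμ (min ε δ) (lt_min hε d0)
  refine ⟨μ, Fn_mono Subset.rfl (min_le_left _ _) m1, m2, ?_⟩
  have h1 := hδ μ (Fn_mono Subset.rfl (min_le_right _ _) m1) m2
  rw [funext (pr_add (al z) (cz 2 β) (al w)), ev_add, m3, hLINK.2 z w μ m2] at h1
  rcases z2_cases (ev (dgH fun x => qz (z x) (w x)) μ) with h | h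
  · rw [h, add_zero] at h1
    exact (one_ne_zero h1).elim
  · exact h

end SDEGJ

section SHEM

open Set Filter Topology Metric
open scoped RealInnerProductSpace Quaternion

lemma hem_Lg {Y Z : Type} (φ : Y → Z) {μ : Ch Y} (h : μ ∈ Lg Y 1) : cmap φ μ ∈ Lg Z 1 :=
  supp_mem (cmap φ) (fun l hl => by
    rw [cmap_sx]
    exact sx_mem (by simpa using hl)) h

lemma hem_mul {t t' y y' d : ℝ} (h0 : 0 ≤ t) (h1 : t ≤ 1) (hy : |y'| ≤ 1) (e1 : |y - y'| < d)
    (e2 : |t - t'| < d) : |(1 - t) * y - (1 - t') * y'| < 2 * d := by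
  have : (1 - t) * y - (1 - t') * y' = (1 - t) * (y - y') - (t - t') * y' := by ring
  rw [this]
  refine (abs_sub _ _).trans_lt ?_
  rw [abs_mul, abs_mul, abs_of_nonneg (sub_nonneg.2 h1)]
  nlinarith [abs_nonneg (y - y'), abs_nonneg (t - t'), abs_nonneg y']

theorem p_HEM (hLEIB : S_LEIB) (hSHN : S_SHN) :
    S_HEM := by
  intro ε hε
  obtain ⟨d, hd, rfl⟩ : ∃ d > (0 : ℝ), ε = 2 * d := ⟨ε / 2, by positivity, by ring⟩
  obtain ⟨m, hm⟩ := exists_nat_one_div_lt hd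
  have hn : (0 : ℝ) < ((m + 1 : ℕ) : ℝ) := by positivity
  set I : Ch ℝ := iv (m + 1) fun i => (i : ℝ) / ((m + 1 : ℕ) : ℝ) with hI
  have I1 : I ∈ Fn (Icc (0 : ℝ) 1) d := by
    refine iv_Fn hd (fun i hi => ⟨by positivity, (div_le_one hn).2 (by exact_mod_cast hi)⟩)
      fun i _ => ?_
    rw [dist_comm, Real.dist_eq, ← sub_div]
    simpa [abs_of_pos (show (0 : ℝ) < (m : ℝ) + 1 by positivity)] using hm
  have I2 : bd I = sx [1] + sx [0] := by rw [hI, bd_iv, div_self hn.ne']; simp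
  have I3 : I ∈ Lg ℝ 1 := Submodule.sum_mem _ fun i _ => sx_mem (by simp)
  let K : Set (Fin 3 → ℝ) := {v | |v 0| + |v 1| = 1 ∧ v 2 = 0}
  have hK : K ⊆ SP := fun v hv => by simp [SP, Fin.sum_univ_three, hv.1, hv.2]
  have hab : ∀ s : ℝ, |s| = 1 → cmap (fun t : ℝ => ![s * (1 - t), t, 0]) I ∈ Fn K d := by
    intro s hs
    refine cmap_Fn (fun t ht => ⟨?_, rfl⟩) (fun a _ b _ h => ?_) I1
    · simp [abs_mul, hs, abs_of_nonneg ht.1, abs_of_nonneg (sub_nonneg.2 ht.2)]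
    · rw [dist_pi_lt_iff hd]
      intro i
      fin_cases i
      · simpa [Real.dist_eq, ← mul_sub, abs_mul, hs, abs_sub_comm] using h
      · simpa using h
      · simpa using hd
  set h₁ := cmap (fun t : ℝ => ![(1 : ℝ) * (1 - t), t, 0]) I +
    cmap (fun t : ℝ => ![(-1 : ℝ) * (1 - t), t, 0]) I with hh
  have H1 : h₁ ∈ Fn K d := add_mem (hab 1 (by simp)) (hab (-1) (by simp))
  have H2 : bd h₁ = sx [e0] + sx [-e0] := by
    have a1 : (![1, 0, 0] : Fin 3 → ℝ) = e0 := by ext i; fin_cases i <;> simp [e0]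
    have a2 : (![-1, 0, 0] : Fin 3 → ℝ) = -e0 := by ext i; fin_cases i <;> simp [e0]
    rw [hh, map_add, bd_cmap, bd_cmap, I2, ← a1, a1, ← a2, ← a1]
    simp only [map_add, cmap_sx, List.map_cons, List.map_nil, sub_self, mul_zero, sub_zero, mul_one]
    rw [add_add_add_comm, ch_add_self, zero_add]
  have H3 : h₁ ∈ Lg _ 1 := add_mem (hem_Lg _ I3) (hem_Lg _ I3)
  have Z1 : h₁ + cmap Neg.neg h₁ ∈ Fn K d := add_mem H1 (cmap_Fn
    (fun v hv => ⟨by simpa using hv.1, by simpa using hv.2⟩) (fun a _ b _ h => by simpa using h) H1)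
  have Z2 : bd (h₁ + cmap Neg.neg h₁) = 0 := by
    rw [map_add, bd_cmap, H2]
    simp [add_comm (sx [-e0])]
  have Z3 : h₁ + cmap Neg.neg h₁ ∈ Lg _ 1 := add_mem H3 (hem_Lg _ H3)
  let φ : (Fin 3 → ℝ) × ℝ → Fin 3 → ℝ := fun q => ![(1 - q.2) * q.1 0, (1 - q.2) * q.1 1, q.2]
  refine ⟨h₁, Fn_mono hK (by linarith) H1, cmap φ (shp (h₁ + cmap Neg.neg h₁) I),
    cmap_Fn (fun q hq => ?_) (fun a ha b hb h => ?_) (hSHN.2.2.2.2.2.2.2 K _ d _ Z1 _ I1), H2, ?_⟩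
  · have h0 := hq.2.1
    have h1 := sub_nonneg.2 hq.2.2
    simp only [SP, φ, mem_ofPred_eq, Fin.sum_univ_three, Matrix.cons_val_zero, Matrix.cons_val_one,
      Matrix.cons_val, abs_mul, abs_of_nonneg h0, abs_of_nonneg h1]
    rw [← mul_add, hq.1.1]
    ring
  · rw [Prod.dist_eq, max_lt_iff, dist_pi_lt_iff hd] at h
    have b1 := hb.1.1
    rw [dist_pi_lt_iff (by linarith)]
    intro i
    fin_cases i
    · exact hem_mul ha.2.1 ha.2.2 (by linarith [abs_nonneg (b.1 1)]) (h.1 0) h.2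
    · exact hem_mul ha.2.1 ha.2.2 (by linarith [abs_nonneg (b.1 0)]) (h.1 1) h.2
    · exact h.2.trans (by linarith)
  · rw [bd_cmap, hLEIB, Z2, map_zero, LinearMap.zero_apply, zero_add, I2, map_add,
      hSHN.2.2.1 _ Z3, hSHN.2.2.1 _ Z3, map_add, cmap_cmap, cmap_cmap]
    have e1 : φ ∘ (fun y => (y, (1 : ℝ))) = fun _ => ![0, 0, 1] := by funext y; simp [φ]
    have e2 : cmap (φ ∘ fun y => (y, (0 : ℝ))) (h₁ + cmap Neg.neg h₁) =
        cmap id (h₁ + cmap Neg.neg h₁) := cmap_congr (K := K) (fun y hy => by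
      ext i
      fin_cases i <;> simp [φ, hy.2]) (Fn_In Z1)
    rw [e1, e2, cmap_id, map_add, cmap_cmap]
    exact (congrArg (· + _) (ch_add_self _)).trans (zero_add _)

end SHEM

section STOW

open Set Filter Topology Metric
open scoped RealInnerProductSpace Quaternion

lemma tow_arc {ε : ℝ} (hε : 0 < ε) : ∃ arc ∈ Fn CI ε,
    bd arc = sx [((1 : ℝ), (0 : ℝ))] + cmap Neg.neg (sx [((1 : ℝ), (0 : ℝ))]) ∧
      cmap (fun l : ℝ × ℝ => (l.1, -l.2)) arc = cmap Neg.neg arc := by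
  obtain ⟨n, hn⟩ := exists_nat_one_div_lt hε
  have h0 : (0 : ℝ) < (n : ℝ) + 1 := by positivity
  set q : Ch (ℝ × ℝ) := iv (n + 1) fun i => (1 - (i : ℝ) / (n + 1), (i : ℝ) / (n + 1)) with hq
  have hF : q ∈ Fn CI ε := by
    refine iv_Fn hε (fun i hi => ?_) fun i _ => ?_
    · have a1 : (0 : ℝ) ≤ (i : ℝ) / (n + 1) := by positivity
      have a2 : (i : ℝ) / (n + 1) ≤ 1 := by
        rw [div_le_one h0]
        exact_mod_cast hi
      show |1 - (i : ℝ) / (n + 1)| + |(i : ℝ) / (n + 1)| = 1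
      rw [abs_of_nonneg a1, abs_of_nonneg (by linarith)]
      ring
    · have a1 : ((i + 1 : ℕ) : ℝ) / (n + 1) = (i : ℝ) / (n + 1) + 1 / (n + 1) := by
        push_cast
        ring
      have a2 : (0 : ℝ) < 1 / ((n : ℝ) + 1) := by positivity
      rw [Prod.dist_eq, max_lt_iff, Real.dist_eq, Real.dist_eq, a1, abs_lt, abs_lt]
      refine ⟨⟨?_, ?_⟩, ?_, ?_⟩ <;> linarith
  have hb : bd q = sx [((0 : ℝ), (1 : ℝ))] + sx [((1 : ℝ), (0 : ℝ))] := by
    rw [hq, bd_iv]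
    simp [div_self h0.ne']
  refine ⟨q + cmap (fun l : ℝ × ℝ => (-l.1, l.2)) q, add_mem hF (cmap_Fn (fun l hl => ?_)
    (fun a _ b _ h => ?_) hF), ?_, ?_⟩
  · simpa [CI] using hl
  · simpa [Prod.dist_eq] using h
  · rw [map_add, bd_cmap, hb, map_add]
    simp only [cmap_sx, List.map_cons, List.map_nil, neg_zero, Prod.neg_mk]
    linear_combination (norm := abel1) ch_add_self (sx [((0 : ℝ), (1 : ℝ))])
  · have a1 : (Neg.neg ∘ fun l : ℝ × ℝ => (-l.1, l.2)) = fun l => (l.1, -l.2) := by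
      funext l
      simp
    rw [map_add, map_add, cmap_cmap, cmap_cmap, add_comm, a1]
    rfl

theorem p_TOW (hHEM : S_HEM) (hLEIB : S_LEIB) (hSHN : S_SHN) :
    S_TOW := by
  intro ε hε
  obtain ⟨h1, f1, h2, f2, b1, b2⟩ := hHEM ε hε
  obtain ⟨arc, fa, ba, ra⟩ := tow_arc hε
  obtain ⟨s1, -, -, -, -, -, -, s8⟩ := hSHN (Y := Fin 3 → ℝ) (Z := ℝ × ℝ)
  set E : Ch (ℝ × ℝ) := sx [((1 : ℝ), (0 : ℝ))] with hE
  set h0 : Ch (Fin 3 → ℝ) := sx [e0] with hh0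
  have f0 : h0 ∈ Fn SP ε := sx_mem (by simp [SP, e0, hε, Fin.sum_univ_three])
  have fE : E ∈ Fn CI ε := sx_mem (by simp [CI, hε])
  have fn : ∀ μ ∈ Fn SP ε, cmap Neg.neg μ ∈ Fn SP ε := fun μ hμ =>
    cmap_Fn (fun v hv => by simpa [SP] using hv) (fun a _ b _ h => by simpa using h) hμ
  have b0 : bd h0 = 0 := by simp [hh0, bd0]
  have bE : bd E = 0 := by simp [hE, bd0]
  have b1' : bd h1 = h0 + cmap Neg.neg h0 := by rw [b1, hh0]; simp
  have rE : cmap (fun l : ℝ × ℝ => (l.1, -l.2)) E = E := by simp [hE]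
  have nn : ∀ μ : Ch (Fin 3 → ℝ), cmap Neg.neg (cmap Neg.neg μ) = μ := fun μ => by
    rw [cmap_cmap, show (Neg.neg ∘ Neg.neg : (Fin 3 → ℝ) → _) = id from funext neg_neg, cmap_id]
  have e1 : ∀ μ ν, cmap g1 (shp μ ν) =
      shp (cmap Neg.neg μ) (cmap (fun l : ℝ × ℝ => (l.1, -l.2)) ν) := fun μ ν =>
    s1 Neg.neg (fun l : ℝ × ℝ => (l.1, -l.2)) μ ν
  have e2 : ∀ μ ν, cmap g2 (shp μ ν) = shp μ (cmap Neg.neg ν) := fun μ ν => by
    have := s1 id Neg.neg μ ν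
    rwa [cmap_id] at this
  have s := s8 SP CI ε
  refine ⟨fun i => match i with
    | 0 => shp h0 E
    | 1 => shp h0 arc + shp h1 E
    | 2 => shp h1 arc + shp h2 E
    | _ => shp h2 arc, fun i => match i with
    | 0 => shp h0 E
    | 1 => shp (cmap Neg.neg h0) arc + shp h1 E
    | 2 => shp (cmap Neg.neg h1) arc
    | _ => 0, by simp [hh0, hE], fun i hi => ?_, fun i hi => ?_⟩
  · interval_cases i
    · exact ⟨s _ f0 _ fE, Fn_In (s _ f0 _ fE)⟩
    · exact ⟨add_mem (s _ f0 _ fa) (s _ f1 _ fE),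
        Fn_In (add_mem (s _ (fn _ f0) _ fa) (s _ f1 _ fE))⟩
    · exact ⟨add_mem (s _ f1 _ fa) (s _ f2 _ fE), Fn_In (s _ (fn _ f1) _ fa)⟩
    · exact ⟨s _ f2 _ fa, zero_mem _⟩
  · have hL := @hLEIB (Fin 3 → ℝ) (ℝ × ℝ)
    clear_value E h0
    interval_cases i <;>
      simp only [map_add, hL, e1, e2, b0, bE, b1', b2, ba, rE, ra, nn, map_zero,
        LinearMap.zero_apply, LinearMap.add_apply]
    · abel
    · linear_combination (norm := abel1) - ch_add_self (shp h0 (cmap Neg.neg arc))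
    · linear_combination (norm := abel1) - ch_add_self (shp h1 (cmap Neg.neg arc))

end STOW

end Pool.Agent.P.MP_c88051_gt.Q1
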