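import Pool.Agent.P.MP_c88051_gt.Q1.IfaceB

/-! Steps LJ3, LJ, FIN. -/

set_option autoImplicit false
set_option linter.unusedSectionVars false

namespace Pool.Agent.P.MP_c88051_gt.Q1

section SLJ3

open Set Filter Topology Metric
open scoped RealInnerProductSpace Quaternion

/-- A sign with a tie breaker. -/
noncomputable def lj3_tb (A : ℝ) (c : ZMod 2) : ZMod 2 := if 0 < A then 1 else if A < 0 then 0 else c

lemma lj3_neg (A : ℝ) (c : ZMod 2) : lj3_tb (-A) (c + 1) = lj3_tb A c + 1 := by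
  rcases lt_trichotomy A 0 with h | h | h
  · simp [lj3_tb, h, h.le]
  · simp [lj3_tb, h]
  · simp [lj3_tb, h, h.le]

lemma lj3_sgn {Y : Type} (K : Set Y) (A : Y → ℝ) (c : Y → ZMod 2) :
    Sgn K (fun y => lj3_tb (A y) (c y)) A := fun _ _ =>
  ⟨fun h => if_pos h, fun h => (if_neg h.not_gt).trans (if_pos h)⟩

/-- The normalised map. -/
noncomputable def lj3_w (J : (Fin 3 → ℝ) × S3 → ℍ) (x₀ : S3) (q : YY) (x : S3) : ℍ :=
  star (qc q.2.1 q.2.2) * J (q.1, x) * star (J (q.1, x₀))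

lemma lj3_cj (u : ℍ) : (cj u).re = u.re ∧ (cj u).imI = u.imI ∧ (cj u).imJ = -u.imJ ∧
    (cj u).imK = -u.imK := ⟨rfl, rfl, rfl, rfl⟩

lemma lj3_qc (a b : ℝ) : (qc a b).re = 0 ∧ (qc a b).imI = a ∧ (qc a b).imJ = b ∧
    (qc a b).imK = 0 := ⟨rfl, rfl, rfl, rfl⟩

lemma lj3_mul (u w : ℍ) : cj (u * w) = cj u * cj w := by
  ext <;> simp only [lj3_cj, Quaternion.re_mul, Quaternion.imI_mul, Quaternion.imJ_mul,
    Quaternion.imK_mul] <;> ring

lemma lj3_star (u : ℍ) : cj (star u) = star (cj u) := by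
  ext <;> simp only [lj3_cj, Quaternion.re_star, Quaternion.imI_star, Quaternion.imJ_star,
    Quaternion.imK_star]

lemma lj3_g1 {J : (Fin 3 → ℝ) × S3 → ℍ} {q : YY} (h : ∀ x, J (-q.1, x) = cj (J (q.1, x)))
    (x₀ x : S3) : lj3_w J x₀ (g1 q) x = cj (lj3_w J x₀ q x) := by
  have e : qc q.2.1 (-q.2.2) = cj (qc q.2.1 q.2.2) :=
    Quaternion.ext _ _ rfl rfl rfl neg_zero.symm
  simp only [lj3_w, g1, h, lj3_mul, lj3_star, e]

lemma lj3_g2 (J : (Fin 3 → ℝ) × S3 → ℍ) (q : YY) (x₀ x : S3) :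
    lj3_w J x₀ (g2 q) x = -lj3_w J x₀ q x := by
  have e : qc (-q.2.1) (-q.2.2) = -qc q.2.1 q.2.2 :=
    Quaternion.ext _ _ neg_zero.symm rfl rfl neg_zero.symm
  simp only [lj3_w, g2, Prod.fst_neg, Prod.snd_neg, e, star_neg, neg_mul]

lemma lj3_re (J : (Fin 3 → ℝ) × S3 → ℍ) (q : YY) (x₀ : S3) : (lj3_w J x₀ q x₀).re = 0 := by
  simp only [lj3_w, lj3_qc, Quaternion.re_mul, Quaternion.imI_mul, Quaternion.imJ_mul,
    Quaternion.imK_mul, Quaternion.re_star, Quaternion.imI_star, Quaternion.imJ_star,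
    Quaternion.imK_star]
  ring

lemma lj3_ne {J : (Fin 3 → ℝ) × S3 → ℍ} {q : YY} (hq : q.2 ∈ CI) (h : ∀ x, J (q.1, x) ≠ 0)
    (x₀ x : S3) : lj3_w J x₀ q x ≠ 0 := by
  refine mul_ne_zero (mul_ne_zero (star_ne_zero.2 fun e => ?_) (h x)) (star_ne_zero.2 (h x₀))
  have h1 : q.2.1 = 0 := congrArg QuaternionAlgebra.imI e
  have h2 : q.2.2 = 0 := congrArg QuaternionAlgebra.imJ e
  have h3 : |q.2.1| + |q.2.2| = 1 := hq
  simp [h1, h2] at h3

lemma lj3_cont {J : (Fin 3 → ℝ) × S3 → ℍ} (hJ : ContinuousOn J (SP ×ˢ univ)) (x₀ : S3)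
    {φ : MM → S3} (hφ : Continuous φ) :
    ContinuousOn (fun m : MM => lj3_w J x₀ m.1 (φ m)) ((SP ×ˢ CI) ×ˢ univ) := by
  have e : ∀ a b : ℝ, qc a b = a • qc 1 0 + b • qc 0 1 := fun a b => by ext <;> simp [lj3_qc]
  have h1 : Continuous fun m : MM => qc m.1.2.1 m.1.2.2 := by
    refine Continuous.congr (f := fun m : MM => m.1.2.1 • qc 1 0 + m.1.2.2 • qc 0 1) (by fun_prop)
      fun m => (e _ _).symm
  have h2 : ∀ {ψ : MM → S3}, Continuous ψ →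
      ContinuousOn (fun m : MM => J (m.1.1, ψ m)) ((SP ×ˢ CI) ×ˢ univ) := fun hψ =>
    hJ.comp (by fun_prop) fun m hm => ⟨hm.1.1, mem_univ _⟩
  exact (h1.star.continuousOn.mul (h2 hφ)).mul (h2 continuous_const).star

lemma lj3_six (i : Fin 6) : Continuous fun z : ℍ × ℍ => six z.1 z.2 i := by
  have a : Continuous fun z : ℍ × ℍ => z.1 + z.2 := by fun_prop
  have b : Continuous fun z : ℍ × ℍ => z.1 - z.2 := by fun_prop
  fin_cases i
  exacts [Quaternion.continuous_imI.comp a, Quaternion.continuous_imJ.comp a,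
    Quaternion.continuous_imK.comp a, Quaternion.continuous_imI.comp b,
    Quaternion.continuous_imJ.comp b, Quaternion.continuous_imK.comp b]

lemma lj3_real {u w : ℍ} (h : ∀ i, six u w i = 0) (hu : u ≠ 0) (hw : w ≠ 0) :
    u.re ≠ 0 ∧ w.re ≠ 0 := by
  have h0 : u.imI + w.imI = 0 := h 0
  have h1 : u.imJ + w.imJ = 0 := h 1
  have h2 : u.imK + w.imK = 0 := h 2
  have h3 : u.imI - w.imI = 0 := by simpa [six] using h 3
  have h4 : u.imJ - w.imJ = 0 := by simpa [six] using h 4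
  have h5 : u.imK - w.imK = 0 := by simpa [six] using h 5
  refine ⟨fun e => hu ?_, fun e => hw ?_⟩ <;> ext <;> simp <;> linarith

lemma lj3_compact : IsCompact (((SP ×ˢ CI) ×ˢ univ : Set MM)) := by
  refine ((isCompact_of_isClosed_isBounded (isClosed_eq (by fun_prop) continuous_const) ?_).prod
    (isCompact_of_isClosed_isBounded (isClosed_eq (by fun_prop) continuous_const) ?_)).prod
    isCompact_univ
  · refine isBounded_iff_forall_norm_le.2 ⟨1, fun v hv => (pi_norm_le_iff_of_nonneg zero_le_one).2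
      fun i => ?_⟩
    exact (Finset.single_le_sum (f := fun i => |v i|) (fun _ _ => abs_nonneg _)
      (Finset.mem_univ i)).trans_eq hv
  · refine isBounded_iff_forall_norm_le.2 ⟨1, fun l hl => ?_⟩
    have h : |l.1| + |l.2| = 1 := hl
    rw [Prod.norm_def, Real.norm_eq_abs, Real.norm_eq_abs, max_le_iff]
    constructor <;> linarith [abs_nonneg l.1, abs_nonneg l.2]

lemma lj3_sym {u w : ℍ} {a b a₁ b₁ a₂ b₂ : ZMod 2} (e1 : a₁ = a + 1) (e2 : a₂ = a) (e3 : b₁ = b)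
    (e4 : b₂ = b + 1) (i : Fin 6) :
    lj3_tb (six (cj u) (cj w) i) (![0, a₁, a₁, b₁, a₁ + b₁, a₁ + b₁] i) =
      lj3_tb (six u w i) (![0, a, a, b, a + b, a + b] i) + ![0, 1, 1, 0, 1, 1] i ∧
    lj3_tb (six w u i) (![0, a₂, a₂, b₂, a₂ + b₂, a₂ + b₂] i) =
      lj3_tb (six u w i) (![0, a, a, b, a + b, a + b] i) + ![0, 0, 0, 1, 1, 1] i := by
  have p : ∀ {A A' : ℝ} {c c' t : ZMod 2}, (A' = A ∧ c' = c ∧ t = 0) ∨
      (A' = -A ∧ c' = c + 1 ∧ t = 1) → lj3_tb A' c' = lj3_tb A c + t := by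
    rintro A _ c _ _ (⟨rfl, rfl, rfl⟩ | ⟨rfl, rfl, rfl⟩)
    exacts [(add_zero _).symm, lj3_neg _ _]
  refine ⟨p ?_, p ?_⟩ <;> fin_cases i <;>
    simp [six, lj3_cj, e1, e2, e3, e4, add_comm, add_left_comm, add_assoc, sub_eq_add_neg]

theorem p_LJ3 (hHZ : S_HZ) (hTSTEP : S_TSTEP) :
    S_LJ3 := by
  intro J hJ h0 hc
  obtain ⟨⟨x₀, h, c1, c2, c3⟩, χ₁, χ₂, hχ⟩ := hHZ
  let u : MM → ℍ := fun m => lj3_w J x₀ m.1 m.2.1
  let w : MM → ℍ := fun m => -lj3_w J x₀ m.1 m.2.2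
  let s : Fin 6 → MM → ZMod 2 := fun i m => lj3_tb (six (u m) (w m) i)
    (![0, χ₁ m.1, χ₁ m.1, χ₂ m.1, χ₁ m.1 + χ₂ m.1, χ₁ m.1 + χ₂ m.1] i)
  let t : Fin 3 → MM → ZMod 2 := fun j m => lj3_tb (h m.2 j) (χ₂ m.1)
  let K : Set MM := (SP ×ˢ CI) ×ˢ univ
  have cu : ContinuousOn u K := lj3_cont hJ x₀ (by fun_prop)
  have cw : ContinuousOn w K := (lj3_cont hJ x₀ (φ := fun m => m.2.2) (by fun_prop)).neg
  have u1 : ∀ m ∈ K, u (Prod.map g1 id m) = cj (u m) := fun m hm => lj3_g1 (hc _ hm.1.1) _ _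
  have w1 : ∀ m ∈ K, w (Prod.map g1 id m) = cj (w m) := fun m hm =>
    (congrArg Neg.neg (lj3_g1 (hc _ hm.1.1) _ _)).trans (by ext <;> simp [lj3_cj, w])
  have u2 : ∀ m, u (Prod.map g2 Prod.swap m) = w m := fun m => lj3_g2 _ _ _ _
  have w2 : ∀ m, w (Prod.map g2 Prod.swap m) = u m := fun m =>
    (congrArg Neg.neg (lj3_g2 _ _ _ _)).trans (neg_neg _)
  have ls : ∀ m ∈ K, ∀ i, six (u m) (w m) i ≠ 0 → ∀ᶠ z in 𝓝[K] m, s i z = s i m := fun m hm i hi =>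
    (lj3_sgn K _ _).ev_eq hm ((lj3_six i).comp_continuousOn (cu.prodMk cw) m hm) hi
  have nz : ∀ m ∈ K, (∀ i, six (u m) (w m) i = 0) → (u m).re ≠ 0 ∧ (w m).re ≠ 0 := fun m hm hi =>
    lj3_real hi (lj3_ne hm.1.2 (h0 _ hm.1.1) _ _) (neg_ne_zero.2 (lj3_ne hm.1.2 (h0 _ hm.1.1) _ _))
  have lr : ∀ {f : MM → ℍ}, ContinuousOn f K → ∀ m ∈ K, (f m).re ≠ 0 →
      ∀ᶠ z in 𝓝[K] m, sg (f z).re = sg (f m).re := fun hf m hm hi =>
    (sgn_sg K _).ev_eq hm (Quaternion.continuous_re.comp_continuousOn hf m hm) hi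
  have ht : ∀ j, ∀ m ∈ K, t j (Prod.map g1 id m) = t j m ∧
      t j (Prod.map g2 Prod.swap m) = t j m + 1 := fun j m hm => by
    refine ⟨congrArg (lj3_tb (h m.2 j)) (hχ _ hm.1).2.2.1, ?_⟩
    rw [← lj3_neg, ← (hχ _ hm.1).2.2.2]
    exact congrArg (lj3_tb · _) (congrFun (c2 m.2.1 m.2.2) j)
  refine ⟨x₀, s, fun m => sg (u m).re * sg (w m).re, fun _ _ => rfl, fun i => lj3_sgn _ _ _,
    hTSTEP K (Prod.map g1 id) (Prod.map g2 Prod.swap) _ (t 0) (t 1) (t 2) _ lj3_compact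
      (fun m hm => ?_) (fun r hr => ?_) (fun r hr => ?_) (fun m hm => ?_) fun m hm => ?_⟩
  · rw [u1 m hm, w1 m hm, u2, w2]
    exact ⟨rfl, mul_comm _ _⟩
  · obtain ⟨i, rfl⟩ := List.mem_ofFn.1 hr
    refine ⟨![0, 1, 1, 0, 1, 1] i, ![0, 0, 0, 1, 1, 1] i, fun m hm => ?_⟩
    simp only [s, u1 m hm, w1 m hm, u2, w2]
    obtain ⟨e1, e2, e3, e4⟩ := hχ _ hm.1
    exact lj3_sym e1 e2 e3 e4 i
  · simp only [List.mem_cons, List.not_mem_nil, or_false] at hr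
    rcases hr with rfl | rfl | rfl <;> exact ht _
  · by_cases hi : ∀ i, six (u m) (w m) i = 0
    · refine .inl (((lr cu m hm (nz m hm hi).1).and (lr cw m hm (nz m hm hi).2)).mono
        fun z hz => ?_)
      rw [hz.1, hz.2]
    · obtain ⟨i, hi⟩ := not_forall.1 hi
      exact .inr ⟨s i, List.mem_ofFn.2 ⟨i, rfl⟩, ls m hm i hi⟩
  · by_cases hi : ∀ i, six (u m) (w m) i = 0
    · by_cases hj : h m.2 = 0
      · obtain ⟨n1, n2⟩ := nz m hm hi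
        rcases c3 m.2.1 m.2.2 hj with e | e | e
        · have e' : (w m).re = -(u m).re := by simp only [u, w, e]; rfl
          refine .inl (((lr cu m hm n1).and (lr cw m hm n2)).mono fun z hz => ?_)
          rw [hz.1, hz.2]
          rcases le_total (u m).re 0 with c | c
          · rw [sg_nonpos c, zero_mul]
          · rw [sg_nonpos (t := (w m).re) (by linarith), mul_zero]
        · exact (n1 (by simp only [u, e, lj3_re])).elim
        · exact (n2 (by simp only [w, e]; exact neg_eq_zero.2 (lj3_re _ _ _))).elim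
      · obtain ⟨j, hj⟩ := Function.ne_iff.1 hj
        refine .inr ⟨t j, by fin_cases j <;> simp, (lj3_sgn K _ _).ev_eq hm
          (Continuous.continuousWithinAt (by fun_prop)) hj⟩
    · obtain ⟨i, hi⟩ := not_forall.1 hi
      exact .inr ⟨s i, List.mem_cons_of_mem _ (List.mem_cons_of_mem _ (List.mem_cons_of_mem _
        (List.mem_ofFn.2 ⟨i, rfl⟩))), ls m hm i hi⟩

end SLJ3

section SLJ

open Set Filter Topology Metric
open scoped RealInnerProductSpace Quaternion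

lemma lj_cont : Continuous fun q : ℂ × ℂ => qz q.1 q.2 := by
  have : (fun q : ℂ × ℂ => qz q.1 q.2) = fun q : ℂ × ℂ => q.1.re • (⟨1, 0, 0, 0⟩ : ℍ) +
      q.1.im • (⟨0, 1, 0, 0⟩ : ℍ) + q.2.re • (⟨0, 0, 1, 0⟩ : ℍ) + q.2.im • (⟨0, 0, 0, 1⟩ : ℍ) := by
    funext q
    ext <;> simp [qz]
  rw [this]
  have h1 : Continuous fun q : ℂ × ℂ => q.1.re := by fun_prop
  have h2 : Continuous fun q : ℂ × ℂ => q.1.im := by fun_prop
  have h3 : Continuous fun q : ℂ × ℂ => q.2.re := by fun_prop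
  have h4 : Continuous fun q : ℂ × ℂ => q.2.im := by fun_prop
  exact (((h1.smul continuous_const).add (h2.smul continuous_const)).add
    (h3.smul continuous_const)).add (h4.smul continuous_const)

lemma lj_ne {z w : ℂ} (h : z ≠ 0 ∨ w ≠ 0) : qz (z + w) (z - w) ≠ 0 := fun e => by
  have h1 : z + w = 0 := Complex.ext (congrArg QuaternionAlgebra.re e)
    (congrArg QuaternionAlgebra.imI e)
  have h2 : z - w = 0 := Complex.ext (congrArg QuaternionAlgebra.imJ e)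
    (congrArg QuaternionAlgebra.imK e)
  rcases h with h | h
  · exact h (by linear_combination (1 / 2 : ℂ) * h1 + (1 / 2 : ℂ) * h2)
  · exact h (by linear_combination (1 / 2 : ℂ) * h1 - (1 / 2 : ℂ) * h2)

lemma lj_neg {v : Fin 3 → ℝ} (hv : v ∈ SP) : -v ∈ SP := by simpa [SP] using hv

lemma lj_e0 : e0 ∈ SP := by simp [SP, e0, Fin.sum_univ_three]

theorem p_LJ (hLJ3 : S_LJ3) (hTOW : S_TOW) (hN0 : S_N0) (hLJ2 : S_LJ2) (hLEIB : S_LEIB) (hSHN : S_SHN) :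
    S_LJ := by
  intro a ha h0 hμ
  have ha' : ContinuousOn (fun q : (Fin 3 → ℝ) × S3 => a (-q.1, q.2)) (SP ×ˢ univ) :=
    ha.comp (by fun_prop) fun q hq => ⟨lj_neg hq.1, mem_univ _⟩
  set J : (Fin 3 → ℝ) × S3 → ℍ := fun q =>
    qz (a q + a (-q.1, q.2)) (a q - a (-q.1, q.2)) with hJ
  have hJc : ContinuousOn J (SP ×ˢ univ) :=
    lj_cont.comp_continuousOn ((ha.add ha').prodMk (ha.sub ha'))
  have hJ0 : ∀ v ∈ SP, ∀ x, J (v, x) ≠ 0 := fun v hv x => lj_ne (h0 v hv x)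
  obtain ⟨x₀, s, ρ, hρ, hs, ε₁, hε₁, H1⟩ := hLJ3 J hJc hJ0 fun v _ x => by
    ext <;> simp [hJ, cj, qz, add_comm]
  have fibc : ∀ {T : Type} [TopologicalSpace T] {b : (Fin 3 → ℝ) × S3 → T},
      ContinuousOn b (SP ×ˢ univ) → ∀ v ∈ SP, Continuous fun x => b (v, x) := fun hb v hv =>
    hb.comp_continuous (by fun_prop) fun x => ⟨hv, mem_univ _⟩
  have hL : star (qc 1 0) ≠ 0 := by
    rw [star_ne_zero]
    intro e
    simpa [qc] using congrArg QuaternionAlgebra.imI e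
  have hR : star (J (e0, x₀)) ≠ 0 := star_ne_zero.2 (hJ0 _ lj_e0 _)
  obtain ⟨ε₂, hε₂, H2⟩ := hN0 (uu J x₀) (fun i q => s i ((e0, 1, 0), q))
    ((continuous_const.mul (fibc hJc _ lj_e0)).mul continuous_const)
    (fun y => mul_ne_zero (mul_ne_zero hL (hJ0 _ lj_e0 _)) hR) hs
  obtain ⟨ε₃, hε₃, H3⟩ := hLJ2 (fun x => a (e0, x)) (fun x => a (-e0, x)) (star (qc 1 0))
    (star (J (e0, x₀))) (fibc ha _ lj_e0) (fibc ha _ (lj_neg lj_e0)) (h0 _ lj_e0) hL hR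
  obtain ⟨μ, m1, m2, m3⟩ := hμ (min ε₁ (min ε₂ ε₃)) (by positivity)
  obtain ⟨B, L, b0, b1, b2⟩ := hTOW ε₁ hε₁
  have n1 : shp μ μ ∈ Fn (univ : Set (S3 × S3)) ε₁ :=
    Fn_mono (subset_univ _) (min_le_left _ _) (hSHN.2.2.2.2.2.2.2 _ _ _ μ m1 μ m1)
  have n2 : bd (shp μ μ) = 0 := by rw [hLEIB, m2]; simp
  have h1 := H1 (fun i => shp (B i) (shp μ μ)) (fun i => shp (L i) (shp μ μ))
    (fun i hi => ⟨hSHN.2.2.2.2.2.2.2 _ _ _ _ (b1 i hi).1 _ n1,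
      hSHN.2.2.2.2.2.2.1 _ _ _ (b1 i hi).2 _ (mem_In_univ _)⟩) fun i hi => by
    rw [hLEIB, n2, b2 i hi, hSHN.1, hSHN.1, hSHN.2.1, cmap_id]
    simp
  rw [b0, (hSHN.2.2.2.2.1 _ rfl 0 _ _ (x₀, x₀)).2, ev_cmap] at h1
  simp only [cc_map, List.map_ofFn] at h1
  have h2 := H2 μ (Fn_mono subset_rfl ((min_le_right _ _).trans (min_le_left _ _)) m1) m2
  have h3 := H3 μ (Fn_mono subset_rfl ((min_le_right _ _).trans (min_le_right _ _)) m1) m2
  rw [m3] at h3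
  have h4 : ev (dgH (uu J x₀)) μ = 1 := h3
  have h5 : (fun q : S3 × S3 => sg (uu J x₀ q.1).re * sg (-uu J x₀ q.2).re) =
      fun q => ρ ((e0, 1, 0), q) := funext fun q => (hρ q.1 q.2).symm
  rw [h4, h5] at h2
  have h6 : (0 : ZMod 2) = 1 * 1 := h1.symm.trans h2
  exact absurd h6 (by decide)

end SLJ

section SFIN

open Set Filter Topology Metric
open scoped RealInnerProductSpace Quaternion

lemma fin_neg {v : Fin 3 → ℝ} (hv : v ∈ SP) : -v ∈ SP := by simpa [SP] using hv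

lemma fin_e0 : e0 ∈ SP := by simp [SP, e0, Fin.sum_univ_three]

lemma fin_sub : SP ⊆ DB := fun _ hv => le_of_eq hv

lemma fin_compact : IsCompact DB := by
  refine (isCompact_closedBall (0 : Fin 3 → ℝ) 1).of_isClosed_subset
    (isClosed_le (by fun_prop) continuous_const) fun v hv => ?_
  rw [mem_closedBall_zero_iff, pi_norm_le_iff_of_nonneg zero_le_one]
  exact fun i => (Finset.single_le_sum (f := fun i => |v i|) (fun i _ => abs_nonneg _)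
    (Finset.mem_univ i)).trans hv

lemma fin_convex : Convex ℝ DB := by
  intro x hx y hy s t hs ht h
  have hx' : ∑ i, |x i| ≤ 1 := hx
  have hy' : ∑ i, |y i| ≤ 1 := hy
  have h1 : ∑ i, |(s • x + t • y) i| ≤ ∑ i, (s * |x i| + t * |y i|) :=
    Finset.sum_le_sum fun i _ => by
      simp only [Pi.add_apply, Pi.smul_apply, smul_eq_mul]
      refine (abs_add_le _ _).trans ?_
      rw [abs_mul, abs_mul, abs_of_nonneg hs, abs_of_nonneg ht]
  rw [Finset.sum_add_distrib, ← Finset.mul_sum, ← Finset.mul_sum] at h1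
  show ∑ i, |(s • x + t • y) i| ≤ 1
  nlinarith [mul_le_mul_of_nonneg_left hx' hs, mul_le_mul_of_nonneg_left hy' ht]

lemma fin_path : ∃ S : Set (Fin 3 → ℝ), IsPreconnected S ∧ S ⊆ SP ∧ e0 ∈ S ∧ -e0 ∈ S := by
  refine ⟨segment ℝ e0 (Pi.single 1 1) ∪ segment ℝ (Pi.single 1 1) (-e0),
    (convex_segment _ _).isPreconnected.union _ (right_mem_segment _ _ _) (left_mem_segment _ _ _)
      (convex_segment _ _).isPreconnected, ?_, Or.inl (left_mem_segment _ _ _),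
    Or.inr (right_mem_segment _ _ _)⟩
  rintro _ (⟨s, t, hs, ht, h, rfl⟩ | ⟨s, t, hs, ht, h, rfl⟩)
  · simp [SP, e0, Fin.sum_univ_three, abs_of_nonneg hs, abs_of_nonneg ht, h]
  · simp [SP, e0, Fin.sum_univ_three, abs_of_nonneg hs, abs_of_nonneg ht, add_comm t, h]

theorem p_FIN (hG7 : S_G7) (hEXP : S_EXP) (hEXP1 : S_EXP1) (hFAM : S_FAM) (hGUQ : S_GUQ) (hKC : S_KC) (hCMAP : S_CMAP) (hODD : S_ODD) (hDEGJ : S_DEGJ) (hLJ : S_LJ) :
    S_FIN := by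
  intro p _ F _ N f H HF
  obtain ⟨Ψ, hΨ, hDB, hSP⟩ := hG7 H HF
  have hne : ∀ b ∈ DB, U f (Ψ b) ≠ univ := fun b hb e => (hDB b hb).1 (by
    have := U_disj (f := f) (Ψ b)
    rw [e, univ_disjoint] at this
    rw [this]
    exact lf_empty)
  have m0 := fin_e0
  have m1 := fin_neg fin_e0
  obtain ⟨β, b1, b2⟩ := hEXP H (Ψ e0) (hSP _ m0).1 (hDB _ (fin_sub m0)).1
  obtain ⟨r, c₀, s₀, hr, z₀, o₀⟩ := hEXP1 H (Ψ e0) β (hSP _ m0).1 (hne _ (fin_sub m0)) b1 b2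
  have g₀ : Good f p r (Ψ e0) c₀ s₀ :=
    ⟨z₀, hne _ (fin_sub m0), fun _ => ⟨1, H.three, o₀⟩⟩
  obtain ⟨c, s, hF⟩ := hFAM H r Ψ DB hr hΨ fin_compact fin_convex hDB
  have o₁ : Ord (gn p) (U f (Ψ e0)) (fib c e0) 1 :=
    o₀.congr (hGUQ H r _ _ _ _ _ g₀ (hF.2 _ (fin_sub m0)))
  obtain ⟨S, s1, s2, s3, s4⟩ := fin_path
  have o₂ : Ord (gn p) (U f (Ψ (-e0))) (fib c (-e0)) 1 :=
    hKC H r Ψ S (fib c) (fun b x => s (b, x)) hΨ s1
      (fun b hb => ⟨hF.2 b (fin_sub (s2 hb)), (hSP b (s2 hb)).1⟩) _ s3 _ s4 1 o₁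
  obtain ⟨a, a1, a2, a3⟩ := hCMAP H r Ψ DB c s hΨ hF.1
  have np : ∀ b ∈ SP, Ord (gn p) (U f (Ψ b)) (fib c b) 1 →
      ¬∃ h, IsP (U f (Ψ b)) (al fun x => a (b, x)) h := by
    rintro b hb o ⟨h', hh⟩
    obtain ⟨c', k, h, c1, c2, c3⟩ := a3 b (fin_sub hb)
    have g := hF.2 b (fin_sub hb)
    refine hODD H (Ψ b) (fib c b) c' k (hSP b hb).1 g.2.1 g.1.1 g.1.2.1 o c1 c2 ⟨h - h', ?_⟩
    have := c3.sub hh
    rwa [add_sub_cancel_left] at this
  have fc : ∀ v ∈ SP, Continuous fun x => a (v, x) := fun v hv =>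
    a1.comp_continuous (by fun_prop) fun x => ⟨fin_sub hv, mem_univ _⟩
  obtain ⟨n0, u0, a', d1, d2, d3⟩ := hSP _ m0
  refine hLJ a (a1.mono (prod_mono fin_sub subset_rfl)) (fun v hv x => ?_)
    (hDEGJ H (Ψ e0) (Ψ (-e0)) a' _ _ (fc _ m0) (fc _ m1)
      (fun x hx => a2 (e0, x) ⟨fin_sub m0, hx⟩) (fun x hx => a2 (-e0, x) ⟨fin_sub m1, hx⟩)
      u0 d1 d2 (hSP _ m1).1 (hne _ (fin_sub m0)) d3 (np _ m0 o₁) (np _ m1 o₂))
  have hx : x ∈ U f (Ψ v) ∪ U f (Ψ (-v)) := (hSP v hv).2.1.symm ▸ mem_univ x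
  exact hx.imp (fun h => a2 (v, x) ⟨fin_sub hv, h⟩)
    fun h => a2 (-v, x) ⟨fin_sub (fin_neg hv), h⟩

end SFIN

end Pool.Agent.P.MP_c88051_gt.Q1
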