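import Pool.Agent.P.MP_c88051_gt.Q1.IfaceD

/-! From tightness to the system of properties. -/

set_option autoImplicit false

namespace Pool.Agent.P.MP_c88051_gt.Q1

open Set Filter Topology Metric AlgebraicTopology Pool.Agent.Lib.Helper83
open scoped RealInnerProductSpace

theorem sys_of_tight (hLENS : S_LENS) (hBR0 : S_BR0) (hBR1 : S_BR1) (hBR2 : S_BR2)
    (p : ℕ) [NeZero p] (hp : 3 ≤ p) (F : Type) [Field F] (N : ℕ)
    (f : Lens p → EV N) (hc : Continuous f) (hi : Function.Injective f)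
    (h : ∀ v : EV N, v ≠ 0 → ∀ (c : ℝ), ∀ i ≤ 1, InjH F (f ⁻¹' {y | c < ⟪v, y⟫}) i) :
    Sys (f ∘ lq p) p F := by
  have cq : Continuous (lq p) := continuous_quot_mk
  have : Nonempty (Lens p) := ⟨lq p (Classical.arbitrary _)⟩
  have eU : ∀ a : EV N × ℝ, U (f ∘ lq p) a = lq p ⁻¹' (f ⁻¹' {y | -a.2 < ⟪-a.1, y⟫}) := fun a => by
    ext x; simp [U, inner_neg_left]
  have op : ∀ a : EV N × ℝ, IsOpen (f ⁻¹' {y | -a.2 < ⟪-a.1, y⟫}) := fun a =>
    (isOpen_lt continuous_const (by fun_prop)).preimage hc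
  have hc' : ∀ (a : EV N × ℝ), ∀ i ≤ 1, HC F (f ⁻¹' {y | -a.2 < ⟪-a.1, y⟫}) i := fun a i hi' => by
    by_cases ha : a.1 = 0
    · by_cases h2 : -a.2 < 0
      · have : f ⁻¹' {y | -a.2 < ⟪-a.1, y⟫} = univ := by ext; simpa [ha] using h2
        rw [this]; exact fun z _ hz => hz
      · have : f ⁻¹' {y | -a.2 < ⟪-a.1, y⟫} = ∅ := by ext; simpa [ha] using h2
        rw [this]; intro z hz _; rw [sub_empty hz]; exact zero_mem _
    · exact hBR0 F _ i (h _ (neg_ne_zero.2 ha) _ i hi')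
  refine ⟨hp, hc.comp cq, fun x => congrArg f (((hLENS p).1 _ _).2 ⟨1, rfl⟩).symm,
    fun x y e => ((hLENS p).1 _ _).1 (hi e), fun a => ?_, fun a => ?_⟩
  · rw [eU]; exact hBR1 p F _ (op a) (hc' a 0 (by simp))
  · rw [eU]; exact hBR2 p F _ (op a) (hc' a 1 le_rfl)

theorem tame_of_lc (hBRS : S_BRS) (hBR3 : S_BR3) (p : ℕ) [NeZero p] (N : ℕ) (f : Lens p → EV N)
    (ht : ∀ v : EV N, v ≠ 0 → ∀ c : ℝ, LocallyConnectedSpace (f ⁻¹' {y | c ≤ ⟪v, y⟫})) :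
    Tame (f ∘ lq p) := by
  have eC : ∀ a : EV N × ℝ, Ucl (f ∘ lq p) a = lq p ⁻¹' (f ⁻¹' {y | -a.2 ≤ ⟪-a.1, y⟫}) :=
    fun a => by ext x; simp [Ucl, inner_neg_left]
  intro a
  by_cases ha : a.1 = 0
  · intro x hx n hn
    have e : Ucl (f ∘ lq p) a = univ := by
      ext y; simpa [Ucl, ha] using hx
    have := hBRS.2.1
    obtain ⟨m, h1, h2, h3⟩ := (path_connected_basis x).mem_iff.1 hn |>.imp fun m hm =>
      (⟨hm.1.1, hm.1.2, hm.2⟩ : m ∈ 𝓝 x ∧ IsPathConnected m ∧ m ⊆ n)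
    exact ⟨m, nhdsWithin_le_nhds h1, by rw [e, inter_univ]; exact h3,
      h2.isConnected.isPreconnected⟩
  · rw [eC]; exact hBR3 p _ (ht _ (neg_ne_zero.2 ha) _)

end Pool.Agent.P.MP_c88051_gt.Q1
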