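import Pool.Agent.P.MP_c88051_gt.Q1.IfaceA

/-! Steps LA1, BADC, LA, G5A, G5, G6. -/

set_option autoImplicit false
set_option linter.unusedSectionVars false

namespace Pool.Agent.P.MP_c88051_gt.Q1

section SLA1

open Set Filter Topology Metric
open scoped RealInnerProductSpace

lemma la1_in {N : ℕ} {a b : EV N × ℝ} {u w : EV N} {δ R : ℝ} (hu : ⟪a.1, u⟫ = a.2)
    (hb : b ∈ Cone (-a) u δ R) (hw : ⟪a.1, w⟫ ≤ a.2) (hd : ‖w - u‖ < δ) :
    ⟪(-b).1, w⟫ < (-b).2 := by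
  have h1 := hb.2
  have h2 : |⟪(b - -a).1, w - u⟫| ≤ ‖b - -a‖ * δ := (abs_real_inner_le_norm _ _).trans
    (mul_le_mul (norm_fst_le _) hd.le (norm_nonneg _) (norm_nonneg _))
  have h3 := (abs_le.1 h2).1
  simp only [Prod.fst_sub, Prod.fst_neg, Prod.snd_neg, inner_sub_left, inner_sub_right,
    inner_neg_left] at h3 ⊢
  linarith

theorem p_LA1 :
    S_LA1 := by
  intro p _ F _ N f H HT a s s1 s2 x hx δ hδ
  obtain ⟨m, hm, hmn, hc⟩ := HT a x hx.1.le {y | ‖f y - f x‖ < δ}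
    ((isOpen_lt (by have := H.cont; fun_prop) continuous_const).mem_nhds (by simpa using hδ))
  obtain ⟨n, hn, hnm⟩ := mem_nhdsWithin_iff_exists_mem_nhds_inter.1 hm
  obtain ⟨y₁, h₁, y₂, h₂, hne⟩ : ∃ y₁ ∈ n ∩ U f a, ∃ y₂ ∈ n ∩ U f a, s y₂ ≠ s y₁ := by
    by_contra e
    push Not at e
    rcases (n ∩ U f a).eq_empty_or_nonempty with h | ⟨y, hy⟩
    · exact hx.2 ⟨n, hn, 0, fun y hy => by rw [h] at hy; exact hy.elim⟩
    · exact hx.2 ⟨n, hn, s y, e y hy⟩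
  have k₁ := mem_U.1 h₁.2
  have k₂ := mem_U.1 h₂.2
  obtain ⟨e, he, e₁, e₂⟩ : ∃ e > (0 : ℝ), y₁ ∈ U f (up a (-e)) ∧ y₂ ∈ U f (up a (-e)) := by
    refine ⟨min (a.2 - ⟪a.1, f y₁⟫) (a.2 - ⟪a.1, f y₂⟫) / 2,
      half_pos (lt_min (by linarith) (by linarith)), ?_, ?_⟩ <;> rw [mem_U_up]
    · linarith [min_le_left (a.2 - ⟪a.1, f y₁⟫) (a.2 - ⟪a.1, f y₂⟫)]
    · linarith [min_le_right (a.2 - ⟪a.1, f y₁⟫) (a.2 - ⟪a.1, f y₂⟫)]
  obtain ⟨R, hR, hnear⟩ := exists_near H.cont he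
  refine ⟨R, hR, fun b hb ⟨t, t1, t2⟩ => hne ?_⟩
  have q1 : U f (up a (-e)) ⊆ U f (-b) := (U_sub_Ucl _).trans (hnear a (-b) (by
    rw [← norm_neg, neg_sub', neg_neg]; exact hb.1)).1
  have q2 : U f (up a (-e)) ⊆ U f a := by simpa using U_up_mono (f := f) a (neg_nonpos.2 he.le)
  have q3 : m ⊆ U f (-b) := fun y hy => la1_in hx.1 hb (hmn hy).2 (hmn hy).1
  have q4 : t y₂ = t y₁ := (t1.mono q3).eq_of_preconn hc (hnm ⟨h₂.1, U_sub_Ucl _ h₂.2⟩)
    (hnm ⟨h₁.1, U_sub_Ucl _ h₁.2⟩)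
  have q5 : s y₂ - t y₂ = s y₁ - t y₁ :=
    H.const ((s1.mono q2).map₂ (t1.mono q1) fun u v => u - v) (fun z hz => by
      simp only [s2 z (q2 hz), t2 z (q1 hz)]
      ring) e₂ e₁
  rwa [q4, sub_left_inj] at q5

end SLA1

section SBADC

open Set Filter Topology Metric
open scoped RealInnerProductSpace

theorem p_BADC (hLA1 : S_LA1) (hLA2 : S_LA2) :
    S_BADC := by
  intro p _ F _ N f H HT a s hs hsf hne
  have hf := H.cont
  refine ⟨(isClosed_eq (by fun_prop) continuous_const).inter (isOpen_iff_mem_nhds.2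
    ?_ : IsOpen {x | ∃ n ∈ 𝓝 x, ∃ k, ∀ y ∈ n ∩ U f a, s y = k}).isClosed_compl, ?_, ?_⟩
  · rintro x ⟨n, hn, k, hk⟩
    filter_upwards [eventually_mem_nhds_iff.2 hn] with y hy using ⟨n, hy, k, hk⟩
  · rintro x ⟨h1, h2⟩
    refine ⟨by rwa [H.inv], fun ⟨n, hn, k, hk⟩ => h2 ⟨_, continuous_gn.continuousAt hn, k - 1,
      fun y hy => ?_⟩⟩
    rw [← hk (gn p y) ⟨hy.1, H.mapsU a hy.2⟩, hsf y hy.2, add_sub_cancel_right]
  · rintro _ ⟨x₁, h₁, rfl⟩ _ ⟨x₂, h₂, rfl⟩ u v hu hv huv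
    refine hLA2 H a s _ hs hsf hne ?_ fun δ hδ => ?_
    · rw [inner_add_right, real_inner_smul_right, real_inner_smul_right, h₁.1, h₂.1, ← add_mul,
        huv, one_mul]
    obtain ⟨R₁, r₁, g₁⟩ := hLA1 H HT a s hs hsf x₁ h₁ δ hδ
    obtain ⟨R₂, r₂, g₂⟩ := hLA1 H HT a s hs hsf x₂ h₂ δ hδ
    refine ⟨min R₁ R₂, lt_min r₁ r₂, fun b ⟨b1, b2⟩ hl => ?_⟩
    have c₁ := not_lt.1 fun h => g₁ b ⟨b1.trans_le (min_le_left _ _), h⟩ hl
    have c₂ := not_lt.1 fun h => g₂ b ⟨b1.trans_le (min_le_right _ _), h⟩ hl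
    rw [inner_add_right, real_inner_smul_right, real_inner_smul_right] at b2
    have e : v = 1 - u := by linarith
    subst e
    nlinarith [mul_le_mul_of_nonneg_left c₁ hu, mul_le_mul_of_nonneg_left c₂ hv]

end SBADC

section SLA

open Set Filter Topology Metric
open scoped RealInnerProductSpace

lemma la_side (hNBHD : S_NBHD) {p : ℕ} [NeZero p] {V : Set S3} (hV : MapsTo (gn p) V V)
    {s : S3 → ZMod p} (s2 : Sft (gn p) V s 1) : ∃ O, IsOpen O ∧ MapsTo (gn p) O O ∧ Lf p O ∧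
      ∀ x ∈ closure V, (∃ k, ∀ᶠ y in 𝓝[V] x, s y = k) → x ∈ O := by
  have sf : ∀ x k, (∀ᶠ y in 𝓝[V] x, s y = k) → ∀ᶠ y in 𝓝[V] (gn p x), s y = k + 1 :=
    fun x k h => by
    have t := (continuous_sh (-1 : ZMod p)).continuousWithinAt.tendsto_nhdsWithin (x := gn p x)
      (mapsTo_sh hV (-1))
    rw [gn, sh_neg_sh] at t
    filter_upwards [t.eventually h, self_mem_nhdsWithin] with y h1 h2
    rw [s2.sh_one hV _ h2] at h1
    rw [← h1, neg_add_cancel_right]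
  choose! l hl using fun x (h : ∃ k, ∀ᶠ y in 𝓝[V] x, s y = k) => h
  have un : ∀ x ∈ closure V, ∀ k, (∀ᶠ y in 𝓝[V] x, s y = k) → l x = k := fun x hx k h => by
    have := mem_closure_iff_nhdsWithin_neBot.1 hx
    obtain ⟨y, h1, h2⟩ := ((hl x ⟨k, h⟩).and h).exists
    exact h1.symm.trans h2
  obtain ⟨O, o1, o2, o3, o4⟩ := hNBHD (p := p)
    {x | x ∈ closure V ∧ ∃ k, ∀ᶠ y in 𝓝[V] x, s y = k}
    (fun x ⟨h1, k, h2⟩ => ⟨hV.closure continuous_gn h1, _, sf x k h2⟩)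
    ⟨l, fun x hx => by
      filter_upwards [nhdsWithin_le_nhds (eventually_nhds_nhdsWithin.2 (hl x hx.2)),
        self_mem_nhdsWithin] with y h1 h2
      exact un y h2.1 _ h1,
    fun x hx => un _ (hV.closure continuous_gn hx.1) _ (sf x _ (hl x hx.2))⟩
  exact ⟨O, o1, o2, o4, fun x h1 h2 => o3 ⟨h1, h2⟩⟩

lemma la_mem {p : ℕ} [NeZero p] {N : ℕ} {f : S3 → EV N} {a : EV N × ℝ} {s : S3 → ZMod p}
    {x : S3} (h : ⟪a.1, f x⟫ = a.2) (hb : x ∉ Bad f a s) : ∃ k, ∀ᶠ y in 𝓝[U f a] x, s y = k := by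
  obtain ⟨n, hn, k, hk⟩ : ∃ n ∈ 𝓝 x, ∃ k, ∀ y ∈ n ∩ U f a, s y = k :=
    by_contra fun e => hb ⟨h, e⟩
  exact ⟨k, mem_of_superset (inter_mem (nhdsWithin_le_nhds hn) self_mem_nhdsWithin) hk⟩

theorem p_LA (hBADC : S_BADC) (hLA3 : S_LA3) (hNBHD : S_NBHD) (hP3L : S_P3L) :
    S_LA := by
  intro p _ F _ N f H HT a n1 n2 ⟨s, s1, s2⟩ ⟨t, t1, t2⟩
  by_contra hn
  obtain ⟨O, o1, o2, o3, o4⟩ := la_side hNBHD (H.mapsU a) s2
  obtain ⟨O', u1, u2, u3, u4⟩ := la_side hNBHD (H.mapsU (-a)) t2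
  obtain ⟨b1, b2, b3⟩ := hBADC H HT a s s1 s2 n2
  obtain ⟨c1, c2, c3⟩ := hBADC H HT (-a) t t1 t2 (by rwa [neg_neg])
  obtain ⟨W, w1, -, w3, w4⟩ := hNBHD _ (b2.union_union c2) (hLA3 H _ _ b1 c1 b2 c2 b3 c3)
  refine hP3L (by have := H.three; omega) O O' W o1 u1 w1 o2 u2 o3 u3 w4
    (eq_univ_of_forall fun x => ?_)
  rcases lt_trichotomy ⟪a.1, f x⟫ a.2 with h | h | h
  · exact .inl (.inl (o4 x (subset_closure h) ⟨_, s1 x h⟩))
  · by_cases hb : x ∈ Bad f a s ∪ Bad f (-a) t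
    · exact .inr (w3 hb)
    rw [mem_union, not_or] at hb
    have hx : x ∈ closure (U f a ∪ U f (-a)) := by
      have e : U f a ∪ U f (-a) = {x | ⟪a.1, f x⟫ = a.2}ᶜ := by
        ext y
        rw [mem_union, mem_U, mem_U_neg]
        exact lt_or_lt_iff_ne
      rw [e, closure_compl]
      exact fun h => hn ⟨x, h⟩
    rw [closure_union] at hx
    exact .inl (hx.imp (fun k => o4 x k (la_mem h hb.1)) fun k =>
      u4 x k (la_mem (by simp [inner_neg_left, h]) hb.2))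
  · exact .inl (.inr (u4 x (subset_closure (mem_U_neg.2 h)) ⟨_, t1 x (mem_U_neg.2 h)⟩))

end SLA

section SG5A

open Set Filter Topology Metric
open scoped RealInnerProductSpace

lemma g5a_key (hLA : S_LA) {p : ℕ} [NeZero p] {F : Type} [Field F] {N : ℕ} {f : S3 → EV N}
    (H : Sys f p F) (HT : Tame f) {v v' : EV N} (hv : Z0 f p v) (hv' : Z0 f p v') {x x' : S3}
    (h1 : x ∈ Face f v') (h2 : x ∉ Face f v) (h3 : x' ∉ Face f v') :
    (interior (Face f v ∩ Face f v')).Nonempty := by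
  by_contra hn
  have e1 : ⟪v', f x⟫ = mn f v' := h1
  have e2 : mn f v < ⟪v, f x⟫ := (mn_le v x H.cont).lt_of_ne' h2
  have e3 : mn f v' < ⟪v', f x'⟫ := (mn_le v' x' H.cont).lt_of_ne' h3
  have e4 := mn_le v x' H.cont
  set t₀ : ℝ := (⟪v', f x'⟫ - mn f v') / (⟪v, f x'⟫ - mn f v + 1) with ht₀
  have hpos : 0 < t₀ := div_pos (by linarith) (by linarith)
  have hm : t₀ * (⟪v, f x'⟫ - mn f v + 1) = ⟪v', f x'⟫ - mn f v' :=
    div_mul_cancel₀ _ (by linarith)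
  let W : ℝ → Set S3 := fun t =>
    interior {y | t * ⟪v, f y⟫ - ⟪v', f y⟫ = t * mn f v - mn f v'}
  have hi : ∀ (t : ℝ) (y : S3), ⟪t • v - v', f y⟫ = t * ⟪v, f y⟫ - ⟪v', f y⟫ := fun t y => by
    rw [inner_sub_left, real_inner_smul_left]
  have hW : ∀ t ∈ Ioo (0 : ℝ) t₀, (W t).Nonempty := fun t ht => by
    have := hLA H HT (t • v - v', t * mn f v - mn f v') ⟨x', ?_⟩ ⟨x, ?_⟩
      (Lf.mono hv' fun y hy => ?_) (Lf.mono hv fun y hy => ?_)
    · simpa only [hi] using this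
    · rw [mem_U, hi]
      show _ < t * mn f v - mn f v'
      nlinarith [ht.1, ht.2]
    · rw [mem_U_neg, hi]
      show t * mn f v - mn f v' < _
      nlinarith [ht.1]
    · rw [mem_U, hi] at hy
      have hy' : t * ⟪v, f y⟫ - ⟪v', f y⟫ < t * mn f v - mn f v' := hy
      rw [mem_U, inner_neg_left]
      show _ < -mn f v'
      nlinarith [ht.1, mn_le v y H.cont]
    · rw [mem_U_neg, hi] at hy
      have hy' : t * mn f v - mn f v' < t * ⟪v, f y⟫ - ⟪v', f y⟫ := hy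
      rw [mem_U, inner_neg_left]
      show _ < -mn f v
      by_contra hc
      nlinarith [ht.1, mn_le v' y H.cont]
  have hd : (Ioo (0 : ℝ) t₀).PairwiseDisjoint W := fun t _ s _ hts => by
    refine disjoint_left.2 fun y hy hy' => hn ⟨y, ?_⟩
    have := mem_inter hy hy'
    simp only [W] at this
    rw [← interior_inter] at this
    refine interior_mono (fun w hw => ?_) this
    have a1 : t * ⟪v, f w⟫ - ⟪v', f w⟫ = t * mn f v - mn f v' := hw.1
    have a2 : s * ⟪v, f w⟫ - ⟪v', f w⟫ = s * mn f v - mn f v' := hw.2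
    have a3 : ⟪v, f w⟫ = mn f v := mul_left_cancel₀ (sub_ne_zero.2 hts) (by linarith)
    refine ⟨a3, ?_⟩
    show ⟪v', f w⟫ = mn f v'
    rw [a3] at a1
    linarith
  have := (hd.countable_of_isOpen (fun _ _ => isOpen_interior) hW).measure_zero
    (MeasureTheory.volume : MeasureTheory.Measure ℝ)
  rw [Real.volume_Ioo, ENNReal.ofReal_eq_zero] at this
  linarith

theorem p_G5A (hLA : S_LA) :
    S_G5A := by
  intro p _ F _ N f H HT v v' hv hv' h1 h2 h3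
  obtain ⟨x, hx⟩ := (ne_univ_iff_exists_notMem _).1 h1
  obtain ⟨x', hx'⟩ := (ne_univ_iff_exists_notMem _).1 h2
  by_cases h : Face f v' ⊆ Face f v
  · obtain ⟨y, k1, k2⟩ := not_subset.1 fun h' => h3 (Subset.antisymm h' h)
    rw [inter_comm]
    exact g5a_key hLA H HT hv' hv k1 k2 hx
  · obtain ⟨y, k1, k2⟩ := not_subset.1 h
    exact g5a_key hLA H HT hv hv' k1 k2 hx'

end SG5A

section SG5

open Set Filter Topology Metric
open scoped RealInnerProductSpace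

lemma g5_balls : ∃ (z : ℕ → S3) (ρ : ℕ → ℝ), (∀ i, 0 < ρ i) ∧
    ∀ O : Set S3, (interior O).Nonempty → ∃ i, ball (z i) (ρ i) ⊆ O := by
  refine ⟨fun i => TopologicalSpace.denseSeq S3 i.unpair.1, fun i => 1 / ((i.unpair.2 : ℝ) + 1),
    fun i => Nat.one_div_pos_of_nat, fun O hO => ?_⟩
  obtain ⟨m, hm⟩ := (TopologicalSpace.denseRange_denseSeq S3).exists_mem_open isOpen_interior hO
  obtain ⟨ε, hε, h⟩ := Metric.mem_nhds_iff.1 (mem_interior_iff_mem_nhds.1 hm)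
  obtain ⟨n, hn⟩ := exists_nat_one_div_lt hε
  refine ⟨m.pair n, ?_⟩
  simp only [Nat.unpair_pair]
  exact (ball_subset_ball hn.le).trans h

theorem p_G5 (hLA : S_LA) (hG5A : S_G5A) (hG5B : S_G5B) (hG12 : S_G12) :
    S_G5 := by
  intro p _ F _ N f H HT
  obtain ⟨z, ρ, hρ, hb⟩ := g5_balls
  obtain ⟨K0, h0, h1⟩ : ∃ K0 : Set S3, 3 ≤ Module.finrank ℝ (Dir f K0) ∧
      ∀ v, Z0 f p v → ¬(interior (Face f v)).Nonempty → K0 ⊆ Face f v := by
    by_cases h : ∃ v, Z0 f p v ∧ ¬(interior (Face f v)).Nonempty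
    · obtain ⟨w, hw, hw'⟩ := h
      refine ⟨Face f w, hG5B H w hw, fun v hv hv' => Eq.subset (by_contra fun e => ?_)⟩
      have k : ∀ u, ¬(interior (Face f u)).Nonempty → Face f u ≠ univ := fun u hu e =>
        hu (by rw [e, interior_univ]; exact univ_nonempty)
      exact hw' ((hG5A H HT w v hw hv (k w hw') (k v hv') e).mono (interior_mono inter_subset_left))
    · exact ⟨univ, le_trans (by norm_num) (hG12 H).2, fun v hv hv' => (h ⟨v, hv, hv'⟩).elim⟩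
  let K : ℕ → Set S3 := fun i => Nat.casesOn i K0 fun i => ball (z i) (ρ i)
  have k1 : ∀ O : Set S3, (interior O).Nonempty → ∃ i, K i ⊆ O := fun O hO =>
    let ⟨i, hi⟩ := hb O hO; ⟨i + 1, hi⟩
  have k2 : ∀ v, Z0 f p v → ∃ i, K i ⊆ Face f v := fun v hv => by
    by_cases h : (interior (Face f v)).Nonempty
    exacts [k1 _ h, ⟨0, h1 v hv h⟩]
  have k3 : ∀ i v (t : ℝ), K i ⊆ {x | ⟪v, f x⟫ = t} → v ∈ (Dir f (K i))ᗮ := fun i v t h =>
    mem_Dir_orth.2 fun x hx y hy => (h hx).trans (h hy).symm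
  have k4 : ∀ v (t : ℝ), ¬(U f (v, t)).Nonempty → Lf p (U f (-v, -t)) →
      ∃ i, v ∈ (Dir f (K i))ᗮ := fun v t h h' => by
    rw [U_nonempty_iff H.cont, not_lt] at h
    exact (k2 v (h'.mono (U_mono _ (neg_le_neg h)))).imp fun i hi => k3 i v _ hi
  refine ⟨fun i => Dir f (K i), fun i => ?_, fun a ha ha' => ?_, fun v v' hv hv' => ?_⟩
  · cases i with
    | zero => exact h0
    | succ i => exact (hG12 H).1 _ _ (hρ i)
  · by_cases h : (U f a).Nonempty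
    · by_cases h' : (U f (-a)).Nonempty
      · exact (k1 _ (hLA H HT a h h' ha ha')).imp fun i hi => k3 i _ _ hi
      · exact (k4 (-a.1) (-a.2) h' (by rwa [neg_neg, neg_neg])).imp fun i hi => neg_mem_iff.1 hi
    · exact k4 a.1 a.2 h ha'
  · suffices ∃ i, K i ⊆ Face f v ∧ K i ⊆ Face f v' from
      this.imp fun i hi => ⟨k3 i _ _ hi.1, k3 i _ _ hi.2⟩
    by_cases e : Face f v = univ
    · exact (k2 v' hv').imp fun i hi => ⟨e ▸ subset_univ _, hi⟩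
    by_cases e' : Face f v' = univ
    · exact (k2 v hv).imp fun i hi => ⟨hi, e' ▸ subset_univ _⟩
    by_cases e'' : Face f v = Face f v'
    · exact (k2 v hv).imp fun i hi => ⟨hi, e'' ▸ hi⟩
    · exact (k1 _ (hG5A H HT v v' hv hv' e e' e'')).imp fun i hi => subset_inter_iff.1 hi

end SG5

section SG6

open Set Filter Topology Metric
open scoped RealInnerProductSpace

theorem p_G6 (hG5 : S_G5) (hG4 : S_G4) (hG12 : S_G12) (hP3L : S_P3L) (hLIFTC : S_LIFTC) :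
    S_G6 := by
  intro p _ F _ N f H HT
  obtain ⟨D, d1, d2, d3⟩ := hG5 H HT
  obtain ⟨L, e, l1, l2⟩ := hG4 D (Dir f univ) d1 (hG12 H).2
  have hL := (hLIFTC H).2.1
  have h1 : ∀ b, b ≠ 0 → cL f p (L b) < -cL f p (-L b) := fun b hb => by
    by_contra hn
    obtain ⟨i, hi⟩ := d2 (L b, cL f p (L b)) ((hL _ _).2 le_rfl)
      (by rw [Prod.neg_mk, hL]; linarith [not_lt.1 hn])
    exact hb (l1 i b hi)
  have hZ : ∀ v, ¬Z0 f p v → mn f v < -cL f p (-v) := fun v hv => by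
    rw [Z0, hL] at hv
    linarith [not_le.1 hv]
  have key : ∀ (b b' : Fin 3 → ℝ) (s s' : ℝ), 0 ≤ s → 0 ≤ s' → (b ≠ 0 ∨ s ≠ 0) → (b' ≠ 0 ∨ s' ≠ 0) →
      Z0 f p (L b + s • e) → ¬Z0 f p (L b' + s' • -e) := fun b b' s s' s0 s0' n n' z z' => by
    obtain ⟨i, m, m'⟩ := d3 _ _ z z'
    have hs : 0 < s := s0.lt_of_ne fun h => by
      subst h
      exact n.elim (fun h => h (l1 i b (by simpa using m))) fun h => h rfl
    have hs' : 0 < s' := s0'.lt_of_ne fun h => by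
      subst h
      exact n'.elim (fun h => h (l1 i b' (by simpa using m'))) fun h => h rfl
    have e1 : s • (L b' + s' • -e) + s' • (L b + s • e) = L (s • b' + s' • b) := by
      rw [map_add, map_smul, map_smul]
      module
    have e2 : s • (L b' + s' • -e) + s' • (L b + s • e) = 0 := by
      rw [e1, l1 i (s • b' + s' • b) (e1 ▸ add_mem (Submodule.smul_mem _ s m')
        (Submodule.smul_mem _ s' m)), map_zero]
    have h3 := hP3L (le_trans (by norm_num) H.three) _ _ ∅ (H.openU _) (H.openU _) isOpen_empty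
      (H.mapsU _) (H.mapsU _) z z' lf_empty
    rw [union_empty, ne_univ_iff_exists_notMem] at h3
    obtain ⟨x, hx⟩ := h3
    generalize L b' + s' • -e = w' at hx e2
    have hw := l2 b s
    generalize L b + s • e = w at hx e2 hw
    simp only [mem_union, mem_U, inner_neg_left, not_or, not_lt, neg_le_neg_iff] at hx
    have e3 : ∀ y, s * ⟪w', f y⟫ + s' * ⟪w, f y⟫ = 0 := fun y => by
      rw [← real_inner_smul_left, ← real_inner_smul_left, ← inner_add_left, e2, inner_zero_left]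
    have e4 : ∀ y, ⟪w, f y⟫ = ⟪w, f x⟫ := fun y => by
      refine le_antisymm (le_of_mul_le_mul_left ?_ hs') (hx.1.trans (mn_le w y H.cont))
      linarith [mul_le_mul_of_nonneg_left (hx.2.trans (mn_le w' y H.cont)) s0, e3 x, e3 y]
    exact hs.ne' (hw (mem_Dir_orth.2 fun y _ y' _ => by rw [e4 y, e4 y'])).2
  by_cases hA : ∀ b (s : ℝ), 0 ≤ s → (b ≠ 0 ∨ s ≠ 0) → ¬Z0 f p (L b + s • e)
  · exact ⟨L, e, h1, fun b s s0 n => hZ _ (hA b s s0 n)⟩
  · push Not at hA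
    obtain ⟨b, s, s0, n, z⟩ := hA
    exact ⟨L, -e, h1, fun b' s' s0' n' => hZ _ (key b b' s s' s0 s0' n n' z)⟩

end SG6

end Pool.Agent.P.MP_c88051_gt.Q1
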