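import Pool.Agent.P.MP_c88051_gt.Q1.MainA
import Pool.Agent.P.MP_c88051_gt.Q1.PTame

/-! The steps put together. -/

set_option autoImplicit false

namespace Pool.Agent.P.MP_c88051_gt.Q1

theorem t_LA1 : S_LA1 := p_LA1

theorem t_BADC : S_BADC := p_BADC t_LA1 t_LA2

theorem t_LA : S_LA := p_LA t_BADC t_LA3 t_NBHD t_P3L

theorem t_G5A : S_G5A := p_G5A t_LA

theorem t_G5 : S_G5 := p_G5 t_LA t_G5A t_G5B t_G12

theorem t_G6 : S_G6 := p_G6 t_G5 t_G4 t_G12 t_P3L t_LIFTC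

end Pool.Agent.P.MP_c88051_gt.Q1
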