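import Pool.Agent.P.MP_c88051_gt.Q1.IfaceB

/-! Steps BOX, KUHN, DL3A, DL3. -/

set_option autoImplicit false
set_option linter.unusedSectionVars false

namespace Pool.Agent.P.MP_c88051_gt.Q1

section SBOX

open Set Filter Topology Metric
open scoped RealInnerProductSpace Quaternion

theorem box_mem (L B i : ℕ) (hL : 0 < L) (hi : i ≤ 2 * B * L) : |gx L B i| ≤ (B : ℝ) := by
  have hL' : (0 : ℝ) < L := by exact_mod_cast hL
  have h1 : (i : ℝ) / L ≤ 2 * B := by
    rw [div_le_iff₀ hL']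
    exact_mod_cast hi
  have h0 : 0 ≤ (i : ℝ) / L := by positivity
  unfold gx
  rw [abs_le]
  constructor <;> linarith

theorem box_bd (L B : ℕ) (hL : 0 < L) :
    bd (iv (2 * B * L) (gx L B)) ∈ In {t : ℝ | (B : ℝ) ≤ ‖t‖} := by
  have hL' : (L : ℝ) ≠ 0 := by exact_mod_cast hL.ne'
  rw [bd_iv]
  refine Submodule.add_mem _ (sx_mem fun a ha => ?_) (sx_mem fun a ha => ?_)
  · rw [List.mem_singleton.1 ha]
    have : gx L B (2 * B * L) = B := by
      unfold gx
      push_cast
      field_simp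
      ring
    simp [this]
  · rw [List.mem_singleton.1 ha]
    simp [gx]

theorem p_BOX (hLEIB : S_LEIB) (hSHN : S_SHN) :
    S_BOX := by
  intro L B hL
  have hL' : (0 : ℝ) < L := by exact_mod_cast hL
  refine ⟨fun ε hε => ?_, ?_, ?_⟩
  · have h0 : 0 < ε := lt_trans (by positivity) hε
    have hI : iv (2 * B * L) (gx L B) ∈ Fn {t : ℝ | |t| ≤ B} ε :=
      iv_Fn h0 (fun i hi => box_mem L B i hL hi) fun i _ => by
        have : gx L B i - gx L B (i + 1) = -(1 / L) := by
          unfold gx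
          push_cast
          ring
        rw [Real.dist_eq, this, abs_neg, abs_of_pos (by positivity)]
        exact hε
    refine cmap_Fn (fun q hq => ?_) (fun a _ b _ h => ?_)
      (hSHN.2.2.2.2.2.2.2 _ _ ε _ hI _ (hSHN.2.2.2.2.2.2.2 _ _ ε _ hI _ hI))
    · rw [mem_closedBall_zero_iff, pi_norm_le_iff_of_nonneg (by positivity)]
      intro i
      fin_cases i
      exacts [hq.1, hq.2.1, hq.2.2]
    · rw [Prod.dist_eq, Prod.dist_eq, max_lt_iff, max_lt_iff] at h
      rw [dist_pi_lt_iff h0]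
      intro i
      fin_cases i
      exacts [h.1, h.2.1, h.2.2]
  · have hb := box_bd L B hL
    have hu := mem_In_univ (iv (2 * B * L) (gx L B))
    rw [box, bd_cmap, hLEIB, hLEIB, map_add, map_add, map_add]
    refine Submodule.add_mem _ ?_ (Submodule.add_mem _ ?_ ?_)
    · refine cmap_In (fun q hq => ?_) (hSHN.2.2.2.2.2.2.1 _ _ _ hb _ (mem_In_univ _))
      exact le_trans hq.1 (norm_le_pi_norm ![q.1, q.2.1, q.2.2] 0)
    · refine cmap_In (fun q hq => ?_)
        (hSHN.2.2.2.2.2.2.1 _ _ _ hu _ (hSHN.2.2.2.2.2.2.1 _ _ _ hb _ hu))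
      exact le_trans hq.2.1 (norm_le_pi_norm ![q.1, q.2.1, q.2.2] 1)
    · refine cmap_In (fun q hq => ?_)
        (hSHN.2.2.2.2.2.2.1 _ _ _ hu _ (hSHN.2.2.2.2.2.2.1 _ _ _ hu _ hb))
      exact le_trans hq.2.2 (norm_le_pi_norm ![q.1, q.2.1, q.2.2] 2)
  · have hI : iv (2 * B * L) (gx L B) ∈ Lg ℝ (1 + 1) :=
      Submodule.sum_mem _ fun i _ => sx_mem (by simp)
    have h4 := hSHN.2.2.2.2.2.1 1 2 _ hI _ (hSHN.2.2.2.2.2.1 1 1 _ hI _ hI)
    have h5 : box L B ∈ Lg (Fin 3 → ℝ) 4 :=
      supp_mem (cmap _) (fun l hl => by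
        rw [cmap_sx]
        exact sx_mem (by simpa using hl)) h4
    exact supp_mem bd (fun l hl => by
      rw [bd_sx]
      refine supp_mono (bd0_mem l) fun m hm => ?_
      have h1 : 4 ≤ l.length := hl
      have h2 := hm.2
      change 2 ≤ m.length
      omega) h5

end SBOX

section SKUHN

open Set Filter Topology Metric
open scoped RealInnerProductSpace Quaternion

lemma kuhn_sq {Y Z : Type} (a a' : Y) (b b' : Z) :
    sh0 [a, a'] [b, b'] = sx [(a, b), (a', b), (a', b')] + sx [(a, b), (a, b'), (a', b')] := by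
  simp [sh0_left, sh0_right]

lemma kuhn_pr {Y Z : Type} (a a' : Y) (q q' q'' : Z) :
    sh0 [a, a'] [q, q', q''] = sx [(a, q), (a', q), (a', q'), (a', q'')] +
      (sx [(a, q), (a, q'), (a', q'), (a', q'')] + sx [(a, q), (a, q'), (a, q''), (a', q'')]) := by
  simp [sh0_left, sh0_right]

theorem p_KUHN :
    S_KUHN := by
  intro L B Φ
  have h : ∀ (n : ℕ) (φ : ℕ → ℝ), shp (iv n φ) (shp (iv n φ) (iv n φ)) =
      ∑ i ∈ Finset.range n, ∑ j ∈ Finset.range n, ∑ k ∈ Finset.range n,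
        shp (sx [φ i, φ (i + 1)]) (shp (sx [φ j, φ (j + 1)]) (sx [φ k, φ (k + 1)])) := by
    intro n φ
    rw [iv, LinearMap.map_sum₂, LinearMap.map_sum₂]
    simp only [map_sum]
  simp only [box, h, map_sum]
  refine Finset.sum_congr rfl fun i _ => Finset.sum_congr rfl fun j _ =>
    Finset.sum_congr rfl fun k _ => ?_
  simp only [shp_sx, kuhn_sq, map_add, kuhn_pr, cmap_sx, ev_sx, List.map_cons, List.map_nil, gp]
  abel

end SKUHN

section SDL3A

open Set Filter Topology Metric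
open scoped RealInnerProductSpace Quaternion

theorem dl3a_hv (D M B n t : ℕ) (hD : 0 < D) (hM : 0 < M) :
    hv D ((n : ℤ) - B * D) (gx (D * M) B t) = if n * M < t then 1 else 0 := by
  unfold hv gx
  have hD' : (0 : ℝ) < D := by exact_mod_cast hD
  have hM' : (0 : ℝ) < M := by exact_mod_cast hM
  have e : ((((n : ℤ) - B * D : ℤ) : ℝ) / D < -(B : ℝ) + (t : ℝ) / ((D * M : ℕ) : ℝ)) ↔
      n * M < t := by
    have h : (((n : ℤ) - B * D : ℤ) : ℝ) / D =
        -(B : ℝ) + ((n * M : ℕ) : ℝ) / ((D * M : ℕ) : ℝ) := by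
      push_cast
      field_simp
      ring
    rw [h, add_lt_add_iff_left, div_lt_div_iff_of_pos_right (by push_cast; positivity),
      Nat.cast_lt]
  simp only [e]

theorem dl3a_hv1 (D M B n t : ℕ) (hD : 0 < D) (hM : 0 < M) :
    hv D ((n : ℤ) - B * D + 1) (gx (D * M) B t) = if n * M + M < t then 1 else 0 := by
  have h := dl3a_hv D M B (n + 1) t hD hM
  have e : (((n + 1 : ℕ) : ℤ) - B * D) = (n : ℤ) - B * D + 1 := by
    push_cast
    ring
  rw [e, add_one_mul] at h
  exact h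

theorem dl3a_win (N lo M : ℕ) (h : lo + M ≤ N) (g : ℕ → ZMod 2) :
    ∑ x ∈ Finset.range N, (if lo ≤ x ∧ x < lo + M then g x else 0) =
      ∑ t ∈ Finset.range M, g (lo + t) := by
  rw [← Finset.sum_filter]
  have e : (Finset.range N).filter (fun x => lo ≤ x ∧ x < lo + M) = Finset.Ico lo (lo + M) := by
    ext x
    simp only [Finset.mem_filter, Finset.mem_range, Finset.mem_Ico]
    omega
  rw [e, Finset.sum_Ico_eq_sum_range, Nat.add_sub_cancel_left]

theorem dl3a_low (N K : ℕ) (h : K ≤ N) (g : ℕ → ZMod 2) :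
    ∑ x ∈ Finset.range N, (if x < K then g x else 0) = ∑ t ∈ Finset.range K, g t := by
  rw [← Finset.sum_filter]
  congr 1
  ext x
  simp only [Finset.mem_filter, Finset.mem_range]
  omega

theorem dl3a_tel (f : ℕ → ZMod 2) (K : ℕ) :
    ∑ z ∈ Finset.range K, (f z + f (z + 1)) = f K + f 0 := by
  induction K with
  | zero => simp [CharTwo.add_self_eq_zero]
  | succ K ih =>
    rw [Finset.sum_range_succ, ih]
    linear_combination CharTwo.add_self_eq_zero (f K)

theorem dl3a_rect (u w : ℕ → ℕ → ZMod 2) (lo M K : ℕ) :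
    ∑ t ∈ Finset.range M, ∑ z ∈ Finset.range K,
      (u (lo + t) z + w (lo + t + 1) z + w (lo + t) z + u (lo + t) (z + 1)) =
      ∑ t ∈ Finset.range M, (u (lo + t) K + u (lo + t) 0) + ∑ z ∈ Finset.range K, w lo z +
        ∑ z ∈ Finset.range K, w (lo + M) z := by
  have e : ∀ t z, u (lo + t) z + w (lo + t + 1) z + w (lo + t) z + u (lo + t) (z + 1) =
      (u (lo + t) z + u (lo + t) (z + 1)) + (w (lo + t) z + w (lo + (t + 1)) z) := by
    intro t z
    rw [← add_assoc lo t 1]
    ring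
  simp only [e, Finset.sum_add_distrib (f := fun z => u _ z + u _ (z + 1)), dl3a_tel]
  rw [Finset.sum_add_distrib (f := fun t => u (lo + t) K + u (lo + t) 0), Finset.sum_comm,
    add_assoc, ← Finset.sum_add_distrib (f := fun z => w lo z)]
  congr 1
  refine Finset.sum_congr rfl fun z _ => ?_
  rw [dl3a_tel (fun t => w (lo + t) z) M, add_zero, add_comm]

theorem dl3a_c0 (D M B i j k x y z x' y' z' : ℕ) (hD : 0 < D) (hM : 0 < M) :
    curt0 D (0, ![(i : ℤ) - B * D, (j : ℤ) - B * D, (k : ℤ) - B * D])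
      (gp (D * M) B x y z) (gp (D * M) B x' y' z') =
      ((if i * M < x then 1 else 0) - (if i * M + M < x then 1 else 0)) *
        ((if j * M < y' then 1 else 0) - (if j * M < y then 1 else 0)) *
        (1 - if k * M < z then 1 else 0) := by
  rw [← dl3a_hv D M B i x hD hM, ← dl3a_hv1 D M B i x hD hM, ← dl3a_hv D M B j y' hD hM,
    ← dl3a_hv D M B j y hD hM, ← dl3a_hv D M B k z hD hM]
  rfl

theorem dl3a_c1 (D M B i j k x y z x' y' z' : ℕ) (hD : 0 < D) (hM : 0 < M) :
    curt0 D (1, ![(i : ℤ) - B * D, (j : ℤ) - B * D, (k : ℤ) - B * D])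
      (gp (D * M) B x y z) (gp (D * M) B x' y' z') =
      -(((if i * M < x' then 1 else 0) - (if i * M < x then 1 else 0)) *
        ((if j * M < y' then 1 else 0) - (if j * M + M < y' then 1 else 0)) *
        (1 - if k * M < z then 1 else 0)) := by
  rw [← dl3a_hv D M B i x' hD hM, ← dl3a_hv D M B i x hD hM, ← dl3a_hv D M B j y' hD hM,
    ← dl3a_hv1 D M B j y' hD hM, ← dl3a_hv D M B k z hD hM]
  rfl

theorem dl3a_i1 (a M x : ℕ) :
    ((if a < x + 1 then 1 else 0) - (if a + M < x + 1 then 1 else 0) : ℤ) =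
      if a ≤ x ∧ x < a + M then 1 else 0 := by
  split_ifs <;> omega

theorem dl3a_i2 (a y : ℕ) :
    ((if a < y + 1 then 1 else 0) - (if a < y then 1 else 0) : ℤ) = if y = a then 1 else 0 := by
  split_ifs <;> omega

theorem dl3a_i3 (a z : ℕ) :
    (1 - (if a < z + 1 then 1 else 0) : ℤ) = if z < a then 1 else 0 := by
  split_ifs <;> omega

theorem p_DL3A (hKUHN : S_KUHN) :
    S_DL3A := by
  intro α D M B i j k hD hM hi hj hk
  have b : ∀ n, n < 2 * B * D → n * M + M ≤ 2 * B * (D * M) := fun n hn => by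
    rw [← add_one_mul, ← mul_assoc]
    exact Nat.mul_le_mul_right M hn
  have bi := b i hi
  have bj := b j hj
  have bk := b k hk
  constructor
  · rw [hKUHN]
    have := dl3a_rect
      (fun x z => α (gp (D * M) B x (j * M) z) (gp (D * M) B (x + 1) (j * M) z))
      (fun x z => α (gp (D * M) B x (j * M) z) (gp (D * M) B x (j * M) (z + 1))) (i * M) M (k * M)
    rw [add_one_mul]
    refine Eq.trans ?_ this
    rw [← dl3a_win (2 * B * (D * M)) (i * M) M bi (fun x => ∑ z ∈ Finset.range (k * M),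
      (α (gp (D * M) B x (j * M) z) (gp (D * M) B (x + 1) (j * M) z) +
        α (gp (D * M) B (x + 1) (j * M) z) (gp (D * M) B (x + 1) (j * M) (z + 1)) +
        α (gp (D * M) B x (j * M) z) (gp (D * M) B x (j * M) (z + 1)) +
        α (gp (D * M) B x (j * M) (z + 1)) (gp (D * M) B (x + 1) (j * M) (z + 1))))]
    refine Finset.sum_congr rfl fun x _ => ?_
    simp only [pr, cz, dl3a_c0 D M B i j k _ _ _ _ _ _ hD hM, sub_self, mul_zero, zero_mul,
      Int.cast_zero, dl3a_i1, dl3a_i2, dl3a_i3, zero_add, add_zero]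
    rw [Finset.sum_eq_single (j * M)]
    · rw [← dl3a_low (2 * B * (D * M)) (k * M) (by omega)]
      split_ifs with h h2
      · refine Finset.sum_congr rfl fun z _ => ?_
        split_ifs
        · push_cast
          linear_combination CharTwo.add_self_eq_zero
            (α (gp (D * M) B x (j * M) z) (gp (D * M) B (x + 1) (j * M) (z + 1)))
        · simp
      · exact absurd rfl h2
      · simp
      · simp
    · intro y _ hy
      simp [hy]
    · intro h
      exact absurd (Finset.mem_range.2 (by omega)) h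
  · rw [hKUHN]
    have := dl3a_rect
      (fun y z => α (gp (D * M) B (i * M) y z) (gp (D * M) B (i * M) (y + 1) z))
      (fun y z => α (gp (D * M) B (i * M) y z) (gp (D * M) B (i * M) y (z + 1))) (j * M) M (k * M)
    rw [add_one_mul]
    refine Eq.trans ?_ this
    rw [← dl3a_win (2 * B * (D * M)) (j * M) M bj (fun y => ∑ z ∈ Finset.range (k * M),
      (α (gp (D * M) B (i * M) y z) (gp (D * M) B (i * M) (y + 1) z) +
        α (gp (D * M) B (i * M) (y + 1) z) (gp (D * M) B (i * M) (y + 1) (z + 1)) +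
        α (gp (D * M) B (i * M) y z) (gp (D * M) B (i * M) y (z + 1)) +
        α (gp (D * M) B (i * M) y (z + 1)) (gp (D * M) B (i * M) (y + 1) (z + 1))))]
    simp only [pr, cz, dl3a_c1 D M B i j k _ _ _ _ _ _ hD hM, sub_self, mul_zero, zero_mul,
      neg_zero, Int.cast_zero, dl3a_i1, dl3a_i2, dl3a_i3, zero_add, add_zero]
    rw [Finset.sum_eq_single (i * M)]
    · refine Finset.sum_congr rfl fun y _ => ?_
      rw [← dl3a_low (2 * B * (D * M)) (k * M) (by omega)]
      split_ifs with h h2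
      · refine Finset.sum_congr rfl fun z _ => ?_
        split_ifs
        · push_cast
          rw [CharTwo.neg_eq]
          linear_combination CharTwo.add_self_eq_zero
            (α (gp (D * M) B (i * M) y z) (gp (D * M) B (i * M) (y + 1) (z + 1)))
        · simp
      · simp
      · exact absurd rfl h
      · exact absurd rfl h
    · intro x _ hx
      simp [hx]
    · intro h
      exact absurd (Finset.mem_range.2 (by omega)) h

end SDL3A

section SDL3

open Set Filter Topology Metric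
open scoped RealInnerProductSpace Quaternion

lemma dl3_lin (α : (Fin 3 → ℝ) → (Fin 3 → ℝ) → ZMod 2) (D : ℕ) (ℓ : Edge →₀ ℤ)
    (μ : Ch (Fin 3 → ℝ)) : ev (pr α (cz 2 (curt D ℓ))) μ =
      ∑ e ∈ ℓ.support, (ℓ e : ZMod 2) * ev (pr α (cz 2 (curt0 D e))) μ := by
  have := ch_eq (ev (pr α (cz 2 (curt D ℓ))))
    (∑ e ∈ ℓ.support, (ℓ e : ZMod 2) • ev (pr α (cz 2 (curt0 D e)))) (fun l => by
      simp only [LinearMap.sum_apply, LinearMap.smul_apply, ev_sx, smul_eq_mul]
      match l with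
      | [] | [_] | [_, _] | [_, _, _] | _ :: _ :: _ :: _ :: _ :: _ => simp [pr]
      | [a, b, c, d] =>
        simp only [pr, cz, curt, Finsupp.sum, Int.cast_sum, Int.cast_mul, Finset.mul_sum]
        exact Finset.sum_congr rfl fun e _ => by ring) μ
  simpa only [LinearMap.sum_apply, LinearMap.smul_apply, smul_eq_mul] using this

lemma dl3_tel {Y : Type} [TopologicalSpace Y] {n : Set Y} {α : Y → Y → ZMod 2} (H : CocOn n α) (a : ℕ → Y) (M : ℕ)
    (h : ∀ t ≤ M, a t ∈ n) : ∑ t ∈ Finset.range M, α (a t) (a (t + 1)) = α (a 0) (a M) := by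
  induction M with
  | zero => simp [H.self (h 0 le_rfl)]
  | succ M ih =>
    rw [Finset.sum_range_succ, ih fun t ht => h t (ht.trans (Nat.le_succ M)),
      H _ (h 0 (Nat.zero_le _)) _ (h M (Nat.le_succ M)) _ (h _ le_rfl)]

lemma dl3_gx {D M : ℕ} (hD : 0 < D) (hM : 0 < M) (B i t : ℕ) :
    gx (D * M) B (i * M + t) = (1 - (t : ℝ) / M) * (((i : ℝ) - B * D) / D) +
      (t : ℝ) / M * (((i : ℝ) - B * D + 1) / D) := by
  have h1 : (D : ℝ) ≠ 0 := by positivity
  have h2 : (M : ℝ) ≠ 0 := by positivity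
  simp only [gx]
  push_cast
  field_simp
  ring

lemma dl3_gx0 {D M : ℕ} (hD : 0 < D) (hM : 0 < M) (B i : ℕ) :
    gx (D * M) B (i * M) = ((i : ℝ) - B * D) / D := by
  simpa using dl3_gx hD hM B i 0

lemma dl3_pt {D M : ℕ} (hD : 0 < D) (hM : 0 < M) (B i j k : ℕ) :
    pt D ![(i : ℤ) - B * D, (j : ℤ) - B * D, (k : ℤ) - B * D] =
      gp (D * M) B (i * M) (j * M) (k * M) := by
  funext x
  fin_cases x <;> simp [pt, gp, dl3_gx0 hD hM]

lemma dl3_tip (B D i j k : ℕ) :
    tip (0, ![(i : ℤ) - B * D, (j : ℤ) - B * D, (k : ℤ) - B * D]) =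
      ![((i + 1 : ℕ) : ℤ) - B * D, (j : ℤ) - B * D, (k : ℤ) - B * D] ∧
    tip (1, ![(i : ℤ) - B * D, (j : ℤ) - B * D, (k : ℤ) - B * D]) =
      ![(i : ℤ) - B * D, ((j + 1 : ℕ) : ℤ) - B * D, (k : ℤ) - B * D] ∧
    tip (2, ![(i : ℤ) - B * D, (j : ℤ) - B * D, (k : ℤ) - B * D]) =
      ![(i : ℤ) - B * D, (j : ℤ) - B * D, ((k + 1 : ℕ) : ℤ) - B * D] := by
  refine ⟨?_, ?_, ?_⟩ <;> funext x <;> fin_cases x <;> simp [tip, Matrix.vecHead, Matrix.vecTail] <;> ring

lemma dl3_seg {D M : ℕ} (hD : 0 < D) (hM : 0 < M) (B i j k t : ℕ) (ht : t ≤ M) :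
    gp (D * M) B (i * M + t) (j * M) (k * M) ∈
      seg D (0, ![(i : ℤ) - B * D, (j : ℤ) - B * D, (k : ℤ) - B * D]) ∧
    gp (D * M) B (i * M) (j * M + t) (k * M) ∈
      seg D (1, ![(i : ℤ) - B * D, (j : ℤ) - B * D, (k : ℤ) - B * D]) ∧
    gp (D * M) B (i * M) (j * M) (k * M + t) ∈
      seg D (2, ![(i : ℤ) - B * D, (j : ℤ) - B * D, (k : ℤ) - B * D]) := by
  have h2 : (0 : ℝ) < M := by positivity
  have h3 : (t : ℝ) / M ≤ 1 := (div_le_one h2).2 (by exact_mod_cast ht)
  obtain ⟨t0, t1, t2⟩ := dl3_tip B D i j k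
  simp only [seg, t0, t1, t2]
  refine ⟨?_, ?_, ?_⟩ <;>
  · refine ⟨1 - (t : ℝ) / M, (t : ℝ) / M, by linarith, by positivity, by ring, ?_⟩
    funext x
    fin_cases x <;> simp [pt, gp, dl3_gx0 hD hM, dl3_gx hD hM, -mul_eq_mul_left_iff,
      -add_right_inj] <;> ring

theorem p_DL3 (hDL3A : S_DL3A) :
    S_DL3 := by
  rintro α D M B ℓ hD hM hc hs ⟨h, hh⟩
  set V : (Fin 3 → ℤ) → ZMod 2 := fun k =>
    vert α (D * M) B ((k 0 + B * D).toNat * M) ((k 1 + B * D).toNat * M) ((k 2 + B * D).toNat * M) +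
      h (gp (D * M) B ((k 0 + B * D).toNat * M) ((k 1 + B * D).toNat * M) 0) with hV
  have hV' : ∀ i j k : ℕ, V ![(i : ℤ) - B * D, (j : ℤ) - B * D, (k : ℤ) - B * D] =
      vert α (D * M) B (i * M) (j * M) (k * M) + h (gp (D * M) B (i * M) (j * M) 0) := by
    intro i j k
    simp only [hV, Matrix.cons_val_zero, Matrix.cons_val_one, Matrix.cons_val, sub_add_cancel,
      Int.toNat_natCast]
  have bot : CocOn {a | a 2 = -(B : ℝ)} α := fun a ha b hb d hd => by
    rw [hh a b ha hb, hh b d hb hd, hh a d ha hd]; ring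
  have g0 : ∀ i j, gp (D * M) B i j 0 ∈ {a : Fin 3 → ℝ | a 2 = -(B : ℝ)} := fun i j => by
    simp [gp, gx]
  have edge : ∀ e ∈ ℓ.support, ev (pr α (cz 2 (curt0 D e))) (box (D * M) B) =
      α (pt D e.2) (pt D (tip e)) + (V (tip e) - V e.2) := by
    rintro ⟨d, n⟩ he
    obtain ⟨hb, hco⟩ := hs _ he
    have ex : ∀ x, ∃ i : ℕ, i < 2 * B * D ∧ n x = (i : ℤ) - B * D := fun x => by
      have := hb x
      refine ⟨(n x + B * D).toNat, ?_, by simp only at this; omega⟩
      zify
      rw [Int.toNat_of_nonneg (by simp only at this; omega)]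
      simp only at this
      linarith [this.2]
    obtain ⟨i, hi, ei⟩ := ex 0
    obtain ⟨j, hj, ej⟩ := ex 1
    obtain ⟨k, hk, ek⟩ := ex 2
    obtain rfl : n = ![(i : ℤ) - B * D, (j : ℤ) - B * D, (k : ℤ) - B * D] := by
      funext x; fin_cases x <;> simp [ei, ej, ek]
    obtain ⟨a0, a1⟩ := hDL3A α D M B i j k hD hM hi hj hk
    obtain ⟨t0, t1, t2⟩ := dl3_tip B D i j k
    rw [CharTwo.sub_eq_add (V _)]
    have hd : d = 0 ∨ d = 1 ∨ d = 2 := by fin_cases d <;> simp
    rcases hd with rfl | rfl | rfl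
    · have b1 := dl3_tel hco (fun t => gp (D * M) B (i * M + t) (j * M) (k * M)) M
        fun t ht => (dl3_seg hD hM B i j k t ht).1
      have b2 := dl3_tel bot (fun t => gp (D * M) B (i * M + t) (j * M) 0) M fun t _ => g0 _ _
      rw [hh _ _ (g0 _ _) (g0 _ _), CharTwo.sub_eq_add (h _)] at b2
      rw [a0, t0, hV', hV', dl3_pt hD hM, dl3_pt hD hM, Finset.sum_add_distrib]
      simp only [add_assoc (i * M), b1, b2, add_zero, add_mul, one_mul]
      abel
    · have b1 := dl3_tel hco (fun t => gp (D * M) B (i * M) (j * M + t) (k * M)) M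
        fun t ht => (dl3_seg hD hM B i j k t ht).2.1
      have b2 := dl3_tel bot (fun t => gp (D * M) B (i * M) (j * M + t) 0) M fun t _ => g0 _ _
      rw [hh _ _ (g0 _ _) (g0 _ _), CharTwo.sub_eq_add (h _)] at b2
      rw [a1, t1, hV', hV', dl3_pt hD hM, dl3_pt hD hM, Finset.sum_add_distrib]
      simp only [add_assoc (j * M), b1, b2, add_zero, add_mul, one_mul]
      abel
    · have b1 := dl3_tel hco (fun t => gp (D * M) B (i * M) (j * M) (k * M + t)) M
        fun t ht => (dl3_seg hD hM B i j k t ht).2.2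
      have z : ev (pr α (cz 2 (curt0 D (2, ![(i : ℤ) - B * D, (j : ℤ) - B * D, (k : ℤ) - B * D]))))
          (box (D * M) B) = 0 :=
        ch_eq _ 0 (fun l => by
          match l with
          | [] | [_] | [_, _] | [_, _, _] | _ :: _ :: _ :: _ :: _ :: _ => simp [pr]
          | [a, b, c, d] => simp [pr, cz, curt0]) _
      rw [z, t2, hV', hV', dl3_pt hD hM, dl3_pt hD hM]
      simp only [vert, add_mul, one_mul, Finset.sum_range_add, add_assoc (k * M), b1, add_zero]
      generalize α _ _ = x, (∑ t ∈ Finset.range (k * M), _ : ZMod 2) = y, h _ = w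
      revert x y w
      decide
  have cl := congrArg (Int.cast : ℤ → ZMod 2) (hc fun k => ((V k).val : ℤ))
  simp only [Finsupp.sum, Int.cast_sum, Int.cast_mul, Int.cast_sub, Int.cast_natCast,
    ZMod.natCast_zmod_val, Int.cast_zero] at cl
  rw [dl3_lin, Finset.sum_congr rfl fun e he => by rw [edge e he, mul_add],
    Finset.sum_add_distrib, cl, add_zero, Finsupp.sum]

end SDL3

end Pool.Agent.P.MP_c88051_gt.Q1
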