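import Pool.Agent.P.MP_c88051_gt.Q1.IfaceD

/-! Steps LENS, BR0, BRS, BR1, BR2, BR3. -/

set_option autoImplicit false
set_option linter.unusedSectionVars false

namespace Pool.Agent.P.MP_c88051_gt.Q1

section SLENS

open Set Filter Topology Metric AlgebraicTopology Pool.Agent.Lib.Helper83

lemma lens_rel (p : ℕ) [NeZero p] (x y : S3) :
    y.1 = Complex.exp (2 * Real.pi * Complex.I / p) • x.1 ↔ y = gn p x := by
  have : ((ZMod.toCircle (1 : ZMod p) : Circle) : ℂ) =
      Complex.exp (2 * Real.pi * Complex.I / p) := by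
    simpa using ZMod.toCircle_natCast (N := p) 1
  rw [Subtype.ext_iff, gn, sh_val, this]

lemma lens_sh (p : ℕ) [NeZero p] (k : ZMod p) (x : S3) : lq p (sh k x) = lq p x :=
  zmod_ind (P := fun k => lq p (sh k x) = lq p x) (by simp)
    (fun k ih => by
      rw [← gn_sh, ← ih]
      have : lq p (sh k x) = lq p (gn p (sh k x)) := Quot.sound ((lens_rel p _ _).2 rfl)
      exact this.symm) k

lemma lens_iff (p : ℕ) [NeZero p] (x y : S3) : lq p x = lq p y ↔ ∃ k : ZMod p, y = sh k x := by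
  refine ⟨fun h => ?_, fun ⟨k, hk⟩ => by rw [hk, lens_sh]⟩
  have h' := Quot.eq.1 h
  clear h
  induction h' with
  | rel a b h => exact ⟨1, (lens_rel p a b).1 h⟩
  | refl a => exact ⟨0, by simp⟩
  | symm a b _ ih =>
    obtain ⟨k, rfl⟩ := ih
    exact ⟨-k, by simp⟩
  | trans a b c _ _ ih ih' =>
    obtain ⟨k, rfl⟩ := ih
    obtain ⟨l, rfl⟩ := ih'
    exact ⟨l + k, sh_sh _ _ _⟩

lemma lens_open (p : ℕ) [NeZero p] : IsOpenMap (lq p) := fun W hW => by
  have e : lq p ⁻¹' (lq p '' W) = ⋃ k : ZMod p, sh k ⁻¹' W := by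
    ext x
    simp only [mem_preimage, mem_image, mem_iUnion]
    constructor
    · rintro ⟨y, hy, h⟩
      obtain ⟨k, rfl⟩ := (lens_iff p x y).1 h.symm
      exact ⟨k, hy⟩
    · rintro ⟨k, hk⟩
      exact ⟨_, hk, lens_sh p k x⟩
  refine isQuotientMap_quot_mk.isOpen_preimage.1 ?_
  show IsOpen (lq p ⁻¹' (lq p '' W))
  rw [e]
  exact isOpen_iUnion fun k => hW.preimage (continuous_sh k)

theorem p_LENS :
    S_LENS := by
  intro p _
  refine ⟨lens_iff p, lens_open p, fun x => ?_⟩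
  obtain ⟨d, hd, hg⟩ := exists_gap p
  have hi : InjOn (lq p) (ball x (d / 2)) := fun a ha b hb h => by
    obtain ⟨k, rfl⟩ := (lens_iff p a b).1 h
    by_cases hk : k = 0
    · simp [hk]
    · rw [mem_ball] at ha hb
      linarith [hg k hk a, dist_triangle_right (sh k a) a x]
  have hl : LeftInvOn (Function.invFunOn (lq p) (ball x (d / 2))) (lq p) (ball x (d / 2)) :=
    hi.leftInvOn_invFunOn
  exact ⟨ball x (d / 2), _, isOpen_ball, mem_ball_self (half_pos hd),
    ((lens_open p).domRestrict isOpen_ball).continuousOn_image_of_leftInvOn hl, hl⟩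

end SLENS

section SBR0

open Set Filter Topology Metric AlgebraicTopology Pool.Agent.Lib.Helper83

lemma br0_zero {R : Type} [CommRing R] (K : ChainComplex (ModuleCat.{0} R) ℕ) (x : K.X 0) :
    ∃ z, (K.iCycles 0).hom z = x := by
  have h1 : CategoryTheory.CategoryStruct.comp
      (ModuleCat.ofHom (LinearMap.toSpanSingleton R _ x) : ModuleCat.of R R ⟶ K.X 0)
      (K.d 0 0) = 0 := by
    rw [K.shape 0 0 (by simp), CategoryTheory.Limits.comp_zero]
  exact ⟨(K.liftCycles _ 0 (by simp) h1).hom 1,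
    (congrArg (fun f => f.hom (1 : R)) (K.liftCycles_i _ 0 (by simp) h1)).trans (one_smul _ _)⟩

lemma br0_inj {R : Type} [CommRing R] {K L : ChainComplex (ModuleCat.{0} R) ℕ} (φ : K ⟶ L) (n : ℕ)
    (h : Function.Injective (HomologicalComplex.homologyMap φ n).hom) (z : K.cycles n)
    (y : L.X (n + 1)) (hy : (L.d (n + 1) n).hom y = (φ.f n).hom ((K.iCycles n).hom z)) :
    ∃ x, (K.d (n + 1) n).hom x = (K.iCycles n).hom z := by
  refine (pi_eq_zero K n z).1 (h (Eq.trans ?_ (map_zero _).symm))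
  refine (congrArg (fun f => f.hom z) (HomologicalComplex.homologyπ_naturality φ n)).trans ?_
  exact (pi_eq_zero L n _).2 ⟨y, hy.trans
    (congrArg (fun f => f.hom z) (HomologicalComplex.cyclesMap_i φ n)).symm⟩

theorem p_BR0 :
    S_BR0 := by
  rintro F _ M _ _ O i h z hz ⟨e, he, h3⟩
  rcases isEmpty_or_nonempty O with hU | hU
  · rw [isEmpty_coe_sort.1 hU] at hz
    rw [sub_empty hz]
    exact zero_mem _
  let r : M → O := Function.extend Subtype.val id fun _ => Classical.arbitrary O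
  have hr : ∀ x : O, r x = x := fun x => Subtype.val_injective.extend_apply _ _ x
  have cr : ContinuousOn r O := by
    rw [continuousOn_iff_continuous_domRestrict]
    exact continuous_id.congr fun t => (hr t).symm
  have m := push_mem (mapsTo_univ r O) hz
  have b : push (Subtype.val : O → M) (push r z) = z := by
    rw [push_push _ cr hz, push_eq_self (g := Subtype.val ∘ r)
      (fun x hx => congrArg Subtype.val (hr ⟨x, hx⟩)) hz]
  obtain ⟨c, hc⟩ : ∃ c, ((KK F O).iCycles i).hom c = ofCh i (push r z) := by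
    cases i with
    | zero => exact br0_zero _ _
    | succ i =>
      refine exists_cycle _ i _ (toCh_inj i ?_)
      rw [toCh_d, toCh_ofCh m, bd_push cr hz, ← h3, bd_bd, map_zero, map_zero]
  obtain ⟨x, hx⟩ := br0_inj (K := KK F O) (L := KK F M) (SSet.chainComplexMap
    (TopCat.toSSet.map (TopCat.ofHom ⟨Subtype.val, continuous_subtype_val⟩)) _) i h c
    (ofCh (i + 1) e) (toCh_inj i (by
      rw [toCh_d, toCh_ofCh he, toCh_map, hc, toCh_ofCh m, h3]
      exact b.symm))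
  refine ⟨push Subtype.val (toCh (i + 1) x), push_mem (fun x _ => x.2) (toCh_mem _ x), ?_⟩
  rw [bd_push continuous_subtype_val.continuousOn (toCh_mem _ x), ← toCh_d, hx, hc, toCh_ofCh m, b]

end SBR0

section SBRS

open Set Filter Topology Metric AlgebraicTopology Pool.Agent.Lib.Helper83

lemma brs_chart {X : Type} [TopologicalSpace X] {F : Type} [Field F] {ω : Ch F X →ₗ[F] F}
    (h : IsCoc ω univ) (e : OpenPartialHomeomorph X (EV 3)) (he : e.target = univ) :
    ∃ φ, IsPot ω e.source φ := by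
  have h1 : IsCoc (ω ∘ₗ push e.symm) (univ : Set (EV 3)) :=
    h.pull (he ▸ e.continuousOn_symm) (mapsTo_univ _ _)
  obtain ⟨ψ, hψ⟩ := h1.pot_convex convex_univ
  exact ⟨_, hψ.of_pull e.continuousOn (mapsTo_univ _ _) fun x hx => e.left_inv hx⟩

lemma brs_join {X : Type} [TopologicalSpace X] (e : OpenPartialHomeomorph X (EV 3))
    (he : e.target = univ) {w : X} (hw : w ∈ e.source) :
    IsPathConnected (e.source ∩ {w}ᶜ) := by
  have h1 : IsPathConnected ({e w}ᶜ : Set (EV 3)) :=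
    isPathConnected_compl_singleton_of_one_lt_rank (by
      rw [← Module.finrank_eq_rank, finrank_euclideanSpace_fin]
      norm_num) _
  have h2 := h1.image' (f := e.symm) (e.continuousOn_symm.mono (he ▸ subset_univ _))
  convert h2 using 1
  ext x
  constructor
  · rintro ⟨hx, hxw⟩
    exact ⟨e x, fun h => hxw (e.injOn hx hw h), e.left_inv hx⟩
  · rintro ⟨y, hy, rfl⟩
    have hy' : y ∈ e.target := he ▸ mem_univ y
    refine ⟨e.map_target hy', fun h => hy ?_⟩
    rw [mem_singleton_iff, ← mem_singleton_iff.1 h, e.right_inv hy']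

lemma brs_glue {X : Type} [TopologicalSpace X] {F : Type} [Field F] {ω : Ch F X →ₗ[F] F}
    (h : IsCoc ω univ) (e e' : OpenPartialHomeomorph X (EV 3)) (he : e.target = univ)
    (he' : e'.target = univ) {v w : X} (hv : e.source = {v}ᶜ) (hw : e'.source = {w}ᶜ)
    (hvw : w ≠ v) : ∃ φ, IsPot ω univ φ := by
  classical
  have : Nonempty X := ⟨v⟩
  obtain ⟨φ, hφ⟩ := brs_chart h e he
  obtain ⟨ψ, hψ⟩ := brs_chart h e' he'
  have hc := brs_join e he (w := w) (by rw [hv]; exact hvw)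
  rw [← hw] at hc
  obtain ⟨a, ha⟩ := hc.nonempty
  have key : ∀ b ∈ e.source ∩ e'.source, φ b = ψ b + (φ a - ψ a) := fun b hb => by
    have := (hφ.mono inter_subset_left).unique (hψ.mono inter_subset_right)
      (hc.joinedIn a ha b hb)
    linear_combination this
  refine ⟨fun x => if x ∈ e.source then φ x else ψ x + (φ a - ψ a), h.of_local fun x _ => ?_⟩
  by_cases hx : x ∈ e.source
  · refine ⟨e.source, e.open_source, hx, ?_⟩
    rw [univ_inter]
    exact hφ.congr 0 fun y hy => by rw [if_pos hy, add_zero]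
  · refine ⟨e'.source, e'.open_source, ?_, ?_⟩
    · rw [hv, notMem_compl_iff, mem_singleton_iff] at hx
      rw [hw, hx]
      exact hvw.symm
    · rw [univ_inter]
      refine hψ.congr (φ a - ψ a) fun y hy => ?_
      by_cases h1 : y ∈ e.source
      · rw [if_pos h1, key y ⟨h1, hy⟩]
      · rw [if_neg h1]

lemma brs_gen {E : Type} [NormedAddCommGroup E] [InnerProductSpace ℝ E]
    (hE : Module.finrank ℝ E = 3 + 1) :
    PathConnectedSpace (sphere (0 : E) 1) ∧ LocallyPathConnectedSpace (sphere (0 : E) 1) ∧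
      ∀ (F : Type) [Field F] (ω : Ch F (sphere (0 : E) 1) →ₗ[F] F), IsCoc ω univ →
        ∃ φ, IsPot ω univ φ := by
  have : Fact (Module.finrank ℝ E = 3 + 1) := ⟨hE⟩
  have : FiniteDimensional ℝ E := .of_fact_finrank_eq_succ 3
  have h1 : IsPathConnected (sphere (0 : E) 1) := isPathConnected_sphere (by
    rw [← Module.finrank_eq_rank, hE]
    norm_num) _ zero_le_one
  refine ⟨isPathConnected_iff_pathConnectedSpace.1 h1,
    ChartedSpace.locallyPathConnectedSpace (EV 3) _, fun F _ ω h => ?_⟩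
  obtain ⟨z, hz⟩ := h1.nonempty
  exact brs_glue h (stereographic' 3 ⟨z, hz⟩) (stereographic' 3 (-⟨z, hz⟩))
    (stereographic'_target _) (stereographic'_target _) (stereographic'_source _)
    (stereographic'_source _) (ne_neg_of_mem_unit_sphere ℝ _).symm

theorem p_BRS :
    S_BRS := by
  let _ : InnerProductSpace ℝ E2 := InnerProductSpace.complexToReal
  exact brs_gen (E := E2) (by
    have := finrank_real_of_complex E2
    simpa using this)

end SBRS

section SBR1

open Set Filter Topology Metric AlgebraicTopology Pool.Agent.Lib.Helper83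

theorem p_BR1 (hLENS : S_LENS) (hBRS : S_BRS) :
    S_BR1 := by
  classical
  intro p _ F _ O hO hH Q hQ hI x hx y hy hQx
  obtain ⟨h1, h2, -⟩ := hLENS p
  have := hBRS.1
  have hc : Continuous (lq p) := continuous_quot_mk
  have hm : MapsTo (gn p) (lq p ⁻¹' O) (lq p ⁻¹' O) := fun z hz => by
    show lq p (gn p z) ∈ O
    rwa [← (h1 z (gn p z)).2 ⟨1, rfl⟩]
  let q : Lens p → F := fun w => if ∃ z, lq p z = w ∧ Q z then 1 else 0
  have hq : ∀ z ∈ lq p ⁻¹' O, q (lq p z) = if Q z then 1 else 0 := fun z hz => by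
    refine if_congr ⟨?_, fun h => ⟨z, rfl, h⟩⟩ rfl rfl
    rintro ⟨z', e, h⟩
    obtain ⟨k, rfl⟩ := (h1 z z').1 e.symm
    rwa [inv_sh hm hI k hz] at h
  have hl : ∀ w ∈ O, ∀ᶠ w' in 𝓝 w, q w' = q w := fun w hw => by
    obtain ⟨z, rfl⟩ : ∃ z, lq p z = w := Quot.exists_rep w
    have h3 := hQ z hw
    rw [(hO.preimage hc).nhdsWithin_eq hw] at h3
    filter_upwards [h2.image_mem_nhds (h3.and ((hO.preimage hc).mem_nhds hw))]
    rintro _ ⟨z', h4, rfl⟩
    rw [hq z' h4.2, hq z hw, h4.1]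
  obtain ⟨γ⟩ := PathConnectedSpace.joined x y
  have hb := bd_edge (R := F) (hc.comp γ.continuous_extend).continuousOn
  simp only [Function.comp_apply, Path.extend_one, Path.extend_zero] at hb
  obtain ⟨e, he, h5⟩ := hH _ (sub_mem (pt_mem hy) (pt_mem hx))
    ⟨_, edge_mem (mapsTo_univ _ _), hb⟩
  have h6 := sub_eq (ev q ∘ₗ bd) (0 : Ch F (Lens p) →ₗ[F] F) (fun s hs => by
    have : IsLocallyConstant fun t => q (s t) :=
      (IsLocallyConstant.iff_eventually_eq _).2 fun t =>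
        s.continuous.continuousAt.eventually (hl _ (hs t))
    rw [LinearMap.comp_apply, bd_two, map_sub, ev_pt, ev_pt, LinearMap.zero_apply, sub_eq_zero]
    exact this.apply_eq_of_preconnectedSpace _ _) he
  rw [LinearMap.comp_apply, h5, map_sub, ev_pt, ev_pt, hq y hy, hq x hx, if_pos hQx] at h6
  by_contra hn
  simp [hn] at h6

end SBR1

section SBR2

open Set Filter Topology Metric AlgebraicTopology Pool.Agent.Lib.Helper83

/-- A form vanishing on an intersection can be corrected to vanish on the second space. -/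
lemma br2_ext {F V : Type} [Field F] [AddCommGroup V] [Module F V] (A B : Submodule F V)
    (ω : V →ₗ[F] F) (h : ∀ z ∈ A, z ∈ B → ω z = 0) :
    ∃ Φ : V →ₗ[F] F, (∀ z ∈ A, Φ z = ω z) ∧ ∀ z ∈ B, Φ z = 0 := by
  have h1 : ω ∈ (A ⊓ B).dualAnnihilator :=
    (Submodule.mem_dualAnnihilator _).2 fun z hz => h z hz.1 hz.2
  rw [Subspace.dualAnnihilator_inf_eq] at h1
  obtain ⟨α, hα, β, hβ, e⟩ := Submodule.mem_sup.1 h1
  refine ⟨β, fun z hz => ?_, (Submodule.mem_dualAnnihilator _).1 hβ⟩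
  rw [← e, LinearMap.add_apply, (Submodule.mem_dualAnnihilator _).1 hα z hz, zero_add]

theorem p_BR2 (hLENS : S_LENS) (hBRS : S_BRS) :
    S_BR2 := by
  intro p _ F _ O hO hH c hc hi
  obtain ⟨L1, L2, L3⟩ := hLENS p
  obtain ⟨B1, B2, B3⟩ := hBRS
  have cl : Continuous (lq p) := continuous_quot_mk
  have ls : ∀ (k : ZMod p) x, lq p (sh k x) = lq p x := fun k x => ((L1 x _).2 ⟨k, rfl⟩).symm
  have lg : lq p ∘ gn p = lq p := funext fun x => ls 1 x
  have hO' : IsOpen (lq p ⁻¹' O) := hO.preimage cl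
  have mg : MapsTo (gn p) (lq p ⁻¹' O) (lq p ⁻¹' O) := fun x hx => by
    show lq p (sh 1 x) ∈ O
    rw [ls]; exact hx
  rcases (lq p ⁻¹' O).eq_empty_or_nonempty with e | ⟨x₀, hx₀⟩
  · rw [e]
    exact ⟨0, 0, fun _ h => h.elim, fun _ h => h.elim⟩
  have loc : ∀ x : lq p ⁻¹' O, ∃ (m : Set S3) (j : Lens p → S3), IsOpen m ∧ x.1 ∈ m ∧
      m ⊆ lq p ⁻¹' O ∧ CocOn m c ∧ ∀ y ∈ m, j (lq p y) = y := by
    intro x
    obtain ⟨n, j, h1, h2, -, h3⟩ := L3 x
    obtain ⟨n', h4, h5⟩ := hc x x.2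
    rw [hO'.nhdsWithin_eq x.2] at h4
    obtain ⟨m, m1, m2, m3⟩ := _root_.mem_nhds_iff.1
      (inter_mem (inter_mem (h1.mem_nhds h2) h4) (hO'.mem_nhds x.2))
    exact ⟨m, j, m2, m3, fun y hy => (m1 hy).2, h5.mono fun y hy => (m1 hy).1.2,
      fun y hy => h3 y (m1 hy).1.1⟩
  choose m j m1 m2 m3 m4 m5 using loc
  have : Nonempty (lq p ⁻¹' O) := ⟨⟨x₀, hx₀⟩⟩
  have : Nonempty (Lens p) := ⟨lq p x₀⟩
  obtain ⟨ω, w1, w2⟩ := exists_coc (R := F) (S := O) (N := fun x => lq p '' m x)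
    (fun x => L2 _ (m1 x)) (fun w hw => by
      obtain ⟨x, rfl⟩ := Quot.exists_rep w
      exact mem_iUnion.2 ⟨⟨x, hw⟩, x, m2 _, rfl⟩) (fun x w => c x (j x w)) (by
      rintro x x' w ⟨⟨-, a, ha, rfl⟩, a', ha', e⟩
      obtain ⟨k, rfl⟩ := (L1 a a').1 e.symm
      have hV : lq p '' (m x ∩ sh k ⁻¹' m x') ∈ 𝓝 (lq p a) :=
        (L2 _ ((m1 x).inter ((m1 x').preimage (continuous_sh k)))).mem_nhds ⟨a, ⟨ha, ha'⟩, rfl⟩
      filter_upwards [nhdsWithin_le_nhds hV]
      rintro _ ⟨y, ⟨hy, hy'⟩, rfl⟩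
      have e1 : j x' (lq p y) = sh k y := by rw [← ls k y, m5 x' _ hy']
      have e2 : j x' (lq p a) = sh k a := by rw [← ls k a, m5 x' _ ha']
      have e3 := (m4 x).sub (m2 x) ha hy
      have e4 := (m4 x').sub (m2 x') ha' hy'
      rw [hi.sh mg k (m3 x ha) (m3 x hy)] at e4
      rw [e1, e2, m5 x y hy, m5 x a ha]
      linear_combination e4 - e3)
  obtain ⟨Φ, f1, f2⟩ := br2_ext (sub F O 2) (Bd F univ 2) ω fun z h1 h2 => w1.of_Bd (hH z h1 h2)
  have f3 : IsCoc Φ univ := fun e he => f2 _ (bd_mem_Bd he)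
  obtain ⟨h, hh⟩ := B3 F _ (f3.pull cl.continuousOn (mapsTo_univ _ univ))
  have hg : IsPot (Φ ∘ₗ push (lq p)) univ (h ∘ gn p) := fun z hz => by
    rw [← hh.pull continuous_gn.continuousOn (mapsTo_univ _ univ) z hz]
    simp only [LinearMap.comp_apply]
    rw [push_push _ continuous_gn.continuousOn hz, lg]
  refine ⟨h, h (gn p x₀) - h x₀, fun x hx => ?_, fun x _ => ?_⟩
  · obtain ⟨n, ⟨n1, n2⟩, n3⟩ := (LocallyPathConnectedSpace.path_connected_basis x).mem_iff.1
      ((m1 ⟨x, hx⟩).mem_nhds (m2 _))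
    refine ⟨n, nhdsWithin_le_nhds n1, fun a ha b hb => ?_⟩
    have q1 : IsPot Φ (O ∩ lq p '' m ⟨x, hx⟩) fun w => c x (j ⟨x, hx⟩ w) := fun z hz => by
      rw [f1 z (sub_mono inter_subset_left hz)]
      exact w2 ⟨x, hx⟩ z hz
    have q2 := q1.pull (T := n) cl.continuousOn fun y hy => ⟨m3 _ (n3 hy), y, n3 hy, rfl⟩
    have q3 := (hh.mono (subset_univ n)).unique q2 (n2.joinedIn a ha b hb)
    rw [q3, (m4 ⟨x, hx⟩).sub (m2 _) (n3 ha) (n3 hb)]
    simp only [Function.comp_apply, m5 _ a (n3 ha), m5 _ b (n3 hb)]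
  · have := hh.unique hg (joinedIn_univ.2 (PathConnectedSpace.joined x₀ x))
    simp only [Function.comp_apply] at this
    linear_combination -this

end SBR2

section SBR3

open Set Filter Topology Metric AlgebraicTopology Pool.Agent.Lib.Helper83

theorem p_BR3 (hLENS : S_LENS) :
    S_BR3 := by
  intro p _ C hC x hx n hn
  obtain ⟨-, h2, h3⟩ := hLENS p
  obtain ⟨n0, j, o1, o2, o3, o4⟩ := h3 x
  have hq : Continuous (lq p) := continuous_quot_mk
  have hW : IsOpen (interior n ∩ n0) := isOpen_interior.inter o1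
  have xW : x ∈ interior n ∩ n0 := ⟨mem_interior_iff_mem_nhds.2 hn, o2⟩
  obtain ⟨t, t1, t2, t3⟩ := locallyConnectedSpace_iff_connected_subsets.1 hC ⟨lq p x, hx⟩
    (Subtype.val ⁻¹' (lq p '' (interior n ∩ n0)))
    (((h2 _ hW).preimage continuous_subtype_val).mem_nhds (mem_image_of_mem _ xW))
  have s1 : Subtype.val '' t ⊆ lq p '' (interior n ∩ n0) := image_subset_iff.2 t3
  refine ⟨j '' (Subtype.val '' t), ?_, ?_, (t2.image _ continuous_subtype_val.continuousOn).image _
    (o3.mono (s1.trans (image_mono inter_subset_right)))⟩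
  · have a1 : Subtype.val '' t ∈ 𝓝[C] lq p x := by
      rw [← map_nhds_subtype_val (⟨lq p x, hx⟩ : C)]
      exact image_mem_map t1
    have a2 : lq p ⁻¹' (Subtype.val '' t) ∈ 𝓝[lq p ⁻¹' C] x :=
      hq.continuousWithinAt.preimage_mem_nhdsWithin' (nhdsWithin_mono _ (image_preimage_subset _ _) a1)
    filter_upwards [a2, nhdsWithin_le_nhds (o1.mem_nhds o2)] with y y1 y2
    exact ⟨_, y1, o4 y y2⟩
  · rintro _ ⟨z, hz, rfl⟩
    obtain ⟨y, hy, rfl⟩ := s1 hz
    obtain ⟨w, -, e⟩ := hz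
    rw [o4 y hy.2]
    exact ⟨interior_subset hy.1, show lq p y ∈ C from e ▸ w.2⟩

end SBR3

end Pool.Agent.P.MP_c88051_gt.Q1
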